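import Pool.Agent.Singer.Ord.Defs
import Pool.Agent.Singer.Sphere
import Pool.Agent.Singer.P2c

/-!
# Singer/Ord: cellular complexes of posets whose intervals are spheres

`gor_of_int`: if the order complexes of all open intervals are homology spheres, then the poset satisfies `Gor`: the
cellular complexes of the closed intervals are exact in characteristic two, the poset is thin, and it satisfies the Euler
relation.
-/

set_option autoImplicit false
set_option linter.unusedSectionVars false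
set_option linter.unusedVariables false

namespace Singer
namespace Ord

universe u

/-! ### Coefficients -/

section coef
variable {V : Type*} [DecidableEq V] {ρ : V → ℕ}

theorem cast_sdl (c : Finset V → ℤ) (T : Finset V) :
    Singer.dl ρ (fun S => ((c S : ℤ) : ZMod 2)) T = ((Singer.dl ρ c T : ℤ) : ZMod 2) := by
  unfold Singer.dl
  rw [Int.cast_sum]
  refine Finset.sum_congr rfl fun v _ => ?_
  rw [zsmul_eq_mul, smul_eq_mul, Int.cast_mul]

theorem acy_two (hρ : Function.Injective ρ) {D : Set (Finset V)} (hD : Cvx D) (h : Acy ℤ ρ D) : Acy (ZMod 2) ρ D := by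
  intro c hc hd
  have hc1 : ∀ S, ∃ a : ℤ, ((a : ℤ) : ZMod 2) = c S ∧ (S ∉ D → a = 0) := by
    intro S
    by_cases hS : S ∈ D
    · obtain ⟨a, ha⟩ := ZMod.intCast_surjective (c S)
      exact ⟨a, ha, fun h1 => absurd hS h1⟩
    · exact ⟨0, by rw [hc S hS, Int.cast_zero], fun _ => rfl⟩
  choose c' hc' hc0 using hc1
  have hb1 : ∀ T, ∃ b : ℤ, (T ∈ D → Singer.dl ρ c' T = 2 * b) ∧ (T ∉ D → b = 0) := by
    intro T
    by_cases hT : T ∈ D
    · have h1 : ((Singer.dl ρ c' T : ℤ) : ZMod 2) = 0 := by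
        rw [← cast_sdl]
        rw [← hd T hT]
        exact dl_congr fun S _ _ => hc' S
      have h2 : ((2 : ℕ) : ℤ) ∣ Singer.dl ρ c' T := (ZMod.intCast_zmod_eq_zero_iff_dvd _ 2).1 h1
      obtain ⟨b, hb⟩ := h2
      exact ⟨b, fun _ => by exact_mod_cast hb, fun h3 => absurd hT h3⟩
    · exact ⟨0, fun h1 => absurd h1 hT, fun _ => rfl⟩
  choose b hb hb0 using hb1
  have hbd : ∀ T ∈ D, Singer.dl ρ b T = 0 := by
    intro T hT
    have h1 : Singer.dl ρ (rst D (Singer.dl ρ c')) T = 0 := dl_rst_dl hρ hD hc0 hT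
    have h2 : Singer.dl ρ (rst D (Singer.dl ρ c')) T = 2 * Singer.dl ρ b T := by
      unfold Singer.dl
      rw [Finset.mul_sum]
      refine Finset.sum_congr rfl fun v _ => ?_
      by_cases h3 : T.erase v ∈ D
      · rw [rst_mem h3]
        have h4 := hb _ h3
        unfold Singer.dl at h4
        rw [h4, smul_eq_mul, smul_eq_mul]
        ring
      · rw [rst_not h3, hb0 _ h3, smul_zero, mul_zero]
    rw [h2] at h1
    omega
  obtain ⟨e, he, hde⟩ := h b hb0 hbd
  obtain ⟨g, hg, hdg⟩ := h (fun S => c' S - (e S + e S)) (fun S hS => by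
      rw [hc0 S hS, he S hS]
      rfl) fun T hT => by
    rw [dl_sub, dl_add, hde T hT, hb T hT]
    ring
  refine ⟨fun S => ((g S : ℤ) : ZMod 2), fun S hS => by
    dsimp only
    rw [hg S hS, Int.cast_zero], fun T hT => ?_⟩
  rw [cast_sdl, hdg T hT, Int.cast_sub, Int.cast_add, hc']
  have h2 : ((e T : ℤ) : ZMod 2) + ((e T : ℤ) : ZMod 2) = 0 := CharTwo.add_self_eq_zero _
  rw [h2, sub_zero]

/-- vector spaces over the field with two elements as coefficients -/
theorem acy_of_two [Fintype V] {M : Type*} [AddCommGroup M] [Module (ZMod 2) M] {D : Set (Finset V)}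
    (h : Acy (ZMod 2) ρ D) : Acy M ρ D := by
  classical
  intro c hc hd
  let N : Submodule (ZMod 2) M := Submodule.span (ZMod 2) (Set.range c)
  have hN : Module.Finite (ZMod 2) N := by
    have : Finite (Finset V) := inferInstance
    exact Module.Finite.span_of_finite (ZMod 2) (Set.finite_range c)
  let b := Module.Free.chooseBasis (ZMod 2) N
  let c' : Finset V → N := fun S => ⟨c S, Submodule.subset_span ⟨S, rfl⟩⟩
  have hdc : ∀ T, ((Singer.dl ρ c' T : N) : M) = Singer.dl ρ c T := by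
    intro T
    unfold Singer.dl
    rw [AddSubmonoidClass.coe_finsetSum]
    rfl
  have hrep : ∀ i T, Singer.dl ρ (fun S => b.repr (c' S) i) T = b.repr (Singer.dl ρ c' T) i := by
    intro i T
    unfold Singer.dl
    rw [map_sum, Finsupp.finsetSum_apply]
    refine Finset.sum_congr rfl fun v _ => ?_
    rw [map_zsmul]
    rfl
  have h1 : ∀ i, ∃ e : Finset V → ZMod 2, (∀ S, S ∉ D → e S = 0) ∧ ∀ T ∈ D, Singer.dl ρ e T = b.repr (c' T) i := by
    intro i
    refine h (fun S => b.repr (c' S) i) (fun S hS => ?_) fun T hT => ?_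
    · have h2 : c' S = 0 := Subtype.ext (hc S hS)
      rw [h2, map_zero]
      rfl
    · have h2 : Singer.dl ρ c' T = 0 := Subtype.ext ((hdc T).trans (hd T hT))
      rw [hrep, h2, map_zero]
      rfl
  choose e he hde using h1
  refine ⟨fun S => ∑ i, e i S • (b i : M), fun S hS => ?_, fun T hT => ?_⟩
  · refine Finset.sum_eq_zero fun i _ => ?_
    rw [he i S hS, zero_smul]
  · have h2 : Singer.dl ρ (fun S => ∑ i, e i S • (b i : M)) T = ∑ i, Singer.dl ρ (e i) T • (b i : M) := by
      unfold Singer.dl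
      simp only [Finset.smul_sum, Finset.sum_smul]
      rw [Finset.sum_comm]
      refine Finset.sum_congr rfl fun i _ => Finset.sum_congr rfl fun v _ => ?_
      rw [smul_assoc]
    rw [h2]
    have h3 : ∑ i, Singer.dl ρ (e i) T • (b i : M) = ((∑ i, b.repr (c' T) i • b i : N) : M) := by
      rw [AddSubmonoidClass.coe_finsetSum]
      refine Finset.sum_congr rfl fun i _ => ?_
      rw [hde i T hT]
      rfl
    rw [h3, b.sum_repr]

theorem acy_charTwo [Fintype V] (hρ : Function.Injective ρ) {D : Set (Finset V)} (hD : Cvx D) (h : Acy ℤ ρ D)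
    (F : Type*) [Field F] [CharP F 2] : Acy F ρ D := by
  let _ : Algebra (ZMod 2) F := ZMod.algebra F 2
  exact acy_of_two (acy_two hρ hD h)

end coef

/-! ### The cellular complex of a closed interval -/

section rows
variable {P : Type} [Fintype P] [PartialOrder P] {r : P → ℕ} {F : Type} [Field F]

/-- exactness of the cellular complex of the interval `[p, q]` -/
def RowEx (F : Type) [Field F] (r : P → ℕ) (p q : P) : Prop :=
  ∀ j, ∀ f : P → F, (∀ t, p ≤ t → t ≤ q → r t + 1 = j → dl r q f t = 0) →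
    ∃ g : P → F, ∀ s, p ≤ s → s ≤ q → r s = j → dl r q g s = f s

open Classical in
theorem dl_dl_zero [CharP F 2] (hr : StrictMono r)
    (thin : ∀ z y, z < y → r y = r z + 2 → ∃ u u', u ≠ u' ∧ ∀ w, (z < w ∧ w < y) ↔ (w = u ∨ w = u'))
    (q : P) (f : P → F) (z : P) : dl r q (fun s => dl r q f s) z = 0 := by
  unfold dl
  rw [Finset.sum_comm' (t' := Finset.univ.filter fun y => z < y ∧ y ≤ q ∧ r y = r z + 2)
    (s' := fun y => Finset.univ.filter fun s => z < s ∧ s < y)]
  · refine Finset.sum_eq_zero fun y hy => ?_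
    obtain ⟨hzy, hyq, hry⟩ := (Finset.mem_filter.1 hy).2
    obtain ⟨u, u', huu, hu⟩ := thin z y hzy hry
    have h1 : (Finset.univ.filter fun s => z < s ∧ s < y) = {u, u'} := by
      ext w
      rw [Finset.mem_filter, Finset.mem_insert, Finset.mem_singleton]
      exact ⟨fun h => (hu w).1 h.2, fun h => ⟨Finset.mem_univ w, (hu w).2 h⟩⟩
    rw [h1, Finset.sum_pair huu]
    exact CharTwo.add_self_eq_zero _
  · intro s y
    simp only [Finset.mem_filter, Finset.mem_univ, true_and]
    constructor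
    · rintro ⟨⟨h1, h2, h3⟩, h4, h5, h6⟩
      exact ⟨⟨h1, h4⟩, h1.trans h4, h5, by omega⟩
    · rintro ⟨⟨h1, h2⟩, h3, h4, h5⟩
      have h6 := hr h1
      have h7 := hr h2
      exact ⟨⟨h1, h2.le.trans h4, by omega⟩, h2, h4, by omega⟩

open Classical in
theorem dl_ext {q : P} {f g : P → F} {t : P} (h : ∀ s, t < s → s ≤ q → r s = r t + 1 → f s = g s) :
    dl r q f t = dl r q g t := by
  unfold dl
  refine Finset.sum_congr rfl fun s hs => ?_
  obtain ⟨h1, h2, h3⟩ := (Finset.mem_filter.1 hs).2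
  exact h s h1 h2 h3

open Classical in
theorem dl_single {q : P} {f : P → F} {p a : P} (hpa : p < a) (haq : a ≤ q) (hra : r a = r p + 1)
    (h : ∀ s, p < s → s ≤ q → r s = r p + 1 → s ≠ a → f s = 0) : dl r q f p = f a := by
  unfold dl
  rw [Finset.sum_eq_single_of_mem a (Finset.mem_filter.2 ⟨Finset.mem_univ a, hpa, haq, hra⟩)]
  intro s hs hsa
  obtain ⟨h4, h5, h6⟩ := (Finset.mem_filter.1 hs).2
  exact h s h4 h5 h6 hsa

variable [DecidableEq P] {ρ : P → ℕ}

/-- the chains of the interval `(p, q)` which do not contain `a` -/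
def chK (p q a : P) : Set (Finset P) :=
  {c | (∀ x ∈ c, p < x ∧ x < q ∧ x ≠ a) ∧ ∀ x ∈ c, ∀ y ∈ c, x ≠ y → x < y ∨ y < x}

theorem chK_sub {p q a : P} {c c' : Finset P} (h : c ∈ chK p q a) (h' : c' ⊆ c) : c' ∈ chK p q a :=
  ⟨fun x hx => h.1 x (h' hx), fun x hx y hy => h.2 x (h' hx) y (h' hy)⟩

/-- a nonempty chain has a largest element -/
theorem chK_max {p q a : P} {c : Finset P} (h : c ∈ chK p q a) (hc : c.Nonempty) : ∃ x ∈ c, ∀ y ∈ c, y ≤ x := by
  obtain ⟨x, hx, hm⟩ := c.exists_maximal hc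
  refine ⟨x, hx, fun y hy => ?_⟩
  by_cases hxy : y = x
  · exact hxy.le
  · rcases h.2 y hy x hx hxy with h1 | h1
    · exact h1.le
    · exact absurd h1 (not_lt_of_ge (hm hy h1.le))

theorem sdl_sum {A : Type*} (S : Finset A) (Φ : Finset P → A → F) (c : Finset P) :
    Singer.dl ρ (fun c' => ∑ s ∈ S, Φ c' s) c = ∑ s ∈ S, Singer.dl ρ (fun c' => Φ c' s) c := by
  unfold Singer.dl
  simp only [Finset.smul_sum]
  exact Finset.sum_comm

/-- the cellular and the simplicial differential commute -/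
theorem sdl_dl (q : P) (Φ : Finset P → P → F) (c : Finset P) (t : P) :
    Singer.dl ρ (fun c' => dl r q (Φ c') t) c = dl r q (fun s => Singer.dl ρ (fun c' => Φ c' s) c) t := by
  unfold dl
  exact sdl_sum _ _ _

theorem dl_zero' (q : P) (t : P) : dl r q (fun _ => (0 : F)) t = 0 := by
  unfold dl
  exact Finset.sum_const_zero

theorem dl_sub' (q : P) (f g : P → F) (t : P) : dl r q (fun s => f s - g s) t = dl r q f t - dl r q g t := by
  unfold dl
  rw [Finset.sum_sub_distrib]

theorem dl_add' (q : P) (f g : P → F) (t : P) : dl r q (fun s => f s + g s) t = dl r q f t + dl r q g t := by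
  unfold dl
  rw [Finset.sum_add_distrib]

theorem sdl_empty (c : Finset P → F) : Singer.dl ρ c ∅ = 0 := by
  unfold Singer.dl
  exact Finset.sum_empty

/-- the data for the induction step -/
structure ColData (F : Type) [Field F] (r ρ : P → ℕ) (p q a : P) : Prop where
  hr : StrictMono r
  dd : ∀ (f : P → F) (z : P), dl r q (fun s => dl r q f s) z = 0
  inj : Function.Injective ρ
  pa : p < a
  ra : r a = r p + 1
  row : ∀ x, p < x → x < q → RowEx F r x q
  sph : Acy F ρ (chK p q a)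

namespace ColData

variable {p q a : P}

theorem up (h : ColData F r ρ p q a) {x t : P} (hx : p < x) (hxa : x ≠ a) (hxt : x ≤ t) : p < t ∧ t ≠ a := by
  refine ⟨hx.trans_le hxt, ?_⟩
  rintro rfl
  have h1 := h.hr hx
  have h2 := h.hr (lt_of_le_of_ne hxt hxa)
  have h3 := h.ra
  omega

theorem sdl_congr_sub {c c' : Finset P → F} {T : Finset P} (h : ∀ S, S ⊆ T → c S = c' S) :
    Singer.dl ρ c T = Singer.dl ρ c' T := dl_congr fun S hS _ => h S hS

/-- exactness of the columns -/
theorem col (h : ColData F r ρ p q a) {t : P} (hpt : p < t) (htq : t ≤ q) (hta : t ≠ a) (Θ : Finset P → F)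
    (hΘ : ∀ c ∈ chK p q a, (∀ x ∈ c, x ≤ t) → Singer.dl ρ Θ c = 0) :
    ∃ H : Finset P → F, ∀ c ∈ chK p q a, (∀ x ∈ c, x ≤ t) → Singer.dl ρ H c = Θ c := by
  have hA : Acy F ρ {c | c ∈ chK p q a ∧ ∀ x ∈ c, x ≤ t} := by
    rcases htq.eq_or_lt with rfl | htq
    · have h1 : {c | c ∈ chK p t a ∧ ∀ x ∈ c, x ≤ t} = chK p t a := by
        ext c
        exact ⟨fun h2 => h2.1, fun h2 => ⟨h2, fun x hx => (h2.1 x hx).2.1.le⟩⟩
      rw [h1]
      exact h.sph
    · refine acy_cone h.inj t fun S hS => ?_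
      constructor
      · rintro ⟨⟨h1, h2⟩, h3⟩
        refine ⟨⟨fun x hx => ?_, fun x hx y hy hxy => ?_⟩, fun x hx => ?_⟩
        · rcases Finset.mem_insert.1 hx with rfl | hx
          · exact ⟨hpt, htq, hta⟩
          · exact h1 x hx
        · rcases Finset.mem_insert.1 hx with hx1 | hx1
          · rcases Finset.mem_insert.1 hy with hy1 | hy1
            · exact absurd (hx1.trans hy1.symm) hxy
            · exact Or.inr (hx1 ▸ lt_of_le_of_ne (h3 y hy1) fun h4 => hxy (hx1.trans h4.symm))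
          · rcases Finset.mem_insert.1 hy with hy1 | hy1
            · exact Or.inl (hy1 ▸ lt_of_le_of_ne (h3 x hx1) fun h4 => hxy (h4.trans hy1.symm))
            · exact h2 x hx1 y hy1 hxy
        · rcases Finset.mem_insert.1 hx with rfl | hx
          · exact le_rfl
          · exact h3 x hx
      · rintro ⟨h1, h2⟩
        exact ⟨chK_sub h1 (Finset.subset_insert _ _), fun x hx => h2 x (Finset.mem_insert_of_mem hx)⟩
  obtain ⟨H, _, hH⟩ := hA (rst {c | c ∈ chK p q a ∧ ∀ x ∈ c, x ≤ t} Θ) (fun S hS => rst_not hS) (by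
    rintro c ⟨hc, hct⟩
    rw [← hΘ c hc hct]
    refine sdl_congr_sub fun S hS => rst_mem ⟨chK_sub hc hS, fun x hx => hct x (hS hx)⟩)
  exact ⟨H, fun c hc hct => by
    rw [hH c ⟨hc, hct⟩]
    exact rst_mem ⟨hc, hct⟩⟩

/-- lifting along the rows -/
theorem lift (h : ColData F r ρ p q a) (j : ℕ) (Θ : Finset P → P → F)
    (hΘ : ∀ c ∈ chK p q a, c.Nonempty → ∀ t, t ≤ q → (∀ x ∈ c, x ≤ t) → r t + 1 = j →
      dl r q (fun s => Singer.dl ρ (fun c' => Θ c' s) c) t = 0) :
    ∃ Ψ : Finset P → P → F, (∀ s, Ψ ∅ s = 0) ∧ ∀ c ∈ chK p q a, ∀ t, p < t → t ≤ q → t ≠ a → (∀ x ∈ c, x ≤ t) →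
      r t = j → dl r q (Ψ c) t = Singer.dl ρ (fun c' => Θ c' t) c := by
  have h1 : ∀ c : Finset P, ∃ g : P → F, (c = ∅ → ∀ s, g s = 0) ∧ (c ∈ chK p q a → ∀ t, p < t → t ≤ q → t ≠ a →
      (∀ x ∈ c, x ≤ t) → r t = j → dl r q g t = Singer.dl ρ (fun c' => Θ c' t) c) := by
    intro c
    rcases c.eq_empty_or_nonempty with rfl | hne
    · exact ⟨fun _ => 0, fun _ _ => rfl, fun _ t _ _ _ _ _ => by rw [dl_zero', sdl_empty]⟩
    · by_cases hc : c ∈ chK p q a
      · obtain ⟨x, hx, hm⟩ := chK_max hc hne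
        obtain ⟨g, hg⟩ := h.row x (hc.1 x hx).1 (hc.1 x hx).2.1 j (fun s => Singer.dl ρ (fun c' => Θ c' s) c)
          (fun t hxt htq hj => hΘ c hc hne t htq (fun y hy => (hm y hy).trans hxt) hj)
        exact ⟨g, fun h2 => absurd h2 hne.ne_empty, fun _ t _ htq _ hct hj => hg t (hct x hx) htq hj⟩
      · exact ⟨fun _ => 0, fun _ _ => rfl, fun h2 => absurd h2 hc⟩
  choose Ψ hΨ0 hΨ using h1
  exact ⟨Ψ, hΨ0 ∅ rfl, fun c hc t h2 h3 h4 h5 h6 => hΨ c hc t h2 h3 h4 h5 h6⟩

/-- the zigzag -/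
theorem zig (h : ColData F r ρ p q a) (N : ℕ) : ∀ j, r q + 1 ≤ j + N → ∀ Φ Ψ : Finset P → P → F, (∀ s, Ψ ∅ s = 0) →
    (∀ c ∈ chK p q a, ∀ t, p < t → t ≤ q → t ≠ a → (∀ x ∈ c, x ≤ t) → r t = j →
      dl r q (Ψ c) t = Singer.dl ρ (fun c' => Φ c' t) c) →
    ∃ H L : Finset P → P → F, ∀ c ∈ chK p q a, ∀ t, p < t → t ≤ q → t ≠ a → (∀ x ∈ c, x ≤ t) → r t = j →
      Φ c t = Singer.dl ρ (fun c' => H c' t) c + dl r q (L c) t := by
  induction N with
  | zero =>
    intro j hj Φ Ψ _ _
    refine ⟨fun _ _ => 0, fun _ _ => 0, fun c _ t _ htq _ _ hrt => ?_⟩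
    have := h.hr.monotone htq
    omega
  | succ N ih =>
    intro j hj Φ Ψ hΨ0 hΨ
    obtain ⟨Ψ', hΨ0', hΨ'⟩ := h.lift (j + 1) Ψ (by
      intro c hc hne t htq hct hrt
      obtain ⟨x, hx⟩ := hne
      obtain ⟨hpt, hta⟩ := h.up (hc.1 x hx).1 (hc.1 x hx).2.2 (hct x hx)
      rw [← sdl_dl, sdl_congr_sub (c' := fun c' => Singer.dl ρ (fun c'' => Φ c'' t) c') fun S hS =>
        hΨ S (chK_sub hc hS) t hpt htq hta (fun y hy => hct y (hS hy)) (by omega)]
      exact dl_dl h.inj _ _)
    obtain ⟨L, L', hL⟩ := ih (j + 1) (by omega) Ψ Ψ' hΨ0' hΨ'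
    have h1 : ∀ t : P, ∃ H : Finset P → F, p < t → t ≤ q → t ≠ a → r t = j → ∀ c ∈ chK p q a, (∀ x ∈ c, x ≤ t) →
        Singer.dl ρ H c = Φ c t - dl r q (L c) t := by
      intro t
      by_cases h2 : p < t ∧ t ≤ q ∧ t ≠ a ∧ r t = j
      · obtain ⟨hpt, htq, hta, hrt⟩ := h2
        obtain ⟨H, hH⟩ := h.col hpt htq hta (fun c => Φ c t - dl r q (L c) t) (by
          intro c hc hct
          rw [dl_sub, ← hΨ c hc t hpt htq hta hct hrt, sdl_dl]
          have h3 : dl r q (Ψ c) t = dl r q (fun s => Singer.dl ρ (fun c' => L c' s) c + dl r q (L' c) s) t := by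
            refine dl_ext fun s hts hsq hrs => ?_
            refine hL c hc s (hpt.trans hts) hsq ?_ (fun x hx => (hct x hx).trans hts.le) (by omega)
            rintro rfl
            have h4 := h.hr hpt
            have h5 := h.ra
            omega
          rw [h3, dl_add', h.dd, add_zero, sub_self])
        exact ⟨H, fun _ _ _ _ => hH⟩
      · exact ⟨fun _ => 0, fun h3 h4 h5 h6 => absurd ⟨h3, h4, h5, h6⟩ h2⟩
    choose H hH using h1
    refine ⟨fun c t => H t c, L, fun c hc t hpt htq hta hct hrt => ?_⟩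
    rw [hH t hpt htq hta hrt c hc hct]
    ring

/-- exactness of the complex of the elements of `(p, q]` which are not equal to `a` -/
theorem rows (h : ColData F r ρ p q a) (j : ℕ) (f : P → F)
    (hf : ∀ t, p < t → t ≤ q → t ≠ a → r t + 1 = j → dl r q f t = 0) :
    ∃ g : P → F, ∀ t, p < t → t ≤ q → t ≠ a → r t = j → dl r q g t = f t := by
  obtain ⟨Ψ, hΨ0, hΨ⟩ := h.lift j (fun c t => if c = ∅ then f t else 0) (by
    intro c hc hne t htq hct hrt
    obtain ⟨x, hx⟩ := hne
    obtain ⟨hpt, hta⟩ := h.up (hc.1 x hx).1 (hc.1 x hx).2.2 (hct x hx)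
    rw [← sdl_dl]
    refine dl_eq_zero fun S _ _ => ?_
    by_cases hS : S = ∅
    · rw [dl_ext (g := f) fun s _ _ _ => if_pos hS]
      exact hf t hpt htq hta hrt
    · rw [dl_ext (g := fun _ => 0) fun s _ _ _ => if_neg hS]
      exact dl_zero' _ _)
  obtain ⟨H, L, hL⟩ := h.zig (r q + 1) j (by omega) (fun c t => if c = ∅ then f t else 0) Ψ hΨ0 hΨ
  refine ⟨L ∅, fun t hpt htq hta hrt => ?_⟩
  have h1 := hL ∅ ⟨fun x hx => absurd hx (Finset.notMem_empty x), fun x hx => absurd hx (Finset.notMem_empty x)⟩ t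
    hpt htq hta (fun x hx => absurd hx (Finset.notMem_empty x)) hrt
  rw [sdl_empty, zero_add, if_pos rfl] at h1
  exact h1.symm

end ColData

end rows

/-! ### Posets whose intervals are spheres -/

section sphere
variable {P : Type} [Fintype P] [PartialOrder P] {r : P → ℕ}

/-- the open intervals are homology spheres -/
def IntS (r : P → ℕ) : Prop := ∀ p q, p < q → ∀ I : Fintype {v // p < v ∧ v < q},
  @GoodQ (fun n {V} [Fintype V] (G : SimpleGraph V) => QS.{0} n G) (r q - r p - 1) {v // p < v ∧ v < q} I Cmp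

theorem thin_of_int (hr : StrictMono r) (h : IntS r) (z y : P) (hzy : z < y) (hr2 : r y = r z + 2) :
    ∃ u u', u ≠ u' ∧ ∀ w, (z < w ∧ w < y) ↔ (w = u ∨ w = u') := by
  classical
  have h1 := h z y hzy inferInstance
  have h2 : r y - r z - 1 = 1 := by omega
  rw [h2] at h1
  obtain ⟨a, b, hab, hc, _⟩ := goodQ_one_pair h1
  refine ⟨a.1, b.1, fun h3 => hab (Subtype.ext h3), fun w => ⟨fun hw => ?_, ?_⟩⟩
  · rcases hc ⟨w, hw⟩ with h3 | h3
    · exact Or.inl (congrArg Subtype.val h3)
    · exact Or.inr (congrArg Subtype.val h3)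
  · rintro (h3 | h3)
    · rw [h3]
      exact a.2
    · rw [h3]
      exact b.2

theorem atom_of_int (hr : StrictMono r) (h : IntS r) {p q : P} (hpq : p < q) : ∃ a, p < a ∧ a ≤ q ∧ r a = r p + 1 := by
  classical
  obtain ⟨a, ha, hm⟩ := (Finset.univ.filter fun x => p < x ∧ x ≤ q).exists_minimal
    ⟨q, Finset.mem_filter.2 ⟨Finset.mem_univ q, hpq, le_rfl⟩⟩
  obtain ⟨hpa, haq⟩ := (Finset.mem_filter.1 ha).2
  refine ⟨a, hpa, haq, ?_⟩
  have h1 := h p a hpa inferInstance
  have h2 := hr hpa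
  have h3 : r a - r p - 1 = 0 := by
    by_contra h4
    obtain ⟨m, hm'⟩ := Nat.exists_eq_succ_of_ne_zero h4
    rw [hm'] at h1
    obtain ⟨v⟩ := (qs_iff.1 h1.1).1
    have h5 := hm (y := v.1) (Finset.mem_filter.2 ⟨Finset.mem_univ _, v.2.1, v.2.2.le.trans haq⟩) v.2.2.le
    exact absurd (v.2.2.trans_le h5) (lt_irrefl _)
  omega

theorem mem_chK_map [DecidableEq P] {p q a : P} (ha : p < a ∧ a < q) (S : Finset {v // p < v ∧ v < q}) :
    S ∈ Clq (Cmp : SimpleGraph {v // p < v ∧ v < q}) {⟨a, ha⟩} ↔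
      S.map (Function.Embedding.subtype _) ∈ chK p q a := by
  constructor
  · rintro ⟨h1, h2⟩
    rw [Finset.disjoint_singleton_right] at h2
    refine ⟨fun x hx => ?_, fun x hx y hy hxy => ?_⟩
    · obtain ⟨x, hx', rfl⟩ := Finset.mem_map.1 hx
      refine ⟨x.2.1, x.2.2, fun h3 => h2 ?_⟩
      have h4 : x = ⟨a, ha⟩ := Subtype.ext h3
      exact h4 ▸ hx'
    · obtain ⟨x, hx', rfl⟩ := Finset.mem_map.1 hx
      obtain ⟨y, hy', rfl⟩ := Finset.mem_map.1 hy
      exact h1 (Finset.mem_coe.2 hx') (Finset.mem_coe.2 hy') fun h3 => hxy (congrArg _ h3)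
  · rintro ⟨h1, h2⟩
    refine ⟨fun x hx y hy hxy => ?_, Finset.disjoint_singleton_right.2 fun h3 => ?_⟩
    · exact h2 x.1 (Finset.mem_map.2 ⟨x, Finset.mem_coe.1 hx, rfl⟩) y.1 (Finset.mem_map.2 ⟨y, Finset.mem_coe.1 hy, rfl⟩)
        fun h3 => hxy (Subtype.ext h3)
    · exact (h1 a (Finset.mem_map.2 ⟨_, h3, rfl⟩)).2.2 rfl

theorem acy_chK [DecidableEq P] (h : IntS r) {p q a : P} (hpa : p < a) (haq : a < q) {ρ : P → ℕ}
    (hρ : Function.Injective ρ) (F : Type) [Field F] [CharP F 2] : Acy F ρ (chK p q a) := by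
  classical
  refine acy_charTwo hρ (cvx_of_lower fun S hS T hT => chK_sub hS hT) ?_ F
  have h1 := h p q (hpa.trans haq) inferInstance
  generalize r q - r p - 1 = n at h1
  cases n with
  | zero =>
    have h2 : IsEmpty {v // p < v ∧ v < q} := h1
    exact (h2.false ⟨a, hpa, haq⟩).elim
  | succ m =>
    have h2 := (qs_iff.1 h1.1).2 {⟨a, hpa, haq⟩} (Finset.singleton_nonempty _) (by simp) (fun v => ρ v.1)
      (hρ.comp Subtype.val_injective)
    refine (acy_pull (r := ρ) (M := ℤ) (Function.Embedding.subtype _) (mem_chK_map ⟨hpa, haq⟩) ?_).1 h2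
    intro S hS x hx
    exact ⟨⟨x, (hS.1 x hx).1, (hS.1 x hx).2.1⟩, rfl⟩

theorem rowEx_of_int (hr : StrictMono r) (h : IntS r) (F : Type) [Field F] [CharP F 2] (q : P) :
    ∀ n p, p < q → r q - r p ≤ n → RowEx F r p q := by
  classical
  intro n
  induction n with
  | zero =>
    intro p hpq hn
    have := hr hpq
    omega
  | succ n ih =>
    intro p hpq hn j f hf
    have thin := thin_of_int hr h
    have dd := fun (f : P → F) (z : P) => dl_dl_zero hr thin q f z
    obtain ⟨a, hpa, haq, hra⟩ := atom_of_int hr h hpq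
    -- exactness away from the atom `a`
    have hU : ∃ g : P → F, ∀ t, p < t → t ≤ q → t ≠ a → r t = j → dl r q g t = f t := by
      rcases haq.eq_or_lt with rfl | haq
      · refine ⟨fun _ => 0, fun t hpt hta hne _ => ?_⟩
        have h1 := hr hpt
        have h2 := hr (lt_of_le_of_ne hta hne)
        omega
      · have hρ : Function.Injective fun x : P => (Fintype.equivFin P x : ℕ) :=
          fun x y hxy => (Fintype.equivFin P).injective (Fin.ext hxy)
        exact ColData.rows (ρ := fun x => (Fintype.equivFin P x : ℕ)) (p := p) (q := q) (a := a) {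
          hr := hr
          dd := dd
          inj := hρ
          pa := hpa
          ra := hra
          row := fun x hpx hxq => ih x hxq (by
            have := hr hpx
            omega)
          sph := acy_chK h hpa haq hρ F } j f fun t h1 h2 _ h3 => hf t h1.le h2 h3
    rcases lt_trichotomy j (r p + 1) with hj | hj | hj
    · -- only `p` itself
      refine ⟨fun s => if s = a then f p else 0, fun s hps hsq hs => ?_⟩
      have hsp : s = p := by
        rcases hps.eq_or_lt with h1 | h1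
        · exact h1.symm
        · have := hr h1
          omega
      subst hsp
      rw [dl_single hpa haq hra fun s' _ _ _ h7 => if_neg h7, if_pos rfl]
    · -- atoms
      obtain ⟨g, hg⟩ := hU
      have h1 : ∀ s, p ≤ s → s ≤ q → r s = j → s ≠ a → dl r q g s = f s := by
        intro s hps hsq hs hsa
        refine hg s (lt_of_le_of_ne hps fun h2 => ?_) hsq hsa hs
        rw [← h2] at hs
        omega
      have h2 : dl r q (fun s => dl r q g s - f s) p = 0 := by
        rw [dl_sub', dd, hf p le_rfl hpq.le hj.symm, sub_zero]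
      have h3 : dl r q (fun s => dl r q g s - f s) p = dl r q g a - f a :=
        dl_single hpa haq hra fun s h4 h5 h6 h7 => by rw [h1 s h4.le h5 (by omega) h7, sub_self]
      refine ⟨g, fun s hps hsq hs => ?_⟩
      by_cases hsa : s = a
      · rw [hsa]
        rw [h2] at h3
        exact sub_eq_zero.1 h3.symm
      · exact h1 s hps hsq hs hsa
    · -- higher ranks
      obtain ⟨g, hg⟩ := hU
      refine ⟨g, fun s hps hsq hs => hg s (lt_of_le_of_ne hps fun h2 => ?_) hsq (fun h2 => ?_) hs⟩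
      · rw [← h2] at hs
        omega
      · rw [h2] at hs
        omega

/-- chains of the open interval -/
def chI (p q : P) (S : Finset P) : Prop :=
  (∀ x ∈ S, p < x ∧ x < q) ∧ ∀ x ∈ S, ∀ y ∈ S, x ≠ y → x < y ∨ y < x

open Classical in
/-- the Euler characteristic of the open interval -/
theorem sum_chI (h : IntS r) {p q : P} (hpq : p < q) :
    ∑ S ∈ Finset.univ.filter (chI p q), (-1 : ℤ) ^ S.card = (-1) ^ (r q - r p - 1) := by
  rw [← euler_goodQ (h p q hpq inferInstance)]
  symm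
  refine Finset.sum_bij (fun S _ => S.map (Function.Embedding.subtype _)) ?_ ?_ ?_ ?_
  · intro S hS
    have hS' := mem_cqs.1 hS
    refine Finset.mem_filter.2 ⟨Finset.mem_univ _, fun x hx => ?_, fun x hx y hy hxy => ?_⟩
    · obtain ⟨x, _, rfl⟩ := Finset.mem_map.1 hx
      exact x.2
    · obtain ⟨x, hx', rfl⟩ := Finset.mem_map.1 hx
      obtain ⟨y, hy', rfl⟩ := Finset.mem_map.1 hy
      exact hS' (Finset.mem_coe.2 hx') (Finset.mem_coe.2 hy') fun h3 => hxy (congrArg _ h3)
  · intro S _ T _ hST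
    exact Finset.map_injective _ hST
  · intro S hS
    obtain ⟨h1, h2⟩ := (Finset.mem_filter.1 hS).2
    refine ⟨S.subtype (fun v => p < v ∧ v < q), mem_cqs.2 fun x hx y hy hxy => ?_, ?_⟩
    · exact h2 x.1 (Finset.mem_subtype.1 (Finset.mem_coe.1 hx)) y.1 (Finset.mem_subtype.1 (Finset.mem_coe.1 hy))
        fun h3 => hxy (Subtype.ext h3)
    · rw [Finset.subtype_map, Finset.filter_eq_self]
      exact h1
  · intro S _
    rw [Finset.card_map]

open Classical in
/-- chains and their largest elements -/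
theorem sum_chI_eq {p q : P} : ∑ S ∈ Finset.univ.filter (chI p q), (-1 : ℤ) ^ S.card =
    1 - ∑ s ∈ Finset.univ.filter (fun s => p < s ∧ s < q), ∑ S ∈ Finset.univ.filter (chI p s), (-1 : ℤ) ^ S.card := by
  have h0 : (∅ : Finset P) ∈ Finset.univ.filter (chI p q) := Finset.mem_filter.2 ⟨Finset.mem_univ _,
    fun x hx => absurd hx (Finset.notMem_empty x), fun x hx => absurd hx (Finset.notMem_empty x)⟩
  rw [← Finset.add_sum_erase _ _ h0, Finset.card_empty, pow_zero, sub_eq_add_neg, ← Finset.sum_neg_distrib]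
  congr 1
  have h1 : ∀ s ∈ Finset.univ.filter (fun s => p < s ∧ s < q), -∑ S ∈ Finset.univ.filter (chI p s), (-1 : ℤ) ^ S.card =
      ∑ S ∈ Finset.univ.filter (chI p s), (-1 : ℤ) ^ (insert s S).card := by
    intro s _
    rw [← Finset.sum_neg_distrib]
    refine Finset.sum_congr rfl fun S hS => ?_
    have hs : s ∉ S := fun h2 => absurd ((Finset.mem_filter.1 hS).2.1 s h2).2 (lt_irrefl s)
    rw [Finset.card_insert_of_notMem hs, pow_succ]
    ring
  rw [Finset.sum_congr rfl h1, Finset.sum_sigma']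
  symm
  refine Finset.sum_bij (fun x _ => insert x.1 x.2) ?_ ?_ ?_ ?_
  · rintro ⟨s, S⟩ hx
    obtain ⟨hs, hS⟩ := Finset.mem_sigma.1 hx
    have hs' := (Finset.mem_filter.1 hs).2
    obtain ⟨h2, h3⟩ := (Finset.mem_filter.1 hS).2
    dsimp only at hs' h2 h3 ⊢
    refine Finset.mem_erase.2 ⟨Finset.insert_ne_empty s S, Finset.mem_filter.2 ⟨Finset.mem_univ _, ?_, ?_⟩⟩
    · intro x hx
      rcases Finset.mem_insert.1 hx with h4 | h4
      · rw [h4]
        exact hs'
      · exact ⟨(h2 x h4).1, (h2 x h4).2.trans hs'.2⟩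
    · intro x hx y hy hxy
      rcases Finset.mem_insert.1 hx with h4 | h4
      · rcases Finset.mem_insert.1 hy with h5 | h5
        · exact absurd (h4.trans h5.symm) hxy
        · rw [h4]
          exact Or.inr (h2 y h5).2
      · rcases Finset.mem_insert.1 hy with h5 | h5
        · rw [h5]
          exact Or.inl (h2 x h4).2
        · exact h3 x h4 y h5 hxy
  · rintro ⟨s, S⟩ hx ⟨t, T⟩ hy hxy
    have h2 := (Finset.mem_filter.1 (Finset.mem_sigma.1 hx).2).2.1
    have h3 := (Finset.mem_filter.1 (Finset.mem_sigma.1 hy).2).2.1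
    dsimp only at h2 h3 hxy
    have hsS : s ∉ S := fun h4 => absurd (h2 s h4).2 (lt_irrefl s)
    have htT : t ∉ T := fun h4 => absurd (h3 t h4).2 (lt_irrefl t)
    have h4 : s = t := by
      have h5 : s ∈ insert t T := hxy ▸ Finset.mem_insert_self s S
      have h6 : t ∈ insert s S := hxy.symm ▸ Finset.mem_insert_self t T
      rcases Finset.mem_insert.1 h5 with h7 | h7
      · exact h7
      · rcases Finset.mem_insert.1 h6 with h8 | h8
        · exact h8.symm
        · exact absurd ((h3 s h7).2.trans (h2 t h8).2) (lt_irrefl s)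
    subst h4
    have h5 : S = T := by
      rw [← Finset.erase_insert hsS, hxy, Finset.erase_insert htT]
    rw [h5]
  · intro S hS
    obtain ⟨hne, hS'⟩ := Finset.mem_erase.1 hS
    obtain ⟨h2, h3⟩ := (Finset.mem_filter.1 hS').2
    obtain ⟨x, hx, hm⟩ := S.exists_maximal (Finset.nonempty_iff_ne_empty.2 hne)
    have hmax : ∀ y ∈ S, y ≠ x → y < x := by
      intro y hy hyx
      rcases h3 y hy x hx hyx with h4 | h4
      · exact h4
      · exact absurd h4 (not_lt_of_ge (hm hy h4.le))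
    refine ⟨⟨x, S.erase x⟩, Finset.mem_sigma.2 ⟨Finset.mem_filter.2 ⟨Finset.mem_univ _, h2 x hx⟩,
      Finset.mem_filter.2 ⟨Finset.mem_univ _, fun y hy => ?_, fun y hy z hz => ?_⟩⟩, Finset.insert_erase hx⟩
    · have h4 := Finset.mem_erase.1 hy
      exact ⟨(h2 y h4.2).1, hmax y h4.2 h4.1⟩
    · exact h3 y (Finset.mem_of_mem_erase hy) z (Finset.mem_of_mem_erase hz)
  · rintro ⟨s, S⟩ _
    rfl

open Classical in
theorem euler_of_int (hr : StrictMono r) (h : IntS r) {p q : P} (hpq : p < q) :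
    ∑ t ∈ Finset.univ.filter (fun t => p ≤ t ∧ t ≤ q), (-1 : ℤ) ^ r t = 0 := by
  have h1 : Finset.univ.filter (fun t => p ≤ t ∧ t ≤ q) =
      insert p (insert q (Finset.univ.filter fun t => p < t ∧ t < q)) := by
    ext t
    simp only [Finset.mem_filter, Finset.mem_univ, true_and, Finset.mem_insert]
    constructor
    · rintro ⟨h2, h3⟩
      rcases h2.eq_or_lt with h4 | h4
      · exact Or.inl h4.symm
      · rcases h3.eq_or_lt with h5 | h5
        · exact Or.inr (Or.inl h5)
        · exact Or.inr (Or.inr ⟨h4, h5⟩)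
    · rintro (h2 | h2 | ⟨h2, h3⟩)
      · rw [h2]
        exact ⟨le_rfl, hpq.le⟩
      · rw [h2]
        exact ⟨hpq.le, le_rfl⟩
      · exact ⟨h2.le, h3.le⟩
  have hq : q ∉ Finset.univ.filter fun t => p < t ∧ t < q := fun h2 =>
    absurd (Finset.mem_filter.1 h2).2.2 (lt_irrefl q)
  have hp : p ∉ insert q (Finset.univ.filter fun t => p < t ∧ t < q) := by
    intro h2
    rcases Finset.mem_insert.1 h2 with h3 | h3
    · exact hpq.ne h3
    · exact absurd (Finset.mem_filter.1 h3).2.1 (lt_irrefl p)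
  rw [h1, Finset.sum_insert hp, Finset.sum_insert hq]
  have h2 := sum_chI h hpq
  rw [sum_chI_eq, Finset.sum_congr rfl fun s hs => sum_chI h (Finset.mem_filter.1 hs).2.1] at h2
  have h3 : ∀ s, p < s → (-1 : ℤ) ^ r s = -((-1) ^ r p * (-1) ^ (r s - r p - 1)) := by
    intro s hs
    have h4 := hr hs
    have h5 : r s = r p + (r s - r p - 1) + 1 := by omega
    rw [h5, pow_succ, pow_add]
    have h6 : r p + (r s - r p - 1) + 1 - r p - 1 = r s - r p - 1 := by omega
    rw [h6]
    ring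
  have h7 : ∑ t ∈ Finset.univ.filter (fun t => p < t ∧ t < q), (-1 : ℤ) ^ r t =
      -((-1) ^ r p * ∑ t ∈ Finset.univ.filter (fun t => p < t ∧ t < q), (-1 : ℤ) ^ (r t - r p - 1)) := by
    rw [Finset.mul_sum, ← Finset.sum_neg_distrib]
    exact Finset.sum_congr rfl fun t ht => h3 t (Finset.mem_filter.1 ht).2.1
  rw [h7, h3 q hpq, ← h2]
  ring

end sphere

/-- **posets whose open intervals are homology spheres** -/
theorem gor_of_int {P : Type} [Fintype P] [PartialOrder P] {r : P → ℕ} {o : P} (hr : StrictMono r) (hb : ∀ p, o ≤ p)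
    (h0 : r o = 0) (h : ∀ p q, p < q → ∀ I : Fintype {v // p < v ∧ v < q},
      @GoodQ (fun n {V} [Fintype V] (G : SimpleGraph V) => QS.{0} n G) (r q - r p - 1) {v // p < v ∧ v < q} I Cmp)
    (F : Type) [Field F] [CharP F 2] : Gor F r o where
  mono := hr
  bot := hb
  r0 := h0
  rows p q hpq := rowEx_of_int hr h F q _ p hpq le_rfl
  thin := thin_of_int hr h
  euler p q hpq := by
    classical
    exact euler_of_int hr h hpq

end Ord
end Singer
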