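import Pool.Agent.Singer.Cone
import Pool.Agent.Singer.RacgSys

/-!
# Singer/Ord: the dimension of the chain groups

The dimension of the space of chains of degree `i` is the number of cliques of size `i`, divided by `2 ^ i`.
-/

set_option autoImplicit false
set_option linter.unusedSectionVars false
set_option linter.unusedVariables false

open scoped ComplexConjugate InnerProductSpace

namespace Singer
namespace Ord

section del
variable {Γ : Type*} [Group Γ] {ι : Type*}

open Classical in
lemma del_apply_ne {g : Γ} {j : ι} {x : Γ × ι} (h : x ≠ (g, j)) : (del g j : E Γ ι) x = 0 := by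
  unfold del
  exact lp.single_apply_ne _ _ _ h

open Classical in
lemma norm_del (g : Γ) (j : ι) : ‖(del g j : E Γ ι)‖ = 1 := by
  unfold del
  rw [lp.norm_single (by norm_num)]
  simp

end del

section dimCh
variable {Γ : Type*} [Group Γ] {V : Type*} [Fintype V] [DecidableEq V] {G : SimpleGraph V} {s : V → Γ}

open Classical in
/-- chains of degree zero -/
lemma vdim_Ch_zero (A : Finset V) : vdim (Ch G s A 0) = 1 := by
  have key : ∀ T : Finset V, ‖prj (Ch G s A 0) (del 1 T)‖ ^ 2 = if T = ∅ then 1 else 0 := by
    intro T
    split_ifs with hT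
    · subst hT
      have h1 : (del 1 (∅ : Finset V) : E Γ (Finset V)) ∈ Ch G s A 0 := by
        refine ⟨fun x hx => ?_, fun g T v hv => ?_⟩
        · have h2 : x = (1, ∅) := by
            by_contra hne
            exact hx (del_apply_ne hne)
          subst h2
          simp
        · have h2 : ∀ g : Γ, (del 1 (∅ : Finset V) : E Γ (Finset V)) (g, T) = 0 := by
            intro g
            refine del_apply_ne ?_
            intro h
            have h3 := congrArg Prod.snd h
            simp only at h3
            rw [h3] at hv
            simp at hv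
          rw [h2, h2, neg_zero]
      rw [prj_eq_of_mem (Submodule.le_topologicalClosure _ h1), norm_del]
      norm_num
    · have h1 : prj (Ch G s A 0) (del 1 T) = 0 := by
        refine prj_unique (Submodule.zero_mem _) ?_
        rw [sub_zero, Submodule.mem_orthogonal]
        intro f hf
        rw [inner_del_right]
        by_cases h0 : f (1, T) = 0
        · rw [h0, map_zero]
        · exact absurd (Finset.card_eq_zero.1 (hf.1 _ h0).2.1) hT
      rw [h1, norm_zero]
      norm_num
  unfold vdim
  rw [Finset.sum_congr rfl fun T _ => key T]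
  simp

open Classical in
/-- the number of cliques of size `i` in `A` -/
noncomputable def nc (G : SimpleGraph V) (A : Finset V) (i : ℕ) : ℕ :=
  (A.powerset.filter (fun S : Finset V => G.IsClique S ∧ S.card = i)).card

open Classical in
lemma nc_zero (A : Finset V) : nc G A 0 = 1 := by
  unfold nc
  rw [Finset.card_eq_one]
  refine ⟨∅, ?_⟩
  ext S
  simp only [Finset.mem_filter, Finset.mem_powerset, Finset.mem_singleton, Finset.card_eq_zero]
  constructor
  · rintro ⟨-, -, h⟩
    exact h
  · rintro rfl
    simp

open Classical in
lemma nc_empty (i : ℕ) : nc G (∅ : Finset V) (i + 1) = 0 := by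
  unfold nc
  rw [Finset.card_eq_zero, Finset.filter_eq_empty_iff]
  rintro S hS ⟨-, h⟩
  rw [Finset.mem_powerset, Finset.subset_empty] at hS
  subst hS
  simp at h

open Classical in
lemma nc_insert {a : V} {A U : Finset V} (h : Nbr G a A U) (i : ℕ) :
    nc G (insert a A) (i + 1) = nc G A (i + 1) + nc G U i := by
  classical
  have hU : (A.powerset.image (insert a)).filter (fun S : Finset V => G.IsClique S ∧ S.card = i + 1) =
      (U.powerset.filter (fun S : Finset V => G.IsClique S ∧ S.card = i)).image (insert a) := by
    ext T
    simp only [Finset.mem_filter, Finset.mem_powerset, Finset.mem_image]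
    constructor
    · rintro ⟨⟨S, hS, rfl⟩, hc, hi⟩
      have ha : a ∉ S := fun ha => h.notMem (hS ha)
      rw [Finset.coe_insert, SimpleGraph.isClique_insert] at hc
      refine ⟨S, ⟨fun v hv => (h.mem v).2 ⟨hS hv, hc.2 v hv (fun hav => ha (hav ▸ hv))⟩, hc.1, ?_⟩, rfl⟩
      rw [Finset.card_insert_of_notMem ha] at hi
      omega
    · rintro ⟨S, ⟨hSU, hc, hi⟩, rfl⟩
      refine ⟨⟨S, hSU.trans h.subset, rfl⟩, ?_, ?_⟩
      · rw [Finset.coe_insert, SimpleGraph.isClique_insert]
        exact ⟨hc, fun b hb _ => ((h.mem b).1 (hSU hb)).2⟩
      · rw [Finset.card_insert_of_notMem (fun ha => h.notMem' (hSU ha)), hi]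
  have hinj : Set.InjOn (insert a)
      ((U.powerset.filter (fun S : Finset V => G.IsClique S ∧ S.card = i) : Finset (Finset V)) : Set (Finset V)) := by
    intro S hS S' hS' hSS'
    simp only [Finset.coe_filter, Finset.mem_powerset, Set.mem_ofPred_eq] at hS hS'
    have h1 : a ∉ S := fun ha => h.notMem' (hS.1 ha)
    have h2 : a ∉ S' := fun ha => h.notMem' (hS'.1 ha)
    rw [← Finset.erase_insert h1, ← Finset.erase_insert h2, hSS']
  unfold nc
  rw [Finset.powerset_insert, Finset.filter_union, Finset.card_union_of_disjoint, hU,
    Finset.card_image_of_injOn hinj]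
  rw [Finset.disjoint_left]
  intro S hS hS'
  simp only [Finset.mem_filter, Finset.mem_powerset, Finset.mem_image] at hS hS'
  obtain ⟨⟨T, -, rfl⟩, -⟩ := hS'
  exact h.notMem (hS.1 (Finset.mem_insert_self a T))

theorem vdim_Ch (hs : IsSys G s) (hf : ∀ (a : V) (A : Set V), a ∉ A → s a ∉ sub s A) (A : Finset V) (i : ℕ) :
    vdim (Ch G s A i) = (nc G A i : ℝ) * (1 / 2 : ℝ) ^ i := by
  classical
  induction A using Finset.strongInduction generalizing i with
  | H A ih =>
    cases i with
    | zero => rw [vdim_Ch_zero, nc_zero]; norm_num
    | succ i =>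
      rcases A.eq_empty_or_nonempty with rfl | ⟨a, haA⟩
      · have h1 : Ch G s (∅ : Finset V) (i + 1) = ⊥ := by
          rw [Submodule.eq_bot_iff]
          intro f hf
          ext x
          by_contra hne
          obtain ⟨c1, c2, c3⟩ := hf.1 x hne
          rw [Finset.subset_empty.1 c1] at c2
          simp at c2
        rw [h1, vdim_bot, nc_empty]
        norm_num
      · have ha : a ∉ A.erase a := Finset.notMem_erase a A
        have hA : insert a (A.erase a) = A := Finset.insert_erase haA
        have hN : Nbr G a (A.erase a) ((A.erase a).filter fun v => G.Adj a v) := ⟨ha, by simp⟩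
        have e1 := vdim_Ch_cone (s := s) (i := i) hN
        have hfa : s a ∉ sub s ((A.erase a).filter fun v => G.Adj a v : Finset V) := hf a _ (by simp)
        have e2 := half_sub hs hN hfa (mdl_Ch G s ((A.erase a).filter fun v => G.Adj a v) i)
          (loc_Ch G s ((A.erase a).filter fun v => G.Adj a v) i)
        have e3 := nc_insert hN i
        rw [hA] at e1 e3
        have hss : A.erase a ⊂ A := Finset.erase_ssubset haA
        rw [ih _ (lt_of_le_of_lt (Finset.filter_subset _ _) hss)] at e2
        rw [ih _ hss] at e1
        rw [e1, e3]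
        push_cast
        rw [pow_succ]
        linarith

end dimCh

open Classical in
theorem vdim_Ch_eq {V : Type} [Fintype V] [DecidableEq V] (G : SimpleGraph V) (i : ℕ) :
    vdim (Ch G (Racg.gen G) Finset.univ i) =
      (Finset.univ.filter (fun S : Finset V => G.IsClique S ∧ S.card = i)).card * (1 / 2 : ℝ) ^ i := by
  rw [vdim_Ch (isSys_gen G) (fun a A ha => gen_notMem G a ha)]
  unfold nc
  rw [Finset.powerset_univ]

end Ord
end Singer
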