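import Pool.Agent.Singer.Ord.Defs
import Mathlib.Algebra.MvPolynomial.Expand
import Mathlib.FieldTheory.Finite.Polynomial
import Mathlib.RingTheory.Localization.FractionRing
import Mathlib.RingTheory.Localization.Integer
import Mathlib.RingTheory.MvPolynomial.Basic

/-!
# Singer/Ord, module A7: squarefree monomials are independent over the squares
-/

set_option autoImplicit false
set_option linter.unusedSectionVars false
set_option linter.unusedVariables false

namespace Singer
namespace Ord

/-- the generic field of the variables `V` -/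
abbrev KK (V : Type) : Type := FractionRing (MvPolynomial V (ZMod 2))

/-- the variable -/
noncomputable def xx {V : Type} (v : V) : KK V := algebraMap (MvPolynomial V (ZMod 2)) (KK V) (MvPolynomial.X v)

instance charP_KK (V : Type) : CharP (KK V) 2 :=
  charP_of_injective_algebraMap (IsFractionRing.injective (MvPolynomial V (ZMod 2)) (KK V)) 2

/-- the exponent of a squarefree monomial -/
noncomputable def ex1 {V : Type} (s : Finset V) : V →₀ ℕ := ∑ v ∈ s, Finsupp.single v 1

open Classical in
lemma ex1_apply {V : Type} (s : Finset V) (v : V) : ex1 s v = if v ∈ s then 1 else 0 := by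
  unfold ex1
  rw [Finsupp.finsetSum_apply]
  simp only [Finsupp.single_apply]
  rw [Finset.sum_ite_eq' s v (fun _ => 1)]

lemma prod_X {V : Type} (s : Finset V) :
    (∏ v ∈ s, (MvPolynomial.X v : MvPolynomial V (ZMod 2))) = MvPolynomial.monomial (ex1 s) 1 := by
  unfold ex1
  rw [MvPolynomial.monomial_sum_one]
  rfl

open Classical in
/-- the coefficients of a squarefree monomial times a square -/
lemma coeff_mul_sq {V : Type} (s s' : Finset V) (p : MvPolynomial V (ZMod 2)) (m : V →₀ ℕ) :
    MvPolynomial.coeff (ex1 s + 2 • m) ((∏ v ∈ s', (MvPolynomial.X v : MvPolynomial V (ZMod 2))) * p ^ 2) =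
      if s' = s then MvPolynomial.coeff m p else 0 := by
  classical
  have h2 : p ^ 2 = MvPolynomial.expand 2 p := (MvPolynomial.expand_zmod (p := 2) p).symm
  rw [prod_X, h2, MvPolynomial.coeff_monomial_mul', one_mul]
  by_cases hs : s' = s
  · subst hs
    have hle : ex1 s' ≤ ex1 s' + 2 • m := by
      intro v; simp
    rw [if_pos hle, if_pos rfl]
    have he : ex1 s' + 2 • m - ex1 s' = 2 • m := add_tsub_cancel_left _ _
    rw [he, MvPolynomial.coeff_expand_smul 2 two_ne_zero]
  · rw [if_neg hs]
    split_ifs with hle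
    · have hne : ∃ v, ¬ ((v ∈ s') ↔ (v ∈ s)) := by
        by_contra hcon
        push Not at hcon
        exact hs (Finset.ext hcon)
      obtain ⟨v, hv⟩ := hne
      apply MvPolynomial.coeff_expand_of_not_dvd p (i := v)
      have hval : (ex1 s + 2 • m - ex1 s') v = (if v ∈ s then 1 else 0) + 2 * m v - (if v ∈ s' then 1 else 0) := by
        rw [Finsupp.tsub_apply, Finsupp.add_apply, ex1_apply, ex1_apply, Finsupp.smul_apply, smul_eq_mul]
      have hle' := hle v
      rw [Finsupp.add_apply, ex1_apply, ex1_apply, Finsupp.smul_apply, smul_eq_mul] at hle'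
      rw [hval]
      by_cases h1 : v ∈ s <;> by_cases h3 : v ∈ s'
      · exact absurd (by simp [h1, h3]) hv
      · rw [if_pos h1, if_neg h3]; omega
      · rw [if_neg h1, if_pos h3] at hle' ⊢; omega
      · exact absurd (by simp [h1, h3]) hv
    · rfl

/-- polynomial version -/
lemma sum_sq_poly {V : Type} {A : Type} (S : Finset A) (t : A → Finset V) (ht : Set.InjOn t S)
    (p : A → MvPolynomial V (ZMod 2)) (h : ∑ a ∈ S, (∏ v ∈ t a, MvPolynomial.X v) * p a ^ 2 = 0) :
    ∀ a ∈ S, p a = 0 := by
  classical
  intro a ha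
  ext m
  have h1 := congrArg (MvPolynomial.coeff (ex1 (t a) + 2 • m)) h
  rw [MvPolynomial.coeff_sum, MvPolynomial.coeff_zero] at h1
  rw [MvPolynomial.coeff_zero]
  rw [Finset.sum_eq_single a] at h1
  · rw [coeff_mul_sq, if_pos rfl] at h1
    exact h1
  · intro b hb hba
    rw [coeff_mul_sq, if_neg]
    intro hc
    exact hba (ht hb ha hc)
  · intro hc
    exact absurd ha hc

/-- squarefree monomials are independent over the squares -/
theorem sum_sq_eq_zero {V : Type} [DecidableEq V] {A : Type} (S : Finset A) (t : A → Finset V) (ht : Set.InjOn t S)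
    (c : A → KK V) (h : ∑ a ∈ S, (∏ v ∈ t a, xx v) * c a ^ 2 = 0) : ∀ a ∈ S, c a = 0 := by
  classical
  have hinj : Function.Injective (algebraMap (MvPolynomial V (ZMod 2)) (KK V)) :=
    IsFractionRing.injective (MvPolynomial V (ZMod 2)) (KK V)
  obtain ⟨b, hb⟩ := IsLocalization.exist_integer_multiples (nonZeroDivisors (MvPolynomial V (ZMod 2))) S c
  have hb0 : algebraMap (MvPolynomial V (ZMod 2)) (KK V) (b : MvPolynomial V (ZMod 2)) ≠ 0 := by
    intro h0
    have h1 : (b : MvPolynomial V (ZMod 2)) = 0 := by
      apply hinj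
      rw [h0, map_zero]
    exact nonZeroDivisors.coe_ne_zero b h1
  have hp : ∀ a, ∃ p : MvPolynomial V (ZMod 2), a ∈ S →
      algebraMap (MvPolynomial V (ZMod 2)) (KK V) p = algebraMap (MvPolynomial V (ZMod 2)) (KK V) b * c a := by
    intro a
    by_cases ha : a ∈ S
    · obtain ⟨p, hp⟩ := hb a ha
      refine ⟨p, fun _ => ?_⟩
      rw [hp, Algebra.smul_def]
    · exact ⟨0, fun h => absurd h ha⟩
  choose p hp using hp
  have hsum : ∑ a ∈ S, (∏ v ∈ t a, (MvPolynomial.X v : MvPolynomial V (ZMod 2))) * p a ^ 2 = 0 := by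
    apply hinj
    rw [map_zero, map_sum]
    have h1 : ∑ a ∈ S, (algebraMap (MvPolynomial V (ZMod 2)) (KK V)) ((∏ v ∈ t a, MvPolynomial.X v) * p a ^ 2) =
        (algebraMap (MvPolynomial V (ZMod 2)) (KK V) b) ^ 2 * ∑ a ∈ S, (∏ v ∈ t a, xx v) * c a ^ 2 := by
      rw [Finset.mul_sum]
      refine Finset.sum_congr rfl fun a ha => ?_
      rw [map_mul, map_pow, map_prod, hp a ha]
      have hx : ∏ v ∈ t a, (algebraMap (MvPolynomial V (ZMod 2)) (KK V)) (MvPolynomial.X v) = ∏ v ∈ t a, xx v := rfl
      rw [hx]
      ring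
    rw [h1, h, mul_zero]
  have hz := sum_sq_poly S t ht p hsum
  intro a ha
  have h1 := hp a ha
  rw [hz a ha, map_zero] at h1
  rcases mul_eq_zero.mp h1.symm with h2 | h2
  · exact absurd h2 hb0
  · exact h2

/-! ### sums over full chains -/

section chains
variable {P : Type} [Fintype P] [PartialOrder P]

/-- the sum over full chains is a sum over a finite set of lists -/
lemma exists_so (r : P → ℕ) (m : ℕ) : ∀ s : P, ∃ S : Finset (List P), (∀ τ, τ ∈ S ↔ Fo r s m τ) ∧
    ∀ {F : Type} [AddCommMonoid F] (f : List P → F), so r s m f = ∑ τ ∈ S, f τ := by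
  classical
  induction m with
  | zero =>
    intro s
    refine ⟨{[]}, fun τ => ?_, ?_⟩
    · rw [Finset.mem_singleton]; rfl
    · intro F _ f
      rw [Finset.sum_singleton]; rfl
  | succ m ih =>
    intro s
    choose T hT hT' using ih
    refine ⟨(Finset.univ.filter (fun u => u ≤ s ∧ r u = 2 * m + 1)).biUnion
      (fun u => (T u).image (fun τ => u :: τ)), fun τ => ?_, ?_⟩
    · rw [Finset.mem_biUnion]
      constructor
      · rintro ⟨u, hu, hτ⟩
        rw [Finset.mem_filter] at hu
        rw [Finset.mem_image] at hτ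
        obtain ⟨τ', h1, rfl⟩ := hτ
        exact ⟨hu.2.1, hu.2.2, (hT u τ').mp h1⟩
      · intro h
        cases τ with
        | nil => exact absurd h (by simp [Fo])
        | cons u τ' =>
          obtain ⟨h1, h2, h3⟩ := h
          refine ⟨u, ?_, ?_⟩
          · rw [Finset.mem_filter]; exact ⟨Finset.mem_univ _, h1, h2⟩
          · rw [Finset.mem_image]; exact ⟨τ', (hT u τ').mpr h3, rfl⟩
    · intro F _ f
      rw [Finset.sum_biUnion]
      · unfold so
        refine Finset.sum_congr (by ext u; simp only [Finset.mem_filter]) fun u hu => ?_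
        rw [hT' u]
        rw [Finset.sum_image]
        intro a _ b _ hab
        exact (List.cons.inj hab).2
      · intro u _ u' _ huu'
        rw [Function.onFun, Finset.disjoint_left]
        intro τ h1 h2
        rw [Finset.mem_image] at h1 h2
        obtain ⟨a, _, rfl⟩ := h1
        obtain ⟨b, _, hb⟩ := h2
        exact huu' (List.cons.inj hb).1.symm

lemma Fo.rank_lt {r : P → ℕ} {m : ℕ} : ∀ {s : P} {τ : List P}, Fo r s m τ → ∀ u ∈ τ, r u < 2 * m := by
  induction m with
  | zero =>
    intro s τ h u hu
    have h' : τ = [] := h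
    subst h'
    simp at hu
  | succ m ih =>
    intro s τ h u hu
    cases τ with
    | nil => exact absurd h (by simp [Fo])
    | cons w τ' =>
      obtain ⟨h1, h2, h3⟩ := h
      rcases List.mem_cons.mp hu with rfl | hu
      · omega
      · have := ih h3 u hu
        omega

lemma Fo.odd {r : P → ℕ} {m : ℕ} : ∀ {s : P} {τ : List P}, Fo r s m τ → ∀ u ∈ τ, Odd (r u) := by
  induction m with
  | zero =>
    intro s τ h u hu
    have h' : τ = [] := h
    subst h'
    simp at hu
  | succ m ih =>
    intro s τ h u hu
    cases τ with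
    | nil => exact absurd h (by simp [Fo])
    | cons w τ' =>
      obtain ⟨h1, h2, h3⟩ := h
      rcases List.mem_cons.mp hu with rfl | hu
      · exact ⟨m, h2⟩
      · exact ih h3 u hu

lemma Fo.nodup {r : P → ℕ} {m : ℕ} : ∀ {s : P} {τ : List P}, Fo r s m τ → τ.Nodup := by
  induction m with
  | zero =>
    intro s τ h
    have h' : τ = [] := h
    subst h'
    exact List.nodup_nil
  | succ m ih =>
    intro s τ h
    cases τ with
    | nil => exact absurd h (by simp [Fo])
    | cons w τ' =>
      obtain ⟨h1, h2, h3⟩ := h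
      rw [List.nodup_cons]
      refine ⟨fun hw => ?_, ih h3⟩
      have := Fo.rank_lt h3 w hw
      omega

lemma Fo.ext {r : P → ℕ} {m : ℕ} : ∀ {s s' : P} {τ τ' : List P}, Fo r s m τ → Fo r s' m τ' →
    (∀ u, u ∈ τ ↔ u ∈ τ') → τ = τ' := by
  induction m with
  | zero =>
    intro s s' τ τ' h h' _
    have h1 : τ = [] := h
    have h2 : τ' = [] := h'
    rw [h1, h2]
  | succ m ih =>
    intro s s' τ τ' h h' hu
    cases τ with
    | nil => exact absurd h (by simp [Fo])
    | cons w ρ =>
      cases τ' with
      | nil => exact absurd h' (by simp [Fo])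
      | cons w' ρ' =>
        obtain ⟨h1, h2, h3⟩ := h
        obtain ⟨h1', h2', h3'⟩ := h'
        have hw : w = w' := by
          rcases List.mem_cons.mp ((hu w).mp List.mem_cons_self) with h | h
          · exact h
          · have := Fo.rank_lt h3' w h
            omega
        subst hw
        have hρ : ρ = ρ' := by
          apply ih h3 h3'
          intro u
          constructor
          · intro hm
            rcases List.mem_cons.mp ((hu u).mp (List.mem_cons_of_mem _ hm)) with h | h
            · subst h
              have := Fo.rank_lt h3 u hm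
              omega
            · exact h
          · intro hm
            rcases List.mem_cons.mp ((hu u).mpr (List.mem_cons_of_mem _ hm)) with h | h
            · subst h
              have := Fo.rank_lt h3' u hm
              omega
            · exact h
        rw [hρ]

end chains

theorem indep_of_var {P : Type} [Fintype P] [PartialOrder P] {V : Type} {r : P → ℕ} (hr : StrictMono r) {x : P → KK V}
    (f : P → V) (hf : ∀ u u', Odd (r u) → Odd (r u') → f u = f u' → u = u') (hx : ∀ u, Odd (r u) → x u = xx (f u)) :
    Indep r x := by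
  classical
  intro q m c h τ hτ
  obtain ⟨S, hS, hS'⟩ := exists_so r m q
  rw [hS'] at h
  have key : ∀ τ ∈ S, (τ.map x).prod = ∏ v ∈ (τ.map f).toFinset, xx v := by
    intro τ hτ
    have hF := (hS τ).mp hτ
    have hnd : (τ.map f).Nodup := by
      apply List.Nodup.map_on _ (Fo.nodup hF)
      intro a ha b hb hab
      exact hf a b (Fo.odd hF a ha) (Fo.odd hF b hb) hab
    rw [List.prod_toFinset _ hnd, List.map_map]
    congr 1
    apply List.map_congr_left
    intro u hu
    exact hx u (Fo.odd hF u hu)
  have h' : ∑ τ ∈ S, (∏ v ∈ (τ.map f).toFinset, xx v) * c τ ^ 2 = 0 := by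
    rw [← h]
    refine Finset.sum_congr rfl fun τ hτ => ?_
    rw [key τ hτ]
  refine sum_sq_eq_zero S (fun τ => (τ.map f).toFinset) ?_ c h' τ ((hS τ).mpr hτ)
  intro a ha b hb hab
  have hFa := (hS a).mp ha
  have hFb := (hS b).mp hb
  apply Fo.ext hFa hFb
  have hmem : ∀ v, v ∈ a.map f ↔ v ∈ b.map f := by
    intro v
    have := Finset.ext_iff.mp hab v
    simpa using this
  intro u
  constructor
  · intro hu
    have h1 := (hmem (f u)).mp (List.mem_map_of_mem hu)
    obtain ⟨w, hw, hfw⟩ := List.mem_map.mp h1
    have := hf w u (Fo.odd hFb w hw) (Fo.odd hFa u hu) hfw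
    rw [← this]; exact hw
  · intro hu
    have h1 := (hmem (f u)).mpr (List.mem_map_of_mem hu)
    obtain ⟨w, hw, hfw⟩ := List.mem_map.mp h1
    have := hf w u (Fo.odd hFa w hw) (Fo.odd hFb u hu) hfw
    rw [← this]; exact hw

end Ord
end Singer
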