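import Pool.Agent.Singer.Ord.Poly
import Pool.Agent.Singer.Ord.DimCh
import Pool.Agent.Singer.Ord.Indep
import Pool.Agent.Singer.Basic
import Pool.Agent.Singer.Bet

/-!
# Singer/Ord: coloured graphs

If the complex of a coloured graph over the generic field is exact in degree `i`, the `i`-th Betti number vanishes.
-/

set_option autoImplicit false
set_option linter.unusedSectionVars false
set_option linter.unusedVariables false

namespace Singer
namespace Ord

/-! ### transvections -/

section trans
variable {C : Type*} [DecidableEq C] {R : Type*} [CommRing R]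

/-- the nilpotent operator attached to the colour `c` and the parameter `a` -/
def Nl (c : C) (a : R) : ((C → Bool) → R) →ₗ[R] ((C → Bool) → R) where
  toFun f ε := (if ε c = true then a else 1) *
    (f (Function.update ε c true) + a * f (Function.update ε c false))
  map_add' f g := by
    ext ε
    simp only [Pi.add_apply]
    ring
  map_smul' b f := by
    ext ε
    simp only [Pi.smul_apply, smul_eq_mul, RingHom.id_apply]
    ring

theorem Nl_apply (c : C) (a : R) (f : (C → Bool) → R) (ε : C → Bool) :
    Nl c a f ε = (if ε c = true then a else 1) *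
      (f (Function.update ε c true) + a * f (Function.update ε c false)) := rfl

theorem Nl_sq [CharP R 2] (c : C) (a : R) (f : (C → Bool) → R) : Nl c a (Nl c a f) = 0 := by
  ext ε
  have h2 : ∀ r : R, r + r = 0 := CharTwo.add_self_eq_zero
  simp only [Nl_apply, Function.update_self, if_true, Bool.false_eq_true, if_false, Function.update_idem, one_mul,
    Pi.zero_apply]
  rw [h2, mul_zero]

theorem Nl_comm {c d : C} (hcd : c ≠ d) (a b : R) (f : (C → Bool) → R) : Nl c a (Nl d b f) = Nl d b (Nl c a f) := by
  ext ε
  have h1 : ∀ t, Function.update ε c t d = ε d := fun t => Function.update_of_ne hcd.symm _ _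
  have h2 : ∀ t, Function.update ε d t c = ε c := fun t => Function.update_of_ne hcd _ _
  have h3 : ∀ t t', Function.update (Function.update ε c t) d t' = Function.update (Function.update ε d t') c t :=
    fun t t' => Function.update_comm hcd _ _ _
  simp only [Nl_apply, h1, h2, h3]
  ring

/-- the transvection -/
def Tl (c : C) (a : R) : ((C → Bool) → R) →ₗ[R] ((C → Bool) → R) := LinearMap.id + Nl c a

theorem Tl_apply (c : C) (a : R) (f : (C → Bool) → R) : Tl c a f = f + Nl c a f := rfl

theorem Tl_sq [CharP R 2] (c : C) (a : R) : Tl c a ∘ₗ Tl c a = LinearMap.id := by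
  refine LinearMap.ext fun f => ?_
  have h2 : ∀ g : (C → Bool) → R, g + g = 0 := fun g => by
    ext ε
    exact CharTwo.add_self_eq_zero _
  rw [LinearMap.comp_apply, LinearMap.id_apply, Tl_apply, Tl_apply, map_add, Nl_sq, add_zero, add_assoc, h2, add_zero]

theorem Tl_comm {c d : C} (hcd : c ≠ d) (a b : R) : Tl c a ∘ₗ Tl d b = Tl d b ∘ₗ Tl c a := by
  refine LinearMap.ext fun f => ?_
  simp only [LinearMap.comp_apply, Tl_apply, map_add, Nl_comm hcd]
  abel

theorem Tl_fix [Nontrivial R] (c : C) (a : R) (f : (C → Bool) → R) :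
    Tl c a f = f ↔ ∀ ε, f (Function.update ε c true) + a * f (Function.update ε c false) = 0 := by
  rw [Tl_apply, add_eq_left]
  constructor
  · intro h ε
    have := congrFun h (Function.update ε c false)
    simpa [Nl_apply] using this
  · intro h
    ext ε
    rw [Nl_apply, h, mul_zero, Pi.zero_apply]

/-- the matrix of a transvection -/
def Tm [Fintype C] (c : C) (a : R) : Matrix (C → Bool) (C → Bool) R := LinearMap.toMatrix' (Tl c a)

theorem Tm_map [Fintype C] {R' : Type*} [CommRing R'] (φ : R →+* R') (c : C) (a : R) : (Tm c a).map φ = Tm c (φ a) := by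
  ext ε η
  rw [Matrix.map_apply, Tm, Tm, LinearMap.toMatrix'_apply, LinearMap.toMatrix'_apply, Tl_apply, Tl_apply]
  simp only [Pi.add_apply, Nl_apply, map_add, map_mul, Pi.single_apply]
  split_ifs <;> simp

theorem toLin_Tm [Fintype C] (c : C) (a : R) : Matrix.toLin' (Tm c a) = Tl c a := by
  rw [Tm, Matrix.toLin'_toMatrix']

theorem Tm_sq [Fintype C] [CharP R 2] (c : C) (a : R) : Tm c a * Tm c a = 1 := by
  rw [Tm, ← LinearMap.toMatrix'_comp, Tl_sq, LinearMap.toMatrix'_id]

theorem Tm_comm [Fintype C] {c d : C} (hcd : c ≠ d) (a b : R) : Tm c a * Tm d b = Tm d b * Tm c a := by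
  rw [Tm, Tm, ← LinearMap.toMatrix'_comp, ← LinearMap.toMatrix'_comp, Tl_comm hcd]

end trans

/-! ### linear algebra -/

theorem finrank_add_le {K U I : Type*} [Field K] [AddCommGroup U] [Module K U] [FiniteDimensional K U] [Fintype I]
    (Z : U →ₗ[K] (I → K)) (hZ : Function.Injective Z) (R : Submodule K (I → K))
    (h : ∀ u, ∀ r ∈ R, ∑ i, r i * Z u i = 0) : Module.finrank K U + Module.finrank K R ≤ Fintype.card I := by
  classical
  let dp : (I → K) →ₗ[K] Module.Dual K (I → K) := LinearMap.mk₂ K (fun w r => ∑ i, r i * w i)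
    (fun w w' r => by simp only [Pi.add_apply, mul_add, Finset.sum_add_distrib])
    (fun a w r => by
      simp only [Pi.smul_apply, smul_eq_mul, Finset.mul_sum]
      exact Finset.sum_congr rfl fun i _ => by ring)
    (fun w r r' => by simp only [Pi.add_apply, add_mul, Finset.sum_add_distrib])
    (fun a w r => by
      simp only [Pi.smul_apply, smul_eq_mul, Finset.mul_sum]
      exact Finset.sum_congr rfl fun i _ => by ring)
  have hdp : ∀ w r, dp w r = ∑ i, r i * w i := fun w r => rfl
  have hinj : Function.Injective dp := by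
    intro w w' hw
    ext i
    have := LinearMap.congr_fun hw (Pi.single i 1)
    rw [hdp, hdp] at this
    simpa [Pi.single_apply] using this
  have h1 : LinearMap.range (dp ∘ₗ Z) ≤ R.dualAnnihilator := by
    rintro _ ⟨u, rfl⟩
    rw [Submodule.mem_dualAnnihilator]
    intro r hr
    rw [LinearMap.comp_apply, hdp]
    exact h u r hr
  have h2 : Module.finrank K U ≤ Module.finrank K R.dualAnnihilator := by
    rw [← LinearMap.finrank_range_of_inj (f := dp ∘ₗ Z) (hinj.comp hZ)]
    exact Submodule.finrank_mono h1
  have h3 := Subspace.finrank_add_finrank_dualAnnihilator_eq R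
  rw [Module.finrank_fintype_fun_eq_card] at h3
  omega

/-! ### the complex of a coloured graph -/

section col
variable {V : Type*} [Fintype V] [DecidableEq V] {C : Type*} [Fintype C] [DecidableEq C] {K : Type*} [Field K]

/-- the index set of the cochains of degree `j` -/
def Idx (G : SimpleGraph V) (col : V → C) (j : ℕ) : Type _ :=
  {p : Finset V × Finset C // G.IsClique (p.1 : Set V) ∧ p.1.card = j ∧ Disjoint p.2 (p.1.image col)}

noncomputable instance (G : SimpleGraph V) (col : V → C) (j : ℕ) : Fintype (Idx G col j) :=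
  @Subtype.fintype _ _ (Classical.decPred _) _

/-- the indicator function of a set of colours -/
def ind (T : Finset C) : C → Bool := fun c => decide (c ∈ T)

theorem ind_update_false (T : Finset C) (c : C) : Function.update (ind T) c false = ind (T.erase c) := by
  ext d
  by_cases h : d = c
  · subst h
    simp [ind]
  · simp [ind, Function.update_of_ne h, h]

theorem ind_update_true {T : Finset C} {c : C} (hc : c ∈ T) : Function.update (ind T) c true = ind T := by
  rw [Function.update_eq_self_iff]
  simp [ind, hc]

theorem fix_of_mem [CharP K 2] {G : SimpleGraph V} {col : V → C} {x : V → K} {j : ℕ} {z : Finset V → (C → Bool) → K}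
    (hz : z ∈ ZM G (fun v => Tl (col v) (x v)) j) {S : Finset V} {v : V} (hv : v ∈ S) (ε : C → Bool) :
    z S (Function.update ε (col v) true) = x v * z S (Function.update ε (col v) false) := by
  have h := (Tl_fix _ _ _).1 (hz.2.1 S v hv) ε
  exact CharTwo.add_eq_zero.1 h

theorem sum_swap {M : Type*} [AddCommMonoid M] (F : Finset V → V → M) :
    ∑ S : Finset V, ∑ v ∈ S, F S v = ∑ S : Finset V, ∑ v ∈ Sᶜ, F (insert v S) v := by
  rw [Finset.sum_sigma', Finset.sum_sigma']
  refine Finset.sum_bij' (fun p _ => ⟨p.1.erase p.2, p.2⟩) (fun p _ => ⟨insert p.2 p.1, p.2⟩) ?_ ?_ ?_ ?_ ?_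
  · rintro ⟨S, v⟩ h
    simp
  · rintro ⟨S, v⟩ h
    simp
  · rintro ⟨S, v⟩ h
    simp only [Finset.mem_sigma, Finset.mem_univ, true_and] at h
    simp [Finset.insert_erase h]
  · rintro ⟨S, v⟩ h
    simp only [Finset.mem_sigma, Finset.mem_univ, true_and, Finset.mem_compl] at h
    simp [Finset.erase_insert h]
  · rintro ⟨S, v⟩ h
    simp only [Finset.mem_sigma, Finset.mem_univ, true_and] at h
    simp [Finset.insert_erase h]

theorem sum_state {x : K} {c : C} {S' : Finset C} (hc : c ∉ S') (φ ζ : Finset C → K)
    (hζ : ∀ T, c ∈ T → ζ T = x * ζ (T.erase c)) :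
    ∑ T ∈ Finset.univ.filter (fun T : Finset C => Disjoint T (insert c S')), (φ T + x * φ (insert c T)) * ζ T =
      ∑ T ∈ Finset.univ.filter (fun T : Finset C => Disjoint T S'), φ T * ζ T := by
  rw [← Finset.sum_filter_add_sum_filter_not (Finset.univ.filter (fun T : Finset C => Disjoint T S')) (fun T => c ∉ T)]
  have e1 : (Finset.univ.filter (fun T : Finset C => Disjoint T S')).filter (fun T => c ∉ T) =
      Finset.univ.filter (fun T : Finset C => Disjoint T (insert c S')) := by
    ext T
    simp only [Finset.mem_filter, Finset.mem_univ, true_and, Finset.disjoint_insert_right]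
    tauto
  rw [e1]
  have e2 : ∑ T ∈ (Finset.univ.filter (fun T : Finset C => Disjoint T S')).filter (fun T => ¬ c ∉ T), φ T * ζ T =
      ∑ T ∈ Finset.univ.filter (fun T : Finset C => Disjoint T (insert c S')), x * φ (insert c T) * ζ T := by
    refine Finset.sum_bij' (fun T _ => T.erase c) (fun T _ => insert c T) ?_ ?_ ?_ ?_ ?_
    · intro T hT
      simp only [Finset.mem_filter, Finset.mem_univ, true_and, Finset.disjoint_insert_right, Finset.mem_erase,
        ne_eq, not_true_eq_false, false_and, not_false_eq_true] at hT ⊢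
      exact Finset.disjoint_of_subset_left (Finset.erase_subset _ _) hT.1
    · intro T hT
      simp only [Finset.mem_filter, Finset.mem_univ, true_and, Finset.disjoint_insert_right,
        Finset.disjoint_insert_left] at hT ⊢
      exact ⟨⟨hc, hT.2⟩, not_not.2 (Finset.mem_insert_self _ _)⟩
    · intro T hT
      simp only [Finset.mem_filter, not_not] at hT
      exact Finset.insert_erase hT.2
    · intro T hT
      simp only [Finset.mem_filter, Finset.disjoint_insert_right] at hT
      exact Finset.erase_insert hT.2.1
    · intro T hT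
      simp only [Finset.mem_filter, not_not] at hT
      rw [Finset.insert_erase hT.2, hζ T hT.2]
      ring
  rw [e2, ← Finset.sum_add_distrib]
  exact Finset.sum_congr rfl fun T _ => by ring

theorem pairing [CharP K 2] {G : SimpleGraph V} {col : V → C} (hcol : ∀ u v, G.Adj u v → col u ≠ col v) {x : V → K}
    {j : ℕ} {z : Finset V → (C → Bool) → K} (hz : z ∈ ZM G (fun v => Tl (col v) (x v)) j)
    (φ : Finset V → Finset C → K) : ∑ p : Idx G col j, cobF col x φ p.1.1 p.1.2 * z p.1.1 (ind p.1.2) = 0 := by
  classical
  have h1 : ∑ p : Idx G col j, cobF col x φ p.1.1 p.1.2 * z p.1.1 (ind p.1.2) =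
      ∑ S : Finset V, ∑ T ∈ Finset.univ.filter (fun T : Finset C => Disjoint T (S.image col)),
        cobF col x φ S T * z S (ind T) := by
    rw [Finset.sum_sigma']
    refine Finset.sum_bij_ne_zero (fun p _ _ => ⟨p.1.1, p.1.2⟩) ?_ ?_ ?_ ?_
    · rintro ⟨⟨S, T⟩, h⟩ _ _
      simpa using h.2.2
    · rintro ⟨⟨S, T⟩, h⟩ _ _ ⟨⟨S', T'⟩, h'⟩ _ _ e
      simp only [Sigma.mk.injEq, heq_eq_eq] at e
      obtain ⟨rfl, rfl⟩ := e
      rfl
    · rintro ⟨S, T⟩ hT hne
      have hS : G.IsClique S ∧ S.card = j := by
        by_contra hS
        apply hne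
        rw [hz.1 S hS, Pi.zero_apply, mul_zero]
      simp only [Finset.mem_sigma, Finset.mem_univ, true_and, Finset.mem_filter] at hT
      exact ⟨⟨(S, T), hS.1, hS.2, hT⟩, Finset.mem_univ _, hne, rfl⟩
    · rintro ⟨⟨S, T⟩, h⟩ _ _
      rfl
  have h2 : ∀ S : Finset V, ∑ T ∈ Finset.univ.filter (fun T : Finset C => Disjoint T (S.image col)),
      cobF col x φ S T * z S (ind T) = ∑ v ∈ S, ∑ T ∈ Finset.univ.filter (fun T : Finset C => Disjoint T (S.image col)),
        (φ (S.erase v) T + x v * φ (S.erase v) (insert (col v) T)) * z S (ind T) := by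
    intro S
    rw [Finset.sum_comm]
    refine Finset.sum_congr rfl fun T _ => ?_
    rw [cobF, Finset.sum_mul]
  rw [h1, Finset.sum_congr rfl fun S _ => h2 S,
    sum_swap (fun S v => ∑ T ∈ Finset.univ.filter (fun T : Finset C => Disjoint T (S.image col)),
        (φ (S.erase v) T + x v * φ (S.erase v) (insert (col v) T)) * z S (ind T))]
  refine Finset.sum_eq_zero fun S _ => ?_
  have h3 : ∀ v ∈ Sᶜ, ∑ T ∈ Finset.univ.filter (fun T : Finset C => Disjoint T ((insert v S).image col)),
      (φ ((insert v S).erase v) T + x v * φ ((insert v S).erase v) (insert (col v) T)) * z (insert v S) (ind T) =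
      ∑ T ∈ Finset.univ.filter (fun T : Finset C => Disjoint T (S.image col)), φ S T * z (insert v S) (ind T) := by
    intro v hv
    rw [Finset.mem_compl] at hv
    by_cases hS : G.IsClique (insert v S : Finset V) ∧ (insert v S).card = j
    · rw [Finset.erase_insert hv, Finset.image_insert]
      refine sum_state ?_ (φ S) (fun T => z (insert v S) (ind T)) ?_
      · rw [Finset.mem_image]
        rintro ⟨u, hu, huv⟩
        refine hcol u v (hS.1 ?_ ?_ ?_) huv
        · simp [hu]
        · simp
        · rintro rfl
          exact hv hu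
      · intro T hT
        have := fix_of_mem hz (Finset.mem_insert_self v S) (ind T)
        rwa [ind_update_true hT, ind_update_false] at this
    · rw [hz.1 _ hS]
      simp
  rw [Finset.sum_congr rfl h3, Finset.sum_comm]
  refine Finset.sum_eq_zero fun T _ => ?_
  rw [← Finset.mul_sum]
  have h4 := congrFun (hz.2.2 S) (ind T)
  rw [Finset.sum_apply, Pi.zero_apply] at h4
  rw [h4, mul_zero]

theorem eq_zero_of_ind [CharP K 2] {G : SimpleGraph V} {col : V → C} {x : V → K}
    {j : ℕ} {z : Finset V → (C → Bool) → K} (hz : z ∈ ZM G (fun v => Tl (col v) (x v)) j)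
    (h : ∀ p : Idx G col j, z p.1.1 (ind p.1.2) = 0) : z = 0 := by
  classical
  funext S
  by_cases hS : G.IsClique S ∧ S.card = j
  swap
  · rw [hz.1 S hS]
    rfl
  have key : ∀ n, ∀ ε : C → Bool, ((S.image col).filter (fun c => ε c = true)).card = n → z S ε = 0 := by
    intro n
    induction n using Nat.strong_induction_on with
    | _ n IH =>
      intro ε hn
      by_cases he : ((S.image col).filter (fun c => ε c = true)) = ∅
      · have e : ε = ind (Finset.univ.filter fun c => ε c = true) := by
          ext c
          simp [ind]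
        rw [e]
        refine h ⟨(S, Finset.univ.filter fun c => ε c = true), hS.1, hS.2, ?_⟩
        rw [Finset.disjoint_left]
        intro c hc hc'
        have : c ∈ ((S.image col).filter (fun c => ε c = true)) := by
          rw [Finset.mem_filter] at hc ⊢
          exact ⟨hc', hc.2⟩
        rw [he] at this
        exact absurd this (Finset.notMem_empty _)
      · obtain ⟨c, hc⟩ := Finset.nonempty_iff_ne_empty.2 he
        rw [Finset.mem_filter, Finset.mem_image] at hc
        obtain ⟨⟨v, hv, rfl⟩, hc2⟩ := hc
        have h1 := fix_of_mem hz hv ε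
        have h2 : Function.update ε (col v) true = ε := by
          rw [Function.update_eq_self_iff, hc2]
        rw [h2] at h1
        rw [h1]
        rw [IH _ ?_ (Function.update ε (col v) false) rfl, mul_zero]
        rw [← hn]
        refine Finset.card_lt_card ?_
        rw [Finset.ssubset_iff_of_subset]
        · refine ⟨col v, ?_, ?_⟩
          · rw [Finset.mem_filter]
            exact ⟨Finset.mem_image_of_mem _ hv, hc2⟩
          · simp
        · intro c hc
          rw [Finset.mem_filter] at hc ⊢
          refine ⟨hc.1, ?_⟩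
          by_cases hcv : c = col v
          · rw [hcv]
            exact hc2
          · rw [← hc.2, Function.update_of_ne hcv]
  funext ε
  exact key _ ε rfl

/-- the coboundary as a linear map -/
noncomputable def cobL (G : SimpleGraph V) (col : V → C) (x : V → K) (j : ℕ) :
    (Finset V → Finset C → K) →ₗ[K] (Idx G col j → K) where
  toFun φ p := cobF col x φ p.1.1 p.1.2
  map_add' φ ψ := by
    ext p
    simp only [cobF, Pi.add_apply, ← Finset.sum_add_distrib]
    exact Finset.sum_congr rfl fun v _ => by ring
  map_smul' a φ := by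
    ext p
    simp only [cobF, Pi.smul_apply, smul_eq_mul, Finset.mul_sum, RingHom.id_apply]
    exact Finset.sum_congr rfl fun v _ => by ring

open Classical in
/-- extension by zero -/
noncomputable def extL (G : SimpleGraph V) (col : V → C) (j : ℕ) :
    (Idx G col j → K) →ₗ[K] (Finset V → Finset C → K) where
  toFun f S T := if h : G.IsClique (S : Set V) ∧ S.card = j ∧ Disjoint T (S.image col) then f ⟨(S, T), h⟩ else 0
  map_add' f g := by
    funext S T
    simp only [Pi.add_apply]
    split_ifs <;> simp
  map_smul' a f := by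
    funext S T
    simp only [Pi.smul_apply, smul_eq_mul, RingHom.id_apply]
    split_ifs <;> simp

theorem finrank_ZM_add_range [CharP K 2] {G : SimpleGraph V} {col : V → C} (hcol : ∀ u v, G.Adj u v → col u ≠ col v)
    (x : V → K) (j : ℕ) :
    Module.finrank K (ZM G (fun v => Tl (col v) (x v)) j) + Module.finrank K (LinearMap.range (cobL G col x j)) ≤
      Fintype.card (Idx G col j) := by
  refine finrank_add_le
    { toFun := fun z p => z.1 p.1.1 (ind p.1.2)
      map_add' := fun z w => rfl
      map_smul' := fun a z => rfl } ?_ _ ?_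
  · rw [← LinearMap.ker_eq_bot, LinearMap.ker_eq_bot']
    intro z hz
    exact Subtype.ext (eq_zero_of_ind z.2 fun p => congrFun hz p)
  · rintro z _ ⟨φ, rfl⟩
    exact pairing hcol z.2 φ

theorem card_le_range [CharP K 2] {G : SimpleGraph V} {col : V → C} {x : V → K} {i : ℕ} (h : ExF G col x i) :
    Fintype.card (Idx G col i) ≤ Module.finrank K (LinearMap.range (cobL G col x i)) +
      Module.finrank K (LinearMap.range (cobL G col x (i + 1))) := by
  have h1 := LinearMap.finrank_range_add_finrank_ker (cobL G col x (i + 1) ∘ₗ extL G col i)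
  rw [Module.finrank_fintype_fun_eq_card] at h1
  have h2 : LinearMap.range (cobL G col x (i + 1) ∘ₗ extL G col i) ≤ LinearMap.range (cobL G col x (i + 1)) :=
    LinearMap.range_comp_le_range _ _
  have h3 : LinearMap.ker (cobL G col x (i + 1) ∘ₗ extL G col i) ≤ LinearMap.range (cobL G col x i) := by
    intro f hf
    rw [LinearMap.mem_ker] at hf
    obtain ⟨ψ, hψ⟩ := h (extL G col i f) fun S T hS hc hT => congrFun hf ⟨(S, T), hS, hc, hT⟩
    refine ⟨ψ, ?_⟩
    funext p
    have := hψ p.1.1 p.1.2 p.2.1 p.2.2.1 p.2.2.2
    refine this.trans ?_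
    exact dif_pos p.2
  have h4 := Submodule.finrank_mono h2
  have h5 := Submodule.finrank_mono h3
  omega

theorem finrank_ZM_add [CharP K 2] {G : SimpleGraph V} {col : V → C} (hcol : ∀ u v, G.Adj u v → col u ≠ col v)
    {x : V → K} {i : ℕ} (h : ExF G col x i) :
    Module.finrank K (ZM G (fun v => Tl (col v) (x v)) i) + Module.finrank K (ZM G (fun v => Tl (col v) (x v)) (i + 1)) ≤
      Fintype.card (Idx G col (i + 1)) := by
  have h1 := finrank_ZM_add_range hcol x i
  have h2 := finrank_ZM_add_range hcol x (i + 1)
  have h3 := card_le_range h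
  omega

open Classical in
theorem card_Idx {G : SimpleGraph V} {col : V → C} (hcol : ∀ u v, G.Adj u v → col u ≠ col v) (j : ℕ) :
    (Fintype.card (Idx G col j) : ℝ) =
      (Finset.univ.filter (fun S : Finset V => G.IsClique S ∧ S.card = j)).card * (1 / 2 : ℝ) ^ j *
        2 ^ Fintype.card C := by
  have h1 : Fintype.card (Idx G col j) = ∑ S ∈ Finset.univ.filter (fun S : Finset V => G.IsClique S ∧ S.card = j),
      (Finset.univ.filter (fun T : Finset C => Disjoint T (S.image col))).card := by
    rw [← Finset.card_sigma, ← Fintype.card_coe]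
    refine Fintype.card_congr ⟨fun p => ⟨⟨p.1.1, p.1.2⟩, ?_⟩, fun p => ⟨(p.1.1, p.1.2), ?_⟩, fun p => rfl, fun p => rfl⟩
    · have := p.2
      simp only [Finset.mem_sigma, Finset.mem_filter, Finset.mem_univ, true_and]
      tauto
    · have := p.2
      simp only [Finset.mem_sigma, Finset.mem_filter, Finset.mem_univ, true_and] at this
      tauto
  have h2 : ∀ S ∈ Finset.univ.filter (fun S : Finset V => G.IsClique S ∧ S.card = j),
      ((Finset.univ.filter (fun T : Finset C => Disjoint T (S.image col))).card : ℝ) =
        (1 / 2 : ℝ) ^ j * 2 ^ Fintype.card C := by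
    intro S hS
    rw [Finset.mem_filter] at hS
    have e : Finset.univ.filter (fun T : Finset C => Disjoint T (S.image col)) = (S.image col)ᶜ.powerset := by
      ext T
      simp only [Finset.mem_filter, Finset.mem_univ, true_and, Finset.mem_powerset]
      exact Finset.subset_compl_iff_disjoint_right.symm
    have hinj : Set.InjOn col (S : Set V) := by
      intro u hu v hv huv
      by_contra hne
      exact hcol u v (hS.2.1 hu hv hne) huv
    have hc : (S.image col).card = j := by
      rw [Finset.card_image_of_injOn hinj, hS.2.2]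
    have hle : j ≤ Fintype.card C := by
      rw [← hc]
      exact Finset.card_le_univ _
    rw [e, Finset.card_powerset, Finset.card_compl, hc]
    push_cast
    have : (2 : ℝ) ^ Fintype.card C = 2 ^ j * 2 ^ (Fintype.card C - j) := by
      rw [← pow_add, Nat.add_sub_cancel' hle]
    rw [this, ← mul_assoc, ← mul_pow]
    norm_num
  rw [h1]
  push_cast
  rw [Finset.sum_congr rfl h2, Finset.sum_const, nsmul_eq_mul, mul_assoc]

end col

/-! ### the theorem -/

section main

theorem vdim_Cy_le_col {V : Type} [Fintype V] [DecidableEq V] (G : SimpleGraph V) {C : Type} [Fintype C]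
    [DecidableEq C] (col : V → C) (hcol : ∀ u v, G.Adj u v → col u ≠ col v) (i : ℕ) :
    vdim (Cy rk G (Racg.gen G) Finset.univ i) * 2 ^ Fintype.card C ≤
      Module.finrank (KK V) (ZM G (fun v => Tl (col v) (xx v : KK V)) i) := by
  haveI : CharP (MvPolynomial V (ZMod 2)) 2 := inferInstance
  have h := vdim_Cy_le_poly G (J := V) (D := C → Bool)
    (fun v => Tm (col v) (MvPolynomial.X v : MvPolynomial V (ZMod 2))) (fun v => Tm_sq _ _)
    (fun u v huv => Tm_comm (hcol u v huv) _ _) (fun u v => by
      rw [Tm_map, Tm_map, MvPolynomial.constantCoeff_X, MvPolynomial.constantCoeff_X]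
      by_cases huv : col u = col v
      · rw [huv]
      · exact Tm_comm huv _ _) i
  have e : (fun v => Matrix.toLin' ((Tm (col v) (MvPolynomial.X v : MvPolynomial V (ZMod 2))).map
      (algebraMap (MvPolynomial V (ZMod 2)) (KK V)))) = fun v => Tl (col v) (xx v : KK V) := by
    funext v
    rw [Tm_map, toLin_Tm]
    rfl
  rw [e] at h
  have hD : (Fintype.card (C → Bool) : ℝ) = 2 ^ Fintype.card C := by
    rw [Fintype.card_fun, Fintype.card_bool]
    push_cast
    rfl
  rw [hD] at h
  exact h

/-- if the complex of the coloured graph is exact in degree `i`, the `i`-th Betti number is zero -/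
theorem bet_eq_zero_of_exF {V : Type} [Fintype V] [DecidableEq V] (G : SimpleGraph V) {C : Type} [Fintype C]
    [DecidableEq C] (col : V → C) (hcol : ∀ u v, G.Adj u v → col u ≠ col v) (i : ℕ)
    (h : ExF G col (xx : V → KK V) i) : bet G i = 0 := by
  classical
  have h0 : 0 ≤ bet G i := bn_nonneg rk G _ rk_inj _ _
  have h1 := vdim_Cy_le_col G col hcol i
  have h2 := vdim_Cy_le_col G col hcol (i + 1)
  have h3 := finrank_ZM_add hcol h
  have h4 := card_Idx hcol (i + 1)
  have h5 := vdim_Ch_eq G (i + 1)
  have h6 := vdim_Bd (r := rk) (G := G) (s := Racg.gen G) Finset.univ i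
  have h7 : bet G i = vdim (Cy rk G (Racg.gen G) Finset.univ i) - vdim (Bd rk G (Racg.gen G) Finset.univ i) := rfl
  have h3' : (Module.finrank (KK V) (ZM G (fun v => Tl (col v) (xx v : KK V)) i) : ℝ) +
      Module.finrank (KK V) (ZM G (fun v => Tl (col v) (xx v : KK V)) (i + 1)) ≤ Fintype.card (Idx G col (i + 1)) := by
    exact_mod_cast h3
  have hpos : (0 : ℝ) < 2 ^ Fintype.card C := by positivity
  have h8 : bet G i * 2 ^ Fintype.card C ≤ 0 := by
    rw [h7, h6, h5]
    rw [h4] at h3'
    nlinarith
  have h9 : bet G i ≤ 0 := by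
    by_contra hlt
    push_neg at hlt
    have := mul_pos hlt hpos
    linarith
  exact le_antisymm h9 h0

end main

end Ord
end Singer
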