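import Pool.Agent.Singer.Ord.Defs

/-!
# Singer/Ord: from states to cliques

A state is a list; `enc g m` is the list of the values of `g` at `m - 1, …, 0`.
-/

set_option autoImplicit false
set_option linter.unusedVariables false

namespace Singer
namespace Ord

namespace Conv

section enc

variable {P : Type}

/-- the list `[g (k - 1), …, g 0]` -/
def enc (g : ℕ → St P) : ℕ → List (St P)
  | 0 => []
  | k + 1 => g k :: enc g k

lemma enc_congr {g g' : ℕ → St P} {k : ℕ} (h : ∀ c < k, g c = g' c) : enc g k = enc g' k := by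
  induction k with
  | zero => rfl
  | succ k ih =>
    rw [enc, enc, h k (Nat.lt_succ_self k), ih fun c hc => h c (Nat.lt_succ_of_lt hc)]

lemma enc_inj {g g' : ℕ → St P} {k : ℕ} (h : enc g k = enc g' k) : ∀ c < k, g c = g' c := by
  induction k with
  | zero => intro c hc; omega
  | succ k ih =>
    rw [enc, enc] at h
    injection h with h1 h2
    intro c hc
    rcases Nat.lt_succ_iff_lt_or_eq.mp hc with h3 | h3
    · exact ih h2 c h3
    · rw [h3]
      exact h1

lemma exists_enc (k : ℕ) : ∀ e : List (St P), e.length = k → ∃ g : ℕ → St P, e = enc g k := by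
  induction k with
  | zero =>
    intro e he
    refine ⟨fun _ => .c0, ?_⟩
    rw [enc]
    exact List.length_eq_zero_iff.mp he
  | succ k ih =>
    intro e he
    cases e with
    | nil => simp at he
    | cons a e =>
      obtain ⟨g, hg⟩ := ih e (by simpa using he)
      refine ⟨fun c => if c = k then a else g c, ?_⟩
      rw [enc, if_pos rfl, hg]
      congr 1
      apply enc_congr
      intro c hc
      rw [if_neg (by omega)]

lemma val_length [LE P] {r : P → ℕ} (m : ℕ) : ∀ (s : P) (e : List (St P)), Val r s m e → e.length = m := by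
  induction m with
  | zero =>
    intro s e h
    rw [Val] at h
    rw [h]
    rfl
  | succ m ih =>
    intro s e h
    cases e with
    | nil => simp [Val] at h
    | cons a e =>
      cases a with
      | c0 =>
        rw [Val] at h
        simp [ih s e h]
      | c1 =>
        rw [Val] at h
        simp [ih s e h]
      | v u =>
        rw [Val] at h
        simp [ih u e h.2.2]

/-- the contribution of the colour `c` to the differential -/
def tm {F : Type} [CommRing F] (x : P → F) (Φ : List (St P) → F) (g : ℕ → St P) (k c : ℕ) : F :=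
  match g c with
  | .v u => Φ (enc (Function.update g c .c0) k) + x u * Φ (enc (Function.update g c .c1) k)
  | .c0 => 0
  | .c1 => 0

lemma tm_succ {F : Type} [CommRing F] (x : P → F) (Φ : List (St P) → F) (g : ℕ → St P) (k c : ℕ)
    (hc : c < k) : tm x Φ g (k + 1) c = tm x (fun e => Φ (g k :: e)) g k c := by
  have h : ∀ a : St P, enc (Function.update g c a) (k + 1) = g k :: enc (Function.update g c a) k := by
    intro a
    rw [enc, Function.update_of_ne (by omega)]
  unfold tm
  rw [h, h]

lemma tm_self {F : Type} [CommRing F] (x : P → F) (Φ : List (St P) → F) (g : ℕ → St P) (k : ℕ) (u : P)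
    (hg : g k = .v u) : tm x Φ g (k + 1) k = Φ (.c0 :: enc g k) + x u * Φ (.c1 :: enc g k) := by
  have h : ∀ a : St P, enc (Function.update g k a) (k + 1) = a :: enc g k := by
    intro a
    rw [enc, Function.update_self]
    congr 1
    apply enc_congr
    intro c hc
    rw [Function.update_of_ne (by omega)]
  unfold tm
  rw [hg, h, h]

lemma dd_enc {F : Type} [CommRing F] (x : P → F) (g : ℕ → St P) (k : ℕ) :
    ∀ Φ : List (St P) → F, dd x Φ (enc g k) = ∑ c ∈ Finset.range k, tm x Φ g k c := by
  induction k with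
  | zero => intro Φ; simp [enc, dd]
  | succ k ih =>
    intro Φ
    rw [Finset.sum_range_succ]
    have h1 : ∑ c ∈ Finset.range k, tm x Φ g (k + 1) c =
        dd x (fun e => Φ (g k :: e)) (enc g k) := by
      rw [ih]
      exact Finset.sum_congr rfl fun c hc => tm_succ x Φ g k c (Finset.mem_range.mp hc)
    rw [h1, enc]
    cases hg : g k with
    | c0 =>
      have h2 : tm x Φ g (k + 1) k = 0 := by unfold tm; rw [hg]
      rw [h2, dd, add_zero]
    | c1 =>
      have h2 : tm x Φ g (k + 1) k = 0 := by unfold tm; rw [hg]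
      rw [h2, dd, add_zero]
    | v u =>
      rw [tm_self x Φ g k u hg, dd]
      ring

lemma val_enc [Preorder P] {r : P → ℕ} (g : ℕ → St P) (k : ℕ) : ∀ s : P, Val r s k (enc g k) ↔
    (∀ c < k, ∀ u, g c = .v u → u ≤ s ∧ r u = 2 * c + 1) ∧
      ∀ c c', c < c' → c' < k → ∀ u u', g c = .v u → g c' = .v u' → u ≤ u' := by
  induction k with
  | zero =>
    intro s
    rw [enc, Val]
    simp
  | succ k ih =>
    intro s
    rw [enc]
    cases hg : g k with
    | c0 =>
      rw [Val, ih]
      constructor
      · rintro ⟨h1, h2⟩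
        refine ⟨fun c hc u hu => ?_, fun c c' hcc' hc' u u' hu hu' => ?_⟩
        · rcases Nat.lt_succ_iff_lt_or_eq.mp hc with h3 | h3
          · exact h1 c h3 u hu
          · rw [h3, hg] at hu
            cases hu
        · rcases Nat.lt_succ_iff_lt_or_eq.mp hc' with h3 | h3
          · exact h2 c c' hcc' h3 u u' hu hu'
          · rw [h3, hg] at hu'
            cases hu'
      · rintro ⟨h1, h2⟩
        exact ⟨fun c hc => h1 c (by omega), fun c c' hcc' hc' => h2 c c' hcc' (by omega)⟩
    | c1 =>
      rw [Val, ih]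
      constructor
      · rintro ⟨h1, h2⟩
        refine ⟨fun c hc u hu => ?_, fun c c' hcc' hc' u u' hu hu' => ?_⟩
        · rcases Nat.lt_succ_iff_lt_or_eq.mp hc with h3 | h3
          · exact h1 c h3 u hu
          · rw [h3, hg] at hu
            cases hu
        · rcases Nat.lt_succ_iff_lt_or_eq.mp hc' with h3 | h3
          · exact h2 c c' hcc' h3 u u' hu hu'
          · rw [h3, hg] at hu'
            cases hu'
      · rintro ⟨h1, h2⟩
        exact ⟨fun c hc => h1 c (by omega), fun c c' hcc' hc' => h2 c c' hcc' (by omega)⟩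
    | v w =>
      rw [Val, ih]
      constructor
      · rintro ⟨hw, hrw, h1, h2⟩
        refine ⟨fun c hc u hu => ?_, fun c c' hcc' hc' u u' hu hu' => ?_⟩
        · rcases Nat.lt_succ_iff_lt_or_eq.mp hc with h3 | h3
          · obtain ⟨h4, h5⟩ := h1 c h3 u hu
            exact ⟨h4.trans hw, h5⟩
          · rw [h3, hg] at hu
            injection hu with hu
            rw [← hu, h3]
            exact ⟨hw, hrw⟩
        · rcases Nat.lt_succ_iff_lt_or_eq.mp hc' with h3 | h3
          · exact h2 c c' hcc' h3 u u' hu hu'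
          · rw [h3, hg] at hu'
            injection hu' with hu'
            rw [← hu']
            exact (h1 c (by omega) u hu).1
      · rintro ⟨h1, h2⟩
        obtain ⟨hw, hrw⟩ := h1 k (by omega) w hg
        refine ⟨hw, hrw, fun c hc u hu => ⟨h2 c k hc (by omega) u w hu hg, (h1 c (by omega) u hu).2⟩,
          fun c c' hcc' hc' => h2 c c' hcc' (by omega)⟩

end enc

section pairs

variable {P : Type} {V : Type} {m : ℕ}

open Classical in
/-- the state of a pair of a set of vertices and a set of colours -/
noncomputable def st (f : V → P) (col : V → Fin m) (S : Finset V) (T : Finset (Fin m)) (c : ℕ) : St P :=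
  if h : ∃ v ∈ S, (col v : ℕ) = c then .v (f h.choose)
  else if ∃ c' ∈ T, (c' : ℕ) = c then .c1 else .c0

/-- different colours on `S` -/
def Inj (col : V → Fin m) (S : Finset V) : Prop := ∀ v ∈ S, ∀ w ∈ S, col v = col w → v = w

lemma st_v {f : V → P} {col : V → Fin m} {S : Finset V} (T : Finset (Fin m)) (hS : Inj col S) {v : V}
    (hv : v ∈ S) {c : ℕ} (hc : (col v : ℕ) = c) : st f col S T c = .v (f v) := by
  have h : ∃ v ∈ S, (col v : ℕ) = c := ⟨v, hv, hc⟩
  unfold st
  rw [dif_pos h]
  have h1 := h.choose_spec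
  congr 2
  apply hS _ h1.1 _ hv
  apply Fin.ext
  rw [h1.2, hc]

lemma st_of_v {f : V → P} {col : V → Fin m} {S : Finset V} {T : Finset (Fin m)} {c : ℕ} {u : P}
    (h : st f col S T c = .v u) : ∃ v ∈ S, (col v : ℕ) = c ∧ f v = u := by
  unfold st at h
  split_ifs at h with h1 h2
  injection h with h3
  exact ⟨h1.choose, h1.choose_spec.1, h1.choose_spec.2, h3⟩

lemma st_c1 {f : V → P} {col : V → Fin m} {S : Finset V} {T : Finset (Fin m)} {c : ℕ}
    (h : ¬ ∃ v ∈ S, (col v : ℕ) = c) (h2 : ∃ c' ∈ T, (c' : ℕ) = c) : st f col S T c = .c1 := by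
  unfold st
  rw [dif_neg h, if_pos h2]

lemma st_c0 {f : V → P} {col : V → Fin m} {S : Finset V} {T : Finset (Fin m)} {c : ℕ}
    (h : ¬ ∃ v ∈ S, (col v : ℕ) = c) (h2 : ¬ ∃ c' ∈ T, (c' : ℕ) = c) : st f col S T c = .c0 := by
  unfold st
  rw [dif_neg h, if_neg h2]

lemma Inj.erase [DecidableEq V] {col : V → Fin m} {S : Finset V} (hS : Inj col S) (v : V) :
    Inj col (S.erase v) := fun a ha b hb h =>
  hS a (Finset.mem_of_mem_erase ha) b (Finset.mem_of_mem_erase hb) h

/-- replacing a vertex by `c0` or `c1` -/
lemma update_c0 [DecidableEq V] {f : V → P} {col : V → Fin m} {S : Finset V} {T : Finset (Fin m)}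
    (hS : Inj col S) (hT : Disjoint T (S.image col)) {v : V} (hv : v ∈ S) :
    Function.update (st f col S T) (col v) .c0 = st f col (S.erase v) T := by
  funext c
  by_cases hc : c = (col v : ℕ)
  · rw [hc, Function.update_self, st_c0]
    · rintro ⟨w, hw, hwc⟩
      have h1 : w = v := hS w (Finset.mem_of_mem_erase hw) v hv (Fin.ext hwc)
      exact (Finset.ne_of_mem_erase hw) h1
    · rintro ⟨c', hc', h⟩
      have h1 : c' = col v := Fin.ext h
      rw [h1] at hc'
      exact Finset.disjoint_left.mp hT hc' (Finset.mem_image_of_mem col hv)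
  · rw [Function.update_of_ne hc]
    by_cases h1 : ∃ w ∈ S, (col w : ℕ) = c
    · obtain ⟨w, hw, hwc⟩ := h1
      have hwv : w ≠ v := by
        rintro rfl
        exact hc hwc.symm
      rw [st_v T hS hw hwc, st_v T (hS.erase v) (Finset.mem_erase.mpr ⟨hwv, hw⟩) hwc]
    · have h2 : ¬ ∃ w ∈ S.erase v, (col w : ℕ) = c := by
        rintro ⟨w, hw, hwc⟩
        exact h1 ⟨w, Finset.mem_of_mem_erase hw, hwc⟩
      by_cases h3 : ∃ c' ∈ T, (c' : ℕ) = c
      · rw [st_c1 h1 h3, st_c1 h2 h3]
      · rw [st_c0 h1 h3, st_c0 h2 h3]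

lemma update_c1 [DecidableEq V] {f : V → P} {col : V → Fin m} {S : Finset V} {T : Finset (Fin m)}
    (hS : Inj col S) {v : V} (hv : v ∈ S) :
    Function.update (st f col S T) (col v) .c1 = st f col (S.erase v) (insert (col v) T) := by
  funext c
  by_cases hc : c = (col v : ℕ)
  · rw [hc, Function.update_self, st_c1]
    · rintro ⟨w, hw, hwc⟩
      have h1 : w = v := hS w (Finset.mem_of_mem_erase hw) v hv (Fin.ext hwc)
      exact (Finset.ne_of_mem_erase hw) h1
    · exact ⟨col v, Finset.mem_insert_self _ _, rfl⟩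
  · rw [Function.update_of_ne hc]
    by_cases h1 : ∃ w ∈ S, (col w : ℕ) = c
    · obtain ⟨w, hw, hwc⟩ := h1
      have hwv : w ≠ v := by
        rintro rfl
        exact hc hwc.symm
      rw [st_v T hS hw hwc, st_v _ (hS.erase v) (Finset.mem_erase.mpr ⟨hwv, hw⟩) hwc]
    · have h2 : ¬ ∃ w ∈ S.erase v, (col w : ℕ) = c := by
        rintro ⟨w, hw, hwc⟩
        exact h1 ⟨w, Finset.mem_of_mem_erase hw, hwc⟩
      by_cases h3 : ∃ c' ∈ T, (c' : ℕ) = c
      · rw [st_c1 h1 h3, st_c1 h2]
        obtain ⟨c', hc', h⟩ := h3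
        exact ⟨c', Finset.mem_insert_of_mem hc', h⟩
      · rw [st_c0 h1 h3, st_c0 h2]
        rintro ⟨c', hc', h⟩
        rcases Finset.mem_insert.mp hc' with h4 | h4
        · rw [h4] at h
          exact hc h.symm
        · exact h3 ⟨c', h4, h⟩

/-- the differential of a state is the differential of the pair -/
lemma dd_st [DecidableEq V] {F : Type} [CommRing F] (x : P → F) (Ψ : List (St P) → F) {f : V → P}
    {col : V → Fin m} {S : Finset V} {T : Finset (Fin m)} (hS : Inj col S)
    (hT : Disjoint T (S.image col)) :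
    dd x Ψ (enc (st f col S T) m) =
      cobF col (fun v => x (f v)) (fun S T => Ψ (enc (st f col S T) m)) S T := by
  rw [dd_enc]
  unfold cobF
  have h1 : ∀ v ∈ S, Ψ (enc (st f col (S.erase v) T) m) +
      x (f v) * Ψ (enc (st f col (S.erase v) (insert (col v) T)) m) =
      tm x Ψ (st f col S T) m (col v) := by
    intro v hv
    unfold tm
    rw [st_v T hS hv rfl, update_c0 hS hT hv, update_c1 hS hv]
  rw [Finset.sum_congr rfl h1]
  rw [← Finset.sum_image (f := fun c => tm x Ψ (st f col S T) m c) (g := fun v => (col v : ℕ))]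
  · symm
    apply Finset.sum_subset
    · intro c hc
      obtain ⟨v, _, rfl⟩ := Finset.mem_image.mp hc
      exact Finset.mem_range.mpr (col v).isLt
    · intro c _ hc
      unfold tm
      cases h2 : st f col S T c with
      | c0 => rfl
      | c1 => rfl
      | v u =>
        obtain ⟨v, hv, hvc, _⟩ := st_of_v h2
        exact absurd (Finset.mem_image.mpr ⟨v, hv, hvc⟩) hc
  · intro v hv w hw h
    exact hS v hv w hw (Fin.ext h)

lemma deg_st [DecidableEq V] {f : V → P} {col : V → Fin m} {S : Finset V} {T : Finset (Fin m)}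
    (hS : Inj col S) (k : ℕ) :
    deg (enc (st f col S T) k) = (S.filter fun v => (col v : ℕ) < k).card := by
  induction k with
  | zero => simp [enc, deg]
  | succ k ih =>
    rw [enc]
    by_cases h : ∃ v ∈ S, (col v : ℕ) = k
    · obtain ⟨v, hv, hvk⟩ := h
      rw [st_v T hS hv hvk, deg, ih]
      have h1 : (S.filter fun w => (col w : ℕ) < k + 1) =
          insert v (S.filter fun w => (col w : ℕ) < k) := by
        ext w
        simp only [Finset.mem_filter, Finset.mem_insert]
        constructor
        · rintro ⟨h2, h3⟩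
          rcases Nat.lt_succ_iff_lt_or_eq.mp h3 with h4 | h4
          · exact Or.inr ⟨h2, h4⟩
          · exact Or.inl (hS w h2 v hv (Fin.ext (by rw [h4, hvk])))
        · rintro (h2 | ⟨h2, h3⟩)
          · rw [h2]
            exact ⟨hv, by omega⟩
          · exact ⟨h2, by omega⟩
      rw [h1, Finset.card_insert_of_notMem]
      simp only [Finset.mem_filter, not_and]
      intro _
      omega
    · have h1 : (S.filter fun w => (col w : ℕ) < k + 1) = (S.filter fun w => (col w : ℕ) < k) := by
        apply Finset.filter_congr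
        intro w hw
        constructor
        · intro h3
          rcases Nat.lt_succ_iff_lt_or_eq.mp h3 with h4 | h4
          · exact h4
          · exact absurd ⟨w, hw, h4⟩ h
        · intro h3
          omega
      rw [h1, ← ih]
      by_cases h2 : ∃ c' ∈ T, (c' : ℕ) = k
      · rw [st_c1 h h2, deg]
      · rw [st_c0 h h2, deg]

end pairs

end Conv

open Conv in
/-- from states to cliques: `V` = the elements of odd rank below the top element `q` -/
theorem exF_of_ex {P : Type} [Fintype P] [PartialOrder P] {F : Type} [Field F] {r : P → ℕ} {o q : P} {x : P → F} {m : ℕ}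
    (hr : StrictMono r) (hb : ∀ p, o ≤ p) (ht : ∀ p, p ≤ q) (h0 : r o = 0) (hm : r q = 2 * m ∨ r q = 2 * m + 1)
    {V : Type} [Fintype V] [DecidableEq V] (G : SimpleGraph V) (f : V → P) (hf : Function.Injective f)
    (hfr : ∀ p, (∃ v, f v = p) ↔ p < q ∧ Odd (r p)) (hG : ∀ a b, G.Adj a b ↔ f a < f b ∨ f b < f a)
    (col : V → Fin m) (hcol : ∀ v, r (f v) = 2 * (col v : ℕ) + 1) (i : ℕ) (h : Ex r x q m i) :
    ExF G col (fun v => x (f v)) i := by
  classical
  -- cliques have different colours
  have hcl : ∀ S : Finset V, G.IsClique S → Inj col S := by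
    intro S hS v hv w hw hvw
    by_contra hne
    have h1 := hS (Finset.mem_coe.mpr hv) (Finset.mem_coe.mpr hw) hne
    rw [hG] at h1
    have h2 := hcol v
    have h3 := hcol w
    rw [hvw] at h2
    rcases h1 with h1 | h1
    · have := hr h1
      omega
    · have := hr h1
      omega
  have hle : ∀ S : Finset V, G.IsClique S → ∀ v ∈ S, ∀ w ∈ S, (col v : ℕ) < col w → f v ≤ f w := by
    intro S hS v hv w hw hvw
    have hne : v ≠ w := by
      rintro rfl
      omega
    have h1 := hS (Finset.mem_coe.mpr hv) (Finset.mem_coe.mpr hw) hne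
    rw [hG] at h1
    have h2 := hcol v
    have h3 := hcol w
    rcases h1 with h1 | h1
    · exact h1.le
    · have := hr h1
      omega
  have hval : ∀ (S : Finset V) (T : Finset (Fin m)), G.IsClique S → Val r q m (enc (st f col S T) m) := by
    intro S T hS
    rw [val_enc]
    refine ⟨fun c _ u hu => ?_, fun c c' hcc' _ u u' hu hu' => ?_⟩
    · obtain ⟨v, _, hvc, rfl⟩ := st_of_v hu
      refine ⟨ht _, ?_⟩
      rw [hcol, hvc]
    · obtain ⟨v, hv, hvc, rfl⟩ := st_of_v hu
      obtain ⟨w, hw, hwc, rfl⟩ := st_of_v hu'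
      exact hle S hS v hv w hw (by omega)
  have hdeg : ∀ (S : Finset V) (T : Finset (Fin m)), G.IsClique S →
      deg (enc (st f col S T) m) = S.card := by
    intro S T hS
    rw [deg_st (hcl S hS)]
    congr 1
    rw [Finset.filter_eq_self]
    intro v _
    exact (col v).isLt
  -- injectivity
  have hinj : ∀ (S S' : Finset V) (T T' : Finset (Fin m)), G.IsClique S → G.IsClique S' →
      Disjoint T (S.image col) → Disjoint T' (S'.image col) →
      enc (st f col S T) m = enc (st f col S' T') m → S ⊆ S' ∧ T ⊆ T' := by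
    intro S S' T T' hS hS' hT hT' he
    have h1 := enc_inj he
    refine ⟨fun v hv => ?_, fun c hc => ?_⟩
    · have h2 := h1 (col v) (col v).isLt
      rw [st_v T (hcl S hS) hv rfl] at h2
      obtain ⟨w, hw, _, hwf⟩ := st_of_v h2.symm
      rwa [← hf hwf]
    · have h2 := h1 c c.isLt
      have h3 : ¬ ∃ v ∈ S, (col v : ℕ) = c := by
        rintro ⟨v, hv, hvc⟩
        have h4 : col v = c := Fin.ext hvc
        exact Finset.disjoint_left.mp hT hc (Finset.mem_image.mpr ⟨v, hv, h4⟩)
      rw [st_c1 h3 ⟨c, hc, rfl⟩] at h2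
      by_cases h4 : ∃ v ∈ S', (col v : ℕ) = c
      · obtain ⟨v, hv, hvc⟩ := h4
        rw [st_v T' (hcl S' hS') hv hvc] at h2
        cases h2
      · by_cases h5 : ∃ c' ∈ T', (c' : ℕ) = c
        · obtain ⟨c', hc', h6⟩ := h5
          have h7 : c' = c := Fin.ext h6
          rwa [← h7]
        · rw [st_c0 h4 h5] at h2
          cases h2
  -- surjectivity
  have hsurj : ∀ e, Val r q m e → ∃ (S : Finset V) (T : Finset (Fin m)), G.IsClique S ∧
      Disjoint T (S.image col) ∧ e = enc (st f col S T) m := by
    intro e he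
    obtain ⟨g, rfl⟩ := exists_enc m e (val_length m q e he)
    rw [val_enc] at he
    obtain ⟨h1, h2⟩ := he
    set S : Finset V := Finset.univ.filter fun v => g (col v) = .v (f v) with hSdef
    set T : Finset (Fin m) := Finset.univ.filter fun c => g c = .c1 with hTdef
    have hSm : ∀ v, v ∈ S ↔ g (col v) = .v (f v) := by
      intro v
      rw [hSdef, Finset.mem_filter]
      simp
    have hTm : ∀ c : Fin m, c ∈ T ↔ g c = .c1 := by
      intro c
      rw [hTdef, Finset.mem_filter]
      simp
    have hS : G.IsClique S := by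
      intro v hv w hw hne
      rw [Finset.mem_coe, hSm] at hv hw
      rw [hG]
      have hne' : f v ≠ f w := fun h => hne (hf h)
      rcases Nat.lt_trichotomy (col v : ℕ) (col w : ℕ) with h3 | h3 | h3
      · left
        exact lt_of_le_of_ne (h2 _ _ h3 (col w).isLt _ _ hv hw) hne'
      · rw [h3, hw] at hv
        injection hv with hv
        exact absurd hv.symm hne'
      · right
        exact lt_of_le_of_ne (h2 _ _ h3 (col v).isLt _ _ hw hv) hne'.symm
    refine ⟨S, T, hS, ?_, ?_⟩
    · rw [Finset.disjoint_left]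
      intro c hc hc'
      obtain ⟨v, hv, rfl⟩ := Finset.mem_image.mp hc'
      rw [hSm] at hv
      rw [hTm] at hc
      rw [hv] at hc
      cases hc
    · apply enc_congr
      intro c hc
      cases hgc : g c with
      | c0 =>
        rw [st_c0]
        · rintro ⟨v, hv, hvc⟩
          rw [hSm, hvc, hgc] at hv
          cases hv
        · rintro ⟨c', hc', h3⟩
          rw [hTm, h3, hgc] at hc'
          cases hc'
      | c1 =>
        rw [st_c1]
        · rintro ⟨v, hv, hvc⟩
          rw [hSm, hvc, hgc] at hv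
          cases hv
        · exact ⟨⟨c, hc⟩, (hTm _).mpr hgc, rfl⟩
      | v u =>
        obtain ⟨h3, h4⟩ := h1 c hc u hgc
        have h5 : u < q := by
          refine lt_of_le_of_ne h3 ?_
          rintro rfl
          omega
        obtain ⟨v, hv⟩ := (hfr u).mpr ⟨h5, by rw [h4]; exact ⟨c, rfl⟩⟩
        have h6 : (col v : ℕ) = c := by
          have h7 := hcol v
          rw [hv, h4] at h7
          omega
        have h7 : v ∈ S := by
          rw [hSm, h6, hgc, hv]
        rw [st_v T (hcl S hS) h7 h6, hv]
  -- transport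
  intro φ hφ
  set Φ : List (St P) → F := fun e =>
    if h : ∃ p : Finset V × Finset (Fin m), G.IsClique p.1 ∧ Disjoint p.2 (p.1.image col) ∧
      e = enc (st f col p.1 p.2) m then φ h.choose.1 h.choose.2 else 0 with hΦ
  have hΦst : ∀ (S : Finset V) (T : Finset (Fin m)), G.IsClique S → Disjoint T (S.image col) →
      Φ (enc (st f col S T) m) = φ S T := by
    intro S T hS hT
    have hex : ∃ p : Finset V × Finset (Fin m), G.IsClique p.1 ∧ Disjoint p.2 (p.1.image col) ∧
      enc (st f col S T) m = enc (st f col p.1 p.2) m := ⟨(S, T), hS, hT, rfl⟩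
    rw [hΦ]
    simp only
    rw [dif_pos hex]
    obtain ⟨h1, h2, h3⟩ := hex.choose_spec
    have h4 := hinj _ _ _ _ hS h1 hT h2 h3
    have h5 := hinj _ _ _ _ h1 hS h2 hT h3.symm
    rw [Finset.Subset.antisymm h5.1 h4.1, Finset.Subset.antisymm h5.2 h4.2]
  have hcob : ∀ (S : Finset V) (T : Finset (Fin m)), G.IsClique S → Disjoint T (S.image col) →
      cobF col (fun v => x (f v)) (fun S T => Φ (enc (st f col S T) m)) S T =
        cobF col (fun v => x (f v)) φ S T := by
    intro S T hS hT
    unfold cobF
    refine Finset.sum_congr rfl fun v hv => ?_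
    have hSe : G.IsClique (S.erase v : Finset V) := by
      intro a ha b hb hne
      exact hS (Finset.mem_coe.mpr (Finset.mem_of_mem_erase (Finset.mem_coe.mp ha)))
        (Finset.mem_coe.mpr (Finset.mem_of_mem_erase (Finset.mem_coe.mp hb))) hne
    have hT1 : Disjoint T ((S.erase v).image col) :=
      hT.mono_right (Finset.image_subset_image (Finset.erase_subset v S))
    have hT2 : Disjoint (insert (col v) T) ((S.erase v).image col) := by
      rw [Finset.disjoint_insert_left]
      refine ⟨?_, hT1⟩
      intro h3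
      obtain ⟨w, hw, hwc⟩ := Finset.mem_image.mp h3
      exact (Finset.ne_of_mem_erase hw) (hcl S hS w (Finset.mem_of_mem_erase hw) v hv hwc)
    beta_reduce
    rw [hΦst _ _ hSe hT1, hΦst _ _ hSe hT2]
  obtain ⟨Ψ, hΨ⟩ := h Φ (by
    intro e he hdege
    obtain ⟨S, T, hS, hT, rfl⟩ := hsurj e he
    rw [dd_st x Φ (hcl S hS) hT, hcob S T hS hT]
    apply hφ S T hS _ hT
    rw [← hdeg S T hS, hdege])
  refine ⟨fun S T => Ψ (enc (st f col S T) m), ?_⟩
  intro S T hS hSi hT
  rw [← dd_st x Ψ (hcl S hS) hT, hΨ _ (hval S T hS) (by rw [hdeg S T hS, hSi]), hΦst S T hS hT]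

end Ord
end Singer
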