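import Pool.Agent.Singer.Ord.Defs
import Pool.Agent.Singer.Upper

/-!
# Singer/Ord: elimination of the elements of even rank

* `bn_join_eq_zero` : the join of an acyclic full subgraph with any set of vertices is acyclic
* `bn_le_odd` : if the sets of elements below the elements of even rank are acyclic, the elements of even rank can be
  removed
-/

set_option autoImplicit false
set_option linter.unusedSectionVars false
set_option linter.unusedVariables false

namespace Singer
namespace Ord

/-- adding a vertex whose set of neighbours is acyclic -/
theorem bn_insert_le_of_zero {V : Type} [Fintype V] [DecidableEq V] (G : SimpleGraph V) {a : V} {A U : Finset V}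
    (hN : Nbr G a A U) (h : ∀ i, bn rk G (Racg.gen G) U i = 0) (i : ℕ) :
    bn rk G (Racg.gen G) (insert a A) i ≤ bn rk G (Racg.gen G) A i := by
  have hf := gen_notMem G a (A := U) hN.notMem'
  cases i with
  | zero => exact bn_insert_zero_le injective_rk (isSys_gen G) hN hf
  | succ i =>
    have h1 := bn_insert_succ_le injective_rk (isSys_gen G) hN hf i
    rw [h i] at h1
    linarith

/-- the join of an acyclic full subgraph with any set of vertices is acyclic -/
theorem bn_join_eq_zero {V : Type} [Fintype V] [DecidableEq V] (G : SimpleGraph V) {A B : Finset V}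
    (hd : Disjoint A B) (hAB : ∀ a ∈ A, ∀ b ∈ B, G.Adj a b) (h : ∀ i, bn rk G (Racg.gen G) A i = 0) (i : ℕ) :
    bn rk G (Racg.gen G) (A ∪ B) i = 0 := by
  classical
  have key : ∀ n : ℕ, ∀ B : Finset V, B.card = n → Disjoint A B → (∀ a ∈ A, ∀ b ∈ B, G.Adj a b) →
      ∀ i, bn rk G (Racg.gen G) (A ∪ B) i = 0 := by
    intro n
    induction n using Nat.strong_induction_on with
    | _ n ih =>
      intro B hn hd hAB i
      rcases B.eq_empty_or_nonempty with rfl | ⟨b, hb⟩
      · rw [Finset.union_empty]
        exact h i
      · obtain ⟨B', hb', rfl⟩ : ∃ B', b ∉ B' ∧ insert b B' = B :=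
          ⟨B.erase b, Finset.notMem_erase b B, Finset.insert_erase hb⟩
        have hbA : b ∉ A := fun hA => (Finset.disjoint_left.1 hd hA) hb
        have hdA : Disjoint A B' := Finset.disjoint_left.2 fun x hx hx' =>
          Finset.disjoint_left.1 hd hx (Finset.mem_insert_of_mem hx')
        have hcard : B'.card + 1 = n := by rw [← hn, Finset.card_insert_of_notMem hb']
        have hN : Nbr G b (A ∪ B') (A ∪ B'.filter fun v => G.Adj b v) := by
          refine ⟨by simp [hbA, hb'], ?_⟩
          intro v
          simp only [Finset.mem_union, Finset.mem_filter]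
          constructor
          · rintro (hv | ⟨hv, hv'⟩)
            · exact ⟨Or.inl hv, (hAB v hv b hb).symm⟩
            · exact ⟨Or.inr hv, hv'⟩
          · rintro ⟨hv | hv, hv'⟩
            · exact Or.inl hv
            · exact Or.inr ⟨hv, hv'⟩
        have hU : ∀ i, bn rk G (Racg.gen G) (A ∪ B'.filter fun v => G.Adj b v) i = 0 := by
          have hle : (B'.filter fun v => G.Adj b v).card ≤ B'.card := Finset.card_filter_le _ _
          refine ih (B'.filter fun v => G.Adj b v).card (by omega) _ rfl ?_ ?_
          · exact Finset.disjoint_left.2 fun x hx hx' =>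
              Finset.disjoint_left.1 hdA hx (Finset.mem_filter.1 hx').1
          · intro a ha c hc
            exact hAB a ha c (Finset.mem_insert_of_mem (Finset.mem_filter.1 hc).1)
        have h1 := bn_insert_le_of_zero G hN hU i
        have h2 := ih B'.card (by omega) B' rfl hdA
          (fun a ha c hc => hAB a ha c (Finset.mem_insert_of_mem hc)) i
        rw [h2] at h1
        have h3 := bn_nonneg (r := rk) (G := G) (s := Racg.gen G) (hr := injective_rk)
          (A := insert b (A ∪ B')) (i := i)
        have h4 : A ∪ insert b B' = insert b (A ∪ B') := by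
          rw [Finset.union_insert]
        rw [h4]
        linarith
  exact key B.card B rfl hd hAB i

/-- removing the elements of even rank -/
theorem bn_le_odd {V : Type} [Fintype V] [DecidableEq V] [PartialOrder V] (r : V → ℕ) (hr : StrictMono r)
    (h : ∀ y, Even (r y) → ∀ (A : Finset V), (∀ v, v ∈ A ↔ v < y) → ∀ i, bn rk (Cmp : SimpleGraph V) (Racg.gen Cmp) A i = 0)
    {A : Finset V} (hA : ∀ v, v ∈ A ↔ Odd (r v)) (i : ℕ) :
    bn rk (Cmp : SimpleGraph V) (Racg.gen Cmp) Finset.univ i ≤ bn rk (Cmp : SimpleGraph V) (Racg.gen Cmp) A i := by
  classical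
  have key : ∀ S : Finset V, (∀ y ∈ S, Even (r y)) → (∀ y ∈ S, ∀ v, Even (r v) → v < y → v ∈ S) →
      bn rk (Cmp : SimpleGraph V) (Racg.gen Cmp) (A ∪ S) i ≤ bn rk (Cmp : SimpleGraph V) (Racg.gen Cmp) A i := by
    intro S
    induction S using Finset.induction_on_max_value r with
    | empty => intro _ _; rw [Finset.union_empty]
    | insert y S hy hmax ih =>
      intro he hdn
      have hS1 : ∀ z ∈ S, Even (r z) := fun z hz => he z (Finset.mem_insert_of_mem hz)
      have hS2 : ∀ z ∈ S, ∀ v, Even (r v) → v < z → v ∈ S := by
        intro z hz v hv hvz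
        rcases Finset.mem_insert.1 (hdn z (Finset.mem_insert_of_mem hz) v hv hvz) with h1 | h1
        · exfalso
          have h2 := hr hvz
          have h3 := hmax z hz
          rw [h1] at h2
          omega
        · exact h1
      have hye := he y (Finset.mem_insert_self _ _)
      have hyA : y ∉ A := by
        rw [hA]
        exact Nat.not_odd_iff_even.2 hye
      have hN : Nbr (Cmp : SimpleGraph V) y (A ∪ S)
          ((Finset.univ.filter fun v => v < y) ∪ (A.filter fun v => y < v)) := by
        refine ⟨by simp [hyA, hy], ?_⟩
        intro v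
        simp only [Finset.mem_union, Finset.mem_filter, Finset.mem_univ, true_and]
        constructor
        · rintro (hv | ⟨hv, hv'⟩)
          · refine ⟨?_, Or.inr hv⟩
            rcases Nat.even_or_odd (r v) with h1 | h1
            · right
              rcases Finset.mem_insert.1 (hdn y (Finset.mem_insert_self _ _) v h1 hv) with h2 | h2
              · exact absurd hv (by rw [h2]; exact lt_irrefl y)
              · exact h2
            · exact Or.inl ((hA v).2 h1)
          · exact ⟨Or.inl hv, Or.inl hv'⟩
        · rintro ⟨hv | hv, hv' | hv'⟩
          · exact Or.inr ⟨hv, hv'⟩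
          · exact Or.inl hv'
          · exfalso
            have h1 := hr hv'
            have h2 := hmax v hv
            omega
          · exact Or.inl hv'
      have hU := bn_join_eq_zero (Cmp : SimpleGraph V) (A := Finset.univ.filter fun v => v < y)
        (B := A.filter fun v => y < v) ?_ ?_ (h y hye _ (by simp))
      · have h1 := bn_insert_le_of_zero (Cmp : SimpleGraph V) hN hU i
        have h2 := ih hS1 hS2
        rw [Finset.union_insert]
        exact h1.trans h2
      · refine Finset.disjoint_left.2 fun x hx hx' => ?_
        exact lt_asymm (Finset.mem_filter.1 hx).2 (Finset.mem_filter.1 hx').2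
      · intro a ha b hb
        exact Or.inl ((Finset.mem_filter.1 ha).2.trans (Finset.mem_filter.1 hb).2)
  have h1 := key (Finset.univ.filter fun v => Even (r v)) (by simp) (by simp only [Finset.mem_filter, Finset.mem_univ, true_and]; exact fun _ _ v hv _ => hv)
  have h2 : A ∪ (Finset.univ.filter fun v => Even (r v)) = Finset.univ := by
    ext v
    simp only [Finset.mem_union, hA, Finset.mem_filter, Finset.mem_univ, true_and, iff_true]
    exact (Nat.even_or_odd (r v)).symm
  rwa [h2] at h1

end Ord
end Singer
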