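import Pool.Agent.Singer.Ord.Indep

/-!
# Singer/Ord: independence of the squarefree monomials, one of the elements of odd rank may have the weight one
-/

set_option autoImplicit false
set_option linter.unusedSectionVars false
set_option linter.unusedVariables false

namespace Singer
namespace Ord

section chains
variable {P : Type} [Fintype P] [PartialOrder P] {r : P → ℕ}

/-- every odd rank occurs in a full chain -/
lemma Fo.exists_rank {s : P} {m : ℕ} {τ : List P} (h : Fo r s m τ) {k : ℕ} (hk : k < m) : ∃ u ∈ τ, r u = 2 * k + 1 := by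
  induction m generalizing s τ with
  | zero => omega
  | succ m ih =>
    cases τ with
    | nil => exact h.elim
    | cons w τ =>
      rcases Nat.lt_succ_iff_lt_or_eq.1 hk with hk | rfl
      · obtain ⟨u, hu, h1⟩ := ih h.2.2 hk
        exact ⟨u, List.mem_cons_of_mem _ hu, h1⟩
      · exact ⟨w, List.mem_cons_self, h.2.1⟩

/-- elements of the same rank in a full chain are equal -/
lemma Fo.eq_of_rank {s : P} {m : ℕ} {τ : List P} (h : Fo r s m τ) {a b : P} (ha : a ∈ τ) (hb : b ∈ τ)
    (hab : r a = r b) : a = b := by
  induction m generalizing s τ with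
  | zero =>
    have h1 : τ = [] := h
    subst h1
    simp at ha
  | succ m ih =>
    cases τ with
    | nil => exact h.elim
    | cons w τ =>
      have hw := h.2.1
      rcases List.mem_cons.1 ha with ha1 | ha1 <;> rcases List.mem_cons.1 hb with hb1 | hb1
      · rw [ha1, hb1]
      · have := Fo.rank_lt h.2.2 b hb1
        rw [← hab, ha1] at this
        omega
      · have := Fo.rank_lt h.2.2 a ha1
        rw [hab, hb1] at this
        omega
      · exact ih h.2.2 ha1 hb1

end chains

theorem indep_of_opt {P : Type} [Fintype P] [PartialOrder P] {V : Type} {r : P → ℕ} (hr : StrictMono r) {x : P → KK V}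
    (f : P → Option V) (hf : ∀ u u', Odd (r u) → Odd (r u') → f u = f u' → u = u')
    (hx : ∀ u, Odd (r u) → x u = (f u).elim 1 xx) : Indep r x := by
  classical
  intro q m c h
  obtain ⟨S, hS, hso⟩ := exists_so r m q
  rw [hso] at h
  -- the set of variables of a chain
  set t : List P → Finset V := fun τ => (τ.filterMap f).toFinset with ht
  have hprod : ∀ {τ : List P}, τ.Nodup → (∀ u ∈ τ, Odd (r u)) → (τ.map x).prod = ∏ v ∈ t τ, xx v := by
    intro τ hn ho
    induction τ with
    | nil => simp [ht]
    | cons w τ ih =>
      have h1 := ih (List.nodup_cons.1 hn).2 (fun u hu => ho u (List.mem_cons_of_mem _ hu))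
      rw [List.map_cons, List.prod_cons, h1, hx w (ho w List.mem_cons_self)]
      cases hfw : f w with
      | none => simp [ht, hfw]
      | some v =>
        have h2 : v ∉ t τ := by
          intro h3
          simp only [ht, List.mem_toFinset, List.mem_filterMap] at h3
          obtain ⟨u, hu, h4⟩ := h3
          have := hf w u (ho w List.mem_cons_self) (ho u (List.mem_cons_of_mem _ hu)) (hfw.trans h4.symm)
          subst this
          exact (List.nodup_cons.1 hn).1 hu
        have h3 : t (w :: τ) = insert v (t τ) := by
          simp [ht, hfw]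
        rw [h3, Finset.prod_insert h2]
        rfl
  have hinj : Set.InjOn t (S : Set (List P)) := by
    intro τ hτ τ' hτ' htt
    have h1 : Fo r q m τ := (hS _).1 (Finset.mem_coe.1 hτ)
    have h2 : Fo r q m τ' := (hS _).1 (Finset.mem_coe.1 hτ')
    have key : ∀ {σ σ' : List P}, Fo r q m σ → Fo r q m σ' → t σ = t σ' → ∀ u ∈ σ, ∀ v, f u = some v → u ∈ σ' := by
      intro σ σ' k1 k2 k3 u hu v hv
      have h3 : v ∈ t σ := by
        simp only [ht, List.mem_toFinset, List.mem_filterMap]
        exact ⟨u, hu, hv⟩
      rw [k3] at h3
      simp only [ht, List.mem_toFinset, List.mem_filterMap] at h3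
      obtain ⟨u', hu', h4⟩ := h3
      have := hf u u' (k1.odd u hu) (k2.odd u' hu') (hv.trans h4.symm)
      rwa [this]
    have key2 : ∀ {σ σ' : List P}, Fo r q m σ → Fo r q m σ' → t σ = t σ' → ∀ u ∈ σ, u ∈ σ' := by
      intro σ σ' k1 k2 k3 u hu
      cases hfu : f u with
      | some v => exact key k1 k2 k3 u hu v hfu
      | none =>
        obtain ⟨k, hk⟩ := k1.odd u hu
        have hkm := k1.rank_lt u hu
        obtain ⟨u', hu', hru'⟩ := k2.exists_rank (k := k) (by omega)
        cases hfu' : f u' with
        | none =>
          have := hf u u' (k1.odd u hu) (k2.odd u' hu') (hfu.trans hfu'.symm)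
          rwa [this]
        | some v =>
          have h3 := key k2 k1 k3.symm u' hu' v hfu'
          have h4 := k1.eq_of_rank hu h3 (hk.trans hru'.symm)
          rwa [h4]
    exact Fo.ext h1 h2 fun u => ⟨key2 h1 h2 htt u, key2 h2 h1 htt.symm u⟩
  have h1 := sum_sq_eq_zero S t hinj c (by
    rw [← h]
    refine Finset.sum_congr rfl fun τ hτ => ?_
    have h2 := (hS _).1 hτ
    rw [hprod h2.nodup h2.odd])
  intro τ hτ
  exact h1 τ ((hS _).2 hτ)

end Ord
end Singer
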