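import Pool.Agent.Singer.Ord.Defs
import Pool.Agent.Singer.Sphere

/-!
# Singer/Ord: the rank function of a poset whose comparability graph is a flag homology sphere
-/

set_option autoImplicit false
set_option linter.unusedSectionVars false
set_option linter.unusedVariables false

namespace Singer
namespace Ord

universe u

namespace Rk

/-- the hereditary sphere condition -/
abbrev GQ (n : ℕ) {V : Type u} [Fintype V] (G : SimpleGraph V) : Prop :=
  GoodQ (fun n {V} [Fintype V] (G : SimpleGraph V) => QS.{u} n G) n G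

/-- the link of a clique -/
theorem goodQ_link_clique (k : ℕ) : ∀ {m : ℕ} {V : Type u} [Fintype V] {G : SimpleGraph V} (C : Finset V),
    G.IsClique C → C.card = k → GQ (m + k) G → ∀ I : Fintype {w // ∀ c ∈ C, G.Adj c w},
      @GoodQ (fun n {V} [Fintype V] (G : SimpleGraph V) => QS.{u} n G) m {w // ∀ c ∈ C, G.Adj c w} I
        (G.comap Subtype.val) := by
  classical
  induction k with
  | zero =>
    intro m V _ G C hC hk h I
    have hC0 : C = ∅ := Finset.card_eq_zero.1 hk
    refine goodQ_iso closed_QS (G := G) ?_ h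
    refine isoOfBij (fun v => ⟨v, fun c hc => absurd hc (by rw [hC0]; exact Finset.notMem_empty c)⟩) ⟨?_, ?_⟩ ?_
    · intro a b hab
      exact Subtype.mk.inj hab
    · intro w
      exact ⟨w.1, rfl⟩
    · intro a b
      exact Iff.rfl
  | succ k ih =>
    intro m V _ G C hC hk h I
    obtain ⟨v, hv⟩ : C.Nonempty := Finset.card_pos.1 (by omega)
    have h1 := (goodQ_succ_iff.1 (show GQ ((m + k) + 1) G from h)).2 v
    have hcard : (C.subtype (fun w => G.Adj v w)).card = k := by
      have h2 : (C.subtype (fun w => G.Adj v w)).card = (C.erase v).card := by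
        rw [← Finset.card_map (Function.Embedding.subtype _), Finset.subtype_map]
        congr 1
        ext x
        rw [Finset.mem_filter, Finset.mem_erase]
        constructor
        · rintro ⟨h3, h4⟩
          exact ⟨h4.ne', h3⟩
        · rintro ⟨h3, h4⟩
          exact ⟨h4, hC (Finset.mem_coe.2 hv) (Finset.mem_coe.2 h4) h3.symm⟩
      rw [h2, Finset.card_erase_of_mem hv, hk]
      rfl
    have hclq : (lk G v).IsClique (C.subtype (fun w => G.Adj v w)) := by
      intro x hx y hy hxy
      exact hC (Finset.mem_coe.2 (Finset.mem_subtype.1 (Finset.mem_coe.1 hx)))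
        (Finset.mem_coe.2 (Finset.mem_subtype.1 (Finset.mem_coe.1 hy))) fun h => hxy (Subtype.ext h)
    have h2 := ih (m := m) (G := lk G v) (C.subtype (fun w => G.Adj v w)) hclq hcard h1 inferInstance
    refine goodQ_iso closed_QS ?_ h2
    refine isoOfBij (fun w => ⟨w.1.1, fun c hc => ?_⟩) ⟨?_, ?_⟩ ?_
    · by_cases hcv : c = v
      · rw [hcv]
        exact w.1.2
      · exact w.2 ⟨c, hC (Finset.mem_coe.2 hv) (Finset.mem_coe.2 hc) (Ne.symm hcv)⟩ (Finset.mem_subtype.2 hc)
    · intro a b hab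
      exact Subtype.ext (Subtype.ext (Subtype.mk.inj hab))
    · intro w
      exact ⟨⟨⟨w.1, w.2 v hv⟩, fun c hc => w.2 c.1 (Finset.mem_subtype.1 hc)⟩, rfl⟩
    · intro a b
      exact Iff.rfl

/-- a clique which has no common neighbour has `n` elements -/
theorem card_of_maximal {n : ℕ} {V : Type u} [Fintype V] {G : SimpleGraph V} (h : GQ n G) {C : Finset V}
    (hC : G.IsClique C) (hmax : ∀ w, ¬ ∀ c ∈ C, G.Adj c w) : C.card = n := by
  classical
  have h1 : C.card ≤ n := dim_of_goodQ h hC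
  obtain ⟨m, rfl⟩ := Nat.exists_eq_add_of_le' h1
  have h2 := goodQ_link_clique C.card C hC rfl h inferInstance
  cases m with
  | zero => rw [Nat.zero_add]
  | succ m =>
    have h3 := (qs_iff.1 (goodQ_succ_iff.1 h2).1).1
    obtain ⟨w⟩ := h3
    exact absurd w.2 (hmax w.1)

section mx
variable {V : Type*} [Fintype V]

open Classical in
/-- the largest size of a clique inside a set -/
noncomputable def mx (G : SimpleGraph V) (X : Set V) : ℕ :=
  (Finset.univ.filter fun S : Finset V => G.IsClique S ∧ ∀ v ∈ S, v ∈ X).sup Finset.card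

theorem card_le_mx {G : SimpleGraph V} {X : Set V} {S : Finset V} (hS : G.IsClique S) (h : ∀ v ∈ S, v ∈ X) :
    S.card ≤ mx G X := by
  classical
  unfold mx
  exact Finset.le_sup (f := Finset.card) (Finset.mem_filter.2 ⟨Finset.mem_univ _, hS, h⟩)

theorem exists_mx (G : SimpleGraph V) (X : Set V) :
    ∃ S : Finset V, G.IsClique S ∧ (∀ v ∈ S, v ∈ X) ∧ S.card = mx G X := by
  classical
  have hne : (Finset.univ.filter fun S : Finset V => G.IsClique S ∧ ∀ v ∈ S, v ∈ X).Nonempty :=
    ⟨∅, Finset.mem_filter.2 ⟨Finset.mem_univ _, by simp, by simp⟩⟩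
  obtain ⟨S, hS, h⟩ := Finset.exists_mem_eq_sup _ hne (Finset.card : Finset V → ℕ)
  rw [Finset.mem_filter] at hS
  refine ⟨S, hS.2.1, hS.2.2, ?_⟩
  unfold mx
  rw [← h]

/-- a largest clique inside `X` has no common neighbour inside `X` -/
theorem max_of_mx {G : SimpleGraph V} {X : Set V} {S : Finset V} (hS : G.IsClique S) (h : ∀ v ∈ S, v ∈ X)
    (hc : S.card = mx G X) {w : V} (hw : w ∈ X) : ¬ ∀ c ∈ S, G.Adj c w := by
  classical
  intro h1
  have hwS : w ∉ S := fun h2 => G.loopless.1 _ (h1 w h2)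
  have h2 : G.IsClique (insert w S : Finset V) := isClique_insert hS fun x hx _ => (h1 x hx).symm
  have h3 := card_le_mx h2 (X := X) (fun v hv => by
    rcases Finset.mem_insert.1 hv with rfl | hv
    · exact hw
    · exact h v hv)
  rw [Finset.card_insert_of_notMem hwS] at h3
  omega

end mx

end Rk

open Rk

theorem exists_rank {n : ℕ} {V : Type} [Fintype V] [PartialOrder V]
    (h : GoodQ (fun n {V} [Fintype V] (G : SimpleGraph V) => QS.{0} n G) n (Cmp : SimpleGraph V)) :
    ∃ r : WithBot (WithTop V) → ℕ, StrictMono r ∧ r ⊥ = 0 ∧ r ⊤ = n + 1 ∧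
      ∀ p q, p < q → ∀ I : Fintype {v // p < v ∧ v < q},
        @GoodQ (fun n {V} [Fintype V] (G : SimpleGraph V) => QS.{0} n G) (r q - r p - 1) {v // p < v ∧ v < q} I Cmp := by
  classical
  -- the embedding of `V`
  let ι : V → WithBot (WithTop V) := fun v => ((v : WithTop V) : WithBot (WithTop V))
  have hι : ∀ a b : V, ι a < ι b ↔ a < b := fun a b => by
    show ((a : WithTop V) : WithBot (WithTop V)) < ((b : WithTop V) : WithBot (WithTop V)) ↔ a < b
    rw [WithBot.coe_lt_coe, WithTop.coe_lt_coe]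
  have hιi : Function.Injective ι := fun a b hab =>
    WithTop.coe_injective (WithBot.coe_injective hab)
  have hbot : ∀ a : V, ⊥ < ι a := fun a => WithBot.bot_lt_coe _
  have htop : ∀ a : V, ι a < ⊤ := fun a => by
    show ((a : WithTop V) : WithBot (WithTop V)) < ((⊤ : WithTop V) : WithBot (WithTop V))
    rw [WithBot.coe_lt_coe]
    exact WithTop.coe_lt_top a
  have hcases : ∀ p : WithBot (WithTop V), p = ⊥ ∨ p = ⊤ ∨ ∃ a, p = ι a := by
    intro p
    induction p using WithBot.recBotCoe with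
    | bot => exact Or.inl rfl
    | coe p =>
      induction p using WithTop.recTopCoe with
      | top => exact Or.inr (Or.inl rfl)
      | coe a => exact Or.inr (Or.inr ⟨a, rfl⟩)
  have hbt : (⊥ : WithBot (WithTop V)) < ⊤ := WithBot.bot_lt_coe _
  let Lo : WithBot (WithTop V) → Set V := fun p => {v | ι v ≤ p}
  let Hi : WithBot (WithTop V) → Set V := fun p => {v | p ≤ ι v}
  have hcmp : ∀ {a b : V}, a ≤ b → a ≠ b → (Cmp : SimpleGraph V).Adj a b := fun hab hne =>
    Or.inl (lt_of_le_of_ne hab hne)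
  have hle : ∀ {a b : V}, ι a ≤ ι b → a ≤ b := fun {a b} hab => by
    rcases hab.lt_or_eq with h1 | h1
    · exact ((hι a b).1 h1).le
    · exact (hιi h1).le
  -- the largest chains below or above an element contain this element
  have memA : ∀ (a : V) (S : Finset V), (Cmp : SimpleGraph V).IsClique S → (∀ v ∈ S, v ∈ Lo (ι a)) →
      S.card = mx Cmp (Lo (ι a)) → a ∈ S := by
    intro a S hS h1 h2
    by_contra h3
    refine max_of_mx hS h1 h2 (w := a) (le_refl (ι a)) fun c hc => ?_
    exact hcmp (hle (h1 c hc)) fun h4 => h3 (h4 ▸ hc)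
  have memB : ∀ (a : V) (S : Finset V), (Cmp : SimpleGraph V).IsClique S → (∀ v ∈ S, v ∈ Hi (ι a)) →
      S.card = mx Cmp (Hi (ι a)) → a ∈ S := by
    intro a S hS h1 h2
    by_contra h3
    refine max_of_mx hS h1 h2 (w := a) (le_refl (ι a)) fun c hc => ?_
    exact (hcmp (hle (h1 c hc)) fun h4 => h3 (h4 ▸ hc)).symm
  -- a vertex which is comparable to all elements of a largest chain below `p` lies above `p`
  have aboveA : ∀ (p : WithBot (WithTop V)) (S : Finset V), (Cmp : SimpleGraph V).IsClique S →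
      (∀ v ∈ S, v ∈ Lo p) → S.card = mx Cmp (Lo p) → p ≠ ⊤ → ∀ w, (∀ c ∈ S, (Cmp : SimpleGraph V).Adj c w) →
      p < ι w := by
    intro p S hS h1 h2 hp w hw
    rcases hcases p with rfl | rfl | ⟨a, rfl⟩
    · exact hbot w
    · exact absurd rfl hp
    · rcases hw a (memA a S hS h1 h2) with h3 | h3
      · exact (hι _ _).2 h3
      · exact absurd hw (max_of_mx hS h1 h2 (w := w) ((hι _ _).2 h3).le)
  have belowB : ∀ (p : WithBot (WithTop V)) (S : Finset V), (Cmp : SimpleGraph V).IsClique S →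
      (∀ v ∈ S, v ∈ Hi p) → S.card = mx Cmp (Hi p) → p ≠ ⊥ → ∀ w, (∀ c ∈ S, (Cmp : SimpleGraph V).Adj c w) →
      ι w < p := by
    intro p S hS h1 h2 hp w hw
    rcases hcases p with rfl | rfl | ⟨a, rfl⟩
    · exact absurd rfl hp
    · exact htop w
    · rcases hw a (memB a S hS h1 h2) with h3 | h3
      · exact absurd hw (max_of_mx hS h1 h2 (w := w) ((hι _ _).2 h3).le)
      · exact (hι _ _).2 h3
  -- a union of a chain below and a chain above
  have hunion : ∀ (p q : WithBot (WithTop V)) (A B : Finset V), p ≤ q → (Cmp : SimpleGraph V).IsClique A →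
      (Cmp : SimpleGraph V).IsClique B → (∀ v ∈ A, v ∈ Lo p) → (∀ v ∈ B, v ∈ Hi q) →
      (Cmp : SimpleGraph V).IsClique (A ∪ B : Finset V) := by
    intro p q A B hpq hA hB h1 h2 x hx y hy hxy
    rcases Finset.mem_union.1 (Finset.mem_coe.1 hx) with hx | hx <;>
      rcases Finset.mem_union.1 (Finset.mem_coe.1 hy) with hy | hy
    · exact hA (Finset.mem_coe.2 hx) (Finset.mem_coe.2 hy) hxy
    · exact hcmp (hle ((h1 x hx).trans (hpq.trans (h2 y hy)))) hxy
    · exact (hcmp (hle ((h1 y hy).trans (hpq.trans (h2 x hx)))) hxy.symm).symm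
    · exact hB (Finset.mem_coe.2 hx) (Finset.mem_coe.2 hy) hxy
  let r : WithBot (WithTop V) → ℕ := fun p => if p = ⊤ then n + 1 else mx Cmp (Lo p)
  have hr : ∀ p, p ≠ ⊤ → r p = mx Cmp (Lo p) := fun p hp => if_neg hp
  have hrtop : r ⊤ = n + 1 := if_pos rfl
  -- complementary chains
  have sum : ∀ q, q ≠ ⊥ → r q + mx Cmp (Hi q) = n + 1 := by
    intro q hq
    rcases hcases q with rfl | rfl | ⟨a, rfl⟩
    · exact absurd rfl hq
    · obtain ⟨B, hB1, hB2, hB3⟩ := exists_mx (Cmp : SimpleGraph V) (Hi ⊤)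
      have h1 : B = ∅ := Finset.eq_empty_of_forall_notMem fun v hv =>
        absurd (hB2 v hv) (not_le_of_gt (htop v))
      rw [← hB3, h1, Finset.card_empty, hrtop]
    · rw [hr _ (htop a).ne]
      obtain ⟨A, hA1, hA2, hA3⟩ := exists_mx (Cmp : SimpleGraph V) (Lo (ι a))
      obtain ⟨B, hB1, hB2, hB3⟩ := exists_mx (Cmp : SimpleGraph V) (Hi (ι a))
      have h1 := hunion (ι a) (ι a) A B le_rfl hA1 hB1 hA2 hB2
      have h2 := card_of_maximal h h1 fun w hw => by
        have h3 := aboveA (ι a) A hA1 hA2 hA3 (htop a).ne w fun c hc => hw c (Finset.mem_union_left _ hc)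
        have h4 := belowB (ι a) B hB1 hB2 hB3 (hbot a).ne' w fun c hc => hw c (Finset.mem_union_right _ hc)
        exact lt_irrefl _ (h3.trans h4)
      have h3 : A ∩ B = {a} := by
        ext x
        rw [Finset.mem_inter, Finset.mem_singleton]
        constructor
        · rintro ⟨hx1, hx2⟩
          exact hιi (le_antisymm (hA2 x hx1) (hB2 x hx2))
        · rintro rfl
          exact ⟨memA x A hA1 hA2 hA3, memB x B hB1 hB2 hB3⟩
      have h4 := Finset.card_union_add_card_inter A B
      rw [h3, Finset.card_singleton, h2] at h4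
      omega
  have key : ∀ p q, p < q → r p + mx Cmp (Hi q) ≤ n ∧ ∀ m, n = m + (r p + mx Cmp (Hi q)) →
      ∀ I : Fintype {v // p < v ∧ v < q},
        @GoodQ (fun n {V} [Fintype V] (G : SimpleGraph V) => QS.{0} n G) m {v // p < v ∧ v < q} I Cmp := by
    intro p q hpq
    have hp : p ≠ ⊤ := ne_top_of_lt hpq
    have hq : q ≠ ⊥ := ne_bot_of_gt hpq
    rw [hr p hp]
    obtain ⟨A, hA1, hA2, hA3⟩ := exists_mx (Cmp : SimpleGraph V) (Lo p)
    obtain ⟨B, hB1, hB2, hB3⟩ := exists_mx (Cmp : SimpleGraph V) (Hi q)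
    have h1 := hunion p q A B hpq.le hA1 hB1 hA2 hB2
    have hdis : Disjoint A B := by
      rw [Finset.disjoint_left]
      intro x hx1 hx2
      exact absurd hpq (not_lt_of_ge ((hB2 x hx2).trans (hA2 x hx1)))
    have hcard : (A ∪ B).card = mx Cmp (Lo p) + mx Cmp (Hi q) := by
      rw [Finset.card_union_of_disjoint hdis, hA3, hB3]
    refine ⟨by rw [← hcard]; exact dim_of_goodQ h h1, ?_⟩
    intro m hm I
    have h2 := goodQ_link_clique _ (A ∪ B) h1 hcard (hm ▸ h) inferInstance
    refine goodQ_iso closed_QS ?_ h2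
    refine isoOfBij (fun w => ⟨ι w.1, aboveA p A hA1 hA2 hA3 hp w.1 fun c hc => w.2 c (Finset.mem_union_left _ hc),
      belowB q B hB1 hB2 hB3 hq w.1 fun c hc => w.2 c (Finset.mem_union_right _ hc)⟩) ⟨?_, ?_⟩ ?_
    · intro a b hab
      exact Subtype.ext (hιi (Subtype.mk.inj hab))
    · rintro ⟨w, hw1, hw2⟩
      rcases hcases w with rfl | rfl | ⟨a, rfl⟩
      · exact absurd hw1 not_lt_bot
      · exact absurd hw2 not_top_lt
      · refine ⟨⟨a, fun c hc => ?_⟩, rfl⟩
        rcases Finset.mem_union.1 hc with hc | hc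
        · exact Or.inl ((hι _ _).1 (lt_of_le_of_lt (hA2 c hc) hw1))
        · exact Or.inr ((hι _ _).1 (lt_of_lt_of_le hw2 (hB2 c hc)))
    · intro a b
      show (_ < _ ∨ _ < _) ↔ (_ < _ ∨ _ < _)
      exact or_congr (hι _ _) (hι _ _)
  refine ⟨r, ?_, ?_, hrtop, ?_⟩
  · intro p q hpq
    have h1 := (key p q hpq).1
    have h2 := sum q (ne_bot_of_gt hpq)
    omega
  · rw [hr _ hbt.ne]
    obtain ⟨A, hA1, hA2, hA3⟩ := exists_mx (Cmp : SimpleGraph V) (Lo ⊥)
    have h1 : A = ∅ := Finset.eq_empty_of_forall_notMem fun v hv =>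
      absurd (hA2 v hv) (not_le_of_gt (hbot v))
    rw [← hA3, h1, Finset.card_empty]
  · intro p q hpq I
    have h1 := (key p q hpq).1
    have h2 := sum q (ne_bot_of_gt hpq)
    exact (key p q hpq).2 _ (by omega) I

end Ord
end Singer
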