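import Pool.Agent.Singer.Ord.AlgMain
import Pool.Agent.Singer.Ord.IndepOpt
import Pool.Agent.Singer.Ord.Col
import Pool.Agent.Singer.Ord.Conv
import Pool.Agent.Singer.Ord.Rank
import Pool.Agent.Singer.Ord.CellEx
import Pool.Agent.Singer.Ord.Elim
import Pool.Agent.Singer.DualAsm

/-!
# Singer/Ord: the right-angled Coxeter groups of comparability graphs which are flag homology spheres
-/

set_option autoImplicit false
set_option linter.unusedSectionVars false
set_option linter.unusedVariables false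

namespace Singer
namespace Ord

section cv
variable {V : Type}

/-- the elements of `V` between the least and the greatest element -/
def cv (v : V) : WithBot (WithTop V) := ((v : WithTop V) : WithBot (WithTop V))

lemma cv_inj : Function.Injective (cv : V → WithBot (WithTop V)) := fun a b h =>
  WithTop.coe_injective (WithBot.coe_injective h)

lemma cv_ne_bot (v : V) : cv v ≠ ⊥ := WithBot.coe_ne_bot

lemma cv_ne_top (v : V) : cv v ≠ ⊤ := fun h => WithTop.coe_ne_top (WithBot.coe_injective h)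

lemma exists_cv (p : WithBot (WithTop V)) (h1 : p ≠ ⊥) (h2 : p ≠ ⊤) : ∃ v, cv v = p := by
  induction p with
  | bot => exact absurd rfl h1
  | coe p =>
    induction p with
    | top => exact absurd rfl h2
    | coe v => exact ⟨v, rfl⟩

variable [PartialOrder V]

lemma cv_lt (a b : V) : cv a < cv b ↔ a < b := by
  unfold cv
  rw [WithBot.coe_lt_coe, WithTop.coe_lt_coe]

lemma bot_lt_cv (v : V) : ⊥ < cv v := WithBot.bot_lt_coe _

lemma cv_lt_top (v : V) : cv v < ⊤ := by
  rw [← WithBot.coe_top]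
  exact WithBot.coe_lt_coe.2 (WithTop.coe_lt_top v)

/-- the elements below `y` -/
noncomputable def isoBelow [Fintype V] {A : Finset V} {y : V} (hA : ∀ v, v ∈ A ↔ v < y) :
    res (Cmp : SimpleGraph V) A ≃g (Cmp : SimpleGraph {p : WithBot (WithTop V) // ⊥ < p ∧ p < cv y}) :=
  isoOfBij (fun v => ⟨cv v.1, bot_lt_cv _, (cv_lt _ _).2 ((hA _).1 v.2)⟩)
    ⟨fun a b h => Subtype.ext (cv_inj (Subtype.mk.inj h)), by
      rintro ⟨p, hp1, hp2⟩
      obtain ⟨v, rfl⟩ := exists_cv p (ne_of_gt hp1) (ne_of_lt (hp2.trans (cv_lt_top y)))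
      exact ⟨⟨v, (hA v).2 ((cv_lt _ _).1 hp2)⟩, rfl⟩⟩
    (fun a b => by
      change (cv a.1 < cv b.1 ∨ cv b.1 < cv a.1) ↔ (a.1 < b.1 ∨ b.1 < a.1)
      rw [cv_lt, cv_lt])

end cv

/-- the statement of the theorem in all dimensions smaller than `n` -/
def Below (n : ℕ) : Prop :=
  ∀ k, k < n → ∀ {V : Type} [Fintype V] [DecidableEq V] [PartialOrder V],
    GoodQ (fun n {V} [Fintype V] (G : SimpleGraph V) => QS.{0} n G) k (Cmp : SimpleGraph V) →
      ∀ i, 2 * i ≠ k → bet (Cmp : SimpleGraph V) i = 0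

section step
variable {n : ℕ} {V : Type} [Fintype V] [DecidableEq V] [PartialOrder V]

/-- the elements of odd rank -/
theorem bet_odd_eq_zero {r : WithBot (WithTop V) → ℕ} (hr : StrictMono r) (h0 : r ⊥ = 0) (h1 : r ⊤ = n + 1)
    (hint : ∀ p q, p < q → ∀ I : Fintype {v // p < v ∧ v < q},
      @GoodQ (fun n {V} [Fintype V] (G : SimpleGraph V) => QS.{0} n G) (r q - r p - 1) {v // p < v ∧ v < q} I Cmp)
    {A : Finset V} (hA : ∀ v, v ∈ A ↔ Odd (r (cv v))) {i : ℕ} (hi : 2 * i < n) : bet (res (Cmp : SimpleGraph V) A) i = 0 := by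
  classical
  obtain ⟨m, hm⟩ : ∃ m, n + 1 = 2 * m ∨ n + 1 = 2 * m + 1 := ⟨(n + 1) / 2, by omega⟩
  -- the generic field
  have hex : ∀ p : WithBot (WithTop V), ∃ y : Option {v // v ∈ A}, ∀ v, y = some v ↔ cv v.1 = p := by
    intro p
    by_cases hp : ∃ v : {v // v ∈ A}, cv v.1 = p
    · obtain ⟨v, hv⟩ := hp
      refine ⟨some v, fun w => ⟨fun h => ?_, fun h => ?_⟩⟩
      · rw [← Option.some.inj h, hv]
      · rw [Subtype.ext (cv_inj (hv.trans h.symm))]
    · refine ⟨none, fun w => ⟨fun h => (by simp at h), fun h => absurd ⟨w, h⟩ hp⟩⟩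
  choose f hf using hex
  set x : WithBot (WithTop V) → KK {v // v ∈ A} := fun p => (f p).elim 1 xx with hx
  have hG : Gor (KK {v // v ∈ A}) r (⊥ : WithBot (WithTop V)) :=
    gor_of_int hr (fun p => bot_le) h0 hint _
  have hI : Indep r x := by
    refine indep_of_opt hr f ?_ fun u _ => rfl
    intro u u' hu hu' h
    have hne : ∀ p : WithBot (WithTop V), Odd (r p) → p ≠ ⊥ := by
      rintro p hp rfl
      rw [h0] at hp
      exact absurd hp (by decide)
    have hne' : ∀ p : WithBot (WithTop V), Odd (r p) → p ≠ ⊤ → ∃ v : {v // v ∈ A}, f p = some v := by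
      intro p hp hp'
      obtain ⟨v, rfl⟩ := exists_cv p (hne p hp) hp'
      exact ⟨⟨v, (hA v).2 hp⟩, (hf _ _).2 rfl⟩
    have htop : ∀ v : {v // v ∈ A}, f ⊤ ≠ some v := fun v h => cv_ne_top v.1 ((hf _ _).1 h)
    by_cases h1 : u = ⊤
    · by_cases h2 : u' = ⊤
      · rw [h1, h2]
      · obtain ⟨v, hv⟩ := hne' u' hu' h2
        rw [h1, hv] at h
        exact absurd h (htop v)
    · obtain ⟨v, hv⟩ := hne' u hu h1
      by_cases h2 : u' = ⊤
      · rw [h2, hv] at h
        exact absurd h.symm (htop v)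
      · obtain ⟨w, hw⟩ := hne' u' hu' h2
        rw [hv, hw] at h
        have := Option.some.inj h
        rw [← (hf _ _).1 hv, ← (hf _ _).1 hw, this]
  have hEx := ex_all hG hI ⊤ m (by rw [h1]; exact hm) i (by omega)
  -- the colours
  have hlt : ∀ v : {v // v ∈ A}, r (cv v.1) / 2 < m := by
    intro v
    have h2 := hr (cv_lt_top v.1)
    have h3 := (hA v.1).1 v.2
    rw [h1] at h2
    obtain ⟨l, hl⟩ := h3
    omega
  have hxf : (fun v : {v // v ∈ A} => x (cv v.1)) = xx := by
    funext v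
    have : f (cv v.1) = some v := (hf _ _).2 rfl
    simp only [hx, this, Option.elim_some]
  have hF := exF_of_ex (x := x) (m := m) hr (fun p => bot_le) (fun p => le_top) h0 (by rw [h1]; exact hm)
    (res (Cmp : SimpleGraph V) A) (fun v => cv v.1) (fun a b h => Subtype.ext (cv_inj h)) (by
      intro p
      constructor
      · rintro ⟨v, rfl⟩
        exact ⟨cv_lt_top _, (hA _).1 v.2⟩
      · rintro ⟨hp, ho⟩
        obtain ⟨v, rfl⟩ := exists_cv p (by
          rintro rfl
          rw [h0] at ho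
          exact absurd ho (by decide)) (ne_of_lt hp)
        exact ⟨⟨v, (hA v).2 ho⟩, rfl⟩) (by
      intro a b
      change (a.1 < b.1 ∨ b.1 < a.1) ↔ _
      rw [cv_lt, cv_lt]) (fun v => ⟨r (cv v.1) / 2, hlt v⟩) (by
      intro v
      obtain ⟨l, hl⟩ := (hA v.1).1 v.2
      simp only
      omega) i hEx
  rw [hxf] at hF
  refine bet_eq_zero_of_exF _ (fun v => (⟨r (cv v.1) / 2, hlt v⟩ : Fin m)) ?_ i hF
  intro a b hab h
  have h2 : r (cv a.1) / 2 = r (cv b.1) / 2 := by simpa using congrArg Fin.val h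
  obtain ⟨l, hl⟩ := (hA a.1).1 a.2
  obtain ⟨l', hl'⟩ := (hA b.1).1 b.2
  rcases hab with hab | hab
  · have := hr ((cv_lt _ _).2 hab)
    omega
  · have := hr ((cv_lt _ _).2 hab)
    omega

/-- the induction step, below the middle dimension -/
theorem bet_lower (hn : Below n) (h : GoodQ (fun n {V} [Fintype V] (G : SimpleGraph V) => QS.{0} n G) n
    (Cmp : SimpleGraph V)) {i : ℕ} (hi : 2 * i < n) : bet (Cmp : SimpleGraph V) i = 0 := by
  classical
  obtain ⟨r, hr, h0, h1, hint⟩ := exists_rank h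
  set A : Finset V := Finset.univ.filter fun v => Odd (r (cv v)) with hA
  have hA' : ∀ v, v ∈ A ↔ Odd (r (cv v)) := by simp [hA]
  have hrV : StrictMono fun v : V => r (cv v) := fun a b hab => hr ((cv_lt a b).2 hab)
  have hle := bn_le_odd (fun v => r (cv v)) hrV (by
    intro y hy B hB j
    rw [bn_eq_bet _ rk_inj, bet_iso (isoBelow hB)]
    have h2 := hr (bot_lt_cv y)
    have h3 := hr (cv_lt_top y)
    rw [h0] at h2
    rw [h1] at h3
    refine hn (r (cv y) - r ⊥ - 1) (by omega) (hint ⊥ (cv y) (bot_lt_cv y) _) j ?_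
    obtain ⟨l, hl⟩ := hy
    omega) hA' i
  rw [bn_eq_bet _ rk_inj A, bet_odd_eq_zero hr h0 h1 hint hA' hi] at hle
  have h5 : 0 ≤ bn rk (Cmp : SimpleGraph V) (Racg.gen Cmp) Finset.univ i := bn_nonneg (hr := rk_inj) ..
  have h6 : bet (Cmp : SimpleGraph V) i = bn rk (Cmp : SimpleGraph V) (Racg.gen Cmp) Finset.univ i := rfl
  rw [h6]
  exact le_antisymm hle h5

end step

/-- there is no homology above the dimension -/
theorem bet_eq_zero_of_dim {V : Type} [Fintype V] [DecidableEq V] {G : SimpleGraph V} {k i : ℕ}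
    (h : ∀ S : Finset V, G.IsClique S → S.card ≤ k) (hi : k < i) : bet G i = 0 := by
  refine bn_eq_zero_of_le rk_inj fun f hf => ?_
  have h1 : f = 0 := by
    ext x
    by_contra hx
    obtain ⟨_, h2, h3⟩ := hf.1.1 x hx
    have := h _ h3
    omega
  rw [h1]
  exact Submodule.zero_mem _

theorem below_all (n : ℕ) : Below n := by
  classical
  induction n with
  | zero => intro k hk; omega
  | succ n ih =>
    intro k hk V _ _ _ h i hi
    rcases Nat.lt_or_ge k n with h1 | h1
    · exact ih k h1 h i hi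
    obtain rfl : k = n := by omega
    rcases lt_or_gt_of_ne hi with h2 | h2
    · exact bet_lower ih h h2
    · obtain ⟨τ, hτ⟩ := exists_facet h
      have h3 : Sph ℂ rk (Cmp : SimpleGraph V) k τ := (hτ rk rk_inj).of_int
      rcases Nat.lt_or_ge k i with h4 | h4
      · exact bet_eq_zero_of_dim h3.dim h4
      · exact bet_dual' h3 h4 (bet_lower ih h (by omega))

/-- **the `ℓ²`-Betti numbers of the right-angled Coxeter group of a comparability graph which is a flag homology sphere are
zero outside of the middle dimension** -/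
theorem ord_van {n : ℕ} {V : Type} [Fintype V] [DecidableEq V] [PartialOrder V]
    (h : GoodQ (fun n {V} [Fintype V] (G : SimpleGraph V) => QS.{0} n G) n (Cmp : SimpleGraph V)) (i : ℕ)
    (hi : 2 * i ≠ n) : bet (Cmp : SimpleGraph V) i = 0 := below_all (n + 1) n (by omega) h i hi

end Ord
end Singer
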