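import Pool.Agent.Singer.Defs
import Pool.Agent.Singer.TDefs

/-!
# Singer/Ord: definitions

The theorem on order complexes (comparability graphs).

* section `alg`: graded posets `Gor`, states `St`, the differential `dd` (cochains: coefficients of multiaffine
  polynomials), exactness `Ex`, sums over full chains of elements of odd rank `so`, the operator `ps`, the quadratic sum
  `sd`, the relation `Comp`, stresses `Stress`;
* section `lin`: linear systems over group rings: `SolL`, `SolQ`, `SolM`;
* section `col`: the complex of a coloured graph `ExF`, cycles with coefficients `ZM`.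
-/

set_option autoImplicit false
set_option linter.unusedSectionVars false
set_option linter.unusedVariables false

namespace Singer
namespace Ord

universe u

/-! ### Algebra on graded posets -/

section alg

/-- the entries of a state: for every colour a vertex `v u`, or the coefficient of `1` (`c0`) or of the variable
(`c1`) of this colour -/
inductive St (P : Type*)
  | c0
  | c1
  | v (u : P)

/-- the number of vertices of a state -/
def deg {P : Type*} : List (St P) → ℕ
  | [] => 0
  | .v _ :: e => deg e + 1
  | .c0 :: e => deg e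
  | .c1 :: e => deg e

/-- a state with vertices only -/
def fl {P : Type*} (τ : List P) : List (St P) := τ.map St.v

/-- `Val r s m e` : `e` is a state with `m` colours (the first entry belongs to the colour `2 * m - 1`, the last one to
the colour `1`), its vertices form a chain below `s` (`s` may be the first vertex), and the vertex of colour `c` has the
rank `c` -/
def Val {P : Type*} [LE P] (r : P → ℕ) : P → ℕ → List (St P) → Prop
  | _, 0, e => e = []
  | _, _ + 1, [] => False
  | s, m + 1, .c0 :: e => Val r s m e
  | s, m + 1, .c1 :: e => Val r s m e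
  | s, m + 1, .v u :: e => u ≤ s ∧ r u = 2 * m + 1 ∧ Val r u m e

variable {P : Type*} {F : Type*}

/-- the differential of cochains: one vertex `u` is replaced by `c0` and by `c1`, with the coefficients `1` and `x u` -/
def dd [CommRing F] (x : P → F) : (List (St P) → F) → List (St P) → F
  | _, [] => 0
  | φ, .c0 :: e => dd x (fun e' => φ (.c0 :: e')) e
  | φ, .c1 :: e => dd x (fun e' => φ (.c1 :: e')) e
  | φ, .v u :: e => φ (.c0 :: e) + x u * φ (.c1 :: e) + dd x (fun e' => φ (.v u :: e')) e

/-- exactness in degree `i` of the cochain complex of the closed cell `s` with `m` colours -/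
def Ex [LE P] [CommRing F] (r : P → ℕ) (x : P → F) (s : P) (m i : ℕ) : Prop :=
  ∀ φ : List (St P) → F, (∀ e, Val r s m e → deg e = i + 1 → dd x φ e = 0) →
    ∃ ψ : List (St P) → F, ∀ e, Val r s m e → deg e = i → dd x ψ e = φ e

/-- `φ` is a coboundary in degree `i` on the closed cell `s` with `m` colours -/
def Cob [LE P] [CommRing F] (r : P → ℕ) (x : P → F) (s : P) (m i : ℕ) (φ : List (St P) → F) : Prop :=
  ∃ ψ : List (St P) → F, ∀ e, Val r s m e → deg e = i → dd x ψ e = φ e

open Classical in
/-- the cellular differential below `q` : the sum over the elements which cover `t` (by rank) -/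
noncomputable def dl [Fintype P] [PartialOrder P] [AddCommMonoid F] (r : P → ℕ) (q : P) (f : P → F) (t : P) : F :=
  ∑ s ∈ Finset.univ.filter (fun s => t < s ∧ s ≤ q ∧ r s = r t + 1), f s

open Classical in
/-- graded posets with least element `o` whose intervals are spheres for the coefficients `F` -/
structure Gor [Fintype P] [PartialOrder P] (F : Type*) [AddCommGroup F] (r : P → ℕ) (o : P) : Prop where
  mono : StrictMono r
  bot : ∀ p, o ≤ p
  r0 : r o = 0
  /-- exactness of the cellular complex of the interval `[p, q]` at the rank `j` -/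
  rows : ∀ p q, p < q → ∀ j, ∀ f : P → F, (∀ t, p ≤ t → t ≤ q → r t + 1 = j → dl r q f t = 0) →
    ∃ g : P → F, ∀ s, p ≤ s → s ≤ q → r s = j → dl r q g s = f s
  /-- thinness -/
  thin : ∀ z y, z < y → r y = r z + 2 → ∃ u u', u ≠ u' ∧ ∀ w, (z < w ∧ w < y) ↔ (w = u ∨ w = u')
  /-- Euler relation -/
  euler : ∀ p q, p < q → ∑ t ∈ Finset.univ.filter (fun t => p ≤ t ∧ t ≤ q), (-1 : ℤ) ^ r t = 0

/-- `τ` is a full chain of elements of odd ranks `2 * m - 1, …, 3, 1` below `s`, the largest element is the first -/
def Fo [LE P] (r : P → ℕ) : P → ℕ → List P → Prop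
  | _, 0, τ => τ = []
  | _, _ + 1, [] => False
  | s, m + 1, u :: τ => u ≤ s ∧ r u = 2 * m + 1 ∧ Fo r u m τ

open Classical in
/-- the sum over the full chains of elements of odd ranks below `s` -/
noncomputable def so [Fintype P] [PartialOrder P] [AddCommMonoid F] (r : P → ℕ) : P → ℕ → (List P → F) → F
  | _, 0, f => f []
  | s, m + 1, f => ∑ u ∈ Finset.univ.filter (fun u => u ≤ s ∧ r u = 2 * m + 1), so r u m (fun τ => f (u :: τ))

open Classical in
/-- `ps s m g τ` : the sum of `g ε` over the chains `ε` of elements of even ranks `2 * m, …, 2` below `s` which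
interleave the chain `τ` of elements of the ranks `2 * m - 1, …, 1` -/
noncomputable def ps [Fintype P] [PartialOrder P] [AddCommMonoid F] (r : P → ℕ) : P → ℕ → (List P → F) → List P → F
  | _, 0, g, _ => g []
  | _, _ + 1, _, [] => 0
  | s, m + 1, g, u :: τ =>
    ∑ y ∈ Finset.univ.filter (fun y => u ≤ y ∧ y ≤ s ∧ r y = 2 * m + 2), ps r u m (fun ε => g (y :: ε)) τ

open Classical in
/-- the sum of `Δ(ε) g ε` over the full chains `ε` of elements of even ranks below `s` -/
noncomputable def sd [Fintype P] [PartialOrder P] [CommRing F] (r : P → ℕ) (x : P → F) : P → ℕ → (List P → F) → F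
  | _, 0, g => g []
  | s, m + 1, g => ∑ y ∈ Finset.univ.filter (fun y => y ≤ s ∧ r y = 2 * m + 2),
      ∑ u ∈ Finset.univ.filter (fun u => u ≤ y ∧ r u = 2 * m + 1), x u * sd r x u m (fun ε => g (y :: ε))

/-- `g` is a system of iterated coefficients of `a` -/
def Comp [LE P] [CommRing F] (r : P → ℕ) (x : P → F) : P → ℕ → (List P → F) → (List P → F) → Prop
  | _, 0, a, g => a [] = g []
  | s, m + 1, a, g => ∀ y, y ≤ s → r y = 2 * m + 2 → ∃ η : List (St P) → F,
      (∀ τ, Fo r y (m + 1) τ → dd x η (fl τ) = a τ) ∧
      Comp r x y m (fun τ => η (.c1 :: fl τ)) (fun ε => g (y :: ε))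

/-- `z` is orthogonal to all coboundaries -/
def Stress [Fintype P] [PartialOrder P] [CommRing F] (r : P → ℕ) (x : P → F) (s : P) (m : ℕ) (z : List P → F) : Prop :=
  ∀ ζ : List (St P) → F, so r s m (fun τ => dd x ζ (fl τ) * z τ) = 0

/-- independence of the squarefree monomials over the squares -/
def Indep [Fintype P] [PartialOrder P] [CommRing F] (r : P → ℕ) (x : P → F) : Prop :=
  ∀ (q : P) (m : ℕ) (c : List P → F), so r q m (fun τ => (τ.map x).prod * (c τ) ^ 2) = 0 → ∀ τ, Fo r q m τ → c τ = 0

end alg

/-! ### Linear systems over group rings -/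

section lin
variable {Γ : Type*} [Group Γ] {κ ι J : Type*} [Fintype ι] [Fintype J]

/-- square-summable solutions on the group -/
def SolL (c : κ → ι → J → ℤ) (s : J → Γ) : Set (E Γ ι) :=
  {f | ∀ g k, ∑ i, ∑ j, (c k i j : ℂ) * f (g * s j, i) = 0}

/-- solutions on a finite group -/
def SolQ {Q : Type*} [Group Q] (R : Type*) [CommRing R] (c : κ → ι → J → ℤ) (s : J → Q) : Submodule R (Q → ι → R) where
  carrier := {f | ∀ g k, ∑ i, ∑ j, (c k i j : R) * f (g * s j) i = 0}
  zero_mem' := by simp
  add_mem' := by
    intro f h hf hh g k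
    have h1 := hf g k
    have h2 := hh g k
    simp only [Pi.add_apply, mul_add, Finset.sum_add_distrib]
    rw [h1, h2, add_zero]
  smul_mem' := by
    intro a f hf g k
    have h1 := hf g k
    have : ∑ i, ∑ j, (c k i j : R) * (a • f) (g * s j) i = a * ∑ i, ∑ j, (c k i j : R) * f (g * s j) i := by
      simp only [Finset.mul_sum, Pi.smul_apply, smul_eq_mul]
      refine Finset.sum_congr rfl fun i _ => Finset.sum_congr rfl fun j _ => by ring
    rw [this, h1, mul_zero]

/-- solutions in a module with operators `T j` -/
def SolM {R M : Type*} [CommRing R] [AddCommGroup M] [Module R M] (c : κ → ι → J → ℤ) (T : J → M →ₗ[R] M) :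
    Submodule R (ι → M) where
  carrier := {f | ∀ k, ∑ i, ∑ j, c k i j • T j (f i) = 0}
  zero_mem' := by simp
  add_mem' := by
    intro f h hf hh k
    have h1 := hf k
    have h2 := hh k
    simp only [Pi.add_apply, map_add, smul_add, Finset.sum_add_distrib]
    rw [h1, h2, add_zero]
  smul_mem' := by
    intro a f hf k
    have h1 := hf k
    have : ∑ i, ∑ j, c k i j • T j ((a • f) i) = a • ∑ i, ∑ j, c k i j • T j (f i) := by
      simp only [Finset.smul_sum, Pi.smul_apply, map_smul]
      refine Finset.sum_congr rfl fun i _ => Finset.sum_congr rfl fun j _ => ?_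
      rw [smul_comm]
    rw [this, h1, smul_zero]

end lin

/-! ### Graphs -/

section col
variable {V : Type*} [Fintype V] [DecidableEq V]

/-- cycles of degree `i` of the Davis complex of `G` with coefficients in a module of characteristic two, on which the
generator `v` acts by `T v` -/
def ZM {R M : Type*} [CommRing R] [AddCommGroup M] [Module R M] (G : SimpleGraph V) (T : V → M →ₗ[R] M) (i : ℕ) :
    Submodule R (Finset V → M) where
  carrier := {z | (∀ S : Finset V, ¬ (G.IsClique S ∧ S.card = i) → z S = 0) ∧
    (∀ S : Finset V, ∀ v ∈ S, T v (z S) = z S) ∧ ∀ S : Finset V, ∑ v ∈ Sᶜ, z (insert v S) = 0}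
  zero_mem' := by simp
  add_mem' := by
    rintro z w ⟨h1, h2, h3⟩ ⟨k1, k2, k3⟩
    refine ⟨fun S hS => ?_, fun S v hv => ?_, fun S => ?_⟩
    · rw [Pi.add_apply, h1 S hS, k1 S hS, add_zero]
    · rw [Pi.add_apply, map_add, h2 S v hv, k2 S v hv]
    · simp only [Pi.add_apply, Finset.sum_add_distrib]
      rw [h3, k3, add_zero]
  smul_mem' := by
    rintro a z ⟨h1, h2, h3⟩
    refine ⟨fun S hS => ?_, fun S v hv => ?_, fun S => ?_⟩
    · rw [Pi.smul_apply, h1 S hS, smul_zero]
    · rw [Pi.smul_apply, map_smul, h2 S v hv]
    · simp only [Pi.smul_apply]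
      rw [← Finset.smul_sum, h3, smul_zero]

/-- the differential of the complex of a coloured graph: `φ S C` is the coefficient of the monomial `C` (a set of colours
not on `S`) of a polynomial attached to the clique `S` -/
def cobF {C F : Type*} [DecidableEq C] [CommRing F] (col : V → C) (x : V → F) (φ : Finset V → Finset C → F)
    (S : Finset V) (T : Finset C) : F :=
  ∑ v ∈ S, (φ (S.erase v) T + x v * φ (S.erase v) (insert (col v) T))

/-- exactness in degree `i` of the complex of a coloured graph -/
def ExF {C F : Type*} [DecidableEq C] [CommRing F] (G : SimpleGraph V) (col : V → C) (x : V → F) (i : ℕ) : Prop :=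
  ∀ φ : Finset V → Finset C → F,
    (∀ (S : Finset V) T, G.IsClique S → S.card = i + 1 → Disjoint T (S.image col) → cobF col x φ S T = 0) →
    ∃ ψ : Finset V → Finset C → F, ∀ (S : Finset V) T, G.IsClique S → S.card = i → Disjoint T (S.image col) →
      cobF col x ψ S T = φ S T

end col

/-- comparability graphs -/
def Cmp {V : Type*} [PartialOrder V] : SimpleGraph V where
  Adj a b := a < b ∨ b < a
  symm := ⟨fun _ _ h => h.symm⟩
  loopless := ⟨fun a h => by
    rcases h with h | h <;> exact lt_irrefl a h⟩

end Ord
end Singer
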