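import Pool.Agent.Singer.Ord.Luck

/-!
# Singer/Ord: linear systems modulo two

* `finrank_mod_two` : the solutions over `ℂ` are bounded by the solutions modulo two;
* `finrank_two_group` : for a finite 2-group the solutions on the group are bounded by the solutions in a module.
-/

set_option autoImplicit false
set_option linter.unusedSectionVars false
set_option linter.unusedVariables false

namespace Singer
namespace Ord

namespace ModTwo

section minors
variable {K : Type*} [Field K] {m n : Type*} [Fintype m] [Fintype n]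

theorem exists_rows (A : Matrix m n K) :
    ∃ a : Fin A.rank → m, LinearIndependent K (A.submatrix a id).row := by
  have h := Submodule.exists_fun_fin_finrank_span_eq K (Set.range A.row)
  rw [← A.rank_eq_finrank_span_row] at h
  obtain ⟨f, hf, -, hi⟩ := h
  choose a ha using hf
  refine ⟨a, ?_⟩
  have : (A.submatrix a id).row = f := funext fun i => ha i
  rwa [this]

theorem exists_minor (A : Matrix m n K) :
    ∃ (a : Fin A.rank → m) (b : Fin A.rank → n), (A.submatrix a b).det ≠ 0 := by
  obtain ⟨a, ha⟩ := exists_rows A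
  obtain ⟨b, hb⟩ := exists_rows (A.submatrix a id).transpose
  have h1 : (A.submatrix a id).transpose.rank = A.rank := by
    rw [Matrix.rank_transpose, ha.rank_matrix, Fintype.card_fin]
  let e : Fin A.rank ≃ Fin (A.submatrix a id).transpose.rank := finCongr h1.symm
  refine ⟨a, b ∘ e, ?_⟩
  have h2 : LinearIndependent K ((A.submatrix a (b ∘ e)).transpose).row := hb.comp e e.injective
  have h3 := Matrix.linearIndependent_rows_iff_isUnit.1 h2
  rw [Matrix.isUnit_transpose, Matrix.isUnit_iff_isUnit_det] at h3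
  exact h3.ne_zero

theorem rank_ge (A : Matrix m n K) {p : ℕ} (a : Fin p → m) (b : Fin p → n)
    (h : (A.submatrix a b).det ≠ 0) : p ≤ A.rank := by
  have h1 : IsUnit (A.submatrix a b) := (Matrix.isUnit_iff_isUnit_det _).2 (IsUnit.mk0 _ h)
  have h2 := Matrix.rank_of_isUnit _ h1
  rw [Fintype.card_fin] at h2
  rw [← h2]
  exact Matrix.rank_submatrix_le A a b

end minors

theorem rank_two {m n : Type*} [Fintype m] [Fintype n] (A : Matrix m n ℤ) :
    (A.map (Int.castRingHom (ZMod 2))).rank ≤ (A.map (Int.castRingHom ℂ)).rank := by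
  obtain ⟨a, b, h⟩ := exists_minor (A.map (Int.castRingHom (ZMod 2)))
  refine rank_ge _ a b ?_
  have e1 : (A.map (Int.castRingHom (ZMod 2))).submatrix a b =
      (Int.castRingHom (ZMod 2)).mapMatrix (A.submatrix a b) := rfl
  have e2 : (A.map (Int.castRingHom ℂ)).submatrix a b =
      (Int.castRingHom ℂ).mapMatrix (A.submatrix a b) := rfl
  rw [e1, ← RingHom.map_det] at h
  rw [e2, ← RingHom.map_det]
  intro h2
  apply h
  have h3 : (A.submatrix a b).det = 0 := by
    have : (((A.submatrix a b).det : ℤ) : ℂ) = 0 := h2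
    exact_mod_cast this
  rw [h3, map_zero]

section sol
variable {κ ι J : Type} [Fintype κ] [Fintype ι] [Fintype J] {Q : Type} [Group Q] [Fintype Q]

open Classical in
/-- the matrix of the system -/
noncomputable def mat (c : κ → ι → J → ℤ) (s : J → Q) : Matrix (Q × κ) (Q × ι) ℤ :=
  fun x y => ∑ j, if y.1 = x.1 * s j then c x.2 y.2 j else 0

theorem mat_mulVec {K : Type*} [Field K] (c : κ → ι → J → ℤ) (s : J → Q) (f : Q × ι → K) (g : Q) (k : κ) :
    ((mat c s).map (Int.castRingHom K)).mulVec f (g, k) = ∑ i, ∑ j, (c k i j : K) * f (g * s j, i) := by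
  classical
  simp only [Matrix.mulVec, dotProduct, Matrix.map_apply, mat, Fintype.sum_prod_type]
  rw [Finset.sum_comm]
  refine Finset.sum_congr rfl fun i _ => ?_
  simp only [map_sum, Finset.sum_mul]
  rw [Finset.sum_comm]
  refine Finset.sum_congr rfl fun j _ => ?_
  rw [Finset.sum_eq_single (g * s j)]
  · rw [if_pos rfl]; rfl
  · intro b _ hb
    rw [if_neg hb, map_zero, zero_mul]
  · intro h; exact absurd (Finset.mem_univ _) h

theorem finrank_solQ {K : Type*} [Field K] (c : κ → ι → J → ℤ) (s : J → Q) :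
    ((mat c s).map (Int.castRingHom K)).rank + Module.finrank K (SolQ (Q := Q) K c s) =
      Fintype.card (Q × ι) := by
  have h1 := LinearMap.finrank_range_add_finrank_ker ((mat c s).map (Int.castRingHom K)).mulVecLin
  rw [Module.finrank_fintype_fun_eq_card] at h1
  have h2 : Module.finrank K (SolQ (Q := Q) K c s) =
      Module.finrank K (LinearMap.ker ((mat c s).map (Int.castRingHom K)).mulVecLin) := by
    let e : (Q × ι → K) ≃ₗ[K] (Q → ι → K) := LinearEquiv.curry K K Q ι
    have h3 : (LinearMap.ker ((mat c s).map (Int.castRingHom K)).mulVecLin).map (e : (Q × ι → K) →ₗ[K] (Q → ι → K)) =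
        SolQ (Q := Q) K c s := by
      ext f
      rw [Submodule.mem_map]
      constructor
      · rintro ⟨h, hh, rfl⟩
        rw [LinearMap.mem_ker] at hh
        intro g k
        have h4 := congrFun hh (g, k)
        rw [Matrix.mulVecLin_apply, mat_mulVec] at h4
        exact h4
      · intro hf
        refine ⟨e.symm f, ?_, e.apply_symm_apply f⟩
        rw [LinearMap.mem_ker]
        funext x
        obtain ⟨g, k⟩ := x
        rw [Matrix.mulVecLin_apply, mat_mulVec]
        exact hf g k
    rw [← h3]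
    exact LinearEquiv.finrank_map_eq e _
  rw [h2]
  exact h1

end sol

end ModTwo

open ModTwo

/-- (U2a) -/
theorem finrank_mod_two {κ ι J : Type} [Fintype κ] [Fintype ι] [Fintype J] (c : κ → ι → J → ℤ) {Q : Type} [Group Q]
    [Fintype Q] (s : J → Q) :
    Module.finrank ℂ (SolQ (Q := Q) ℂ c s) ≤ Module.finrank (ZMod 2) (SolQ (Q := Q) (ZMod 2) c s) := by
  have h1 := finrank_solQ (K := ℂ) c s
  have h2 := finrank_solQ (K := ZMod 2) c s
  have h3 := rank_two (mat c s)
  omega

namespace ModTwo

section exact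
variable {R : Type} [Field R] {κ ι J : Type} [Fintype κ] [Fintype ι] [Fintype J]

/-- an injective intertwiner -/
theorem sol_le_of_inj {X X' : Type} [AddCommGroup X] [Module R X] [FiniteDimensional R X]
    [AddCommGroup X'] [Module R X'] [FiniteDimensional R X'] (c : κ → ι → J → ℤ) (T : J → X →ₗ[R] X)
    (T' : J → X' →ₗ[R] X') (e : X →ₗ[R] X') (he : Function.Injective e)
    (hT : ∀ j x, e (T j x) = T' j (e x)) :
    Module.finrank R (SolM c T) ≤ Module.finrank R (SolM c T') := by
  let Φ : SolM c T →ₗ[R] SolM c T' :=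
    { toFun := fun f => ⟨fun i => e (f.1 i), fun k => by
        have h := congrArg e (f.2 k)
        simp only [map_sum, map_zsmul, hT, map_zero] at h
        exact h⟩
      map_add' := fun f g => Subtype.ext (funext fun i => map_add e _ _)
      map_smul' := fun a f => Subtype.ext (funext fun i => map_smul e _ _) }
  refine LinearMap.finrank_le_finrank_of_injective (f := Φ) ?_
  intro f g h
  apply Subtype.ext
  funext i
  exact he (congrFun (congrArg Subtype.val h) i)

/-- two steps of a filtration -/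
theorem sol_le_two {X X' : Type} [AddCommGroup X] [Module R X] [FiniteDimensional R X]
    [AddCommGroup X'] [Module R X'] [FiniteDimensional R X'] (c : κ → ι → J → ℤ) (T : J → X →ₗ[R] X)
    (T' : J → X' →ₗ[R] X') (e : X' →ₗ[R] X) (he : Function.Injective e)
    (hT : ∀ j x, e (T' j x) = T j (e x)) (D : X →ₗ[R] X) (hD : ∀ j x, D (T j x) = T j (D x))
    (h1 : ∀ x, ∃ y, e y = D x) (h2 : ∀ x, D x = 0 → ∃ y, e y = x) :
    Module.finrank R (SolM c T) ≤ 2 * Module.finrank R (SolM c T') := by
  -- the system applied to `D`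
  let Φ : SolM c T →ₗ[R] (ι → X) :=
    { toFun := fun f i => D (f.1 i)
      map_add' := fun f g => funext fun i => map_add D _ _
      map_smul' := fun a f => funext fun i => map_smul D _ _ }
  let Ψ : SolM c T' →ₗ[R] (ι → X) :=
    { toFun := fun f i => e (f.1 i)
      map_add' := fun f g => funext fun i => map_add e _ _
      map_smul' := fun a f => funext fun i => map_smul e _ _ }
  have hlift : ∀ f : ι → X', (∀ k, ∑ i, ∑ j, c k i j • T j (e (f i)) = 0) →
      f ∈ SolM c T' := by
    intro f hf k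
    apply he
    simp only [map_sum, map_zsmul, hT, map_zero]
    exact hf k
  have h3 := LinearMap.finrank_range_add_finrank_ker Φ
  have h4 : Module.finrank R (LinearMap.range Φ) ≤ Module.finrank R (SolM c T') := by
    have : LinearMap.range Φ ≤ LinearMap.range Ψ := by
      rintro _ ⟨f, rfl⟩
      choose y hy using fun i => h1 (f.1 i)
      refine ⟨⟨y, hlift y fun k => ?_⟩, funext fun i => hy i⟩
      have h := congrArg D (f.2 k)
      simp only [map_sum, map_zsmul, hD, map_zero] at h
      simp only [hy]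
      exact h
    exact (Submodule.finrank_mono this).trans (LinearMap.finrank_range_le Ψ)
  have h5 : Module.finrank R (LinearMap.ker Φ) ≤ Module.finrank R (SolM c T') := by
    have h6 : Module.finrank R (LinearMap.ker Φ) =
        Module.finrank R ((LinearMap.ker Φ).map (SolM c T).subtype) :=
      (Submodule.finrank_map_subtype_eq _ _).symm
    have : (LinearMap.ker Φ).map (SolM c T).subtype ≤ LinearMap.range Ψ := by
      rintro _ ⟨f, hf, rfl⟩
      have hf' : ∀ i, D (f.1 i) = 0 := fun i => congrFun (LinearMap.mem_ker.1 hf) i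
      choose y hy using fun i => h2 (f.1 i) (hf' i)
      refine ⟨⟨y, hlift y fun k => ?_⟩, funext fun i => hy i⟩
      simp only [hy]
      exact f.2 k
    rw [h6]
    exact (Submodule.finrank_mono this).trans (LinearMap.finrank_range_le Ψ)
  omega

end exact

section tw
variable {Γ : Type} [Group Γ] {M : Type} [AddCommGroup M] [Module (ZMod 2) M]
  {Q : Type} [Group Q]

/-- translation of functions with values in a module -/
def Tw (φ : Γ →* Q) (ρ : Γ →* (M →ₗ[ZMod 2] M)) (h : Γ) : (Q → M) →ₗ[ZMod 2] (Q → M) where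
  toFun F g := ρ h (F (g * φ h))
  map_add' F G := funext fun g => map_add (ρ h) _ _
  map_smul' a F := funext fun g => map_smul (ρ h) _ _

theorem Tw_apply (φ : Γ →* Q) (ρ : Γ →* (M →ₗ[ZMod 2] M)) (h : Γ) (F : Q → M) (g : Q) :
    Tw φ ρ h F g = ρ h (F (g * φ h)) := rfl

theorem char_two_neg (x : M) : -x = x := by
  have h : (2 : ZMod 2) • x = 0 := by
    rw [show (2 : ZMod 2) = 0 from rfl, zero_smul]
  rw [two_smul] at h
  exact neg_eq_of_add_eq_zero_left h

theorem sol_tw [FiniteDimensional (ZMod 2) M] {κ ι J : Type} [Fintype κ] [Fintype ι] [Fintype J]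
    (c : κ → ι → J → ℤ) (s : J → Γ) (ρ : Γ →* (M →ₗ[ZMod 2] M)) (n : ℕ) :
    ∀ (Q : Type) [Group Q] [Finite Q] (φ : Γ →* Q), IsPGroup 2 Q → Nat.card Q = n →
      Module.finrank (ZMod 2) (SolM c (fun j => Tw φ ρ (s j))) ≤
        n * Module.finrank (ZMod 2) (SolM c (fun j => ρ (s j))) := by
  induction n using Nat.strong_induction_on with
  | _ n ih =>
    intro Q _ _ φ hQ hn
    rcases subsingleton_or_nontrivial Q with hs | hs
    · have hn1 : n = 1 := by rw [← hn]; exact Nat.card_unique
      rw [hn1, one_mul]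
      refine sol_le_of_inj c _ _ (LinearMap.proj 1) ?_ ?_
      · intro F G h
        funext g
        rw [Subsingleton.elim g 1]
        exact h
      · intro j F
        show ρ (s j) (F (1 * φ (s j))) = ρ (s j) (F 1)
        rw [Subsingleton.elim (1 * φ (s j)) 1]
    · -- a central element of order two
      obtain ⟨z, hzc, hz1, hz2⟩ : ∃ z : Q, z ∈ Subgroup.center Q ∧ z ≠ 1 ∧ z * z = 1 := by
        have hc := hQ.center_nontrivial
        obtain ⟨⟨w, hw⟩, hw1⟩ := exists_ne (1 : Subgroup.center Q)
        have hw1' : w ≠ 1 := fun h => hw1 (Subtype.ext h)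
        obtain ⟨k, hk, hmin⟩ : ∃ k, w ^ 2 ^ k = 1 ∧ ∀ j < k, w ^ 2 ^ j ≠ 1 := by
          classical
          have hex : ∃ k, w ^ 2 ^ k = 1 := hQ w
          exact ⟨Nat.find hex, Nat.find_spec hex, fun j hj => Nat.find_min hex hj⟩
        rcases k with _ | k
        · rw [pow_zero, pow_one] at hk; exact absurd hk hw1'
        · refine ⟨w ^ 2 ^ k, Subgroup.pow_mem _ hw _, hmin k (Nat.lt_succ_self k), ?_⟩
          rw [← pow_add, ← two_mul, ← pow_succ']
          exact hk
      have hcomm : ∀ g : Q, g * z = z * g := fun g => (Subgroup.mem_center_iff.1 hzc g)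
      let N : Subgroup Q := Subgroup.zpowers z
      have hN : N.Normal := by
        refine ⟨fun x hx g => ?_⟩
        obtain ⟨k, rfl⟩ := hx
        have : g * z ^ k * g⁻¹ = z ^ k := by
          have h1 : Commute g (z ^ k) := Commute.zpow_right (hcomm g) k
          rw [h1.eq, mul_inv_cancel_right]
        rw [this]
        exact ⟨k, rfl⟩
      have hcard : Nat.card N = 2 := by
        rw [Nat.card_zpowers]
        exact orderOf_eq_prime (by rw [sq]; exact hz2) hz1
      have hcard2 : Nat.card Q = Nat.card (Q ⧸ N) * 2 := by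
        rw [← hcard]; exact Subgroup.card_eq_card_quotient_mul_card_subgroup N
      have hpos : 0 < Nat.card (Q ⧸ N) := Nat.card_pos
      have h1 := ih (Nat.card (Q ⧸ N)) (by omega) (Q ⧸ N) ((QuotientGroup.mk' N).comp φ)
        (hQ.to_quotient N) rfl
      have key : Module.finrank (ZMod 2) (SolM c (fun j => Tw φ ρ (s j))) ≤
          2 * Module.finrank (ZMod 2) (SolM c (fun j => Tw ((QuotientGroup.mk' N).comp φ) ρ (s j))) := by
        let e : (Q ⧸ N → M) →ₗ[ZMod 2] (Q → M) :=
          { toFun := fun F g => F (g : Q ⧸ N)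
            map_add' := fun F G => rfl
            map_smul' := fun a F => rfl }
        let D : (Q → M) →ₗ[ZMod 2] (Q → M) :=
          { toFun := fun F g => F g + F (g * z)
            map_add' := fun F G => funext fun g => by
              show (F g + G g) + (F (g * z) + G (g * z)) = (F g + F (g * z)) + (G g + G (g * z))
              abel
            map_smul' := fun a F => funext fun g => by
              show a • F g + a • F (g * z) = a • (F g + F (g * z))
              rw [smul_add] }
        -- invariant functions come from the quotient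
        have hinv : ∀ F : Q → M, (∀ g, F (g * z) = F g) → ∃ G : Q ⧸ N → M, e G = F := by
          intro F hF
          refine ⟨fun q => F q.out, funext fun g => ?_⟩
          show F ((g : Q ⧸ N).out) = F g
          have h2 : ((g : Q ⧸ N).out)⁻¹ * g ∈ N := by
            rw [← QuotientGroup.eq]
            exact QuotientGroup.out_eq' _
          obtain ⟨k, hk⟩ := h2
          have h3 : g = (g : Q ⧸ N).out * z ^ k := by
            have hk' : z ^ k = ((g : Q ⧸ N).out)⁻¹ * g := hk
            rw [hk', mul_inv_cancel_left]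
          have h4 : ∀ (k : ℤ) (x : Q), F (x * z ^ k) = F x := by
            intro k
            induction k using Int.induction_on with
            | zero => intro x; rw [zpow_zero, mul_one]
            | succ i ih => intro x; rw [zpow_add_one, ← mul_assoc, hF, ih]
            | pred i ih =>
              intro x
              rw [zpow_sub_one, ← mul_assoc, ← hF, inv_mul_cancel_right, ih]
          conv_rhs => rw [h3]
          rw [h4]
        refine sol_le_two c _ _ e ?_ ?_ D ?_ ?_ ?_
        · intro F G h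
          funext q
          obtain ⟨g, rfl⟩ := QuotientGroup.mk_surjective q
          exact congrFun h g
        · intro j F
          rfl
        · intro j F
          funext g
          show ρ (s j) (F (g * φ (s j))) + ρ (s j) (F (g * z * φ (s j))) =
            ρ (s j) (F (g * φ (s j)) + F (g * φ (s j) * z))
          rw [map_add, mul_assoc g z, ← hcomm, ← mul_assoc]
        · intro F
          refine hinv _ fun g => ?_
          show F (g * z) + F (g * z * z) = F g + F (g * z)
          rw [mul_assoc, hz2, mul_one, add_comm]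
        · intro F hF
          refine hinv _ fun g => ?_
          have h2 : F g + F (g * z) = 0 := congrFun hF g
          rw [← char_two_neg (F g)]
          exact (neg_eq_of_add_eq_zero_right h2).symm
      calc Module.finrank (ZMod 2) (SolM c (fun j => Tw φ ρ (s j)))
          ≤ 2 * Module.finrank (ZMod 2)
            (SolM c (fun j => Tw ((QuotientGroup.mk' N).comp φ) ρ (s j))) := key
        _ ≤ 2 * (Nat.card (Q ⧸ N) * Module.finrank (ZMod 2) (SolM c (fun j => ρ (s j)))) := by omega
        _ = n * Module.finrank (ZMod 2) (SolM c (fun j => ρ (s j))) := by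
          rw [← hn, hcard2]; ring

end tw

end ModTwo

/-- (U2b) for a finite 2-group -/
theorem finrank_two_group {κ ι J : Type} [Fintype κ] [Fintype ι] [Fintype J] (c : κ → ι → J → ℤ) {Q : Type} [Group Q]
    [Fintype Q] (hQ : IsPGroup 2 Q) (s : J → Q) {M : Type} [AddCommGroup M] [Module (ZMod 2) M]
    [FiniteDimensional (ZMod 2) M] (ρ : Q →* (M →ₗ[ZMod 2] M)) :
    Module.finrank (ZMod 2) (SolQ (Q := Q) (ZMod 2) c s) * Module.finrank (ZMod 2) M ≤
      Fintype.card Q * Module.finrank (ZMod 2) (SolM c (fun j => ρ (s j))) := by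
  have h1 := sol_tw c s ρ (Nat.card Q) Q (MonoidHom.id Q) hQ rfl
  rw [← Nat.card_eq_fintype_card]
  refine le_trans ?_ h1
  let b := Module.finBasis (ZMod 2) M
  have hρ : ∀ g h : Q, ∀ x : M, ρ g (ρ h x) = ρ (g * h) x := fun g h x => by rw [map_mul]; rfl
  let Φ : (Fin (Module.finrank (ZMod 2) M) → SolQ (Q := Q) (ZMod 2) c s) →ₗ[ZMod 2]
      SolM c (fun j => Tw (MonoidHom.id Q) ρ (s j)) :=
    { toFun := fun f => ⟨fun i g => ρ g⁻¹ (∑ a, (f a).1 g i • b a), fun k => by
        funext g
        have e1 : ∀ i j, Tw (MonoidHom.id Q) ρ (s j) (fun g => ρ g⁻¹ (∑ a, (f a).1 g i • b a)) g =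
            ρ g⁻¹ (∑ a, (f a).1 (g * s j) i • b a) := by
          intro i j
          rw [Tw_apply, MonoidHom.id_apply, hρ, mul_inv_rev, mul_inv_cancel_left]
        have e2 : (∑ i, ∑ j, c k i j • Tw (MonoidHom.id Q) ρ (s j)
            (fun g => ρ g⁻¹ (∑ a, (f a).1 g i • b a))) g =
            ρ g⁻¹ (∑ a, (∑ i, ∑ j, (c k i j : ZMod 2) * (f a).1 (g * s j) i) • b a) := by
          simp only [Finset.sum_apply, Pi.smul_apply, e1]
          simp only [Finset.sum_smul, map_sum]
          rw [Finset.sum_comm (s := (Finset.univ : Finset (Fin (Module.finrank (ZMod 2) M))))]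
          refine Finset.sum_congr rfl fun i _ => ?_
          rw [Finset.sum_comm (s := (Finset.univ : Finset (Fin (Module.finrank (ZMod 2) M))))]
          refine Finset.sum_congr rfl fun j _ => ?_
          rw [Finset.smul_sum]
          refine Finset.sum_congr rfl fun a _ => ?_
          rw [mul_smul, map_smul, map_smul, map_smul, Int.cast_smul_eq_zsmul]
        rw [e2]
        have e3 : ∀ a, ∑ i, ∑ j, (c k i j : ZMod 2) * (f a).1 (g * s j) i = 0 := fun a => (f a).2 g k
        simp only [e3, zero_smul, Finset.sum_const_zero, map_zero]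
        rfl⟩
      map_add' := fun f f' => by
        apply Subtype.ext
        funext i g
        show ρ g⁻¹ (∑ a, ((f a).1 g i + (f' a).1 g i) • b a) = _
        simp only [add_smul, Finset.sum_add_distrib, map_add]
        rfl
      map_smul' := fun t f => by
        apply Subtype.ext
        funext i g
        show ρ g⁻¹ (∑ a, (t * (f a).1 g i) • b a) = _
        simp only [mul_smul, ← Finset.smul_sum, map_smul]
        rfl }
  have hΦ : Function.Injective Φ := by
    intro f f' h
    funext a
    apply Subtype.ext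
    funext g i
    have h2 := congrFun (congrFun (congrArg Subtype.val h) i) g
    have h3 : ρ g⁻¹ (∑ a, (f a).1 g i • b a) = ρ g⁻¹ (∑ a, (f' a).1 g i • b a) := h2
    have h4 := congrArg (ρ g) h3
    rw [hρ, hρ, mul_inv_cancel, map_one, Module.End.one_apply, Module.End.one_apply] at h4
    have h5 := b.linearIndependent
    rw [← sub_eq_zero, ← Finset.sum_sub_distrib] at h4
    simp only [← sub_smul] at h4
    exact sub_eq_zero.1 (Fintype.linearIndependent_iff.1 h5 _ h4 a)
  have h2 := LinearMap.finrank_le_finrank_of_injective hΦ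
  rw [Module.finrank_pi_fintype, Finset.sum_const, Finset.card_univ, Fintype.card_fin, smul_eq_mul,
    mul_comm] at h2
  exact h2

namespace ModTwo

theorem isPGroup_prod {Q Q' : Type} [Group Q] [Group Q'] (h : IsPGroup 2 Q) (h' : IsPGroup 2 Q') :
    IsPGroup 2 (Q × Q') := by
  rintro ⟨x, y⟩
  obtain ⟨k, hk⟩ := h x
  obtain ⟨l, hl⟩ := h' y
  refine ⟨k + l, Prod.ext ?_ ?_⟩
  · show x ^ 2 ^ (k + l) = 1
    rw [pow_add, pow_mul, hk, one_pow]
  · show y ^ 2 ^ (k + l) = 1
    rw [add_comm, pow_add, pow_mul, hl, one_pow]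

/-- finitely many elements are detected by one finite 2-group -/
theorem res_finset {Γ : Type} [Group Γ] (hres : ∀ g : Γ, g ≠ 1 → ∃ (Q : Type) (_ : Group Q) (_ : Fintype Q)
      (π : Γ →* Q), IsPGroup 2 Q ∧ π g ≠ 1) (S : Finset Γ) (hS : 1 ∉ S) :
    ∃ (Q : Type) (_ : Group Q) (_ : Fintype Q) (π : Γ →* Q), IsPGroup 2 Q ∧ ∀ g ∈ S, π g ≠ 1 := by
  classical
  induction S using Finset.induction_on with
  | empty =>
    exact ⟨Unit, inferInstance, inferInstance, 1, IsPGroup.of_subsingleton _ _,
      fun g hg => absurd hg (Finset.notMem_empty g)⟩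
  | insert a S ha ih =>
    obtain ⟨Q1, i1, j1, π1, h1, h2⟩ := hres a (fun h => hS (h ▸ Finset.mem_insert_self a S))
    obtain ⟨Q2, i2, j2, π2, h3, h4⟩ := ih (fun h => hS (Finset.mem_insert_of_mem h))
    refine ⟨Q1 × Q2, inferInstance, inferInstance, π1.prod π2, isPGroup_prod h1 h3, fun g hg h => ?_⟩
    rcases Finset.mem_insert.1 hg with rfl | hg
    · exact h2 (congrArg Prod.fst h)
    · exact h4 g hg (congrArg Prod.snd h)

end ModTwo

/-- (U2c) from the conclusion of the approximation theorem -/
theorem vdim_le_mod_of {Γ : Type} [Group Γ] (hres : ∀ g : Γ, g ≠ 1 → ∃ (Q : Type) (_ : Group Q) (_ : Fintype Q)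
      (π : Γ →* Q), IsPGroup 2 Q ∧ π g ≠ 1)
    {κ ι J : Type} [Fintype κ] [Fintype ι] [Fintype J]
    (c : κ → ι → J → ℤ) (s : J → Γ) (v : ℝ)
    (hluck : ∀ ε : ℝ, 0 < ε → ∃ S : Finset Γ, 1 ∉ S ∧ ∀ (Q : Type) [Group Q] [Fintype Q] (π : Γ →* Q),
      (∀ g ∈ S, π g ≠ 1) →
      (v - ε) * Fintype.card Q ≤ Module.finrank ℂ (SolQ (Q := Q) ℂ c (fun j => π (s j))))
    {M : Type} [AddCommGroup M] [Module (ZMod 2) M] [FiniteDimensional (ZMod 2) M] (ρ : Γ →* (M →ₗ[ZMod 2] M))
    (h2 : ∀ g : Γ, ∃ k : ℕ, ρ (g ^ 2 ^ k) = 1) :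
    v * Module.finrank (ZMod 2) M ≤ Module.finrank (ZMod 2) (SolM c (fun j => ρ (s j))) := by
  classical
  set d : ℝ := (Module.finrank (ZMod 2) M : ℝ) with hd
  have hd0 : 0 ≤ d := Nat.cast_nonneg _
  refine le_of_forall_pos_le_add fun ε hε => ?_
  have hε' : 0 < ε / (d + 1) := div_pos hε (by linarith)
  obtain ⟨S, hS, hQ⟩ := hluck (ε / (d + 1)) hε'
  obtain ⟨Q1, i1, j1, π1, h3, h4⟩ := res_finset hres S hS
  have : Finite M := Module.finite_of_finite (ZMod 2)
  have : Finite (M →ₗ[ZMod 2] M) :=
    Finite.of_injective (fun f : M →ₗ[ZMod 2] M => (f : M → M)) DFunLike.coe_injective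
  have : Finite (M →ₗ[ZMod 2] M)ˣ :=
    Finite.of_injective (fun u : (M →ₗ[ZMod 2] M)ˣ => (u : M →ₗ[ZMod 2] M)) Units.val_injective
  let ρu : Γ →* (M →ₗ[ZMod 2] M)ˣ := MonoidHom.toHomUnits ρ
  let Q2 := ρu.range
  let f2 : Fintype Q2 := Fintype.ofFinite _
  have h5 : IsPGroup 2 Q2 := by
    rintro ⟨x, g, rfl⟩
    obtain ⟨k, hk⟩ := h2 g
    refine ⟨k, Subtype.ext ?_⟩
    show ρu g ^ 2 ^ k = 1
    rw [← map_pow]
    exact Units.ext hk
  let π : Γ →* Q1 × Q2 := π1.prod ρu.rangeRestrict
  let ρ' : Q1 × Q2 →* (M →ₗ[ZMod 2] M) :=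
    ((Units.coeHom (M →ₗ[ZMod 2] M)).comp ρu.range.subtype).comp (MonoidHom.snd Q1 Q2)
  have h6 : ∀ g, ρ' (π g) = ρ g := fun g => rfl
  have h7 := hQ (Q1 × Q2) π (fun g hg h => h4 g hg (congrArg Prod.fst h))
  have h8 := finrank_mod_two c (Q := Q1 × Q2) (fun j => π (s j))
  have h9 : Module.finrank (ZMod 2) (SolQ (Q := Q1 × Q2) (ZMod 2) c (fun j => π (s j))) *
      Module.finrank (ZMod 2) M ≤
      Fintype.card (Q1 × Q2) * Module.finrank (ZMod 2) (SolM c (fun j => ρ (s j))) :=
    finrank_two_group c (Q := Q1 × Q2) (isPGroup_prod h3 h5) (fun j => π (s j)) ρ'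
  set m : ℝ := (Module.finrank (ZMod 2) (SolM c (fun j => ρ (s j))) : ℝ) with hm
  have h8' : (Module.finrank ℂ (SolQ (Q := Q1 × Q2) ℂ c (fun j => π (s j))) : ℝ) ≤
      Module.finrank (ZMod 2) (SolQ (Q := Q1 × Q2) (ZMod 2) c (fun j => π (s j))) := by exact_mod_cast h8
  have h9' : (Module.finrank (ZMod 2) (SolQ (Q := Q1 × Q2) (ZMod 2) c (fun j => π (s j))) : ℝ) * d ≤
      Fintype.card (Q1 × Q2) * m := by
    rw [hd, hm]; exact_mod_cast h9
  have hq : (0 : ℝ) < Fintype.card (Q1 × Q2) := by exact_mod_cast Fintype.card_pos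
  have h10 : (v - ε / (d + 1)) * d ≤ m := by
    have h11 : (Fintype.card (Q1 × Q2) : ℝ) * ((v - ε / (d + 1)) * d) ≤ Fintype.card (Q1 × Q2) * m := by
      calc (Fintype.card (Q1 × Q2) : ℝ) * ((v - ε / (d + 1)) * d)
          = ((v - ε / (d + 1)) * Fintype.card (Q1 × Q2)) * d := by ring
        _ ≤ (Module.finrank ℂ (SolQ (Q := Q1 × Q2) ℂ c (fun j => π (s j))) : ℝ) * d :=
          mul_le_mul_of_nonneg_right h7 hd0
        _ ≤ (Module.finrank (ZMod 2) (SolQ (Q := Q1 × Q2) (ZMod 2) c (fun j => π (s j))) : ℝ) * d :=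
          mul_le_mul_of_nonneg_right h8' hd0
        _ ≤ _ := h9'
    exact le_of_mul_le_mul_left h11 hq
  have h12 : ε / (d + 1) * d ≤ ε := by
    rw [div_mul_eq_mul_div, div_le_iff₀ (by linarith)]
    nlinarith
  linarith

/-- (U2c) the bound for residually 2-finite groups and modules through a 2-group -/
theorem vdim_le_mod {Γ : Type} [Group Γ] (hres : ∀ g : Γ, g ≠ 1 → ∃ (Q : Type) (_ : Group Q) (_ : Fintype Q) (π : Γ →* Q),
      IsPGroup 2 Q ∧ π g ≠ 1)
    {κ ι J : Type} [Fintype κ] [Fintype ι] [DecidableEq ι] [Fintype J]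
    (c : κ → ι → J → ℤ) (s : J → Γ) (W : Submodule ℂ (E Γ ι)) (hW : (W : Set (E Γ ι)) = SolL c s)
    {M : Type} [AddCommGroup M] [Module (ZMod 2) M] [FiniteDimensional (ZMod 2) M] (ρ : Γ →* (M →ₗ[ZMod 2] M))
    (h2 : ∀ g : Γ, ∃ k : ℕ, ρ (g ^ 2 ^ k) = 1) :
    vdim W * Module.finrank (ZMod 2) M ≤ Module.finrank (ZMod 2) (SolM c (fun j => ρ (s j))) :=
  vdim_le_mod_of hres c s (vdim W) (fun e he => luck c s W hW e he) ρ h2

end Ord
end Singer
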