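import Pool.Agent.Singer.Ord.Step

/-!
# Singer/Ord: the Euler relation; exactness in the top degree
-/

set_option autoImplicit false
set_option linter.unusedSectionVars false
set_option linter.unusedVariables false

namespace Singer
namespace Ord

namespace EulerAux

/-! ### The count -/

section count
variable {P : Type} [Fintype P] [PartialOrder P]

open Classical in
/-- the number of the states, with signs -/
noncomputable def ev (r : P → ℕ) : P → ℕ → ℚ
  | _, 0 => 1
  | s, m + 1 => 2 * ev r s m - ∑ u ∈ Finset.univ.filter (fun u => u ≤ s ∧ r u = 2 * m + 1), ev r u m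

open Classical in
lemma ev_succ (r : P → ℕ) (s : P) (m : ℕ) : ev r s (m + 1) =
    2 * ev r s m - ∑ u ∈ Finset.univ.filter (fun u => u ≤ s ∧ r u = 2 * m + 1), ev r u m := rfl

/-- normalised -/
noncomputable def EE (r : P → ℕ) (s : P) : ℚ := ev r s (r s / 2) / 2 ^ (r s / 2)

open Classical in
lemma ev_eq (r : P → ℕ) (s : P) (m : ℕ) : ev r s m / 2 ^ m =
    1 - (1 / 2) * ∑ u ∈ Finset.univ.filter (fun u => u ≤ s ∧ Odd (r u) ∧ r u < 2 * m), EE r u := by
  induction m with
  | zero =>
    rw [Finset.sum_eq_zero fun u hu => ?_]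
    · simp [ev]
    · simp at hu
  | succ m ih =>
    have h1 : Finset.univ.filter (fun u => u ≤ s ∧ Odd (r u) ∧ r u < 2 * (m + 1)) =
        Finset.univ.filter (fun u => u ≤ s ∧ Odd (r u) ∧ r u < 2 * m) ∪
          Finset.univ.filter (fun u => u ≤ s ∧ r u = 2 * m + 1) := by
      ext u
      simp only [Finset.mem_filter, Finset.mem_univ, true_and, Finset.mem_union]
      constructor
      · rintro ⟨h1, ⟨k, hk⟩, h3⟩
        rcases Nat.lt_or_ge (r u) (2 * m) with h4 | h4
        · exact Or.inl ⟨h1, ⟨k, hk⟩, h4⟩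
        · exact Or.inr ⟨h1, by omega⟩
      · rintro (⟨h1, h2, h3⟩ | ⟨h1, h2⟩)
        · exact ⟨h1, h2, by omega⟩
        · exact ⟨h1, ⟨m, h2⟩, by omega⟩
    have h2 : Disjoint (Finset.univ.filter (fun u => u ≤ s ∧ Odd (r u) ∧ r u < 2 * m))
        (Finset.univ.filter (fun u => u ≤ s ∧ r u = 2 * m + 1)) := by
      rw [Finset.disjoint_left]
      intro u h3 h4
      simp only [Finset.mem_filter, Finset.mem_univ, true_and] at h3 h4
      omega
    rw [h1, Finset.sum_union h2, mul_add, ← sub_sub, ← ih, ev_succ]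
    have h3 : ∀ u ∈ Finset.univ.filter (fun u => u ≤ s ∧ r u = 2 * m + 1), EE r u = ev r u m / 2 ^ m := by
      intro u hu
      simp only [Finset.mem_filter, Finset.mem_univ, true_and] at hu
      have h4 : r u / 2 = m := by omega
      unfold EE
      rw [h4]
    rw [Finset.sum_congr rfl h3, ← Finset.sum_div, pow_succ]
    field_simp

open Classical in
/-- the sum over the elements of odd rank below `s` -/
noncomputable def hh (r : P → ℕ) (s : P) : ℚ := ∑ u ∈ Finset.univ.filter (fun u => u < s ∧ Odd (r u)), EE r u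

lemma EE_eq {r : P → ℕ} (hr : StrictMono r) (s : P) : EE r s = 1 - (1 / 2) * hh r s := by
  classical
  unfold hh
  have h := ev_eq r s (r s / 2)
  unfold EE
  rw [h]
  congr 3
  ext u
  simp only [Finset.mem_filter, Finset.mem_univ, true_and]
  constructor
  · rintro ⟨h1, h2, h3⟩
    refine ⟨lt_of_le_of_ne h1 ?_, h2⟩
    rintro rfl
    omega
  · rintro ⟨h1, h2⟩
    have h3 := hr h1
    obtain ⟨k, hk⟩ := h2
    exact ⟨h1.le, ⟨k, hk⟩, by omega⟩

/-- the Euler relation of the open interval -/
lemma euler_open {r : P → ℕ} {o : P} {F : Type} [Field F] (hG : Gor F r o) [DecidableEq P]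
    [DecidableRel (α := P) (· < ·)] {p q : P} (h : p < q) :
    ∑ t ∈ Finset.univ.filter (fun t => p < t ∧ t < q), (-1 : ℚ) ^ r t = - (-1) ^ r p - (-1) ^ r q := by
  classical
  have h1 := hG.euler p q h
  have h2 : Finset.univ.filter (fun t => p ≤ t ∧ t ≤ q) =
      insert p (insert q (Finset.univ.filter (fun t => p < t ∧ t < q))) := by
    ext t
    simp only [Finset.mem_filter, Finset.mem_univ, true_and, Finset.mem_insert]
    constructor
    · rintro ⟨h3, h4⟩
      rcases eq_or_lt_of_le h3 with h5 | h5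
      · exact Or.inl h5.symm
      · rcases eq_or_lt_of_le h4 with h6 | h6
        · exact Or.inr (Or.inl h6)
        · exact Or.inr (Or.inr ⟨h5, h6⟩)
    · rintro (rfl | rfl | ⟨h3, h4⟩)
      · exact ⟨le_rfl, h.le⟩
      · exact ⟨h.le, le_rfl⟩
      · exact ⟨h3.le, h4.le⟩
  have h3 : ∑ t ∈ Finset.univ.filter (fun t => p ≤ t ∧ t ≤ q), (-1 : ℤ) ^ r t = 0 := by
    rw [← h1]
  rw [h2, Finset.sum_insert (by simp [h.ne]), Finset.sum_insert (by simp)] at h3
  have h4 := congrArg (fun z : ℤ => (z : ℚ)) h3
  push_cast at h4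
  linarith

/-- **the count** -/
theorem hh_eq {r : P → ℕ} {o : P} {F : Type} [Field F] (hG : Gor F r o) :
    ∀ N : ℕ, ∀ s : P, r s = N → Even N → 1 ≤ N → hh r s = 2 := by
  classical
  intro N
  induction N using Nat.strong_induction_on with
  | _ N ih =>
    intro s hs hN h1
    have hr := hG.mono
    have hos : o < s := lt_of_le_of_ne (hG.bot s) (by
      rintro rfl
      have := hG.r0
      omega)
    -- the elements below
    have hval : ∀ t, o < t → t < s → (-1 : ℚ) ^ r t * hh r t = 2 * (-1) ^ r t + (if Odd (r t) then 2 * EE r t else 0) := by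
      intro t h2 h3
      have h4 := hr h3
      rcases Nat.even_or_odd (r t) with h5 | h5
      · have h6 : 1 ≤ r t := by
          have := hr h2
          omega
        rw [ih (r t) (by omega) t rfl h5 h6, if_neg (by rwa [Nat.not_odd_iff_even])]
        ring
      · rw [if_pos h5, EE_eq hr t, h5.neg_one_pow]
        ring
    have hzero : hh r o = 0 := by
      unfold hh
      rw [Finset.sum_eq_zero]
      intro u hu
      simp only [Finset.mem_filter, Finset.mem_univ, true_and] at hu
      exact absurd (hG.bot u) (not_le_of_gt hu.1)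
    -- the double sum
    have hds : ∑ t ∈ Finset.univ.filter (fun t => o < t ∧ t < s), (-1 : ℚ) ^ r t * hh r t = 0 := by
      have h2 : ∀ t ∈ Finset.univ.filter (fun t => o < t ∧ t < s), (-1 : ℚ) ^ r t * hh r t =
          ∑ u ∈ Finset.univ.filter (fun u => u < s ∧ Odd (r u)), if u < t then (-1 : ℚ) ^ r t * EE r u else 0 := by
        intro t ht
        simp only [Finset.mem_filter, Finset.mem_univ, true_and] at ht
        unfold hh
        rw [Finset.mul_sum, ← Finset.sum_filter]
        refine Finset.sum_congr ?_ fun _ _ => rfl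
        ext u
        simp only [Finset.mem_filter, Finset.mem_univ, true_and]
        constructor
        · rintro ⟨h3, h4⟩
          exact ⟨⟨h3.trans ht.2, h4⟩, h3⟩
        · rintro ⟨⟨h3, h4⟩, h5⟩
          exact ⟨h5, h4⟩
      rw [Finset.sum_congr rfl h2, Finset.sum_comm]
      refine Finset.sum_eq_zero fun u hu => ?_
      simp only [Finset.mem_filter, Finset.mem_univ, true_and] at hu
      rw [← Finset.sum_filter]
      have h3 : (Finset.univ.filter (fun t => o < t ∧ t < s)).filter (fun t => u < t) =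
          Finset.univ.filter (fun t => u < t ∧ t < s) := by
        ext t
        simp only [Finset.mem_filter, Finset.mem_univ, true_and]
        constructor
        · rintro ⟨⟨h3, h4⟩, h5⟩
          exact ⟨h5, h4⟩
        · rintro ⟨h3, h4⟩
          exact ⟨⟨lt_of_le_of_lt (hG.bot u) h3, h4⟩, h3⟩
      rw [h3, ← Finset.sum_mul, euler_open hG hu.1, hu.2.neg_one_pow, hs, hN.neg_one_pow]
      ring
    rw [Finset.sum_congr rfl (fun t ht => by
      simp only [Finset.mem_filter, Finset.mem_univ, true_and] at ht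
      exact hval t ht.1 ht.2), Finset.sum_add_distrib, ← Finset.mul_sum, euler_open hG hos, hG.r0, hs, hN.neg_one_pow,
      ← Finset.sum_filter] at hds
    have h2 : (Finset.univ.filter (fun t => o < t ∧ t < s)).filter (fun t => Odd (r t)) =
        Finset.univ.filter (fun u => u < s ∧ Odd (r u)) := by
      ext t
      simp only [Finset.mem_filter, Finset.mem_univ, true_and]
      constructor
      · rintro ⟨⟨h3, h4⟩, h5⟩
        exact ⟨h4, h5⟩
      · rintro ⟨h3, h4⟩
        refine ⟨⟨lt_of_le_of_ne (hG.bot t) ?_, h3⟩, h4⟩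
        rintro rfl
        rw [hG.r0] at h4
        exact absurd h4 (by decide)
    rw [h2, ← Finset.mul_sum] at hds
    unfold hh
    linarith

theorem ev_zero {r : P → ℕ} {o : P} {F : Type} [Field F] (hG : Gor F r o) {s : P} {m : ℕ} (hm : 1 ≤ m)
    (hs : r s = 2 * m) : ev r s m = 0 := by
  have h1 := hh_eq hG (r s) s rfl (by rw [hs]; exact even_two_mul m) (by omega)
  have h2 := EE_eq hG.mono s
  rw [h1] at h2
  unfold EE at h2
  have h3 : r s / 2 = m := by omega
  rw [h3] at h2
  have h4 : ev r s m / 2 ^ m = 0 := by rw [h2]; norm_num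
  rcases div_eq_zero_iff.1 h4 with h5 | h5
  · exact h5
  · exact absurd h5 (by positivity)

/-! ### The finite set of the states -/

open Classical in
/-- the states -/
noncomputable def sts (r : P → ℕ) : P → ℕ → Finset (List (St P))
  | _, 0 => {[]}
  | s, m + 1 => (sts r s m).image (fun e => St.c0 :: e) ∪ ((sts r s m).image (fun e => St.c1 :: e) ∪
      (Finset.univ.filter (fun u => u ≤ s ∧ r u = 2 * m + 1)).biUnion fun u => (sts r u m).image (fun e => St.v u :: e))

lemma mem_sts {r : P → ℕ} {s : P} {m : ℕ} {e : List (St P)} : e ∈ sts r s m ↔ Val r s m e := by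
  classical
  induction m generalizing s e with
  | zero => simp [sts, Val]
  | succ m ih =>
    unfold sts
    simp only [Finset.mem_union, Finset.mem_image, Finset.mem_biUnion, Finset.mem_filter, Finset.mem_univ, true_and]
    cases e with
    | nil => simp [Val]
    | cons a e =>
      cases a with
      | c0 =>
        constructor
        · rintro (⟨e', h1, h2⟩ | ⟨e', h1, h2⟩ | ⟨u, h0, e', h1, h2⟩)
          · rw [← (List.cons.inj h2).2]
            exact ih.1 h1
          · exact absurd (List.cons.inj h2).1 (by simp)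
          · exact absurd (List.cons.inj h2).1 (by simp)
        · intro h
          exact Or.inl ⟨e, ih.2 h, rfl⟩
      | c1 =>
        constructor
        · rintro (⟨e', h1, h2⟩ | ⟨e', h1, h2⟩ | ⟨u, h0, e', h1, h2⟩)
          · exact absurd (List.cons.inj h2).1 (by simp)
          · rw [← (List.cons.inj h2).2]
            exact ih.1 h1
          · exact absurd (List.cons.inj h2).1 (by simp)
        · intro h
          exact Or.inr (Or.inl ⟨e, ih.2 h, rfl⟩)
      | v w =>
        constructor
        · rintro (⟨e', h1, h2⟩ | ⟨e', h1, h2⟩ | ⟨u, h0, e', h1, h2⟩)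
          · exact absurd (List.cons.inj h2).1 (by simp)
          · exact absurd (List.cons.inj h2).1 (by simp)
          · obtain ⟨h3, rfl⟩ := List.cons.inj h2
            obtain rfl := St.v.inj h3
            exact ⟨h0.1, h0.2, ih.1 h1⟩
        · rintro ⟨h1, h2, h3⟩
          exact Or.inr (Or.inr ⟨w, ⟨h1, h2⟩, e, ih.2 h3, rfl⟩)

lemma sum_sts (r : P → ℕ) (s : P) (m : ℕ) : ∑ e ∈ sts r s m, (-1 : ℚ) ^ deg e = ev r s m := by
  classical
  induction m generalizing s with
  | zero => simp [sts, ev, deg]
  | succ m ih =>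
    have hj : ∀ a : St P, ∀ s, Set.InjOn (fun e => a :: e) (sts r s m : Set (List (St P))) := by
      intro a s e _ e' _ h
      exact (List.cons.inj h).2
    unfold sts ev
    rw [Finset.sum_union, Finset.sum_union, Finset.sum_image (hj _ _), Finset.sum_image (hj _ _), Finset.sum_biUnion]
    · have h1 : ∀ e : List (St P), (-1 : ℚ) ^ deg (St.c0 :: e) = (-1) ^ deg e := fun e => rfl
      have h2 : ∀ e : List (St P), (-1 : ℚ) ^ deg (St.c1 :: e) = (-1) ^ deg e := fun e => rfl
      have h3 : ∀ u, ∑ e ∈ (sts r u m).image (fun e => St.v u :: e), (-1 : ℚ) ^ deg e = - ev r u m := by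
        intro u
        rw [Finset.sum_image (hj _ _), ← ih u, ← Finset.sum_neg_distrib]
        refine Finset.sum_congr rfl fun e _ => ?_
        show (-1 : ℚ) ^ (deg e + 1) = - (-1) ^ deg e
        rw [pow_succ]
        ring
      simp only [h1, h2, h3, ih, Finset.sum_neg_distrib]
      ring
    · intro a _ b _ hab
      rw [Function.onFun, Finset.disjoint_left]
      intro l h1 h2
      obtain ⟨τ1, _, rfl⟩ := Finset.mem_image.1 h1
      obtain ⟨τ2, _, h3⟩ := Finset.mem_image.1 h2
      exact hab (St.v.inj (List.cons.inj h3).1).symm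
    · rw [Finset.disjoint_left]
      intro l h1 h2
      obtain ⟨τ1, _, rfl⟩ := Finset.mem_image.1 h1
      obtain ⟨u, _, h3⟩ := Finset.mem_biUnion.1 h2
      obtain ⟨τ2, _, h4⟩ := Finset.mem_image.1 h3
      exact absurd (List.cons.inj h4).1 (by simp)
    · rw [Finset.disjoint_left]
      intro l h1 h2
      obtain ⟨τ1, _, rfl⟩ := Finset.mem_image.1 h1
      rcases Finset.mem_union.1 h2 with h2 | h2
      · obtain ⟨τ2, _, h4⟩ := Finset.mem_image.1 h2
        exact absurd (List.cons.inj h4).1 (by simp)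
      · obtain ⟨u, _, h3⟩ := Finset.mem_biUnion.1 h2
        obtain ⟨τ2, _, h4⟩ := Finset.mem_image.1 h3
        exact absurd (List.cons.inj h4).1 (by simp)

lemma deg_le {r : P → ℕ} {s : P} {m : ℕ} {e : List (St P)} (h : Val r s m e) : deg e ≤ m := by
  induction m generalizing s e with
  | zero =>
    have h1 : e = [] := h
    rw [h1]
    exact le_rfl
  | succ m ih =>
    cases e with
    | nil => exact h.elim
    | cons a e =>
      cases a with
      | c0 => exact (ih (show Val r s m e from h)).trans (Nat.le_succ m)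
      | c1 => exact (ih (show Val r s m e from h)).trans (Nat.le_succ m)
      | v u => exact Nat.succ_le_succ (ih h.2.2)

end count

/-! ### Linear algebra -/

section lin
variable {P : Type} [Fintype P] [PartialOrder P] {F : Type} [Field F] {r : P → ℕ} {o : P} {x : P → F}

open Classical in
/-- the states of degree `i` -/
noncomputable def stg (r : P → ℕ) (s : P) (m i : ℕ) : Finset (List (St P)) := (sts r s m).filter (fun e => deg e = i)

lemma mem_stg {s : P} {m i : ℕ} {e : List (St P)} : e ∈ stg r s m i ↔ Val r s m e ∧ deg e = i := by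
  classical
  unfold stg
  rw [Finset.mem_filter, mem_sts]

open Classical in
/-- extension by zero -/
noncomputable def xt (s : P) (m i : ℕ) (φ : {e // e ∈ stg r s m i} → F) (e : List (St P)) : F :=
  if h : e ∈ stg r s m i then φ ⟨e, h⟩ else 0

lemma xt_of {s : P} {m i : ℕ} (φ : {e // e ∈ stg r s m i} → F) {e : List (St P)} (h : e ∈ stg r s m i) :
    xt s m i φ e = φ ⟨e, h⟩ := by
  unfold xt
  rw [dif_pos h]

/-- the differential, restricted to the states -/
noncomputable def dm (r : P → ℕ) (x : P → F) (s : P) (m i : ℕ) :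
    ({e // e ∈ stg r s m i} → F) →ₗ[F] ({e // e ∈ stg r s m (i + 1)} → F) where
  toFun φ e := dd x (xt s m i φ) e.1
  map_add' φ ψ := by
    funext e
    rw [Pi.add_apply, ← StepAux.dd_add]
    congr 1
    funext e'
    unfold xt
    split_ifs with h
    · rfl
    · rw [add_zero]
  map_smul' a φ := by
    funext e
    rw [RingHom.id_apply, Pi.smul_apply, smul_eq_mul, ← StepAux.dd_mul]
    congr 1
    funext e'
    unfold xt
    split_ifs with h
    · rfl
    · rw [mul_zero]

lemma dd_xt {s : P} {m i : ℕ} (φ : List (St P) → F) {e : List (St P)} (he : e ∈ stg r s m (i + 1)) :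
    dm r x s m i (fun e' => φ e'.1) ⟨e, he⟩ = dd x φ e := by
  obtain ⟨h1, h2⟩ := mem_stg.1 he
  show dd x (xt s m i fun e' => φ e'.1) e = dd x φ e
  refine StepAux.dd_congr x h1 fun e' h3 h4 => ?_
  rw [xt_of _ (mem_stg.2 ⟨h3, by omega⟩)]

lemma dd_deg_zero {s : P} {m : ℕ} {e : List (St P)} (h : Val r s m e) (h0 : deg e = 0) (φ : List (St P) → F) :
    dd x φ e = 0 := by
  have h1 := StepAux.dd_congr (φ := φ) (ψ := fun _ => 0) x h (fun e' _ h2 => by omega)
  rw [h1, StepAux.dd_zero]

lemma ker_zero {s : P} {m : ℕ} (h : Ex r x s m 0) : LinearMap.ker (dm r x s m 0) = ⊥ := by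
  rw [LinearMap.ker_eq_bot']
  intro φ hφ
  obtain ⟨ψ, hψ⟩ := h (xt s m 0 φ) (fun e h1 h2 => by
    have h3 := congrFun hφ ⟨e, mem_stg.2 ⟨h1, h2⟩⟩
    exact h3)
  funext e
  obtain ⟨h1, h2⟩ := mem_stg.1 e.2
  have h3 := hψ e.1 h1 h2
  rw [dd_deg_zero h1 h2, xt_of _ e.2] at h3
  exact h3.symm

lemma ker_succ [CharP F 2] {s : P} {m i : ℕ} (h : Ex r x s m (i + 1)) :
    LinearMap.ker (dm r x s m (i + 1)) = LinearMap.range (dm r x s m i) := by
  ext φ
  rw [LinearMap.mem_ker, LinearMap.mem_range]
  constructor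
  · intro hφ
    obtain ⟨ψ, hψ⟩ := h (xt s m (i + 1) φ) (fun e h1 h2 => congrFun hφ ⟨e, mem_stg.2 ⟨h1, h2⟩⟩)
    refine ⟨fun e => ψ e.1, ?_⟩
    funext e
    obtain ⟨h1, h2⟩ := mem_stg.1 e.2
    rw [dd_xt ψ e.2, hψ e.1 h1 h2, xt_of _ e.2]
  · rintro ⟨ψ, rfl⟩
    funext e
    obtain ⟨h1, h2⟩ := mem_stg.1 e.2
    have h3 : dm r x s m (i + 1) (dm r x s m i ψ) e = dd x (dd x (xt s m i ψ)) e.1 := by
      show dd x (xt s m (i + 1) (dm r x s m i ψ)) e.1 = _
      refine StepAux.dd_congr x h1 fun e' h4 h5 => ?_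
      rw [xt_of _ (mem_stg.2 ⟨h4, by omega⟩)]
      rfl
    rw [h3, StepAux.dd_dd']
    rfl

lemma finrank_stg (s : P) (m i : ℕ) : Module.finrank F ({e // e ∈ stg r s m i} → F) = (stg r s m i).card := by
  rw [Module.finrank_fintype_fun_eq_card, Fintype.card_coe]

/-- the alternating sum of the dimensions is the rank of the last differential -/
lemma alt_sum [CharP F 2] {s : P} {m : ℕ} (k : ℕ) (h : ∀ i, i ≤ k → Ex r x s m i) :
    ∑ i ∈ Finset.range (k + 1), (-1 : ℚ) ^ i * (stg r s m i).card =
      (-1) ^ k * Module.finrank F (LinearMap.range (dm r x s m k)) := by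
  induction k with
  | zero =>
    have h1 := LinearMap.finrank_range_add_finrank_ker (dm r x s m 0)
    rw [ker_zero (h 0 le_rfl), finrank_bot, add_zero, finrank_stg] at h1
    simp [h1]
  | succ k ih =>
    have h1 := LinearMap.finrank_range_add_finrank_ker (dm r x s m (k + 1))
    rw [ker_succ (h (k + 1) le_rfl), finrank_stg] at h1
    rw [Finset.sum_range_succ, ih fun i hi => h i (by omega), ← h1]
    push_cast
    rw [pow_succ]
    ring

lemma sum_stg (s : P) (m : ℕ) : ∑ i ∈ Finset.range (m + 1), (-1 : ℚ) ^ i * (stg r s m i).card =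
    ∑ e ∈ sts r s m, (-1 : ℚ) ^ deg e := by
  classical
  rw [← Finset.sum_fiberwise_of_maps_to (s := sts r s m) (t := Finset.range (m + 1)) (g := deg)
    (fun e he => Finset.mem_range.2 (Nat.lt_succ_of_le (deg_le (mem_sts.1 he))))]
  refine Finset.sum_congr rfl fun i _ => ?_
  unfold stg
  rw [Finset.sum_congr rfl (g := fun _ => (-1 : ℚ) ^ i) (fun e he => by rw [(Finset.mem_filter.1 he).2]),
    Finset.sum_const, nsmul_eq_mul, mul_comm]

end lin

end EulerAux

open EulerAux

section A
variable {P : Type} [Fintype P] [PartialOrder P] {F : Type} [Field F] {r : P → ℕ} {o : P} {x : P → F}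

/-- exactness below the top degree and the Euler relation give exactness in the top degree -/
theorem ex_top [CharP F 2] (hG : Gor F r o) {q : P} {m : ℕ} (hm : 1 ≤ m) (hq : r q = 2 * m)
    (h : ∀ i, i < m → Ex r x q m i) : Ex r x q m m := by
  obtain ⟨k, rfl⟩ : ∃ k, m = k + 1 := ⟨m - 1, by omega⟩
  have h1 := sum_stg (r := r) q (k + 1)
  rw [sum_sts, ev_zero hG hm hq, Finset.sum_range_succ,
    alt_sum (F := F) (x := x) k fun i hi => h i (by omega)] at h1
  have h2 : (Module.finrank F (LinearMap.range (dm r x q (k + 1) k)) : ℚ) = (stg r q (k + 1) (k + 1)).card := by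
    rw [pow_succ] at h1
    rcases neg_one_pow_eq_or ℚ k with h3 | h3 <;> rw [h3] at h1 <;> linarith
  have h3 : LinearMap.range (dm r x q (k + 1) k) = ⊤ := by
    apply Submodule.eq_top_of_finrank_eq
    rw [finrank_stg]
    exact_mod_cast h2
  intro φ _
  have h4 : (fun e : {e // e ∈ stg r q (k + 1) (k + 1)} => φ e.1) ∈ LinearMap.range (dm r x q (k + 1) k) := by
    rw [h3]
    exact Submodule.mem_top
  obtain ⟨ψ, hψ⟩ := LinearMap.mem_range.1 h4
  refine ⟨xt q (k + 1) k ψ, fun e h5 h6 => ?_⟩
  exact congrFun hψ ⟨e, mem_stg.2 ⟨h5, h6⟩⟩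

end A
end Ord
end Singer
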