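import Pool.Agent.Singer.Ord.Nondeg
import Pool.Agent.Singer.Ord.Euler

/-!
# Singer/Ord: vanishing of the cohomology of the complex of a graded poset below the top degree
-/

set_option autoImplicit false
set_option linter.unusedSectionVars false
set_option linter.unusedVariables false

namespace Singer
namespace Ord

section A
variable {P : Type} [Fintype P] [PartialOrder P] {F : Type} [Field F] {r : P → ℕ} {o : P} {x : P → F}

/-- raising the number of colours -/
theorem ex_raise [CharP F 2] (hG : Gor F r o) {s : P} {i : ℕ} (m : ℕ) (hs : r s / 2 ≤ m) (h : Ex r x s (r s / 2) i) :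
    Ex r x s m i := by
  induction m with
  | zero =>
    have : r s / 2 = 0 := by omega
    rwa [this] at h
  | succ m ih =>
    rcases Nat.lt_or_ge m (r s / 2) with h1 | h1
    · have : r s / 2 = m + 1 := by omega
      rwa [this] at h
    · exact ex_succ hG (by omega) (ih h1)

/-- `TT` at level `j`, given exactness of the closed cells of the smaller ranks in the corresponding degrees -/
theorem TT_down [CharP F 2] (hG : Gor F r o) {q : P} {m : ℕ} (j : ℕ) : ∀ {i : ℕ}, j < r q →
    (∀ a, a ≤ j → a ≤ i → ∀ s, s ≤ q → r s = j - a → Ex r x s m (i - a)) → TT r x q m j i := by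
  induction j with
  | zero =>
    intro i hj h
    exact TT_of hG hj (fun s hs h0 => h 0 le_rfl (Nat.zero_le _) s hs h0) fun j' i' h1 _ => absurd h1 (by omega)
  | succ j ih =>
    intro i hj h
    refine TT_of hG hj (fun s hs h0 => h 0 (Nat.zero_le _) (Nat.zero_le _) s hs h0) ?_
    intro j' i' h1 h2
    obtain rfl : j' = j := by omega
    subst h2
    refine ih (by omega) fun a ha hai s hs hsr => ?_
    have := h (a + 1) (by omega) (by omega) s hs (by omega)
    rwa [show i' + 1 - (a + 1) = i' - a by omega] at this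

/-- exactness of the closed cells from `VV` -/
theorem ex_of_VV [CharP F 2] (hG : Gor F r o) {N : ℕ} (hV : VV r x N) {s : P} (hsN : r s < N) {m i : ℕ}
    (hm : r s / 2 ≤ m) (h : (∃ l, r s = 2 * l + 1 ∧ i ≠ l) ∨ ∃ l, r s = 2 * l + 2) : Ex r x s m i := by
  refine ex_raise hG m hm ?_
  rcases h with ⟨l, h1, h2⟩ | ⟨l, h1⟩
  · rcases lt_or_gt_of_ne h2 with h3 | h3
    · exact hV s hsN l i (Or.inl ⟨h1, h3⟩)
    · rw [show r s / 2 = l by omega]
      exact ex_of_lt h3
  · rcases Nat.lt_or_ge (l + 1) i with h3 | h3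
    · rw [show r s / 2 = l + 1 by omega]
      exact ex_of_lt h3
    · exact hV s hsN l i (Or.inr ⟨h1, h3⟩)

theorem VV.mono {N N' : ℕ} (hV : VV r x N) (h : N' ≤ N) : VV r x N' := fun s hs => hV s (lt_of_lt_of_le hs h)

theorem Val.mono_le {s t : P} (hst : s ≤ t) : ∀ {m : ℕ} {e : List (St P)}, Val r s m e → Val r t m e
  | 0, _, h => h
  | _ + 1, [], h => h
  | m + 1, .c0 :: e, h => Val.mono_le hst (m := m) (e := e) h
  | m + 1, .c1 :: e, h => Val.mono_le hst (m := m) (e := e) h
  | m + 1, .v u :: e, h => ⟨h.1.trans hst, h.2.1, h.2.2⟩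

private lemma val_fl_ord {s : P} : ∀ {m : ℕ} {τ : List P}, Fo r s m τ → Val r s m (fl τ)
  | 0, _, h => by rw [show _ = ([] : List P) from h]; rfl
  | _ + 1, [], h => h
  | m + 1, u :: τ, h => ⟨h.1, h.2.1, val_fl_ord (m := m) (τ := τ) h.2.2⟩

private lemma deg_fl {s : P} : ∀ {m : ℕ} {τ : List P}, Fo r s m τ → deg (fl τ) = m
  | 0, _, h => by rw [show _ = ([] : List P) from h]; rfl
  | _ + 1, [], h => absurd h id
  | m + 1, u :: τ, h => congrArg (· + 1) (deg_fl (m := m) (τ := τ) h.2.2)

private lemma so_cg (m : ℕ) : ∀ {s : P} {f f' : List P → F}, (∀ τ, Fo r s m τ → f τ = f' τ) →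
    so r s m f = so r s m f' := by
  classical
  induction m with
  | zero => intro s f f' h; exact h [] rfl
  | succ m ih =>
    intro s f f' h
    unfold so
    refine Finset.sum_congr rfl fun u hu => ?_
    rw [Finset.mem_filter] at hu
    exact ih fun τ hτ => h (u :: τ) ⟨hu.2.1, hu.2.2, hτ⟩

private lemma so_ad (m : ℕ) : ∀ {s : P} (f f' : List P → F),
    so r s m (fun τ => f τ + f' τ) = so r s m f + so r s m f' := by
  classical
  induction m with
  | zero => intro s f f'; rfl
  | succ m ih =>
    intro s f f'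
    unfold so
    rw [← Finset.sum_add_distrib]
    exact Finset.sum_congr rfl fun u hu => ih _ _

private lemma so_ml (m : ℕ) (c : F) : ∀ {s : P} (f : List P → F),
    so r s m (fun τ => c * f τ) = c * so r s m f := by
  classical
  induction m with
  | zero => intro s f; rfl
  | succ m ih =>
    intro s f
    unfold so
    rw [Finset.mul_sum]
    exact Finset.sum_congr rfl fun u hu => ih _

open Classical in
private lemma so_sc (s : P) (m : ℕ) (f : List P → F) : so r s (m + 1) f =
    ∑ u ∈ Finset.univ.filter (fun u => u ≤ s ∧ r u = 2 * m + 1), so r u m (fun τ => f (u :: τ)) := rfl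

/-- the chain of the forms at the elements of top rank -/
private noncomputable def cc (r : P → ℕ) (g : List P → F) (k : ℕ) : List P → F
  | [] => 0
  | u :: τ => ps r u k g τ

/-- the last degree: the top rank is even -/
theorem karu [CharP F 2] (hG : Gor F r o) (hI : Indep r x) {q : P} {k : ℕ} (hq : r q = 2 * k + 2)
    (hV : VV r x (r q)) {φ : List (St P) → F}
    (hφ : ∀ e, Val r q (k + 1) e → deg e = k + 1 → dd x φ e = 0) : Cob r x q (k + 1) k φ := by
  classical
  have hE : ∀ t : P, t ≤ q → ∀ y, y ≤ t → ∀ m', m' < k → r y = 2 * m' + 2 → Ex r x y (m' + 1) (m' + 1) := by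
    intro t ht y hy m' hm' hr
    exact ex_of_VV hG hV (by omega) (by omega) (Or.inr ⟨m', hr⟩)
  obtain ⟨g, hg⟩ := comp_exists (hE q le_rfl) (fun τ => φ (.c1 :: fl τ))
  have hgu : ∀ u, u ≤ q → Comp r x u k (fun τ => φ (.c1 :: fl τ)) g := fun u hu => comp_mono hu hg
  -- the relation at `u`
  have h1 : ∀ u, u ≤ q → r u = 2 * k + 1 →
      so r u k (fun τ => (φ (.c0 :: fl τ) + x u * φ (.c1 :: fl τ)) * ps r u k g τ) = 0 := by
    intro u hu hru
    have hst := stress_ps hG hru (hE u hu) (hgu u hu) (fun e => φ (.v u :: e))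
    rw [← hst]
    refine so_cg k fun τ hτ => ?_
    have h2 := hφ (.v u :: fl τ) ⟨hu, hru, val_fl_ord hτ⟩ (congrArg (· + 1) (deg_fl hτ))
    rw [dd] at h2
    rw [CharTwo.add_eq_zero.1 h2]
  -- the sum over `u`
  have h2 : ∑ u ∈ Finset.univ.filter (fun u => u ≤ q ∧ r u = 2 * k + 1),
      x u * so r u k (fun τ => φ (.c1 :: fl τ) * ps r u k g τ) = 0 := by
    have h3 := sum_even hG hq (fun τ => φ (.c0 :: fl τ)) g
    have h4 : ∑ u ∈ Finset.univ.filter (fun u => u ≤ q ∧ r u = 2 * k + 1),
        (so r u k (fun τ => φ (.c0 :: fl τ) * ps r u k g τ) +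
          x u * so r u k (fun τ => φ (.c1 :: fl τ) * ps r u k g τ)) = 0 := by
      refine Finset.sum_eq_zero fun u hu => ?_
      rw [Finset.mem_filter] at hu
      rw [← h1 u hu.2.1 hu.2.2, ← so_ml, ← so_ad]
      refine so_cg k fun τ _ => ?_
      ring
    rw [Finset.sum_add_distrib, h3, zero_add] at h4
    exact h4
  have h3 : so r q (k + 1) (fun τ => (τ.map x).prod * (cc r g k τ) ^ 2) = 0 := by
    rw [← h2, so_sc]
    refine Finset.sum_congr rfl fun u hu => ?_
    rw [Finset.mem_filter] at hu
    rw [adj hG hu.2.2 (hE u hu.2.1) (hgu u hu.2.1) (hgu u hu.2.1)]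
    have h5 : (fun ε => g ε * g ε) = fun ε => g ε ^ 2 := funext fun ε => (pow_two _).symm
    rw [h5, sd_sq, ← so_ml]
    refine so_cg k fun τ _ => ?_
    simp only [List.map_cons, List.prod_cons, cc]
    ring
  have h4 := hI q (k + 1) (cc r g k) h3
  refine cob_of_restr hG (N := 2 * k + 1) (by omega) (by omega) ?_ ?_
  · intro j' i' hj hi
    refine TT_down hG j' (by omega) fun a ha hai s hs hsr => ?_
    refine ex_of_VV hG hV (by omega) (by omega) ?_
    rcases Nat.even_or_odd' (r s) with ⟨l, hl | hl⟩
    · exact Or.inr ⟨l - 1, by omega⟩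
    · exact Or.inl ⟨l, hl, by omega⟩
  · intro u hu hru
    refine cob_succ hG hru (fun e he hd => hφ e (Val.mono_le hu he) hd) ?_
    rw [cob_iff_fcob]
    exact nondeg hG hru (hV.mono (by omega)) (hgu u hu) fun τ hτ => h4 (u :: τ) ⟨hu, hru, hτ⟩

/-- **exactness below the top degree, and in all degrees for even ranks** -/
theorem vv_all [CharP F 2] (hG : Gor F r o) (hI : Indep r x) (N : ℕ) : VV r x N := by
  induction N with
  | zero => intro s hs; omega
  | succ N ih =>
    intro s hs
    rcases Nat.lt_or_ge (r s) N with h | h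
    · exact ih s h
    obtain rfl : N = r s := by omega
    -- the cases of small degree
    have hsmall : ∀ m i, r s / 2 = m → 2 * i + 2 < r s → Ex r x s m i := by
      intro m i hm hi
      refine ex_of_TT hG (N := r s - 1) (by omega) (by omega) ?_
      refine TT_down hG _ (by omega) fun a ha hai t ht htr => ?_
      refine ex_of_VV hG ih (by omega) (by omega) ?_
      rcases Nat.even_or_odd' (r t) with ⟨l, hl | hl⟩
      · exact Or.inr ⟨l - 1, by omega⟩
      · exact Or.inl ⟨l, hl, by omega⟩
    rintro m i (⟨h1, h2⟩ | ⟨h1, h2⟩)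
    · exact hsmall _ i rfl (by omega)
    · have hlt : ∀ i, i < m + 1 → Ex r x s (m + 1) i := by
        intro i hi
        rcases Nat.lt_or_ge i m with h3 | h3
        · exact hsmall _ i (by omega) (by omega)
        · obtain rfl : i = m := by omega
          intro φ hφ
          exact karu hG hI h1 ih hφ
      rw [show r s / 2 = m + 1 by omega]
      rcases Nat.lt_or_ge i (m + 1) with h3 | h3
      · exact hlt i h3
      · obtain rfl : i = m + 1 := by omega
        exact ex_top hG (by omega) (by omega) hlt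

/-- **Main theorem of the algebra** -/
theorem ex_all [CharP F 2] (hG : Gor F r o) (hI : Indep r x) (q : P) (m : ℕ) (hq : r q = 2 * m ∨ r q = 2 * m + 1)
    (i : ℕ) (hi : i < m) : Ex r x q m i := by
  have h := vv_all hG hI (r q + 1) q (by omega)
  rcases hq with h1 | h1
  · have h2 := h (m - 1) i (Or.inr ⟨by omega, by omega⟩)
    rwa [show r q / 2 = m by omega] at h2
  · have h2 := h m i (Or.inl ⟨h1, hi⟩)
    rwa [show r q / 2 = m by omega] at h2

end A

end Ord
end Singer
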