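import Pool.Agent.Singer.Ord.Defs

/-!
# Singer/Ord: closed cells

Adding a colour to the complex of a closed cell, degrees above the number of colours, coboundaries of full degree.
-/

set_option autoImplicit false
set_option linter.unusedSectionVars false
set_option linter.unusedVariables false

namespace Singer
namespace Ord

universe u

variable {P : Type} [Fintype P] [PartialOrder P] {F : Type} [Field F] {r : P → ℕ} {o : P} {x : P → F}

/-- `a` is (on full chains) a coboundary -/
def FCob (r : P → ℕ) (x : P → F) (s : P) (m : ℕ) (a : List P → F) : Prop :=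
  ∃ ζ : List (St P) → F, ∀ τ, Fo r s m τ → dd x ζ (fl τ) = a τ

theorem dd_lin_cell (x : P → F) (a : F) (e : List (St P)) :
    ∀ φ ψ : List (St P) → F, dd x (fun e' => a * φ e' + ψ e') e = a * dd x φ e + dd x ψ e := by
  induction e with
  | nil => intro φ ψ; simp [dd]
  | cons c e ih =>
    intro φ ψ
    cases c with
    | c0 => exact ih (fun e' => φ (.c0 :: e')) (fun e' => ψ (.c0 :: e'))
    | c1 => exact ih (fun e' => φ (.c1 :: e')) (fun e' => ψ (.c1 :: e'))
    | v u =>
      simp only [dd]
      rw [ih (fun e' => φ (.v u :: e')) (fun e' => ψ (.v u :: e'))]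
      ring

theorem dd_zero_cell (x : P → F) (e : List (St P)) : dd x (fun _ => (0 : F)) e = 0 := by
  induction e with
  | nil => simp [dd]
  | cons c e ih =>
    cases c with
    | c0 => exact ih
    | c1 => exact ih
    | v u => simp only [dd]; rw [ih]; ring

/-- (A2b) -/
theorem cob_succ [CharP F 2] (hG : Gor F r o) {s : P} {m i : ℕ} (hs : r s = 2 * m + 1) {φ : List (St P) → F}
    (hφ : ∀ e, Val r s (m + 1) e → deg e = i + 1 → dd x φ e = 0) (h : Cob r x s m i (fun e => φ (.c1 :: e))) :
    Cob r x s (m + 1) i φ := by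
  obtain ⟨β, hβ⟩ := h
  have hself : ∀ a : F, a + a = 0 := fun a => CharTwo.add_self_eq_zero a
  let ψ : List (St P) → F := fun e => match e with
    | [] => 0
    | .c0 :: e => x s * β e + φ (.v s :: e)
    | .c1 :: e => β e
    | .v _ :: _ => 0
  refine ⟨ψ, ?_⟩
  intro e he hd
  match e, he, hd with
  | [], he, _ => exact absurd he (by simp [Val])
  | .c0 :: e, he, hd =>
    have he' : Val r s m e := he
    have hd' : deg e = i := hd
    have h1 : dd x ψ (.c0 :: e) = x s * dd x β e + dd x (fun e' => φ (.v s :: e')) e := by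
      change dd x (fun e' => x s * β e' + φ (.v s :: e')) e = _
      exact dd_lin_cell x (x s) e β (fun e' => φ (.v s :: e'))
    rw [h1, hβ e he' hd']
    have h2 := hφ (.v s :: e) ⟨le_rfl, hs, he'⟩ (by simp only [deg]; omega)
    simp only [dd] at h2
    have h3 := hself (φ (.c0 :: e))
    linear_combination h2 - h3
  | .c1 :: e, he, hd =>
    have he' : Val r s m e := he
    have hd' : deg e = i := hd
    change dd x β e = _
    exact hβ e he' hd'
  | .v u :: e, he, hd =>
    obtain ⟨hus, hu, he'⟩ := he
    have hu' : u = s := by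
      by_contra hne
      have := hG.mono (lt_of_le_of_ne hus hne)
      omega
    subst hu'
    change (x u * β e + φ (.v u :: e)) + x u * β e + dd x (fun _ => (0 : F)) e = _
    rw [dd_zero_cell]
    have h3 := hself (x u * β e)
    linear_combination h3

/-- (A2a) -/
theorem ex_succ [CharP F 2] (hG : Gor F r o) {s : P} {m i : ℕ} (hs : r s ≤ 2 * m + 1) (h : Ex r x s m i) :
    Ex r x s (m + 1) i := by
  intro φ hφ
  obtain ⟨ψ₁, hψ₁⟩ := h (fun e => φ (.c1 :: e)) (fun e he hd => hφ (.c1 :: e) he hd)
  rcases Nat.lt_or_ge (r s) (2 * m + 1) with hlt | hge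
  · obtain ⟨ψ₀, hψ₀⟩ := h (fun e => φ (.c0 :: e)) (fun e he hd => hφ (.c0 :: e) he hd)
    let ψ : List (St P) → F := fun e => match e with
      | [] => 0
      | .c0 :: e => ψ₀ e
      | .c1 :: e => ψ₁ e
      | .v _ :: _ => 0
    refine ⟨ψ, ?_⟩
    intro e he hd
    match e, he, hd with
    | [], he, _ => exact absurd he (by simp [Val])
    | .c0 :: e, he, hd => exact hψ₀ e he hd
    | .c1 :: e, he, hd => exact hψ₁ e he hd
    | .v u :: e, he, hd =>
      obtain ⟨hus, hu, -⟩ := he
      have := hG.mono.monotone hus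
      omega
  · exact cob_succ hG (le_antisymm hs hge) hφ ⟨ψ₁, hψ₁⟩

theorem deg_le_of_val {m : ℕ} : ∀ {s : P} {e : List (St P)}, Val r s m e → deg e ≤ m := by
  induction m with
  | zero =>
    intro s e he
    have : e = [] := he
    subst this
    simp [deg]
  | succ m ih =>
    intro s e he
    match e, he with
    | [], he => exact absurd he (by simp [Val])
    | .c0 :: e, he =>
      have := ih (s := s) (e := e) he
      simp only [deg]; omega
    | .c1 :: e, he =>
      have := ih (s := s) (e := e) he
      simp only [deg]; omega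
    | .v u :: e, he =>
      have := ih (s := u) (e := e) he.2.2
      simp only [deg]; omega

/-- (A2c) degrees above the number of colours -/
theorem ex_of_lt {s : P} {m i : ℕ} (h : m < i) : Ex r x s m i := by
  intro φ _
  refine ⟨fun _ => 0, fun e he hd => ?_⟩
  have := deg_le_of_val he
  omega

theorem val_fl {m : ℕ} : ∀ {s : P} {τ : List P}, Fo r s m τ → Val r s m (fl τ) ∧ deg (fl τ) = m := by
  induction m with
  | zero =>
    intro s τ hτ
    have : τ = [] := hτ
    subst this
    simp [fl, Val, deg]
  | succ m ih =>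
    intro s τ hτ
    match τ, hτ with
    | [], hτ => exact absurd hτ (by simp [Fo])
    | u :: τ, hτ =>
      obtain ⟨h1, h2, h3⟩ := hτ
      obtain ⟨h4, h5⟩ := ih h3
      refine ⟨⟨h1, h2, h4⟩, ?_⟩
      change deg (fl τ) + 1 = m + 1
      rw [h5]

theorem exists_fl {m : ℕ} : ∀ {s : P} {e : List (St P)}, Val r s m e → deg e = m → ∃ τ, Fo r s m τ ∧ e = fl τ := by
  induction m with
  | zero =>
    intro s e he _
    have : e = [] := he
    subst this
    exact ⟨[], rfl, rfl⟩
  | succ m ih =>
    intro s e he hd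
    match e, he, hd with
    | [], he, _ => exact absurd he (by simp [Val])
    | .c0 :: e, he, hd =>
      have h1 := deg_le_of_val (r := r) (s := s) (m := m) (e := e) he
      have h2 : deg e = m + 1 := hd
      omega
    | .c1 :: e, he, hd =>
      have h1 := deg_le_of_val (r := r) (s := s) (m := m) (e := e) he
      have h2 : deg e = m + 1 := hd
      omega
    | .v u :: e, he, hd =>
      obtain ⟨h1, h2, h3⟩ := he
      have hd' : deg e + 1 = m + 1 := hd
      obtain ⟨τ, hτ, rfl⟩ := ih h3 (by omega)
      exact ⟨u :: τ, ⟨h1, h2, hτ⟩, rfl⟩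

/-- (A2d) coboundaries of full degree -/
theorem cob_iff_fcob {s : P} {m : ℕ} {φ : List (St P) → F} : Cob r x s m m φ ↔ FCob r x s m (fun τ => φ (fl τ)) := by
  constructor
  · rintro ⟨ψ, hψ⟩
    refine ⟨ψ, fun τ hτ => ?_⟩
    obtain ⟨h1, h2⟩ := val_fl hτ
    exact hψ _ h1 h2
  · rintro ⟨ζ, hζ⟩
    refine ⟨ζ, fun e he hd => ?_⟩
    obtain ⟨τ, hτ, rfl⟩ := exists_fl he hd
    exact hζ τ hτ

end Ord
end Singer
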