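import Pool.Agent.Singer.Ord.ModTwo
import Pool.Agent.Singer.Ord.Tits
import Pool.Agent.Singer.Basic

/-!
# Singer/Ord: cycles of the Davis complex and cycles with coefficients in a module of characteristic two
-/

set_option autoImplicit false
set_option linter.unusedSectionVars false
set_option linter.unusedVariables false

namespace Singer
namespace Ord
namespace CyMod

section sys
variable {V : Type} [Fintype V] [DecidableEq V]

open Classical in
/-- the linear system which defines the cycles -/
noncomputable def cc (G : SimpleGraph V) (i : ℕ) : Finset V × Option (Option V) → Finset V → Option V → ℤ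
  | (S, none), T, j =>
    if ¬ (G.IsClique S ∧ S.card = i) then (if T = S then (if j = none then 1 else 0) else 0) else 0
  | (S, some none), T, j => ∑ v ∈ Sᶜ, if T = insert v S then (if j = none then sgz rk v S else 0) else 0
  | (S, some (some v)), T, j =>
    if v ∈ S then (if T = S then ((if j = none then 1 else 0) + (if j = some v then 1 else 0)) else 0) else 0

variable {N : Type*} [AddCommGroup N] (G : SimpleGraph V) (i : ℕ) (e : Finset V → Option V → N)

lemma sum_cc_none (S : Finset V) : ∑ T, ∑ j, cc G i (S, none) T j • e T j = 0 ↔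
    (¬ (G.IsClique S ∧ S.card = i) → e S none = 0) := by
  by_cases h : G.IsClique S ∧ S.card = i
  · simp [cc, h]
  · simp only [cc, h, not_false_iff, if_true, ite_smul, zero_smul, one_smul, Finset.sum_ite_eq', Finset.mem_univ,
      Finset.sum_ite_irrel, Finset.sum_const_zero, forall_true_left]

lemma sum_cc_bd (S : Finset V) : ∑ T, ∑ j, cc G i (S, some none) T j • e T j =
    ∑ v ∈ Sᶜ, sgz rk v S • e (insert v S) none := by
  simp only [cc, Finset.sum_smul]
  have h1 : ∀ T : Finset V, ∑ j, ∑ v ∈ Sᶜ, (if T = insert v S then (if j = none then sgz rk v S else 0) else 0) • e T j =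
      ∑ v ∈ Sᶜ, ∑ j, (if T = insert v S then (if j = none then sgz rk v S else 0) else 0) • e T j := fun T =>
    Finset.sum_comm
  rw [Finset.sum_congr rfl fun T _ => h1 T, Finset.sum_comm]
  refine Finset.sum_congr rfl fun v _ => ?_
  simp only [ite_smul, zero_smul, Finset.sum_ite_eq', Finset.mem_univ, if_true, Finset.sum_ite_irrel,
    Finset.sum_const_zero]

lemma sum_cc_anti (S : Finset V) (v : V) : ∑ T, ∑ j, cc G i (S, some (some v)) T j • e T j = 0 ↔
    (v ∈ S → e S none + e S (some v) = 0) := by
  by_cases h : v ∈ S
  · simp only [cc, h, if_true, ite_smul, add_smul, zero_smul, one_smul, Finset.sum_add_distrib, Finset.sum_ite_eq',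
      Finset.mem_univ, Finset.sum_ite_irrel, Finset.sum_const_zero, forall_true_left]
  · simp [cc, h]

end sys

end CyMod

open CyMod in
/-- cycles of the Davis complex and cycles with coefficients in a 2-group module -/
theorem vdim_Cy_le {V : Type} [Fintype V] [DecidableEq V] (G : SimpleGraph V) {M : Type} [AddCommGroup M]
    [Module (ZMod 2) M] [FiniteDimensional (ZMod 2) M] (ρ : RACG G →* (M →ₗ[ZMod 2] M))
    (h2 : ∀ g : RACG G, ∃ k : ℕ, ρ (g ^ 2 ^ k) = 1) (i : ℕ) :
    vdim (Cy rk G (Racg.gen G) Finset.univ i) * Module.finrank (ZMod 2) M ≤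
      Module.finrank (ZMod 2) (ZM G (fun v => ρ (Racg.gen G v)) i) := by
  set s : Option V → RACG G := fun j => j.elim 1 (Racg.gen G) with hs
  have hW : ((Cy rk G (Racg.gen G) Finset.univ i : Submodule ℂ (E (RACG G) (Finset V))) :
      Set (E (RACG G) (Finset V))) = SolL (cc G i) s := by
    ext f
    have key : ∀ g k, ∑ T, ∑ j, (cc G i k T j : ℂ) * f (g * s j, T) =
        ∑ T, ∑ j, cc G i k T j • f (g * s j, T) := by
      intro g k
      refine Finset.sum_congr rfl fun T _ => Finset.sum_congr rfl fun j _ => ?_
      rw [zsmul_eq_mul]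
    constructor
    · rintro ⟨⟨h1, h2'⟩, h3⟩ g k
      rw [key]
      obtain ⟨S, k⟩ := k
      rcases k with _ | _ | v
      · rw [sum_cc_none G i (fun T j => f (g * s j, T))]
        intro hS
        by_contra hne
        obtain ⟨c1, c2, c3⟩ := h1 (g * s none, S) hne
        exact hS ⟨c3, c2⟩
      · rw [sum_cc_bd G i (fun T j => f (g * s j, T))]
        have h4 : D rk f = 0 := h3
        have h5 := D_apply (r := rk) f (g * s none) S
        rw [h4] at h5
        simp only [lp.coeFn_zero, Pi.zero_apply] at h5
        rw [h5]
        refine Finset.sum_congr rfl fun v _ => ?_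
        rw [zsmul_eq_mul]
        simp [sg, sgz]
      · rw [sum_cc_anti G i (fun T j => f (g * s j, T))]
        intro hv
        have h4 := h2' g S v hv
        simp only [hs, Option.elim_none, Option.elim_some, mul_one]
        rw [h4]
        ring
    · intro h
      have h' : ∀ g k, ∑ T, ∑ j, cc G i k T j • f (g * s j, T) = 0 := fun g k => by rw [← key]; exact h g k
      refine ⟨⟨fun x hx => ?_, fun g T v hv => ?_⟩, ?_⟩
      · have h1 := h' x.1 (x.2, none)
        rw [sum_cc_none G i (fun T j => f (x.1 * s j, T))] at h1
        by_contra hne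
        refine hx ?_
        have h2 := h1 (fun h => hne ⟨Finset.subset_univ _, h.2, h.1⟩)
        simpa [hs] using h2
      · have h1 := h' g (T, some (some v))
        rw [sum_cc_anti G i (fun T j => f (g * s j, T))] at h1
        have h2 := h1 hv
        simp only [hs, Option.elim_none, Option.elim_some, mul_one] at h2
        rw [eq_neg_iff_add_eq_zero, add_comm]
        exact h2
      · show D rk f = 0
        ext x
        obtain ⟨g, S⟩ := x
        have h1 := h' g (S, some none)
        rw [sum_cc_bd G i (fun T j => f (g * s j, T))] at h1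
        rw [D_apply]
        simp only [lp.coeFn_zero, Pi.zero_apply]
        rw [← h1]
        refine Finset.sum_congr rfl fun v _ => ?_
        rw [zsmul_eq_mul]
        simp [sg, sgz, hs]
  have hZ : ZM G (fun v => ρ (Racg.gen G v)) i = SolM (cc G i) (fun j => ρ (s j)) := by
    have hneg : ∀ m : M, -m = m := fun m => ZModModule.neg_eq_self m
    have hsg : ∀ (v : V) (S : Finset V) (m : M), sgz rk v S • m = m := by
      intro v S m
      unfold sgz
      rcases neg_one_pow_eq_or ℤ (Finset.filter (fun t => rk t < rk v) S).card with h | h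
      · rw [h, one_smul]
      · rw [h, neg_smul, one_smul, hneg]
    have hT0 : ρ (s none) = 1 := by simp [hs]
    have hT1 : ∀ v, ρ (s (some v)) = ρ (Racg.gen G v) := fun v => rfl
    ext z
    constructor
    · rintro ⟨h1, h2', h3⟩ k
      obtain ⟨S, k⟩ := k
      rcases k with _ | _ | v
      · rw [sum_cc_none G i (fun T j => ρ (s j) (z T))]
        intro hS
        rw [h1 S hS, map_zero]
      · rw [sum_cc_bd G i (fun T j => ρ (s j) (z T))]
        rw [← h3 S]
        refine Finset.sum_congr rfl fun v _ => ?_
        rw [hsg, hT0]
        rfl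
      · rw [sum_cc_anti G i (fun T j => ρ (s j) (z T))]
        intro hv
        rw [hT0, hT1, h2' S v hv]
        show z S + z S = 0
        exact ZModModule.add_self _
    · intro h
      refine ⟨fun S hS => ?_, fun S v hv => ?_, fun S => ?_⟩
      · have h1 := h (S, none)
        rw [sum_cc_none G i (fun T j => ρ (s j) (z T))] at h1
        have h2 := h1 hS
        rw [hT0] at h2
        exact h2
      · have h1 := h (S, some (some v))
        rw [sum_cc_anti G i (fun T j => ρ (s j) (z T))] at h1
        have h2 := h1 hv
        rw [hT0, hT1] at h2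
        have h3 : ρ (Racg.gen G v) (z S) = -(z S) := by
          rw [eq_neg_iff_add_eq_zero, add_comm]
          exact h2
        rw [h3, hneg]
      · have h1 := h (S, some none)
        rw [sum_cc_bd G i (fun T j => ρ (s j) (z T))] at h1
        rw [← h1]
        refine Finset.sum_congr rfl fun v _ => ?_
        rw [hsg, hT0]
        rfl
  rw [hZ]
  exact vdim_le_mod (racg_res_two G) (cc G i) s _ hW ρ h2

end Ord
end Singer
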