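import Pool.Agent.Singer.Ord.Cell

/-!
# Singer/Ord: the quadratic form

Iterated coefficients `Comp`, stresses and the adjunction formula.
-/

set_option autoImplicit false
set_option linter.unusedSectionVars false
set_option linter.unusedVariables false

namespace Singer
namespace Ord

universe u

variable {P : Type} [Fintype P] [PartialOrder P] {F : Type} [Field F] {r : P → ℕ} {o : P} {x : P → F}

/-! ### sums over full chains -/

theorem so_congr {m : ℕ} : ∀ {s : P} {f f' : List P → F}, (∀ τ, Fo r s m τ → f τ = f' τ) →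
    so r s m f = so r s m f' := by
  classical
  induction m with
  | zero =>
    intro s f f' h
    exact h [] rfl
  | succ m ih =>
    intro s f f' h
    simp only [so]
    refine Finset.sum_congr rfl fun u hu => ?_
    obtain ⟨_, hu1, hu2⟩ := Finset.mem_filter.mp hu
    exact ih fun τ hτ => h (u :: τ) ⟨hu1, hu2, hτ⟩

theorem so_add {m : ℕ} : ∀ {s : P} (f f' : List P → F),
    so r s m (fun τ => f τ + f' τ) = so r s m f + so r s m f' := by
  classical
  induction m with
  | zero => intro s f f'; rfl
  | succ m ih =>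
    intro s f f'
    simp only [so]
    rw [← Finset.sum_add_distrib]
    exact Finset.sum_congr rfl fun u _ => ih _ _

theorem so_zero {m : ℕ} : ∀ {s : P}, so r s m (fun _ => (0 : F)) = 0 := by
  classical
  induction m with
  | zero => intro s; rfl
  | succ m ih =>
    intro s
    simp only [so]
    exact Finset.sum_eq_zero fun u _ => ih

theorem so_mul {m : ℕ} : ∀ {s : P} (c : F) (f : List P → F),
    so r s m (fun τ => c * f τ) = c * so r s m f := by
  classical
  induction m with
  | zero => intro s c f; rfl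
  | succ m ih =>
    intro s c f
    simp only [so]
    rw [Finset.mul_sum]
    exact Finset.sum_congr rfl fun u _ => ih _ _

theorem so_sum {m : ℕ} {s : P} {ι : Type*} (S : Finset ι) (f : ι → List P → F) :
    so r s m (fun τ => ∑ y ∈ S, f y τ) = ∑ y ∈ S, so r s m (f y) := by
  classical
  induction S using Finset.induction_on with
  | empty =>
    simp only [Finset.sum_empty]
    exact so_zero
  | insert a S ha ih =>
    simp only [Finset.sum_insert ha]
    rw [so_add, ih]

/-! ### linearity of `dd` -/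

theorem dd_add_form (x : P → F) (φ ψ : List (St P) → F) (e : List (St P)) :
    dd x (fun e' => φ e' + ψ e') e = dd x φ e + dd x ψ e := by
  have h := dd_lin_cell x 1 e φ ψ
  simpa only [one_mul] using h

/-! ### exchange of sums -/

open Classical in
theorem swap_yu (s : P) (a b : ℕ) (f : P → P → F) :
    ∑ y ∈ Finset.univ.filter (fun y => y ≤ s ∧ r y = b),
        ∑ u ∈ Finset.univ.filter (fun u => u ≤ y ∧ r u = a), f u y =
      ∑ u ∈ Finset.univ.filter (fun u => u ≤ s ∧ r u = a),
        ∑ y ∈ Finset.univ.filter (fun y => u ≤ y ∧ y ≤ s ∧ r y = b), f u y := by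
  refine Finset.sum_comm' fun y u => ?_
  simp only [Finset.mem_filter, Finset.mem_univ, true_and]
  constructor
  · rintro ⟨⟨h1, h2⟩, h3, h4⟩
    exact ⟨⟨h3, h1, h2⟩, h3.trans h1, h4⟩
  · rintro ⟨⟨h1, h2, h3⟩, h4, h5⟩
    exact ⟨⟨h2, h3⟩, h1, h5⟩

open Classical in
theorem thin_sum [CharP F 2] (hG : Gor F r o) {u s : P} {a : ℕ} (hus : u ≤ s) (hu : r u = a) (hs : r s = a + 2)
    (c : F) : ∑ y ∈ Finset.univ.filter (fun y => u ≤ y ∧ y ≤ s ∧ r y = a + 1), c = 0 := by
  have hlt : u < s := by
    refine lt_of_le_of_ne hus fun h => ?_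
    rw [h] at hu
    omega
  obtain ⟨v, v', hne, hv⟩ := hG.thin u s hlt (by omega)
  have hS : Finset.univ.filter (fun y => u ≤ y ∧ y ≤ s ∧ r y = a + 1) = {v, v'} := by
    ext w
    simp only [Finset.mem_filter, Finset.mem_univ, true_and, Finset.mem_insert, Finset.mem_singleton]
    rw [← hv w]
    constructor
    · rintro ⟨h1, h2, h3⟩
      refine ⟨lt_of_le_of_ne h1 fun h => ?_, lt_of_le_of_ne h2 fun h => ?_⟩
      · rw [h] at hu
        omega
      · rw [h] at h3
        omega
    · rintro ⟨h1, h2⟩
      refine ⟨h1.le, h2.le, ?_⟩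
      have h3 := hG.mono h1
      have h4 := hG.mono h2
      omega
  rw [hS, Finset.sum_pair hne]
  exact CharTwo.add_self_eq_zero c

/-! ### A3 -/

/-- decoding of states -/
def dec {P : Type} : List (St P) → List P
  | [] => []
  | .c0 :: e => dec e
  | .c1 :: e => dec e
  | .v u :: e => u :: dec e

theorem dec_fl (τ : List P) : dec (fl τ) = τ := by
  induction τ with
  | nil => rfl
  | cons u τ ih =>
    change u :: dec (fl τ) = u :: τ
    rw [ih]

/-- (A3b) -/
theorem comp_mono {s t : P} (hst : s ≤ t) {m : ℕ} {a g : List P → F} (h : Comp r x t m a g) : Comp r x s m a g := by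
  cases m with
  | zero => exact h
  | succ m => exact fun y hy hr => h y (hy.trans hst) hr

/-- (A3c) -/
theorem comp_add {s : P} {m : ℕ} {a g a' g' : List P → F} (h : Comp r x s m a g) (h' : Comp r x s m a' g') :
    Comp r x s m (fun τ => a τ + a' τ) (fun ε => g ε + g' ε) := by
  induction m generalizing s a g a' g' with
  | zero =>
    have h1 : a [] = g [] := h
    have h2 : a' [] = g' [] := h'
    change a [] + a' [] = g [] + g' []
    rw [h1, h2]
  | succ m ih =>
    intro y hy hr
    obtain ⟨η, h1, h2⟩ := h y hy hr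
    obtain ⟨η', h1', h2'⟩ := h' y hy hr
    refine ⟨fun e => η e + η' e, fun τ hτ => ?_, ih h2 h2'⟩
    rw [dd_add_form, h1 τ hτ, h1' τ hτ]

/-- (A3a) -/
theorem comp_exists {s : P} {m : ℕ}
    (hE : ∀ y, y ≤ s → ∀ m', m' < m → r y = 2 * m' + 2 → Ex r x y (m' + 1) (m' + 1)) (a : List P → F) :
    ∃ g, Comp r x s m a g := by
  classical
  induction m generalizing s a with
  | zero => exact ⟨fun _ => a [], rfl⟩
  | succ m ih =>
    have key : ∀ y : P, ∃ gy : List P → F, y ≤ s → r y = 2 * m + 2 → ∃ η : List (St P) → F,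
        (∀ τ, Fo r y (m + 1) τ → dd x η (fl τ) = a τ) ∧
        Comp r x y m (fun τ => η (.c1 :: fl τ)) gy := by
      intro y
      by_cases hy : y ≤ s ∧ r y = 2 * m + 2
      · obtain ⟨hys, hyr⟩ := hy
        obtain ⟨η, hη⟩ := hE y hys m (Nat.lt_succ_self m) hyr (fun e => a (dec e)) (by
          intro e he hd
          have := deg_le_of_val he
          omega)
        obtain ⟨gy, hgy⟩ := ih (s := y) (fun y' hy' m' hm' hr' => hE y' (hy'.trans hys) m'
          (hm'.trans (Nat.lt_succ_self m)) hr') (fun τ => η (.c1 :: fl τ))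
        refine ⟨gy, fun _ _ => ⟨η, fun τ hτ => ?_, hgy⟩⟩
        obtain ⟨h1, h2⟩ := val_fl hτ
        rw [hη _ h1 h2, dec_fl]
      · exact ⟨fun _ => 0, fun h1 h2 => absurd ⟨h1, h2⟩ hy⟩
    choose gy hgy using key
    refine ⟨fun l => match l with
      | [] => 0
      | y :: ε => gy y ε, ?_⟩
    intro y hy hr
    exact hgy y hy hr

open Classical in
/-- (A3g) -/
theorem sum_even [CharP F 2] (hG : Gor F r o) {q : P} {m : ℕ} (hq : r q = 2 * m + 2) (b g : List P → F) :
    ∑ u ∈ Finset.univ.filter (fun u => u ≤ q ∧ r u = 2 * m + 1), so r u m (fun τ => b τ * ps r u m g τ) = 0 := by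
  cases m with
  | zero =>
    simp only [so, ps]
    have h := thin_sum (F := F) hG (hG.bot q) (a := 0) hG.r0 (by omega) (b [] * g [])
    rw [← h]
    refine Finset.sum_congr ?_ fun _ _ => rfl
    ext w
    simp only [Finset.mem_filter, Finset.mem_univ, true_and]
    constructor
    · rintro ⟨h1, h2⟩
      exact ⟨hG.bot w, h1, by omega⟩
    · rintro ⟨_, h1, h2⟩
      exact ⟨h1, by omega⟩
  | succ m =>
    have h1 : ∀ u : P, so r u (m + 1) (fun τ => b τ * ps r u (m + 1) g τ) =
        ∑ u' ∈ Finset.univ.filter (fun u' => u' ≤ u ∧ r u' = 2 * m + 1),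
          ∑ z ∈ Finset.univ.filter (fun z => u' ≤ z ∧ z ≤ u ∧ r z = 2 * m + 2),
            so r u' m (fun τ => b (u' :: τ) * ps r u' m (fun ε => g (z :: ε)) τ) := by
      intro u
      simp only [so, ps]
      refine Finset.sum_congr rfl fun u' _ => ?_
      rw [← so_sum]
      congr 1
      funext τ
      rw [Finset.mul_sum]
    have h2 : ∀ u : P, so r u (m + 1) (fun τ => b τ * ps r u (m + 1) g τ) =
        ∑ z ∈ Finset.univ.filter (fun z => z ≤ u ∧ r z = 2 * m + 2),
          ∑ u' ∈ Finset.univ.filter (fun u' => u' ≤ z ∧ r u' = 2 * m + 1),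
            so r u' m (fun τ => b (u' :: τ) * ps r u' m (fun ε => g (z :: ε)) τ) := by
      intro u
      rw [h1 u]
      exact (swap_yu u (2 * m + 1) (2 * m + 2)
        (fun u' z => so r u' m (fun τ => b (u' :: τ) * ps r u' m (fun ε => g (z :: ε)) τ))).symm
    rw [Finset.sum_congr rfl fun u _ => h2 u]
    rw [swap_yu q (2 * m + 2) (2 * (m + 1) + 1) (fun z u =>
      ∑ u' ∈ Finset.univ.filter (fun u' => u' ≤ z ∧ r u' = 2 * m + 1),
        so r u' m (fun τ => b (u' :: τ) * ps r u' m (fun ε => g (z :: ε)) τ))]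
    refine Finset.sum_eq_zero fun z hz => ?_
    obtain ⟨_, hz1, hz2⟩ := Finset.mem_filter.mp hz
    have h3 := thin_sum (F := F) hG hz1 (a := 2 * m + 2) hz2 (by omega)
      (∑ u' ∈ Finset.univ.filter (fun u' => u' ≤ z ∧ r u' = 2 * m + 1),
        so r u' m (fun τ => b (u' :: τ) * ps r u' m (fun ε => g (z :: ε)) τ))
    have h4 : 2 * (m + 1) + 1 = 2 * m + 2 + 1 := by ring
    rw [h4]
    exact h3

/-- (A3f) the diagonal of the quadratic form -/
theorem sd_sq [CharP F 2] {s : P} {m : ℕ} (g : List P → F) :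
    sd r x s m (fun ε => g ε ^ 2) = so r s m (fun τ => (τ.map x).prod * (ps r s m g τ) ^ 2) := by
  classical
  have hsq : ∀ {ι : Type} (S : Finset ι) (f : ι → F), (∑ i ∈ S, f i) ^ 2 = ∑ i ∈ S, f i ^ 2 := by
    intro ι S f
    exact CharTwo.sum_sq S f
  induction m generalizing s g with
  | zero =>
    simp only [sd, so, ps, List.map_nil, List.prod_nil, one_mul]
  | succ m ih =>
    simp only [sd, so, ps, List.map_cons, List.prod_cons]
    have h1 : ∀ y u : P, x u * sd r x u m (fun ε => g (y :: ε) ^ 2) =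
        so r u m (fun τ => x u * (τ.map x).prod * (ps r u m (fun ε => g (y :: ε)) τ) ^ 2) := by
      intro y u
      rw [ih (s := u) (fun ε => g (y :: ε)), ← so_mul]
      congr 1
      funext τ
      ring
    simp_rw [h1]
    rw [swap_yu s (2 * m + 1) (2 * m + 2) (fun u y =>
      so r u m (fun τ => x u * (τ.map x).prod * (ps r u m (fun ε => g (y :: ε)) τ) ^ 2))]
    refine Finset.sum_congr rfl fun u _ => ?_
    rw [← so_sum]
    congr 1
    funext τ
    rw [hsq, Finset.mul_sum]

/-- adjunction and stress property -/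
theorem adj_stress [CharP F 2] (hG : Gor F r o) (m : ℕ) : ∀ s : P, r s = 2 * m + 1 →
    (∀ y, y ≤ s → ∀ m', m' < m → r y = 2 * m' + 2 → Ex r x y (m' + 1) (m' + 1)) →
    (∀ a g : List P → F, Comp r x s m a g → Stress r x s m (ps r s m g)) ∧
    (∀ a g a' g' : List P → F, Comp r x s m a g → Comp r x s m a' g' →
      so r s m (fun τ => a τ * ps r s m g' τ) = sd r x s m (fun ε => g ε * g' ε)) := by
  classical
  induction m with
  | zero =>
    intro s hs hE
    refine ⟨fun a g h ζ => ?_, fun a g a' g' h h' => ?_⟩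
    · simp only [so, ps]
      change dd x ζ [] * g [] = 0
      simp only [dd, zero_mul]
    · have h1 : a [] = g [] := h
      simp only [so, ps, sd]
      rw [h1]
  | succ m ih =>
    intro s hs hE
    have hA : ∀ a g a' g' : List P → F, Comp r x s (m + 1) a g → Comp r x s (m + 1) a' g' →
        so r s (m + 1) (fun τ => a τ * ps r s (m + 1) g' τ) = sd r x s (m + 1) (fun ε => g ε * g' ε) := by
      intro a g a' g' h h'
      have h1 : so r s (m + 1) (fun τ => a τ * ps r s (m + 1) g' τ) =
          ∑ u ∈ Finset.univ.filter (fun u => u ≤ s ∧ r u = 2 * m + 1),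
            ∑ y ∈ Finset.univ.filter (fun y => u ≤ y ∧ y ≤ s ∧ r y = 2 * m + 2),
              so r u m (fun τ => a (u :: τ) * ps r u m (fun ε => g' (y :: ε)) τ) := by
        simp only [so, ps]
        refine Finset.sum_congr rfl fun u _ => ?_
        rw [← so_sum]
        congr 1
        funext τ
        rw [Finset.mul_sum]
      rw [h1, ← swap_yu s (2 * m + 1) (2 * m + 2) (fun u y =>
        so r u m (fun τ => a (u :: τ) * ps r u m (fun ε => g' (y :: ε)) τ))]
      simp only [sd]
      refine Finset.sum_congr rfl fun y hy => ?_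
      obtain ⟨_, hys, hyr⟩ := Finset.mem_filter.mp hy
      obtain ⟨η, hη1, hη2⟩ := h y hys hyr
      obtain ⟨η', hη1', hη2'⟩ := h' y hys hyr
      have h2 : ∀ u ∈ Finset.univ.filter (fun u => u ≤ y ∧ r u = 2 * m + 1),
          so r u m (fun τ => a (u :: τ) * ps r u m (fun ε => g' (y :: ε)) τ) =
            so r u m (fun τ => η (.c0 :: fl τ) * ps r u m (fun ε => g' (y :: ε)) τ) +
              x u * sd r x u m (fun ε => g (y :: ε) * g' (y :: ε)) := by
        intro u hu
        obtain ⟨_, huy, hur⟩ := Finset.mem_filter.mp hu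
        obtain ⟨ihS, ihA⟩ := ih u hur (fun y' hy' m' hm' hr' => hE y' (hy'.trans (huy.trans hys)) m'
          (hm'.trans (Nat.lt_succ_self m)) hr')
        have h3 := ihS _ _ (comp_mono huy hη2') (fun e' => η (.v u :: e'))
        have h4 := ihA _ _ _ _ (comp_mono huy hη2) (comp_mono huy hη2')
        rw [← h4, ← so_mul]
        have h5 : so r u m (fun τ => a (u :: τ) * ps r u m (fun ε => g' (y :: ε)) τ) =
            so r u m (fun τ => (η (.c0 :: fl τ) * ps r u m (fun ε => g' (y :: ε)) τ +
              x u * (η (.c1 :: fl τ) * ps r u m (fun ε => g' (y :: ε)) τ)) +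
              dd x (fun e' => η (.v u :: e')) (fl τ) * ps r u m (fun ε => g' (y :: ε)) τ) := by
          refine so_congr fun τ hτ => ?_
          have h6 := hη1 (u :: τ) ⟨huy, hur, hτ⟩
          have h7 : dd x η (fl (u :: τ)) = η (.c0 :: fl τ) + x u * η (.c1 :: fl τ) +
              dd x (fun e' => η (.v u :: e')) (fl τ) := rfl
          rw [← h6, h7]
          ring
        rw [h5, so_add, so_add, h3, add_zero]
      rw [Finset.sum_congr rfl h2, Finset.sum_add_distrib,
        sum_even hG hyr (fun τ => η (.c0 :: fl τ)) (fun ε => g' (y :: ε)), zero_add]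
    refine ⟨fun a g h ζ => ?_, hA⟩
    obtain ⟨g2, hg2⟩ := comp_exists (s := s) (m := m) (r := r) (x := x)
      (fun y hy m' hm' hr' => hE y hy m' (hm'.trans (Nat.lt_succ_self m)) hr')
      (fun τ => ζ (.c1 :: fl τ))
    have hc : Comp r x s (m + 1) (fun τ => dd x ζ (fl τ)) (fun l => g2 l.tail) := by
      intro y hy hr
      exact ⟨ζ, fun τ _ => rfl, comp_mono hy hg2⟩
    have h1 := hA _ _ _ _ hc h
    have h2 := hA _ _ _ _ h hc
    have h3 : so r s (m + 1) (fun τ => a τ * ps r s (m + 1) (fun l => g2 l.tail) τ) = 0 := by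
      rw [← so_zero (r := r) (s := s) (m := m + 1) (F := F)]
      refine so_congr fun τ hτ => ?_
      match τ, hτ with
      | [], hτ => exact absurd hτ (by simp [Fo])
      | u :: τ, hτ =>
        obtain ⟨hus, hur, _⟩ := hτ
        have h4 : ps r s (m + 1) (fun l => g2 l.tail) (u :: τ) = 0 := by
          simp only [ps, List.tail_cons]
          exact thin_sum hG hus hur (by omega) _
        rw [h4, mul_zero]
    rw [h3] at h2
    rw [h1, h2]
    congr 1
    funext ε
    ring

/-- (A3d) stress property and adjunction, simultaneous induction on `m` -/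
theorem stress_ps [CharP F 2] (hG : Gor F r o) {s : P} {m : ℕ} (hs : r s = 2 * m + 1)
    (hE : ∀ y, y ≤ s → ∀ m', m' < m → r y = 2 * m' + 2 → Ex r x y (m' + 1) (m' + 1))
    {a g : List P → F} (h : Comp r x s m a g) : Stress r x s m (ps r s m g) :=
  (adj_stress hG m s hs hE).1 a g h

/-- (A3e) -/
theorem adj [CharP F 2] (hG : Gor F r o) {s : P} {m : ℕ} (hs : r s = 2 * m + 1)
    (hE : ∀ y, y ≤ s → ∀ m', m' < m → r y = 2 * m' + 2 → Ex r x y (m' + 1) (m' + 1))
    {a g a' g' : List P → F} (h : Comp r x s m a g) (h' : Comp r x s m a' g') :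
    so r s m (fun τ => a τ * ps r s m g' τ) = sd r x s m (fun ε => g ε * g' ε) :=
  (adj_stress hG m s hs hE).2 a g a' g' h h'

end Ord
end Singer
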