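import Pool.Agent.Singer.Ord.Defs

/-!
# Singer/Ord: Lück approximation, upper bound

`luck`: for the solutions `W` of a linear system over the integral group ring, `(vdim W - ε) |Q|` is at most the dimension of
the space of solutions on `Q`, for every finite quotient `Q` which separates a finite set of elements.
-/

set_option autoImplicit false
set_option linter.unusedSectionVars false
set_option linter.unusedVariables false

open scoped ComplexConjugate InnerProductSpace ComplexOrder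
open Filter Topology

namespace Singer
namespace Ord

section mat
open Matrix

lemma norm_trailingCoeff_X_sub_C (a : ℂ) :
    ‖(Polynomial.X - Polynomial.C a : Polynomial ℂ).trailingCoeff‖ = if a = 0 then 1 else ‖a‖ := by
  split_ifs with h
  · rw [h, map_zero, sub_zero]
    simp [Polynomial.trailingCoeff, Polynomial.natTrailingDegree_X]
  · rw [Polynomial.trailingCoeff_eq_coeff_zero]
    · simp
    · simpa using h

lemma trailingCoeff_map_int (p : Polynomial ℤ) :
    (p.map (Int.castRingHom ℂ)).trailingCoeff = ((p.trailingCoeff : ℤ) : ℂ) := by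
  by_cases hp : p = 0
  · simp [hp]
  have hinj : Function.Injective (Int.castRingHom ℂ) := fun a b h => by simpa using h
  have h1 : (p.map (Int.castRingHom ℂ)).natTrailingDegree = p.natTrailingDegree := by
    refine le_antisymm (Polynomial.natTrailingDegree_le_of_ne_zero ?_) (Polynomial.le_natTrailingDegree ?_ ?_)
    · rw [Polynomial.coeff_map]
      have h2 : p.coeff p.natTrailingDegree ≠ 0 := (Polynomial.trailingCoeff_nonzero_iff_nonzero (p := p)).2 hp
      simpa using h2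
    · rwa [Ne, Polynomial.map_eq_zero_iff hinj]
    · intro m hm
      rw [Polynomial.coeff_map, Polynomial.coeff_eq_zero_of_lt_natTrailingDegree hm, map_zero]
  unfold Polynomial.trailingCoeff
  rw [h1, Polynomial.coeff_map]
  rfl

/-- the product of the nonzero eigenvalues of an integer Hermitian matrix has absolute value at least one -/
lemma one_le_prod_eigs {n : Type*} [Fintype n] [DecidableEq n] (A : Matrix n n ℤ)
    (hA : (A.map (Int.cast : ℤ → ℂ)).IsHermitian) :
    1 ≤ ∏ i, (if hA.eigenvalues i = 0 then 1 else |hA.eigenvalues i|) := by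
  have h1 : (A.map (Int.cast : ℤ → ℂ)).charpoly = A.charpoly.map (Int.castRingHom ℂ) :=
    Matrix.charpoly_map A (Int.castRingHom ℂ)
  have h2 : ((A.map (Int.cast : ℤ → ℂ)).charpoly).trailingCoeff = ((A.charpoly.trailingCoeff : ℤ) : ℂ) := by
    rw [h1, trailingCoeff_map_int]
  have h3 : A.charpoly.trailingCoeff ≠ 0 := by
    rw [Polynomial.trailingCoeff_nonzero_iff_nonzero]
    exact (Matrix.charpoly_monic A).ne_zero
  have h4 : ‖((A.map (Int.cast : ℤ → ℂ)).charpoly).trailingCoeff‖ =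
      ∏ i, (if hA.eigenvalues i = 0 then 1 else |hA.eigenvalues i|) := by
    rw [hA.charpoly_eq]
    have h5 : ∀ s : Finset n, ‖(∏ i ∈ s, (Polynomial.X - Polynomial.C ((hA.eigenvalues i : ℝ) : ℂ))).trailingCoeff‖ =
        ∏ i ∈ s, (if hA.eigenvalues i = 0 then 1 else |hA.eigenvalues i|) := by
      intro s
      induction s using Finset.induction_on with
      | empty => simp [Polynomial.trailingCoeff]
      | insert a s ha ih =>
        rw [Finset.prod_insert ha, Finset.prod_insert ha, Polynomial.trailingCoeff_mul, norm_mul, ih,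
          norm_trailingCoeff_X_sub_C]
        congr 1
        simp
    exact h5 Finset.univ
  rw [← h4, h2, Complex.norm_intCast]
  have : (1 : ℤ) ≤ |A.charpoly.trailingCoeff| := Int.one_le_abs h3
  exact_mod_cast this

/-- trace of a power -/
lemma trace_pow_eigs {n : Type*} [Fintype n] [DecidableEq n] {A : Matrix n n ℂ} (hA : A.IsHermitian) (c : ℂ) (N : ℕ) :
    ((1 - c • A) ^ N).trace = ∑ i, (1 - c * (hA.eigenvalues i : ℂ)) ^ N := by
  set φ := Unitary.conjStarAlgAut ℂ (Matrix n n ℂ) hA.eigenvectorUnitary with hφ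
  have h1 : A = φ (diagonal (RCLike.ofReal ∘ hA.eigenvalues)) := hA.spectral_theorem
  have h2 : (1 - c • A) ^ N = φ ((1 - c • diagonal (RCLike.ofReal ∘ hA.eigenvalues)) ^ N) := by
    rw [map_pow, map_sub, map_one, map_smul, ← h1]
  have h3 : (1 : Matrix n n ℂ) - c • diagonal (RCLike.ofReal ∘ hA.eigenvalues) =
      diagonal (fun i => 1 - c * (hA.eigenvalues i : ℂ)) := by
    rw [← diagonal_one, ← diagonal_smul, diagonal_sub]
    rfl
  rw [h2, h3, diagonal_pow, hφ, Unitary.conjStarAlgAut_apply, Matrix.trace_mul_comm, ← mul_assoc]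
  simp [Matrix.trace_diagonal]

/-- an elementary estimate -/
lemma eig_estimate {n : Type*} [Fintype n] (l : n → ℝ) (h0 : ∀ i, 0 ≤ l i) {C : ℝ} (hC : 1 ≤ C) (hl : ∀ i, l i ≤ C)
    (hp : 1 ≤ ∏ i, (if l i = 0 then 1 else |l i|)) {e : ℝ} (he : 0 < e) (he1 : e < 1) (N : ℕ) :
    ∑ i, (1 - l i / C) ^ (2 * N) ≤ Fintype.card {i // l i = 0} + Fintype.card n * (Real.log C / (- Real.log e)) +
      Fintype.card n * (1 - e / C) ^ (2 * N) := by
  classical
  have hC0 : 0 < C := lt_of_lt_of_le one_pos hC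
  have hlogC : 0 ≤ Real.log C := Real.log_nonneg hC
  have hloge : Real.log e < 0 := Real.log_neg he he1
  have h1 : ∀ i, (1 - l i / C) ^ (2 * N) ≤ (if l i = 0 then 1 else 0) + (if 0 < l i ∧ l i < e then 1 else 0) +
      (1 - e / C) ^ (2 * N) := by
    intro i
    have a1 : 0 ≤ 1 - l i / C := by
      have := (div_le_one hC0).2 (hl i)
      linarith
    have a2 : 1 - l i / C ≤ 1 := by
      have := div_nonneg (h0 i) hC0.le
      linarith
    have a3 : (1 - l i / C) ^ (2 * N) ≤ 1 := pow_le_one₀ a1 a2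
    have a4 : 0 ≤ (1 - e / C) ^ (2 * N) := by
      rw [pow_mul]
      positivity
    by_cases b1 : l i = 0
    · rw [if_pos b1]
      split_ifs <;> linarith
    · have b2 : 0 < l i := lt_of_le_of_ne (h0 i) (Ne.symm b1)
      by_cases b3 : l i < e
      · rw [if_neg b1, if_pos ⟨b2, b3⟩]
        linarith
      · rw [if_neg b1, if_neg (fun h => b3 h.2), zero_add, zero_add]
        refine pow_le_pow_left₀ a1 ?_ _
        have := div_le_div_of_nonneg_right (not_lt.1 b3) hC0.le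
        linarith
  have h2 : (∑ i, (if 0 < l i ∧ l i < e then (1 : ℝ) else 0)) * (- Real.log e) ≤ Fintype.card n * Real.log C := by
    have b1 : 0 ≤ ∑ i, Real.log (if l i = 0 then 1 else |l i|) := by
      rw [← Real.log_prod]
      · exact Real.log_nonneg hp
      · intro i _
        split_ifs with h
        · exact one_ne_zero
        · exact abs_ne_zero.2 h
    have b2 : ∀ i, Real.log (if l i = 0 then 1 else |l i|) ≤ Real.log C + (if 0 < l i ∧ l i < e then (1 : ℝ) else 0) * Real.log e := by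
      intro i
      by_cases c1 : l i = 0
      · rw [if_pos c1, if_neg (by rw [c1]; simp), Real.log_one]
        linarith
      · have c2 : 0 < l i := lt_of_le_of_ne (h0 i) (Ne.symm c1)
        rw [if_neg c1, abs_of_pos c2]
        by_cases c3 : l i < e
        · rw [if_pos ⟨c2, c3⟩]
          have := Real.log_le_log c2 c3.le
          linarith
        · rw [if_neg (fun h => c3 h.2)]
          have := Real.log_le_log c2 (hl i)
          linarith
    have b3 := Finset.sum_le_sum fun i (_ : i ∈ (Finset.univ : Finset n)) => b2 i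
    rw [Finset.sum_add_distrib, ← Finset.sum_mul] at b3
    simp only [Finset.sum_const, Finset.card_univ, nsmul_eq_mul] at b3
    linarith
  have h3 := Finset.sum_le_sum fun i (_ : i ∈ (Finset.univ : Finset n)) => h1 i
  rw [Finset.sum_add_distrib, Finset.sum_add_distrib] at h3
  have h4 : (∑ i, (if l i = 0 then (1 : ℝ) else 0)) = Fintype.card {i // l i = 0} := by
    rw [Finset.sum_boole, Fintype.card_subtype]
  have h5 : (∑ i, (if 0 < l i ∧ l i < e then (1 : ℝ) else 0)) ≤ Fintype.card n * (Real.log C / (- Real.log e)) := by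
    rw [← mul_div_assoc, le_div_iff₀ (by linarith)]
    exact h2
  simp only [Finset.sum_const, Finset.card_univ, nsmul_eq_mul] at h3
  rw [h4] at h3
  linarith

/-- the eigenvalues are bounded by the row sums -/
lemma eig_le {n : Type*} [Fintype n] [DecidableEq n] {A : Matrix n n ℂ} (hA : A.IsHermitian) {C : ℝ}
    (h : ∀ x, ∑ y, ‖A x y‖ ≤ C) (i : n) : hA.eigenvalues i ≤ C := by
  obtain ⟨v, hv⟩ : ∃ v : n → ℂ, v = ⇑(hA.eigenvectorBasis i) := ⟨_, rfl⟩
  have h1 : A *ᵥ v = (hA.eigenvalues i) • v := by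
    rw [hv]
    exact hA.mulVec_eigenvectorBasis i
  have hv0 : v ≠ 0 := by
    rw [hv]
    exact (WithLp.ofLp_eq_zero 2).ne.2 <| hA.eigenvectorBasis.orthonormal.ne_zero i
  obtain ⟨x, -, hx⟩ := Finset.exists_max_image Finset.univ (fun x => ‖v x‖) ⟨i, Finset.mem_univ i⟩
  have hx0 : 0 < ‖v x‖ := by
    by_contra h0
    apply hv0
    funext y
    have := hx y (Finset.mem_univ y)
    have h2 : ‖v y‖ ≤ 0 := le_trans this (not_lt.1 h0)
    exact norm_le_zero_iff.1 h2
  have h2 : (hA.eigenvalues i) * ‖v x‖ ≤ C * ‖v x‖ := by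
    calc (hA.eigenvalues i) * ‖v x‖ ≤ ‖((hA.eigenvalues i) • v) x‖ := by
          rw [Pi.smul_apply, norm_smul, Real.norm_eq_abs]
          exact mul_le_mul_of_nonneg_right (le_abs_self _) (norm_nonneg _)
      _ = ‖∑ y, A x y * v y‖ := by rw [← h1]; rfl
      _ ≤ ∑ y, ‖A x y * v y‖ := norm_sum_le _ _
      _ ≤ ∑ y, ‖A x y‖ * ‖v x‖ := by
          refine Finset.sum_le_sum fun y _ => ?_
          rw [norm_mul]
          exact mul_le_mul_of_nonneg_left (hx y (Finset.mem_univ y)) (norm_nonneg _)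
      _ = (∑ y, ‖A x y‖) * ‖v x‖ := by rw [Finset.sum_mul]
      _ ≤ C * ‖v x‖ := mul_le_mul_of_nonneg_right (h x) (norm_nonneg _)
  exact le_of_mul_le_mul_right h2 hx0

lemma isHermitian_one_sub {n : Type*} [Fintype n] [DecidableEq n] {A : Matrix n n ℂ} (hA : A.IsHermitian) (c : ℝ) :
    (1 - (c : ℂ) • A).IsHermitian := by
  unfold Matrix.IsHermitian
  rw [conjTranspose_sub, conjTranspose_one, conjTranspose_smul, hA.eq]
  simp

/-- the squares of the entries of a power -/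
lemma sum_sq_pow {n : Type*} [Fintype n] [DecidableEq n] {A : Matrix n n ℂ} (hA : A.IsHermitian) (c : ℝ) (N : ℕ) :
    ((∑ y, ∑ x, ‖((1 - (c : ℂ) • A) ^ N) x y‖ ^ 2 : ℝ) : ℂ) = ((1 - (c : ℂ) • A) ^ (2 * N)).trace := by
  have h1 : ((1 - (c : ℂ) • A) ^ N)ᴴ = (1 - (c : ℂ) • A) ^ N := by
    rw [conjTranspose_pow, (isHermitian_one_sub hA c).eq]
  have h2 : (1 - (c : ℂ) • A) ^ (2 * N) = ((1 - (c : ℂ) • A) ^ N)ᴴ * (1 - (c : ℂ) • A) ^ N := by
    rw [h1, two_mul, pow_add]
  rw [h2, Matrix.trace]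
  push_cast
  refine Finset.sum_congr rfl fun y _ => ?_
  rw [Matrix.diag_apply, Matrix.mul_apply]
  refine Finset.sum_congr rfl fun x _ => ?_
  rw [conjTranspose_apply]
  have := Complex.conj_mul' (((1 - (c : ℂ) • A) ^ N) x y)
  rw [← this]
  rfl

/-- the finite side -/
lemma mat_bound {m n : Type*} [Fintype m] [Fintype n] [DecidableEq m] [DecidableEq n] (B : Matrix m n ℤ) {C : ℝ}
    (hC : 1 ≤ C)
    (hB : ∀ x, ∑ y, ‖((B.map (Int.cast : ℤ → ℂ))ᴴ * B.map (Int.cast : ℤ → ℂ)) x y‖ ≤ C) {e : ℝ} (he : 0 < e)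
    (he1 : e < 1) (N : ℕ) :
    ∑ y, ∑ x, ‖((1 - ((C⁻¹ : ℝ) : ℂ) • ((B.map (Int.cast : ℤ → ℂ))ᴴ * B.map (Int.cast : ℤ → ℂ))) ^ N : Matrix n n ℂ) x y‖ ^ 2 ≤
      Module.finrank ℂ (LinearMap.ker (B.map (Int.cast : ℤ → ℂ)).mulVecLin) +
      Fintype.card n * (Real.log C / (- Real.log e)) + Fintype.card n * (1 - e / C) ^ (2 * N) := by
  classical
  set Bc := B.map (Int.cast : ℤ → ℂ) with hBc
  set A := Bcᴴ * Bc with hAdef
  have hA : A.IsHermitian := Matrix.isHermitian_conjTranspose_mul_self Bc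
  have hpos : A.PosSemidef := Matrix.posSemidef_conjTranspose_mul_self Bc
  have hAZ : A = (Bᵀ * B).map (Int.cast : ℤ → ℂ) := by
    have h1 : Bcᴴ = Bᵀ.map (Int.cast : ℤ → ℂ) := by
      ext i j
      simp [hBc, conjTranspose_apply]
    rw [hAdef, h1, hBc]
    exact (Matrix.map_mul (f := Int.castRingHom ℂ)).symm
  have h0 : ∀ i, 0 ≤ hA.eigenvalues i := hpos.eigenvalues_nonneg
  have hprod : 1 ≤ ∏ i, (if hA.eigenvalues i = 0 then 1 else |hA.eigenvalues i|) := by
    have key : ∀ (A' : Matrix n n ℂ) (hA' : A'.IsHermitian), A' = (Bᵀ * B).map (Int.cast : ℤ → ℂ) →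
        1 ≤ ∏ i, (if hA'.eigenvalues i = 0 then 1 else |hA'.eigenvalues i|) := by
      rintro A' hA' rfl
      exact one_le_prod_eigs _ hA'
    exact key A hA hAZ
  have h1 := eig_estimate hA.eigenvalues h0 hC (eig_le hA hB) hprod he he1 N
  have h2 : (Fintype.card {i // hA.eigenvalues i = 0} : ℕ) = Module.finrank ℂ (LinearMap.ker Bc.mulVecLin) := by
    have a1 : A.rank = Bc.rank := Matrix.rank_conjTranspose_mul_self Bc
    have a2 := hA.rank_eq_card_non_zero_eigs
    have a3 := LinearMap.finrank_range_add_finrank_ker Bc.mulVecLin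
    have a4 : Fintype.card {i // ¬ hA.eigenvalues i = 0} = Fintype.card n - Fintype.card {i // hA.eigenvalues i = 0} :=
      Fintype.card_subtype_compl _
    have a5 : Fintype.card {i // hA.eigenvalues i = 0} ≤ Fintype.card n := Fintype.card_subtype_le _
    rw [Module.finrank_fintype_fun_eq_card] at a3
    have a6 : Bc.rank = Module.finrank ℂ (LinearMap.range Bc.mulVecLin) := rfl
    have a7 : Fintype.card {i // hA.eigenvalues i ≠ 0} = Fintype.card {i // ¬ hA.eigenvalues i = 0} := rfl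
    omega
  have h3 : ∑ y, ∑ x, ‖((1 - ((C⁻¹ : ℝ) : ℂ) • A) ^ N : Matrix n n ℂ) x y‖ ^ 2 = ∑ i, (1 - hA.eigenvalues i / C) ^ (2 * N) := by
    have a1 := sum_sq_pow hA C⁻¹ N
    rw [trace_pow_eigs hA] at a1
    have a2 : (((∑ i, (1 - hA.eigenvalues i / C) ^ (2 * N) : ℝ)) : ℂ) =
        ∑ i, (1 - ((C⁻¹ : ℝ) : ℂ) * (hA.eigenvalues i : ℂ)) ^ (2 * N) := by
      push_cast
      refine Finset.sum_congr rfl fun i _ => ?_
      rw [div_eq_inv_mul]
    rw [← a2] at a1
    exact Complex.ofReal_injective a1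
  rw [h3, ← h2]
  exact h1

end mat

section op
variable {G H : Type*} [Group G] [Group H] {κ ι J : Type*} [Fintype κ] [Fintype ι] [Fintype J]

/-- the operator `e (g, i) ↦ ∑ c k i j • e (g * (s j)⁻¹, k)` on finitely supported functions -/
noncomputable def bF (c : κ → ι → J → ℤ) (s : J → G) : (G × ι →₀ ℂ) →ₗ[ℂ] (G × κ →₀ ℂ) :=
  Finsupp.linearCombination ℂ fun x => ∑ k, ∑ j, (c k x.2 j : ℂ) • Finsupp.single (x.1 * (s j)⁻¹, k) 1

/-- the transposed operator -/
noncomputable def btF (c : κ → ι → J → ℤ) (s : J → G) : (G × κ →₀ ℂ) →ₗ[ℂ] (G × ι →₀ ℂ) :=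
  Finsupp.linearCombination ℂ fun x => ∑ i, ∑ j, (c x.2 i j : ℂ) • Finsupp.single (x.1 * s j, i) 1

/-- the operator `1 - a Bᵀ B` -/
noncomputable def tF (a : ℂ) (c : κ → ι → J → ℤ) (s : J → G) : (G × ι →₀ ℂ) →ₗ[ℂ] (G × ι →₀ ℂ) :=
  LinearMap.id - a • (btF c s).comp (bF c s)

lemma bF_single (c : κ → ι → J → ℤ) (s : J → G) (x : G × ι) :
    bF c s (Finsupp.single x 1) = ∑ k, ∑ j, (c k x.2 j : ℂ) • Finsupp.single (x.1 * (s j)⁻¹, k) 1 := by
  unfold bF
  rw [Finsupp.linearCombination_single, one_smul]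

lemma btF_single (c : κ → ι → J → ℤ) (s : J → G) (x : G × κ) :
    btF c s (Finsupp.single x 1) = ∑ i, ∑ j, (c x.2 i j : ℂ) • Finsupp.single (x.1 * s j, i) 1 := by
  unfold btF
  rw [Finsupp.linearCombination_single, one_smul]

lemma pair_tF (a : ℂ) (c : κ → ι → J → ℤ) (s : J → G) (f : G × ι → ℂ)
    (hf : ∀ g k, ∑ i, ∑ j, (c k i j : ℂ) * f (g * s j, i) = 0) (φ : G × ι →₀ ℂ) :
    Finsupp.linearCombination ℂ f (tF a c s φ) = Finsupp.linearCombination ℂ f φ := by
  have h1 : (Finsupp.linearCombination ℂ f).comp (btF c s) = 0 := by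
    refine Finsupp.lhom_ext' fun x => LinearMap.ext_ring ?_
    show Finsupp.linearCombination ℂ f (btF c s (Finsupp.single x 1)) = 0
    rw [btF_single, map_sum]
    rw [← hf x.1 x.2]
    refine Finset.sum_congr rfl fun i _ => ?_
    rw [map_sum]
    refine Finset.sum_congr rfl fun j _ => ?_
    rw [map_smul, Finsupp.linearCombination_single, one_smul, smul_eq_mul]
  have h2 : Finsupp.linearCombination ℂ f (btF c s (bF c s φ)) = 0 := LinearMap.congr_fun h1 (bF c s φ)
  show Finsupp.linearCombination ℂ f (φ - a • btF c s (bF c s φ)) = _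
  rw [map_sub, map_smul, h2, smul_zero, sub_zero]

lemma pair_tF_pow (a : ℂ) (c : κ → ι → J → ℤ) (s : J → G) (f : G × ι → ℂ)
    (hf : ∀ g k, ∑ i, ∑ j, (c k i j : ℂ) * f (g * s j, i) = 0) (N : ℕ) (φ : G × ι →₀ ℂ) :
    Finsupp.linearCombination ℂ f ((tF a c s ^ N) φ) = Finsupp.linearCombination ℂ f φ := by
  induction N with
  | zero => rfl
  | succ N ih => rw [pow_succ', Module.End.mul_apply, pair_tF a c s f hf, ih]

lemma map_bF (c : κ → ι → J → ℤ) (s : J → G) (t : J → H) (θ : G → H) (h2 : ∀ g j, θ (g * (s j)⁻¹) = θ g * (t j)⁻¹)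
    (φ : G × ι →₀ ℂ) :
    Finsupp.lmapDomain ℂ ℂ (Prod.map θ id) (bF c s φ) = bF c t (Finsupp.lmapDomain ℂ ℂ (Prod.map θ id) φ) := by
  have h1 : (Finsupp.lmapDomain ℂ ℂ (Prod.map θ (id : κ → κ))).comp (bF c s) =
      (bF c t).comp (Finsupp.lmapDomain ℂ ℂ (Prod.map θ (id : ι → ι))) := by
    refine Finsupp.lhom_ext' fun x => LinearMap.ext_ring ?_
    show Finsupp.lmapDomain ℂ ℂ (Prod.map θ (id : κ → κ)) (bF c s (Finsupp.single x 1)) =
      bF c t (Finsupp.lmapDomain ℂ ℂ (Prod.map θ (id : ι → ι)) (Finsupp.single x 1))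
    rw [bF_single, Finsupp.lmapDomain_apply, Finsupp.lmapDomain_apply, Finsupp.mapDomain_single, bF_single]
    rw [Finsupp.mapDomain_finsetSum]
    refine Finset.sum_congr rfl fun k _ => ?_
    rw [Finsupp.mapDomain_finsetSum]
    refine Finset.sum_congr rfl fun j _ => ?_
    rw [Finsupp.mapDomain_smul, Finsupp.mapDomain_single]
    simp [h2]
  exact LinearMap.congr_fun h1 φ

lemma map_btF (c : κ → ι → J → ℤ) (s : J → G) (t : J → H) (θ : G → H) (h2 : ∀ g j, θ (g * s j) = θ g * t j)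
    (φ : G × κ →₀ ℂ) :
    Finsupp.lmapDomain ℂ ℂ (Prod.map θ id) (btF c s φ) = btF c t (Finsupp.lmapDomain ℂ ℂ (Prod.map θ id) φ) := by
  have h1 : (Finsupp.lmapDomain ℂ ℂ (Prod.map θ (id : ι → ι))).comp (btF c s) =
      (btF c t).comp (Finsupp.lmapDomain ℂ ℂ (Prod.map θ (id : κ → κ))) := by
    refine Finsupp.lhom_ext' fun x => LinearMap.ext_ring ?_
    show Finsupp.lmapDomain ℂ ℂ (Prod.map θ (id : ι → ι)) (btF c s (Finsupp.single x 1)) =
      btF c t (Finsupp.lmapDomain ℂ ℂ (Prod.map θ (id : κ → κ)) (Finsupp.single x 1))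
    rw [btF_single, Finsupp.lmapDomain_apply, Finsupp.lmapDomain_apply, Finsupp.mapDomain_single, btF_single]
    rw [Finsupp.mapDomain_finsetSum]
    refine Finset.sum_congr rfl fun k _ => ?_
    rw [Finsupp.mapDomain_finsetSum]
    refine Finset.sum_congr rfl fun j _ => ?_
    rw [Finsupp.mapDomain_smul, Finsupp.mapDomain_single]
    simp [h2]
  exact LinearMap.congr_fun h1 φ

lemma map_tF_pow (a : ℂ) (c : κ → ι → J → ℤ) (s : J → G) (t : J → H) (θ : G → H)
    (h1 : ∀ g j, θ (g * s j) = θ g * t j) (h2 : ∀ g j, θ (g * (s j)⁻¹) = θ g * (t j)⁻¹) (N : ℕ) (φ : G × ι →₀ ℂ) :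
    Finsupp.mapDomain (Prod.map θ id) ((tF a c s ^ N) φ) = (tF a c t ^ N) (Finsupp.mapDomain (Prod.map θ id) φ) := by
  induction N with
  | zero => rfl
  | succ N ih =>
    rw [pow_succ', Module.End.mul_apply, pow_succ', Module.End.mul_apply, ← ih]
    obtain ⟨ψ, hψ⟩ : ∃ ψ, ψ = (tF a c s ^ N) φ := ⟨_, rfl⟩
    rw [← hψ]
    show Finsupp.lmapDomain ℂ ℂ (Prod.map θ id) (ψ - a • btF c s (bF c s ψ)) =
      (Finsupp.lmapDomain ℂ ℂ (Prod.map θ id) ψ) - a • btF c t (bF c t (Finsupp.lmapDomain ℂ ℂ (Prod.map θ id) ψ))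
    rw [map_sub, map_smul, map_btF c s t θ h1, map_bF c s t θ h2]

/-- the sum of the squares -/
noncomputable def sqs {X : Type*} (φ : X →₀ ℂ) : ℝ := φ.sum fun _ z => ‖z‖ ^ 2

lemma sqs_mapDomain {X Y : Type*} (p : X → Y) (φ : X →₀ ℂ) (hp : Set.InjOn p φ.support) :
    sqs (Finsupp.mapDomain p φ) = sqs φ := by
  classical
  unfold sqs Finsupp.sum
  rw [Finsupp.mapDomain_support_of_injOn φ hp, Finset.sum_image hp]
  refine Finset.sum_congr rfl fun x hx => ?_
  rw [Finsupp.mapDomain_apply' _ φ (Set.Subset.refl _) hp hx]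

end op

section l2
variable {Γ : Type*} [Group Γ] {κ ι J : Type*} [Fintype κ] [Fintype ι] [Fintype J]

/-- the bound on the group -/
lemma vdim_le_sqs (c : κ → ι → J → ℤ) (s : J → Γ) (W : Submodule ℂ (E Γ ι)) (hW : (W : Set (E Γ ι)) = SolL c s) (a : ℂ)
    (N : ℕ) : vdim W ≤ ∑ i, sqs ((tF a c s ^ N) (Finsupp.single ((1 : Γ), i) 1)) := by
  unfold vdim
  refine Finset.sum_le_sum fun i _ => ?_
  obtain ⟨w, hw⟩ : ∃ w, w = (tF a c s ^ N) (Finsupp.single ((1 : Γ), i) 1) := ⟨_, rfl⟩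
  rw [← hw]
  have hcl : IsClosed (W : Set (E Γ ι)) := by
    rw [hW]
    have : SolL c s = ⋂ (g : Γ) (k : κ), {f : E Γ ι | ∑ i, ∑ j, (c k i j : ℂ) * f (g * s j, i) = 0} := by
      ext f
      simp [SolL]
    rw [this]
    refine isClosed_iInter fun g => isClosed_iInter fun k => ?_
    refine isClosed_eq ?_ continuous_const
    refine continuous_finsetSum _ fun i _ => continuous_finsetSum _ fun j _ => continuous_const.mul ?_
    have h3 : (fun f : E Γ ι => f (g * s j, i)) = fun f => ⟪del (g * s j) i, f⟫_ℂ := by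
      funext f
      rw [inner_del_left]
    rw [h3]
    exact continuous_const.inner continuous_id
  obtain ⟨f, hf⟩ : ∃ f, f = prj W (del 1 i) := ⟨_, rfl⟩
  have hfW : f ∈ W := by
    have := prj_mem W (del 1 i)
    rw [IsClosed.submodule_topologicalClosure_eq hcl] at this
    rw [hf]
    exact this
  have hf1 : f ∈ SolL c s := by
    rw [← hW]
    exact hfW
  have h1 : f (1, i) = w.sum fun x z => z * f x := by
    have h2 := pair_tF_pow a c s (fun x => f x) hf1 N (Finsupp.single ((1 : Γ), i) 1)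
    rw [← hw, Finsupp.linearCombination_single, one_smul] at h2
    rw [← h2, Finsupp.linearCombination_apply]
    rfl
  have h2 : ((‖f‖ ^ 2 : ℝ) : ℂ) = f (1, i) := by
    rw [← inner_del_left]
    have h3 : prj W f = f := prj_eq_of_mem (W.le_topologicalClosure hfW)
    have h4 : ⟪del 1 i, f⟫_ℂ = ⟪f, f⟫_ℂ := by
      conv_rhs => rw [hf, prj_inner, ← hf, h3]
    rw [h4]
    have := inner_self_eq_norm_sq_to_K (𝕜 := ℂ) f
    rw [this]
    simp
  have h3 : ‖f‖ ^ 2 = ‖w.sum fun x z => z * f x‖ := by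
    rw [← h1, ← h2, Complex.norm_real, Real.norm_of_nonneg (by positivity)]
  have h4 : ‖w.sum fun x z => z * f x‖ ^ 2 ≤ sqs w * ‖f‖ ^ 2 := by
    have h5 : ‖w.sum fun x z => z * f x‖ ≤ ∑ x ∈ w.support, ‖w x‖ * ‖f x‖ := by
      unfold Finsupp.sum
      refine (norm_sum_le _ _).trans (le_of_eq ?_)
      refine Finset.sum_congr rfl fun x _ => norm_mul _ _
    have h6 : (∑ x ∈ w.support, ‖w x‖ * ‖f x‖) ^ 2 ≤ (∑ x ∈ w.support, ‖w x‖ ^ 2) * ∑ x ∈ w.support, ‖f x‖ ^ 2 :=
      Finset.sum_mul_sq_le_sq_mul_sq _ _ _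
    have h7 : ∑ x ∈ w.support, ‖f x‖ ^ 2 ≤ ‖f‖ ^ 2 := by
      rw [norm_sq_eq]
      exact (summable_sq f).sum_le_tsum _ fun x _ => by positivity
    calc ‖w.sum fun x z => z * f x‖ ^ 2 ≤ (∑ x ∈ w.support, ‖w x‖ * ‖f x‖) ^ 2 :=
          pow_le_pow_left₀ (norm_nonneg _) h5 2
      _ ≤ (∑ x ∈ w.support, ‖w x‖ ^ 2) * ∑ x ∈ w.support, ‖f x‖ ^ 2 := h6
      _ ≤ sqs w * ‖f‖ ^ 2 := by
          unfold sqs Finsupp.sum
          exact mul_le_mul_of_nonneg_left h7 (Finset.sum_nonneg fun _ _ => by positivity)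
  rw [← hf]
  rw [← h3] at h4
  by_cases h5 : ‖f‖ ^ 2 = 0
  · rw [h5]
    exact Finset.sum_nonneg fun _ _ => by positivity
  · have h6 : 0 < ‖f‖ ^ 2 := lt_of_le_of_ne (by positivity) (Ne.symm h5)
    rw [pow_two] at h4
    exact le_of_mul_le_mul_right h4 h6

end l2

section fin
variable {Q : Type*} [Group Q] [Fintype Q] [DecidableEq Q] {κ ι J : Type*} [Fintype κ] [Fintype ι] [DecidableEq ι]
  [DecidableEq κ] [Fintype J]

open Matrix

/-- the matrix of the system on a finite group -/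
def bM (c : κ → ι → J → ℤ) (s : J → Q) : Matrix (Q × κ) (Q × ι) ℤ :=
  fun x y => ∑ j, if x.1 * s j = y.1 then c x.2 y.2 j else 0

lemma bF_eq (c : κ → ι → J → ℤ) (s : J → Q) (φ : Q × ι →₀ ℂ) (x : Q × κ) :
    bF c s φ x = (((bM c s).map (Int.cast : ℤ → ℂ)) *ᵥ (fun y => φ y)) x := by
  induction φ using Finsupp.induction_linear with
  | zero => simp [mulVec, dotProduct]
  | add f g hf hg =>
    rw [map_add, Finsupp.add_apply, hf, hg, ← Pi.add_apply, ← mulVec_add]
    rfl
  | single y z =>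
    have h1 : Finsupp.single y z = z • Finsupp.single y (1 : ℂ) := by simp
    rw [h1, map_smul, bF_single]
    simp only [Finsupp.smul_apply, Finsupp.finsetSum_apply, mulVec, dotProduct, smul_eq_mul]
    rw [Finset.sum_eq_single y]
    · rw [Finsupp.single_eq_same, mul_one, mul_comm z]
      congr 1
      rw [Finset.sum_eq_single x.2]
      · simp only [bM, map_apply]
        push_cast
        refine Finset.sum_congr rfl fun j _ => ?_
        by_cases h : x.1 * s j = y.1
        · have h2 : (y.1 * (s j)⁻¹, x.2) = x := by rw [← h]; ext <;> simp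
          rw [if_pos h, h2, Finsupp.single_eq_same, mul_one]
        · rw [if_neg h, Finsupp.single_eq_of_ne, mul_zero]
          intro h2
          apply h
          rw [h2]
          simp
      · intro k _ hk
        refine Finset.sum_eq_zero fun j _ => ?_
        rw [Finsupp.single_eq_of_ne, mul_zero]
        intro h2
        apply hk
        rw [h2]
      · intro h
        exact absurd (Finset.mem_univ _) h
    · intro y' _ hy'
      rw [Finsupp.single_eq_of_ne hy', mul_zero, mul_zero]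
    · intro h
      exact absurd (Finset.mem_univ _) h

lemma btF_eq (c : κ → ι → J → ℤ) (s : J → Q) (φ : Q × κ →₀ ℂ) (x : Q × ι) :
    btF c s φ x = (((bM c s).map (Int.cast : ℤ → ℂ))ᴴ *ᵥ (fun y => φ y)) x := by
  induction φ using Finsupp.induction_linear with
  | zero => simp [mulVec, dotProduct]
  | add f g hf hg =>
    rw [map_add, Finsupp.add_apply, hf, hg, ← Pi.add_apply, ← mulVec_add]
    rfl
  | single y z =>
    have h1 : Finsupp.single y z = z • Finsupp.single y (1 : ℂ) := by simp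
    rw [h1, map_smul, btF_single]
    simp only [Finsupp.smul_apply, Finsupp.finsetSum_apply, mulVec, dotProduct, smul_eq_mul]
    rw [Finset.sum_eq_single y]
    · rw [Finsupp.single_eq_same, mul_one, mul_comm z]
      congr 1
      rw [Finset.sum_eq_single x.2]
      · simp only [bM, map_apply, conjTranspose_apply]
        push_cast
        rw [star_sum]
        refine Finset.sum_congr rfl fun j _ => ?_
        by_cases h : y.1 * s j = x.1
        · have h2 : (y.1 * s j, x.2) = x := by rw [h]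
          rw [if_pos h, h2, Finsupp.single_eq_same, mul_one]
          simp
        · rw [if_neg h, Finsupp.single_eq_of_ne, mul_zero]
          · simp
          intro h2
          apply h
          rw [h2]
      · intro k _ hk
        refine Finset.sum_eq_zero fun j _ => ?_
        rw [Finsupp.single_eq_of_ne, mul_zero]
        intro h2
        apply hk
        rw [h2]
      · intro h
        exact absurd (Finset.mem_univ _) h
    · intro y' _ hy'
      rw [Finsupp.single_eq_of_ne hy', mul_zero, mul_zero]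
    · intro h
      exact absurd (Finset.mem_univ _) h

lemma tF_pow_eq (a : ℂ) (c : κ → ι → J → ℤ) (s : J → Q) (N : ℕ) (φ : Q × ι →₀ ℂ) (x : Q × ι) :
    (tF a c s ^ N) φ x = ((1 - a • (((bM c s).map (Int.cast : ℤ → ℂ))ᴴ * (bM c s).map (Int.cast : ℤ → ℂ))) ^ N *ᵥ
      (fun y => φ y)) x := by
  induction N generalizing x with
  | zero => simp
  | succ N ih =>
    rw [pow_succ', Module.End.mul_apply, pow_succ', ← mulVec_mulVec]
    obtain ⟨ψ, hψ⟩ : ∃ ψ, ψ = (tF a c s ^ N) φ := ⟨_, rfl⟩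
    have h1 : ((1 - a • (((bM c s).map (Int.cast : ℤ → ℂ))ᴴ * (bM c s).map (Int.cast : ℤ → ℂ))) ^ N *ᵥ (fun y => φ y)) =
        fun y => ψ y := by
      funext y
      rw [← ih, hψ]
    rw [h1, ← hψ]
    show (ψ - a • btF c s (bF c s ψ)) x = _
    rw [Finsupp.sub_apply, Finsupp.smul_apply, btF_eq, sub_mulVec, Pi.sub_apply, one_mulVec, smul_mulVec, Pi.smul_apply,
      ← mulVec_mulVec]
    congr 3
    funext y
    exact bF_eq c s ψ y

lemma tF_pow_single (a : ℂ) (c : κ → ι → J → ℤ) (s : J → Q) (N : ℕ) (x y : Q × ι) :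
    (tF a c s ^ N) (Finsupp.single y 1) x =
      ((1 - a • (((bM c s).map (Int.cast : ℤ → ℂ))ᴴ * (bM c s).map (Int.cast : ℤ → ℂ))) ^ N : Matrix (Q × ι) (Q × ι) ℂ) x y := by
  rw [tF_pow_eq]
  have : (fun z => (Finsupp.single y (1 : ℂ)) z) = Pi.single y 1 := by
    funext z
    by_cases h : z = y
    · subst h
      simp
    · rw [Pi.single_eq_of_ne h, Finsupp.single_eq_of_ne h]
  rw [this, mulVec_single_one]
  rfl

lemma sqs_fintype {X : Type*} [Fintype X] (φ : X →₀ ℂ) : sqs φ = ∑ x, ‖φ x‖ ^ 2 := by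
  unfold sqs
  exact Finsupp.sum_fintype _ _ fun x => by simp

lemma sqs_translate (a : ℂ) (c : κ → ι → J → ℤ) (s : J → Q) (N : ℕ) (q : Q) (i : ι) :
    sqs ((tF a c s ^ N) (Finsupp.single (q, i) 1)) = sqs ((tF a c s ^ N) (Finsupp.single (1, i) 1)) := by
  have h1 := map_tF_pow a c s s (fun g => q * g) (fun g j => (mul_assoc _ _ _).symm) (fun g j => (mul_assoc _ _ _).symm) N
    (Finsupp.single ((1 : Q), i) 1)
  rw [Finsupp.mapDomain_single] at h1
  have h2 : Prod.map (fun g => q * g) id ((1 : Q), i) = (q, i) := by simp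
  rw [h2] at h1
  rw [← h1]
  refine sqs_mapDomain _ _ fun x _ y _ h => ?_
  have h3 := congrArg Prod.fst h
  have h4 := congrArg Prod.snd h
  simp only [Prod.map_fst, Prod.map_snd, id_eq, mul_right_inj] at h3 h4
  exact Prod.ext h3 h4

lemma sum_sq_eq (a : ℂ) (c : κ → ι → J → ℤ) (s : J → Q) (N : ℕ) :
    ∑ y, ∑ x, ‖((1 - a • (((bM c s).map (Int.cast : ℤ → ℂ))ᴴ * (bM c s).map (Int.cast : ℤ → ℂ))) ^ N :
      Matrix (Q × ι) (Q × ι) ℂ) x y‖ ^ 2 =
      Fintype.card Q * ∑ i, sqs ((tF a c s ^ N) (Finsupp.single ((1 : Q), i) 1)) := by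
  have h1 : ∀ y : Q × ι, ∑ x, ‖((1 - a • (((bM c s).map (Int.cast : ℤ → ℂ))ᴴ * (bM c s).map (Int.cast : ℤ → ℂ))) ^ N :
      Matrix (Q × ι) (Q × ι) ℂ) x y‖ ^ 2 = sqs ((tF a c s ^ N) (Finsupp.single ((1 : Q), y.2) 1)) := by
    intro y
    rw [← sqs_translate a c s N y.1 y.2, sqs_fintype]
    refine Finset.sum_congr rfl fun x _ => ?_
    rw [tF_pow_single]
  rw [Finset.sum_congr rfl fun y _ => h1 y, Fintype.sum_prod_type]
  simp

/-- the solutions -/
lemma finrank_ker_bM (c : κ → ι → J → ℤ) (s : J → Q) :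
    Module.finrank ℂ (LinearMap.ker ((bM c s).map (Int.cast : ℤ → ℂ)).mulVecLin) = Module.finrank ℂ (SolQ ℂ c s) := by
  have h1 : (LinearMap.ker ((bM c s).map (Int.cast : ℤ → ℂ)).mulVecLin) =
      (SolQ ℂ c s).comap (LinearEquiv.curry ℂ ℂ Q ι).toLinearMap := by
    ext f
    rw [LinearMap.mem_ker, Submodule.mem_comap, mulVecLin_apply]
    show _ ↔ ∀ g k, ∑ i, ∑ j, (c k i j : ℂ) * f (g * s j, i) = 0
    rw [funext_iff, Prod.forall]
    refine forall_congr' fun g => forall_congr' fun k => ?_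
    have h2 : (((bM c s).map (Int.cast : ℤ → ℂ)) *ᵥ f) (g, k) = ∑ i, ∑ j, (c k i j : ℂ) * f (g * s j, i) := by
      simp only [mulVec, dotProduct, map_apply, bM]
      push_cast
      rw [Fintype.sum_prod_type, Finset.sum_comm]
      refine Finset.sum_congr rfl fun i _ => ?_
      simp only [Finset.sum_mul]
      rw [Finset.sum_comm]
      refine Finset.sum_congr rfl fun j _ => ?_
      simp only [ite_mul, zero_mul]
      rw [Finset.sum_ite_eq]
      simp
    rw [h2]
    rfl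
  rw [h1]
  exact LinearEquiv.finrank_eq ((LinearEquiv.curry ℂ ℂ Q ι).ofSubmodule' (SolQ ℂ c s))

/-- row sums -/
lemma row_sum_le (c : κ → ι → J → ℤ) (s : J → Q) (x : Q × ι) :
    ∑ y, ‖(((bM c s).map (Int.cast : ℤ → ℂ))ᴴ * (bM c s).map (Int.cast : ℤ → ℂ)) x y‖ ≤
      (∑ k, ∑ i, ∑ j, ‖(c k i j : ℂ)‖) * (∑ k, ∑ i, ∑ j, ‖(c k i j : ℂ)‖) := by
  have h1 : ∀ z : Q × κ, ∑ y, ‖((bM c s).map (Int.cast : ℤ → ℂ)) z y‖ ≤ ∑ k, ∑ i, ∑ j, ‖(c k i j : ℂ)‖ := by
    intro z
    have h2 : ∑ y, ‖((bM c s).map (Int.cast : ℤ → ℂ)) z y‖ ≤ ∑ i, ∑ j, ‖(c z.2 i j : ℂ)‖ := by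
      rw [Fintype.sum_prod_type, Finset.sum_comm]
      refine Finset.sum_le_sum fun i _ => ?_
      have h3 : ∀ q : Q, ‖((bM c s).map (Int.cast : ℤ → ℂ)) z (q, i)‖ ≤
          ∑ j, if z.1 * s j = q then ‖(c z.2 i j : ℂ)‖ else 0 := by
        intro q
        simp only [map_apply, bM]
        push_cast
        refine (norm_sum_le _ _).trans (Finset.sum_le_sum fun j _ => ?_)
        split_ifs <;> simp
      refine (Finset.sum_le_sum fun q _ => h3 q).trans (le_of_eq ?_)
      rw [Finset.sum_comm]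
      refine Finset.sum_congr rfl fun j _ => ?_
      rw [Finset.sum_ite_eq]
      simp
    refine h2.trans ?_
    exact Finset.single_le_sum (f := fun k => ∑ i, ∑ j, ‖(c k i j : ℂ)‖)
      (fun k _ => Finset.sum_nonneg fun i _ => Finset.sum_nonneg fun j _ => norm_nonneg _) (Finset.mem_univ z.2)
  have h4 : ∑ z, ‖((bM c s).map (Int.cast : ℤ → ℂ)) z x‖ ≤ ∑ k, ∑ i, ∑ j, ‖(c k i j : ℂ)‖ := by
    rw [Fintype.sum_prod_type, Finset.sum_comm]
    refine Finset.sum_le_sum fun k _ => ?_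
    have h3 : ∀ q : Q, ‖((bM c s).map (Int.cast : ℤ → ℂ)) (q, k) x‖ ≤
        ∑ j, if q = x.1 * (s j)⁻¹ then ‖(c k x.2 j : ℂ)‖ else 0 := by
      intro q
      simp only [map_apply, bM]
      push_cast
      refine (norm_sum_le _ _).trans (Finset.sum_le_sum fun j _ => ?_)
      by_cases h : q * s j = x.1
      · rw [if_pos h, if_pos (by rw [← h]; simp)]
      · rw [if_neg h]
        split_ifs <;> simp
    refine (Finset.sum_le_sum fun q _ => h3 q).trans ?_
    rw [Finset.sum_comm]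
    have h5 : ∑ j, ∑ q : Q, (if q = x.1 * (s j)⁻¹ then ‖(c k x.2 j : ℂ)‖ else 0) = ∑ j, ‖(c k x.2 j : ℂ)‖ := by
      refine Finset.sum_congr rfl fun j _ => ?_
      rw [Finset.sum_ite_eq']
      simp
    rw [h5]
    exact Finset.single_le_sum (f := fun i => ∑ j, ‖(c k i j : ℂ)‖)
      (fun i _ => Finset.sum_nonneg fun j _ => norm_nonneg _) (Finset.mem_univ x.2)
  calc ∑ y, ‖(((bM c s).map (Int.cast : ℤ → ℂ))ᴴ * (bM c s).map (Int.cast : ℤ → ℂ)) x y‖
      ≤ ∑ y, ∑ z, ‖((bM c s).map (Int.cast : ℤ → ℂ)) z x‖ * ‖((bM c s).map (Int.cast : ℤ → ℂ)) z y‖ := by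
        refine Finset.sum_le_sum fun y _ => ?_
        rw [Matrix.mul_apply]
        refine (norm_sum_le _ _).trans (le_of_eq ?_)
        refine Finset.sum_congr rfl fun z _ => ?_
        rw [norm_mul, conjTranspose_apply, norm_star]
    _ = ∑ z, ‖((bM c s).map (Int.cast : ℤ → ℂ)) z x‖ * ∑ y, ‖((bM c s).map (Int.cast : ℤ → ℂ)) z y‖ := by
        rw [Finset.sum_comm]
        refine Finset.sum_congr rfl fun z _ => ?_
        rw [Finset.mul_sum]
    _ ≤ ∑ z, ‖((bM c s).map (Int.cast : ℤ → ℂ)) z x‖ * ∑ k, ∑ i, ∑ j, ‖(c k i j : ℂ)‖ :=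
        Finset.sum_le_sum fun z _ => mul_le_mul_of_nonneg_left (h1 z) (norm_nonneg _)
    _ = (∑ z, ‖((bM c s).map (Int.cast : ℤ → ℂ)) z x‖) * ∑ k, ∑ i, ∑ j, ‖(c k i j : ℂ)‖ := by rw [Finset.sum_mul]
    _ ≤ _ := mul_le_mul_of_nonneg_right h4
        (Finset.sum_nonneg fun k _ => Finset.sum_nonneg fun i _ => Finset.sum_nonneg fun j _ => norm_nonneg _)

end fin

/-- Lück approximation, upper bound: for every `ε` there is a finite set `S` of nontrivial elements such that for every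
homomorphism `π` to a finite group which is nontrivial on all elements of `S` : `(dim - ε) |Q| ≤ dim of the solutions on Q` -/
theorem luck {Γ : Type} [Group Γ] {κ ι J : Type} [Fintype κ] [Fintype ι] [DecidableEq ι] [Fintype J]
    (c : κ → ι → J → ℤ) (s : J → Γ) (W : Submodule ℂ (E Γ ι)) (hW : (W : Set (E Γ ι)) = SolL c s) (ε : ℝ) (hε : 0 < ε) :
    ∃ S : Finset Γ, 1 ∉ S ∧ ∀ (Q : Type) [Group Q] [Fintype Q] (π : Γ →* Q), (∀ g ∈ S, π g ≠ 1) →
      (vdim W - ε) * Fintype.card Q ≤ Module.finrank ℂ (SolQ (Q := Q) ℂ c (fun j => π (s j))) := by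
  classical
  obtain ⟨C1, hC1⟩ : ∃ C1, C1 = ∑ k, ∑ i, ∑ j, ‖(c k i j : ℂ)‖ := ⟨_, rfl⟩
  have hC10 : 0 ≤ C1 := by
    rw [hC1]
    exact Finset.sum_nonneg fun k _ => Finset.sum_nonneg fun i _ => Finset.sum_nonneg fun j _ => norm_nonneg _
  obtain ⟨C, hC⟩ : ∃ C, C = 1 + C1 * C1 := ⟨_, rfl⟩
  have hC0 : 1 ≤ C := by
    rw [hC]
    nlinarith [mul_nonneg hC10 hC10]
  -- the choice of `e`
  obtain ⟨e, he, he1, he2⟩ : ∃ e : ℝ, 0 < e ∧ e < 1 ∧ Fintype.card ι * (Real.log C / (- Real.log e)) ≤ ε / 2 := by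
    have hL : 0 ≤ Real.log C := Real.log_nonneg hC0
    obtain ⟨L, hLdef⟩ : ∃ L : ℝ, L = Fintype.card ι * Real.log C / (ε / 2) + 1 := ⟨_, rfl⟩
    have hL1 : 0 < L := by
      rw [hLdef]
      positivity
    refine ⟨Real.exp (-L), Real.exp_pos _, by rw [Real.exp_lt_one_iff]; linarith, ?_⟩
    rw [Real.log_exp, neg_neg, ← mul_div_assoc, div_le_iff₀ hL1, hLdef, mul_add, mul_div_cancel₀ _ (by positivity)]
    linarith
  obtain ⟨N, hN⟩ : ∃ N : ℕ, Fintype.card ι * (1 - e / C) ^ (2 * N) ≤ ε / 2 := by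
    have h0 : 0 ≤ 1 - e / C := by
      have : e / C ≤ 1 := (div_le_one (by linarith)).2 (by linarith)
      linarith
    have h1 : 1 - e / C < 1 := by
      have : 0 < e / C := div_pos he (by linarith)
      linarith
    have h2 : Tendsto (fun N : ℕ => (Fintype.card ι : ℝ) * (1 - e / C) ^ (2 * N)) atTop (𝓝 (Fintype.card ι * 0)) := by
      refine Tendsto.const_mul _ ?_
      exact (tendsto_pow_atTop_nhds_zero_of_lt_one h0 h1).comp (tendsto_id.const_mul_atTop' (by norm_num : 0 < 2))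
    rw [mul_zero] at h2
    exact ((tendsto_order.1 h2).2 (ε / 2) (by positivity)).exists.imp fun N h => h.le
  obtain ⟨a, ha⟩ : ∃ a : ℂ, a = ((C⁻¹ : ℝ) : ℂ) := ⟨_, rfl⟩
  obtain ⟨w, hw⟩ : ∃ w : ι → (Γ × ι →₀ ℂ), w = fun i => (tF a c s ^ N) (Finsupp.single ((1 : Γ), i) 1) := ⟨_, rfl⟩
  obtain ⟨F, hF⟩ : ∃ F : Finset Γ, F = Finset.univ.biUnion fun i => (w i).support.image Prod.fst := ⟨_, rfl⟩
  refine ⟨((F ×ˢ F).image fun x => x.1⁻¹ * x.2).erase 1, by simp, fun Q _ _ π hπ => ?_⟩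
  have hinj : Set.InjOn π F := by
    intro g hg h hh hgh
    by_contra hne
    refine hπ (g⁻¹ * h) ?_ (by rw [map_mul, map_inv, hgh, inv_mul_cancel])
    rw [Finset.mem_erase]
    refine ⟨fun h1 => hne (inv_mul_eq_one.1 h1), ?_⟩
    rw [Finset.mem_image]
    exact ⟨(g, h), Finset.mem_product.2 ⟨hg, hh⟩, rfl⟩
  have h1 : vdim W ≤ ∑ i, sqs (w i) := by
    rw [hw]
    exact vdim_le_sqs c s W hW a N
  have h2 : ∀ i, sqs ((tF a c (fun j => π (s j)) ^ N) (Finsupp.single ((1 : Q), i) 1)) = sqs (w i) := by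
    intro i
    have h3 := map_tF_pow a c s (fun j => π (s j)) π (fun g j => by rw [map_mul]) (fun g j => by rw [map_mul, map_inv]) N
      (Finsupp.single ((1 : Γ), i) 1)
    rw [Finsupp.mapDomain_single] at h3
    have h4 : Prod.map π id ((1 : Γ), i) = ((1 : Q), i) := by simp
    rw [h4] at h3
    rw [← h3, hw]
    refine sqs_mapDomain _ _ ?_
    intro x hx y hy hxy
    have hx' : x.1 ∈ F := by
      rw [hF, Finset.mem_biUnion]
      exact ⟨i, Finset.mem_univ _, Finset.mem_image_of_mem _ (by rw [hw]; exact hx)⟩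
    have hy' : y.1 ∈ F := by
      rw [hF, Finset.mem_biUnion]
      exact ⟨i, Finset.mem_univ _, Finset.mem_image_of_mem _ (by rw [hw]; exact hy)⟩
    have h5 := congrArg Prod.fst hxy
    have h6 := congrArg Prod.snd hxy
    simp only [Prod.map_fst, Prod.map_snd, id_eq] at h5 h6
    exact Prod.ext (hinj hx' hy' h5) h6
  have h5 := sum_sq_eq a c (fun j => π (s j)) N
  have h6 := mat_bound (bM c (fun j => π (s j))) hC0 (fun x => (row_sum_le c (fun j => π (s j)) x).trans
    (by rw [← hC1, hC]; linarith)) he he1 N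
  rw [← ha, h5, finrank_ker_bM, Fintype.card_prod] at h6
  rw [Finset.sum_congr rfl fun i _ => h2 i] at h6
  have hQ : (0 : ℝ) ≤ Fintype.card Q := Nat.cast_nonneg _
  have h7 : vdim W * Fintype.card Q ≤ Fintype.card Q * ∑ i, sqs (w i) := by
    rw [mul_comm]
    exact mul_le_mul_of_nonneg_left h1 hQ
  have h8 := mul_le_mul_of_nonneg_left he2 hQ
  have h9 := mul_le_mul_of_nonneg_left hN hQ
  push_cast at h6
  nlinarith

end Ord
end Singer
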