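import Pool.Agent.Singer.Ord.Step
import Pool.Agent.Singer.Ord.Cell
import Pool.Agent.Singer.Ord.Form

/-!
# Singer/Ord: the quadratic form is non-degenerate (module A4)
-/

set_option autoImplicit false
set_option linter.unusedSectionVars false
set_option linter.unusedVariables false

namespace Singer
namespace Ord

section A
variable {P : Type} [Fintype P] [PartialOrder P] {F : Type} [Field F] {r : P → ℕ} {o : P} {x : P → F}

/-- `VV q` : exactness below the top degree for all elements of rank smaller than the rank of `q`, and full exactness for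
even ranks -/
def VV (r : P → ℕ) (x : P → F) (N : ℕ) : Prop :=
  ∀ s, r s < N → ∀ m i, (r s = 2 * m + 1 ∧ i < m) ∨ (r s = 2 * m + 2 ∧ i ≤ m + 1) → Ex r x s (r s / 2) i

namespace Nd

/-- the vertices of a state -/
def un {P : Type*} : List (St P) → List P
  | [] => []
  | .v u :: e => u :: un e
  | .c0 :: e => un e
  | .c1 :: e => un e

theorem un_fl {P : Type*} : ∀ τ : List P, un (fl τ) = τ
  | [] => rfl
  | u :: τ => by
    show u :: un (fl τ) = u :: τ
    rw [un_fl τ]

theorem deg_le : ∀ (m : ℕ) (s : P) (e : List (St P)), Val r s m e → deg e ≤ m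
  | 0, s, e, h => by
    have : e = [] := h
    subst this
    exact le_rfl
  | m + 1, s, [], h => by
    exact absurd h (by simp [Val])
  | m + 1, s, .c0 :: e, h => by
    have := deg_le m s e h
    show deg e ≤ m + 1
    omega
  | m + 1, s, .c1 :: e, h => by
    have := deg_le m s e h
    show deg e ≤ m + 1
    omega
  | m + 1, s, .v u :: e, h => by
    have := deg_le m u e h.2.2
    show deg e + 1 ≤ m + 1
    omega

theorem full : ∀ (m : ℕ) (s : P) (e : List (St P)), Val r s m e → deg e = m → ∃ τ, e = fl τ ∧ Fo r s m τ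
  | 0, s, e, h, _ => ⟨[], h, rfl⟩
  | m + 1, s, [], h, _ => by
    exact absurd h (by simp [Val])
  | m + 1, s, .c0 :: e, h, h2 => by
    have h3 := deg_le m s e h
    have h4 : deg e = m + 1 := h2
    omega
  | m + 1, s, .c1 :: e, h, h2 => by
    have h3 := deg_le m s e h
    have h4 : deg e = m + 1 := h2
    omega
  | m + 1, s, .v u :: e, h, h2 => by
    have h4 : deg e + 1 = m + 1 := h2
    obtain ⟨τ, h5, h6⟩ := full m u e h.2.2 (by omega)
    exact ⟨u :: τ, by rw [h5]; rfl, h.1, h.2.1, h6⟩

theorem val_mono : ∀ (m : ℕ) {s t : P} (hst : s ≤ t) (e : List (St P)), Val r s m e → Val r t m e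
  | 0, s, t, _, e, h => h
  | m + 1, s, t, _, [], h => by
    exact absurd h (by simp [Val])
  | m + 1, s, t, hst, .c0 :: e, h => val_mono m hst e h
  | m + 1, s, t, hst, .c1 :: e, h => val_mono m hst e h
  | m + 1, s, t, hst, .v u :: e, h => ⟨h.1.trans hst, h.2.1, h.2.2⟩

theorem dd_add (x : P → F) : ∀ (e : List (St P)) (φ ψ : List (St P) → F),
    dd x (fun e => φ e + ψ e) e = dd x φ e + dd x ψ e
  | [], φ, ψ => by simp [dd]
  | .c0 :: e, φ, ψ => dd_add x e (fun e' => φ (.c0 :: e')) (fun e' => ψ (.c0 :: e'))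
  | .c1 :: e, φ, ψ => dd_add x e (fun e' => φ (.c1 :: e')) (fun e' => ψ (.c1 :: e'))
  | .v u :: e, φ, ψ => by
    have := dd_add x e (fun e' => φ (.v u :: e')) (fun e' => ψ (.v u :: e'))
    show (φ (.c0 :: e) + ψ (.c0 :: e)) + x u * (φ (.c1 :: e) + ψ (.c1 :: e)) +
      dd x (fun e' => φ (.v u :: e') + ψ (.v u :: e')) e =
      (φ (.c0 :: e) + x u * φ (.c1 :: e) + dd x (fun e' => φ (.v u :: e')) e) +
      (ψ (.c0 :: e) + x u * ψ (.c1 :: e) + dd x (fun e' => ψ (.v u :: e')) e)
    rw [this]
    ring

theorem ps_add : ∀ (m : ℕ) (s : P) (g h : List P → F) (τ : List P), Fo r s m τ →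
    ps r s m (fun ε => g ε + h ε) τ = ps r s m g τ + ps r s m h τ
  | 0, s, g, h, τ, _ => rfl
  | m + 1, s, g, h, [], hτ => by
    exact absurd hτ (by simp [Fo])
  | m + 1, s, g, h, u :: τ, hτ => by
    show ∑ y ∈ _, ps r u m (fun ε => g (y :: ε) + h (y :: ε)) τ = (∑ y ∈ _, ps r u m (fun ε => g (y :: ε)) τ) +
      ∑ y ∈ _, ps r u m (fun ε => h (y :: ε)) τ
    rw [← Finset.sum_add_distrib]
    exact Finset.sum_congr rfl fun y _ => ps_add m u _ _ τ hτ.2.2

theorem ex_raise [CharP F 2] (hG : Gor F r o) {t : P} {i : ℕ} {k : ℕ} (hk : r t ≤ 2 * k + 1) (h : Ex r x t k i)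
    (d : ℕ) : Ex r x t (k + d) i := by
  induction d with
  | zero => exact h
  | succ d ih => exact ex_succ (m := k + d) hG (by omega) ih

theorem tt_down [CharP F 2] (hG : Gor F r o) {s : P} {m : ℕ} (hs : r s = 2 * m + 3) (hV : VV r x (r s)) :
    ∀ i, i + 1 ≤ m → TT r x s (m + 1) (i + m + 1) i := by
  have key : ∀ i, i + 1 ≤ m → ∀ t, t ≤ s → r t = i + m + 1 → Ex r x t (m + 1) i := by
    intro i hi t ht htr
    have h1 : Ex r x t (r t / 2) i := by
      obtain ⟨l, hl | hl⟩ := Nat.even_or_odd' (r t)
      · exact hV t (by omega) (l - 1) i (Or.inr (by omega))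
      · exact hV t (by omega) l i (Or.inl (by omega))
    have h2 := ex_raise hG (by omega) h1 (m + 1 - r t / 2)
    have h3 : r t / 2 + (m + 1 - r t / 2) = m + 1 := by omega
    rwa [h3] at h2
  intro i
  induction i with
  | zero =>
    intro hi
    exact TT_of hG (by omega) (key 0 hi) (fun j' i' _ h => by omega)
  | succ i ih =>
    intro hi
    refine TT_of hG (by omega) (key (i + 1) hi) (fun j' i' hj hi' => ?_)
    have h1 : i' = i := by omega
    have h2 : j' = i + m + 1 := by omega
    subst h1 h2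
    exact ih (by omega)

open Classical in
theorem dl_two (hG : StrictMono r) {u s y y' : P} (hus : r s = r u + 2) (hne : y ≠ y')
    (hy : ∀ w, (u < w ∧ w < s) ↔ (w = y ∨ w = y')) :
    Finset.univ.filter (fun w => u < w ∧ w ≤ s ∧ r w = r u + 1) = {y, y'} := by
  ext w
  simp only [Finset.mem_filter, Finset.mem_univ, true_and, Finset.mem_insert, Finset.mem_singleton]
  rw [← hy w]
  constructor
  · rintro ⟨h1, h2, h3⟩
    refine ⟨h1, lt_of_le_of_ne h2 ?_⟩
    rintro rfl
    omega
  · rintro ⟨h1, h2⟩
    have h3 := hG h1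
    have h4 := hG h2
    exact ⟨h1, h2.le, by omega⟩

end Nd

open Classical in
theorem nondeg [CharP F 2] (hG : Gor F r o) {s : P} {m : ℕ} (hs : r s = 2 * m + 1) (hV : VV r x (r s))
    {a g : List P → F} (h : Comp r x s m a g) (h0 : ∀ τ, Fo r s m τ → ps r s m g τ = 0) : FCob r x s m a := by
  induction m generalizing s a g with
  | zero =>
    refine ⟨fun _ => 0, fun τ hτ => ?_⟩
    have h1 : τ = [] := hτ
    subst h1
    have h2 : a [] = g [] := h
    have h3 : g [] = 0 := h0 [] rfl
    show (0 : F) = a []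
    rw [h2, h3]
  | succ m ih =>
    have hex : ∀ y, ∃ η : List (St P) → F, y ≤ s → r y = 2 * m + 2 →
        (∀ τ, Fo r y (m + 1) τ → dd x η (fl τ) = a τ) ∧
        Comp r x y m (fun τ => η (.c1 :: fl τ)) (fun ε => g (y :: ε)) := by
      intro y
      by_cases hy : y ≤ s ∧ r y = 2 * m + 2
      · obtain ⟨η, h1, h2⟩ := h y hy.1 hy.2
        exact ⟨η, fun _ _ => ⟨h1, h2⟩⟩
      · exact ⟨fun _ => 0, fun h1 h2 => absurd ⟨h1, h2⟩ hy⟩
    choose η hη using hex
    have hφ : (fun τ => a (Nd.un (fl τ))) = a := by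
      funext τ
      rw [Nd.un_fl]
    have hgoal : Cob r x s (m + 1) (m + 1) (fun e => a (Nd.un e)) := by
      refine cob_of_glue hG (N := 2 * m + 1) (by omega) (by omega) ?_ η ?_ ?_
      · intro j' i' hj hi
        have h1 : j' = i' + m + 1 := by omega
        rw [h1]
        exact Nd.tt_down hG (by omega) hV i' (by omega)
      · intro y hy hyr e he hd
        obtain ⟨τ, h1, h2⟩ := Nd.full (m + 1) y e he hd
        rw [h1]
        show _ = a (Nd.un (fl τ))
        rw [Nd.un_fl]
        exact (hη y hy hyr).1 τ h2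
      · intro u hu hur
        have hus : u < s := lt_of_le_of_ne hu (by rintro rfl; omega)
        obtain ⟨y, y', hne, hyy⟩ := hG.thin u s hus (by omega)
        have hset := Nd.dl_two hG.mono (by omega) hne hyy
        have hdl : ∀ f : P → F, dl r s f u = f y + f y' := by
          intro f
          unfold dl
          rw [hset]
          exact Finset.sum_pair hne
        have hy1 : u < y ∧ y < s := (hyy y).2 (Or.inl rfl)
        have hy2 : u < y' ∧ y' < s := (hyy y').2 (Or.inr rfl)
        have hr1 : r y = 2 * m + 2 := by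
          have h1 := hG.mono hy1.1
          have h2 := hG.mono hy1.2
          omega
        have hr2 : r y' = 2 * m + 2 := by
          have h1 := hG.mono hy2.1
          have h2 := hG.mono hy2.2
          omega
        have hfun : (fun e => dl r s (fun y => η y e) u) = fun e => η y e + η y' e := by
          funext e
          exact hdl _
        rw [hfun]
        refine cob_succ hG hur ?_ ?_
        · intro e he hd
          rw [Nd.dd_add]
          obtain ⟨τ, h1, h2⟩ := Nd.full (m + 1) u e he hd
          subst h1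
          have h3 : Fo r y (m + 1) τ := by
            obtain ⟨τ', h4, h5⟩ := Nd.full (m + 1) y (fl τ) (Nd.val_mono (m + 1) hy1.1.le _ he) hd
            have h6 : τ = τ' := by rw [← Nd.un_fl τ, h4, Nd.un_fl]
            rwa [h6]
          have h3' : Fo r y' (m + 1) τ := by
            obtain ⟨τ', h4, h5⟩ := Nd.full (m + 1) y' (fl τ) (Nd.val_mono (m + 1) hy2.1.le _ he) hd
            have h6 : τ = τ' := by rw [← Nd.un_fl τ, h4, Nd.un_fl]
            rwa [h6]
          rw [(hη y hy1.2.le hr1).1 τ h3, (hη y' hy2.2.le hr2).1 τ h3']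
          exact CharTwo.add_self_eq_zero _
        · refine cob_iff_fcob.2 ?_
          have hc1 := comp_mono (s := u) hy1.1.le (hη y hy1.2.le hr1).2
          have hc2 := comp_mono (s := u) hy2.1.le (hη y' hy2.2.le hr2).2
          have hVu : VV r x (r u) := fun t ht => hV t (by omega)
          refine ih hur hVu (comp_add hc1 hc2) ?_
          intro τ hτ
          rw [Nd.ps_add m u _ _ τ hτ]
          have h4 := h0 (u :: τ) ⟨hu, hur, hτ⟩
          have h5 : ps r s (m + 1) g (u :: τ) = ∑ w ∈ Finset.univ.filter (fun w => u ≤ w ∧ w ≤ s ∧ r w = 2 * m + 2),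
              ps r u m (fun ε => g (w :: ε)) τ := rfl
          have h6 : Finset.univ.filter (fun w => u ≤ w ∧ w ≤ s ∧ r w = 2 * m + 2) = {y, y'} := by
            rw [← hset]
            refine Finset.filter_congr fun w _ => ?_
            constructor
            · rintro ⟨h7, h8, h9⟩
              exact ⟨lt_of_le_of_ne h7 (by rintro rfl; omega), h8, by omega⟩
            · rintro ⟨h7, h8, h9⟩
              exact ⟨h7.le, h8, by omega⟩
          rw [h5, h6, Finset.sum_pair hne] at h4
          exact h4
    have h9 := cob_iff_fcob.1 hgoal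
    rwa [hφ] at h9

end A

end Ord
end Singer
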