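import Pool.Agent.Singer.Ord.PolyA
import Pool.Agent.Singer.Ord.Indep
import Pool.Agent.Singer.Ord.CyMod

/-!
# Singer/Ord: Theorem U in the matrix form

`vdim_Cy_le_poly` : polynomial matrices `S v` over `F_2`, which are involutions, commute for adjacent vertices, and
whose constant terms commute for all pairs of vertices, give an upper bound of the dimension of the cycles.
-/

set_option autoImplicit false
set_option linter.unusedSectionVars false
set_option linter.unusedVariables false

namespace Singer
namespace Ord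

section sys
variable {V : Type} [Fintype V] [DecidableEq V] {D : Type} [Fintype D] [DecidableEq D]

open Classical in
/-- the matrix of the linear system of the cycles -/
noncomputable def sysMat {R0 : Type*} [CommRing R0] (G : SimpleGraph V) (S : V → Matrix D D R0) (i : ℕ) :
    Matrix ((Finset V × D) ⊕ (Finset V × V × D) ⊕ (Finset V × D)) (Finset V × D) R0 := fun k j =>
  match k with
  | .inl (A, d) => if ¬ (G.IsClique A ∧ A.card = i) ∧ j = (A, d) then 1 else 0
  | .inr (.inl (A, v, d)) => if v ∈ A ∧ j.1 = A then S v d j.2 - (if j.2 = d then 1 else 0) else 0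
  | .inr (.inr (A, d)) => ∑ v ∈ Aᶜ, if j = (insert v A, d) then 1 else 0

/-- solutions of the system are cycles -/
theorem mem_sys_iff {R0 R F : Type*} [CommRing R0] [CommRing R] [CommRing F] [Algebra F R] (G : SimpleGraph V)
    (S : V → Matrix D D R0) (i : ℕ) (φ : R0 →+* R) (z : Finset V → D → R) :
    (∀ k, ∑ j, φ (sysMat G S i k j) * z j.1 j.2 = 0) ↔
      z ∈ ZM G (fun v => (Matrix.toLin' ((S v).map φ)).restrictScalars F) i := by
  classical
  have h1 : ∀ A d, ∑ j : Finset V × D, φ (sysMat G S i (.inl (A, d)) j) * z j.1 j.2 =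
      if ¬ (G.IsClique A ∧ A.card = i) then z A d else 0 := by
    intro A d
    by_cases hA : ¬ (G.IsClique A ∧ A.card = i)
    · rw [if_pos hA, Finset.sum_eq_single (A, d)]
      · simp [sysMat, hA]
      · intro j _ hj
        simp [sysMat, hj]
      · simp
    · rw [if_neg hA]
      refine Finset.sum_eq_zero fun j _ => ?_
      simp only [sysMat, hA, false_and, if_false, map_zero, zero_mul]
  have h2 : ∀ A v d, ∑ j : Finset V × D, φ (sysMat G S i (.inr (.inl (A, v, d))) j) * z j.1 j.2 =
      if v ∈ A then (Matrix.toLin' ((S v).map φ)) (z A) d - z A d else 0 := by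
    intro A v d
    by_cases hv : v ∈ A
    · rw [if_pos hv, Fintype.sum_prod_type, Finset.sum_eq_single A]
      · simp only [sysMat, hv, true_and, if_true, map_sub, sub_mul, Finset.sum_sub_distrib]
        congr 1
        rw [Finset.sum_eq_single d]
        · simp
        · intro d' _ hd'
          simp [hd']
        · simp
      · intro A' _ hA'
        refine Finset.sum_eq_zero fun d' _ => ?_
        simp [sysMat, hA']
      · simp
    · rw [if_neg hv]
      refine Finset.sum_eq_zero fun j _ => ?_
      simp [sysMat, hv]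
  have h3 : ∀ A d, ∑ j : Finset V × D, φ (sysMat G S i (.inr (.inr (A, d))) j) * z j.1 j.2 =
      ∑ v ∈ Aᶜ, z (insert v A) d := by
    intro A d
    simp only [sysMat, map_sum, Finset.sum_mul]
    rw [Finset.sum_comm]
    refine Finset.sum_congr rfl fun v _ => ?_
    rw [Finset.sum_eq_single (insert v A, d)]
    · simp
    · intro j _ hj
      simp [hj]
    · simp
  constructor
  · intro h
    refine ⟨fun A hA => ?_, fun A v hv => ?_, fun A => ?_⟩
    · funext d
      have := h (.inl (A, d))
      rw [h1, if_pos hA] at this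
      exact this
    · funext d
      have := h (.inr (.inl (A, v, d)))
      rw [h2, if_pos hv, sub_eq_zero] at this
      exact this
    · funext d
      have := h (.inr (.inr (A, d)))
      rw [h3] at this
      rw [Finset.sum_apply]
      exact this
  · rintro ⟨k1, k2, k3⟩ (⟨A, d⟩ | ⟨A, v, d⟩ | ⟨A, d⟩)
    · rw [h1]
      by_cases hA : ¬ (G.IsClique A ∧ A.card = i)
      · rw [if_pos hA, k1 A hA]
        rfl
      · rw [if_neg hA]
    · rw [h2]
      split_ifs with hv
      · rw [sub_eq_zero]
        exact congrFun (k2 A v hv) d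
      · rfl
    · rw [h3]
      have := congrFun (k3 A) d
      rw [Finset.sum_apply] at this
      exact this

end sys

/-! ### The group -/

section grp
variable {V : Type} {G : SimpleGraph V} {D : Type} [Fintype D] [DecidableEq D]

/-- a power of two of `1 + a` in characteristic two -/
theorem one_add_pow_two_pow {A : Type*} [Ring A] (h2 : (2 : A) = 0) (a : A) (m : ℕ) :
    (1 + a) ^ 2 ^ m = 1 + a ^ 2 ^ m := by
  induction m with
  | zero => simp
  | succ m ih =>
    rw [pow_succ, pow_mul, ih, pow_mul]
    have : (1 + a ^ 2 ^ m) ^ 2 = 1 + 2 * a ^ 2 ^ m + (a ^ 2 ^ m) ^ 2 := by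
      noncomm_ring
    rw [this, h2, zero_mul, add_zero]

/-- the homomorphism of the group to the invertible matrices -/
noncomputable def theta {R : Type*} [CommRing R] (M : V → Matrix D D R) (h1 : ∀ v, M v * M v = 1)
    (hc : ∀ u v, G.Adj u v → M u * M v = M v * M u) : RACG G →* (Matrix D D R)ˣ :=
  Racg.lift (fun v => ⟨M v, M v, h1 v, h1 v⟩) (fun v => Units.ext (h1 v)) fun u v h => Units.ext (hc u v h)

theorem theta_gen {R : Type*} [CommRing R] (M : V → Matrix D D R) (h1 : ∀ v, M v * M v = 1)
    (hc : ∀ u v, G.Adj u v → M u * M v = M v * M u) (v : V) :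
    ((theta M h1 hc (Racg.gen G v) : (Matrix D D R)ˣ) : Matrix D D R) = M v := by
  unfold theta
  rw [Racg.lift_gen]

/-- if the images of the generators commute, then all elements of the image are involutions -/
theorem theta_sq {R R' : Type*} [CommRing R] [CommRing R'] (M : V → Matrix D D R) (h1 : ∀ v, M v * M v = 1)
    (hc : ∀ u v, G.Adj u v → M u * M v = M v * M u) (ψ : R →+* R')
    (h0 : ∀ u v, (M u).map ψ * (M v).map ψ = (M v).map ψ * (M u).map ψ) (g : RACG G) :
    ((theta M h1 hc g : (Matrix D D R)ˣ) : Matrix D D R).map ψ * ((theta M h1 hc g : (Matrix D D R)ˣ) : Matrix D D R).map ψ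
      = 1 := by
  have key : (∀ v, ((theta M h1 hc g : (Matrix D D R)ˣ) : Matrix D D R).map ψ * (M v).map ψ =
      (M v).map ψ * ((theta M h1 hc g : (Matrix D D R)ˣ) : Matrix D D R).map ψ) ∧
      ((theta M h1 hc g : (Matrix D D R)ˣ) : Matrix D D R).map ψ *
        ((theta M h1 hc g : (Matrix D D R)ˣ) : Matrix D D R).map ψ = 1 := by
    induction g using Racg.induction with
    | h1 =>
      have h : ((theta M h1 hc (1 : RACG G) : (Matrix D D R)ˣ) : Matrix D D R).map ψ = 1 := by
        rw [map_one, Units.val_one, Matrix.map_one _ ψ.map_zero ψ.map_one]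
      rw [h]
      exact ⟨fun v => by rw [one_mul, mul_one], one_mul 1⟩
    | hm v w ih =>
      obtain ⟨ih1, ih2⟩ := ih
      have h : ((theta M h1 hc (Racg.gen G v * w) : (Matrix D D R)ˣ) : Matrix D D R).map ψ =
          (M v).map ψ * ((theta M h1 hc w : (Matrix D D R)ˣ) : Matrix D D R).map ψ := by
        rw [map_mul, Units.val_mul, theta_gen, Matrix.map_mul]
      have h' : (M v).map ψ * (M v).map ψ = 1 := by
        rw [← Matrix.map_mul, h1, Matrix.map_one _ ψ.map_zero ψ.map_one]
      rw [h]
      generalize ((theta M h1 hc w : (Matrix D D R)ˣ) : Matrix D D R).map ψ = P at ih1 ih2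
      refine ⟨fun u => ?_, ?_⟩
      · rw [mul_assoc, ih1, ← mul_assoc, h0 v u, mul_assoc]
      · calc (M v).map ψ * P * ((M v).map ψ * P) = (M v).map ψ * (P * (M v).map ψ) * P := by
              simp only [mul_assoc]
          _ = ((M v).map ψ * (M v).map ψ) * (P * P) := by rw [ih1 v]; simp only [mul_assoc]
          _ = 1 := by rw [h', ih2, one_mul]
  exact key.2

end grp

/-- substitution of powers of one variable -/
noncomputable def subst {J : Type} (e : J → ℕ) : MvPolynomial J (ZMod 2) →+* Polynomial (ZMod 2) :=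
  (MvPolynomial.aeval (fun j => (Polynomial.X : Polynomial (ZMod 2)) ^ e j)).toRingHom

theorem exists_subst {J : Type} [Finite J] (δ : MvPolynomial J (ZMod 2)) (hδ : δ ≠ 0) :
    ∃ e : J → ℕ, (∀ j, 1 ≤ e j) ∧ subst e δ ≠ 0 := by
  by_contra hcon
  push Not at hcon
  apply hδ
  have hinj : Function.Injective (MvPolynomial.map (σ := J) (algebraMap (ZMod 2) (Polynomial (ZMod 2)))) :=
    MvPolynomial.map_injective _ (algebraMap (ZMod 2) (Polynomial (ZMod 2))).injective
  apply hinj
  rw [map_zero]
  refine MvPolynomial.funext_set (fun _ => {p | ∃ n : ℕ, 1 ≤ n ∧ p = (Polynomial.X : Polynomial (ZMod 2)) ^ n}) ?_ ?_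
  · intro _
    have h1 : Function.Injective (fun n : ℕ => (Polynomial.X : Polynomial (ZMod 2)) ^ (n + 1)) := by
      intro a b hab
      have := congrArg Polynomial.natDegree hab
      simp only [Polynomial.natDegree_X_pow] at this
      omega
    refine (Set.infinite_range_of_injective h1).mono ?_
    rintro _ ⟨n, rfl⟩
    exact ⟨n + 1, by omega, rfl⟩
  · intro x hx
    have h1 : ∀ j, ∃ n : ℕ, 1 ≤ n ∧ x j = (Polynomial.X : Polynomial (ZMod 2)) ^ n := fun j => hx j (Set.mem_univ j)
    choose e he1 he2 using h1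
    have h2 := hcon e he1
    rw [map_zero, MvPolynomial.eval_map]
    have h3 : x = fun j => (Polynomial.X : Polynomial (ZMod 2)) ^ e j := funext he2
    rw [h3]
    exact h2

theorem subst_const {J : Type} (e : J → ℕ) (he : ∀ j, 1 ≤ e j) (p : MvPolynomial J (ZMod 2)) :
    Polynomial.eval 0 (subst e p) = MvPolynomial.constantCoeff p := by
  have h : (Polynomial.evalRingHom (0 : ZMod 2)).comp (subst e) = (MvPolynomial.constantCoeff : _ →+* ZMod 2) := by
    apply MvPolynomial.ringHom_ext
    · intro r
      simp [subst]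
    · intro j
      have := he j
      simp only [subst, RingHom.comp_apply, AlgHom.toRingHom_eq_coe, RingHom.coe_coe, MvPolynomial.aeval_X,
        Polynomial.coe_evalRingHom, Polynomial.eval_pow, Polynomial.eval_X, MvPolynomial.constantCoeff_X]
      exact zero_pow (by omega)
  exact RingHom.congr_fun h p

section rep
variable {V : Type} {G : SimpleGraph V} {D : Type} [Fintype D] [DecidableEq D]

/-- the truncated polynomial ring -/
abbrev RT (k : ℕ) : Type := AdjoinRoot ((Polynomial.X : Polynomial (ZMod 2)) ^ k)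

/-- the representation over the truncated polynomial ring -/
noncomputable def rhoT (M : V → Matrix D D (Polynomial (ZMod 2))) (h1 : ∀ v, M v * M v = 1)
    (hc : ∀ u v, G.Adj u v → M u * M v = M v * M u) (k : ℕ) :
    RACG G →* ((D → RT k) →ₗ[ZMod 2] (D → RT k)) where
  toFun g := (Matrix.toLin' (((theta M h1 hc g : (Matrix D D (Polynomial (ZMod 2)))ˣ) :
    Matrix D D (Polynomial (ZMod 2))).map (AdjoinRoot.mk (Polynomial.X ^ k)))).restrictScalars (ZMod 2)
  map_one' := by
    rw [map_one, Units.val_one, Matrix.map_one _ (map_zero _) (map_one _), Matrix.toLin'_one]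
    rfl
  map_mul' g h := by
    rw [map_mul, Units.val_mul, Matrix.map_mul, Matrix.toLin'_mul]
    rfl

theorem rhoT_gen (M : V → Matrix D D (Polynomial (ZMod 2))) (h1 : ∀ v, M v * M v = 1)
    (hc : ∀ u v, G.Adj u v → M u * M v = M v * M u) (k : ℕ) (v : V) :
    rhoT M h1 hc k (Racg.gen G v) = (Matrix.toLin' ((M v).map (AdjoinRoot.mk (Polynomial.X ^ k)))).restrictScalars
      (ZMod 2) := by
  change (Matrix.toLin' (((theta M h1 hc (Racg.gen G v) : (Matrix D D (Polynomial (ZMod 2)))ˣ) :
    Matrix D D (Polynomial (ZMod 2))).map (AdjoinRoot.mk (Polynomial.X ^ k)))).restrictScalars (ZMod 2) = _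
  rw [theta_gen]

theorem rhoT_pow (M : V → Matrix D D (Polynomial (ZMod 2))) (h1 : ∀ v, M v * M v = 1)
    (hc : ∀ u v, G.Adj u v → M u * M v = M v * M u)
    (h0 : ∀ u v, (M u).map (Polynomial.evalRingHom 0) * (M v).map (Polynomial.evalRingHom 0) =
      (M v).map (Polynomial.evalRingHom 0) * (M u).map (Polynomial.evalRingHom 0)) (k : ℕ) (g : RACG G) :
    ∃ m : ℕ, rhoT M h1 hc k (g ^ 2 ^ m) = 1 := by
  refine ⟨k + 1, ?_⟩
  have h2 := theta_sq M h1 hc (Polynomial.evalRingHom 0) h0 g
  set P : Matrix D D (Polynomial (ZMod 2)) :=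
    ((theta M h1 hc g : (Matrix D D (Polynomial (ZMod 2)))ˣ) : Matrix D D (Polynomial (ZMod 2))) with hP
  rw [← Matrix.map_mul] at h2
  have h3 : ∀ a b, ∃ q : Polynomial (ZMod 2), (P * P) a b = (1 : Matrix D D (Polynomial (ZMod 2))) a b +
      Polynomial.X * q := by
    intro a b
    have h4 := congrFun (congrFun h2 a) b
    rw [Matrix.map_apply] at h4
    have h5 : Polynomial.eval 0 ((P * P) a b - (1 : Matrix D D (Polynomial (ZMod 2))) a b) = 0 := by
      rw [Polynomial.eval_sub]
      have h6 : Polynomial.eval 0 ((1 : Matrix D D (Polynomial (ZMod 2))) a b) = (1 : Matrix D D (ZMod 2)) a b := by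
        rw [Matrix.one_apply, Matrix.one_apply]
        split_ifs <;> simp
      rw [h6, ← h4]
      simp
    have h7 := (Polynomial.dvd_iff_isRoot (p := (P * P) a b - (1 : Matrix D D (Polynomial (ZMod 2))) a b) (a := 0)).2 h5
    rw [map_zero, sub_zero] at h7
    obtain ⟨q, hq⟩ := h7
    exact ⟨q, by rw [← hq]; ring⟩
  choose N hN using h3
  have h8 : P * P = 1 + (Polynomial.X : Polynomial (ZMod 2)) • (Matrix.of N) := by
    ext a b
    rw [hN a b]
    simp
  have h9 : (2 : Matrix D D (Polynomial (ZMod 2))) = 0 := by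
    have : (2 : Polynomial (ZMod 2)) = 0 := CharTwo.two_eq_zero
    have h10 : (2 : Matrix D D (Polynomial (ZMod 2))) = (2 : Polynomial (ZMod 2)) • (1 : Matrix D D (Polynomial (ZMod 2))) := by
      rw [two_smul, one_add_one_eq_two]
    rw [h10, this, zero_smul]
  have h11 : P ^ 2 ^ (k + 1) = 1 + (Polynomial.X : Polynomial (ZMod 2)) ^ 2 ^ k • (Matrix.of N) ^ 2 ^ k := by
    rw [pow_succ, mul_comm, pow_mul, pow_two, h8, one_add_pow_two_pow h9, smul_pow]
  have h12 : (P ^ 2 ^ (k + 1)).map (AdjoinRoot.mk ((Polynomial.X : Polynomial (ZMod 2)) ^ k)) = 1 := by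
    rw [h11]
    have h13 : AdjoinRoot.mk ((Polynomial.X : Polynomial (ZMod 2)) ^ k) ((Polynomial.X : Polynomial (ZMod 2)) ^ 2 ^ k) = 0 := by
      rw [AdjoinRoot.mk_eq_zero]
      exact pow_dvd_pow _ (Nat.lt_two_pow_self).le
    ext a b
    simp only [Matrix.map_apply, Matrix.add_apply, Matrix.smul_apply, smul_eq_mul, map_add, map_mul, h13, zero_mul,
      add_zero]
    rw [Matrix.one_apply, Matrix.one_apply]
    split_ifs <;> simp
  change (Matrix.toLin' (((theta M h1 hc (g ^ 2 ^ (k + 1)) : (Matrix D D (Polynomial (ZMod 2)))ˣ) :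
    Matrix D D (Polynomial (ZMod 2))).map (AdjoinRoot.mk (Polynomial.X ^ k)))).restrictScalars (ZMod 2) = 1
  rw [map_pow, Units.val_pow_eq_pow_val, ← hP, h12, Matrix.toLin'_one]
  rfl

end rep

/-- Theorem U, matrix form: polynomial matrices `S v` with `S v ^ 2 = 1`, which commute for adjacent vertices, and whose
values at `0` commute for all pairs of vertices -/
theorem vdim_Cy_le_poly {V : Type} [Fintype V] [DecidableEq V] (G : SimpleGraph V) {J D : Type} [Finite J] [Fintype D]
    [DecidableEq D] (S : V → Matrix D D (MvPolynomial J (ZMod 2))) (h1 : ∀ v, S v * S v = 1)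
    (hc : ∀ u v, G.Adj u v → S u * S v = S v * S u)
    (h0 : ∀ u v, (S u).map (MvPolynomial.constantCoeff) * (S v).map (MvPolynomial.constantCoeff) =
      (S v).map (MvPolynomial.constantCoeff) * (S u).map (MvPolynomial.constantCoeff)) (i : ℕ) :
    vdim (Cy rk G (Racg.gen G) Finset.univ i) * Fintype.card D ≤
      Module.finrank (KK J) (ZM G (fun v => Matrix.toLin' ((S v).map (algebraMap (MvPolynomial J (ZMod 2)) (KK J)))) i) := by
  classical
  obtain ⟨C, B, δ, hδ, hB, hcard⟩ := exists_minor (K := KK J) (sysMat G S i)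
  obtain ⟨e, he, hde⟩ := exists_subst δ hδ
  set n0 := Module.finrank (KK J)
    (ZM G (fun v => Matrix.toLin' ((S v).map (algebraMap (MvPolynomial J (ZMod 2)) (KK J)))) i) with hn0
  -- the nullity
  have hnull : Module.finrank (KK J) (LinearMap.ker (Matrix.mulVecLin ((sysMat G S i).map
      (algebraMap (MvPolynomial J (ZMod 2)) (KK J))))) ≤ n0 := by
    let f : LinearMap.ker (Matrix.mulVecLin ((sysMat G S i).map (algebraMap (MvPolynomial J (ZMod 2)) (KK J)))) →ₗ[KK J]
        ZM G (fun v => Matrix.toLin' ((S v).map (algebraMap (MvPolynomial J (ZMod 2)) (KK J)))) i :=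
      LinearMap.codRestrict _ ((LinearEquiv.curry (KK J) (KK J) (Finset V) D).toLinearMap ∘ₗ
        (LinearMap.ker (Matrix.mulVecLin ((sysMat G S i).map (algebraMap (MvPolynomial J (ZMod 2)) (KK J))))).subtype)
        (fun z => by
          have hz := LinearMap.mem_ker.1 z.2
          refine (mem_sys_iff (F := KK J) G S i (algebraMap (MvPolynomial J (ZMod 2)) (KK J)) _).1 ?_
          intro k
          exact congrFun hz k)
    have hf : Function.Injective f := by
      intro z z' hzz
      apply Subtype.ext
      have h2 := congrArg Subtype.val hzz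
      exact (LinearEquiv.curry (KK J) (KK J) (Finset V) D).injective h2
    exact LinearMap.finrank_le_finrank_of_injective hf
  -- the representations
  set M : V → Matrix D D (Polynomial (ZMod 2)) := fun v => (S v).map (subst e) with hM
  have hM1 : ∀ v, M v * M v = 1 := fun v => by
    rw [hM]
    dsimp only
    rw [← Matrix.map_mul, h1, Matrix.map_one _ (map_zero _) (map_one _)]
  have hMc : ∀ u v, G.Adj u v → M u * M v = M v * M u := fun u v huv => by
    rw [hM]
    dsimp only
    rw [← Matrix.map_mul, hc u v huv, Matrix.map_mul]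
  have hM0 : ∀ u v, (M u).map (Polynomial.evalRingHom 0) * (M v).map (Polynomial.evalRingHom 0) =
      (M v).map (Polynomial.evalRingHom 0) * (M u).map (Polynomial.evalRingHom 0) := by
    have h2 : ∀ v, (M v).map (Polynomial.evalRingHom 0) = (S v).map (MvPolynomial.constantCoeff) := by
      intro v
      ext a b
      simp only [hM, Matrix.map_apply, Polynomial.coe_evalRingHom]
      exact subst_const e he _
    intro u v
    rw [h2, h2]
    exact h0 u v
  have key : ∀ k : ℕ, vdim (Cy rk G (Racg.gen G) Finset.univ i) * (Fintype.card D * k : ℕ) ≤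
      (n0 * k + C.card * (subst e δ).natDegree : ℕ) := by
    intro k
    have hmon : ((Polynomial.X : Polynomial (ZMod 2)) ^ k).Monic := Polynomial.monic_X_pow k
    have : Module.Finite (ZMod 2) (RT k) := hmon.finite_adjoinRoot
    have hdim : Module.finrank (ZMod 2) (RT k) = k := by
      rw [(AdjoinRoot.powerBasis' hmon).finrank, AdjoinRoot.powerBasis'_dim, Polynomial.natDegree_X_pow]
    have h2 := vdim_Cy_le G (rhoT M hM1 hMc k) (rhoT_pow M hM1 hMc hM0 k) i
    rw [Module.finrank_pi_fintype] at h2
    simp only [Finset.sum_const, Finset.card_univ, smul_eq_mul, hdim] at h2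
    refine h2.trans ?_
    rw [Nat.cast_le]
    set φ : MvPolynomial J (ZMod 2) →+* RT k := (AdjoinRoot.mk (Polynomial.X ^ k)).comp (subst e) with hφ
    have hop : (fun v => rhoT M hM1 hMc k (Racg.gen G v)) =
        fun v => (Matrix.toLin' ((S v).map φ)).restrictScalars (ZMod 2) := by
      funext v
      rw [rhoT_gen]
      rfl
    rw [hop]
    set Z := ZM G (fun v => (Matrix.toLin' ((S v).map φ)).restrictScalars (ZMod 2)) i with hZ
    let W : Submodule (ZMod 2) (Finset V × D → RT k) := Z.comap (LinearEquiv.curry (ZMod 2) (RT k) (Finset V) D).toLinearMap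
    have hW1 : Module.finrank (ZMod 2) W = Module.finrank (ZMod 2) Z :=
      (LinearEquiv.ofSubmodule' (LinearEquiv.curry (ZMod 2) (RT k) (Finset V) D) Z).finrank_eq
    have h3 := finrank_sys_le (F := ZMod 2) (R := RT k) (sysMat G S i) C B δ hB φ W (fun z hz =>
      (mem_sys_iff (F := ZMod 2) G S i φ _).2 hz)
    rw [hW1, hdim] at h3
    have h4 : Module.finrank (ZMod 2) (LinearMap.ker (LinearMap.mulLeft (ZMod 2) (φ δ))) ≤ (subst e δ).natDegree :=
      finrank_ker_mul_le k (subst e δ) hde
    have h5 : C.card * Module.finrank (ZMod 2) (LinearMap.ker (LinearMap.mulLeft (ZMod 2) (φ δ))) ≤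
        C.card * (subst e δ).natDegree := Nat.mul_le_mul_left _ h4
    have h6 : Fintype.card (Finset V × D) ≤ C.card + n0 := hcard.trans (Nat.add_le_add_left hnull _)
    have h7 : Fintype.card (Finset V × D) * k ≤ C.card * k + n0 * k := by
      rw [← add_mul]
      exact Nat.mul_le_mul_right _ h6
    omega
  by_contra hcon
  push Not at hcon
  set v := vdim (Cy rk G (Racg.gen G) Finset.univ i)
  obtain ⟨k, hk⟩ := exists_nat_gt (((C.card * (subst e δ).natDegree : ℕ) : ℝ) / (v * Fintype.card D - n0))
  have hpos : 0 < v * Fintype.card D - n0 := by linarith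
  rw [div_lt_iff₀ hpos] at hk
  have h2 := key k
  push_cast at h2 hk
  nlinarith

end Ord
end Singer
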