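import Mathlib

/-!
# Singer/Ord/Poly: linear algebra

* `exists_minor` : a matrix over a domain has a set of columns of the size of the rank with a left inverse up to a
  denominator
* `finrank_ker_mul_le` : the kernel of the multiplication by `d` on `F[t]/t^k` has a dimension bounded by the degree of `d`
* `finrank_sys_le` : the dimension of the solutions of the system over an algebra
-/

set_option autoImplicit false
set_option linter.unusedSectionVars false
set_option linter.unusedVariables false

namespace Singer
namespace Ord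

open Polynomial in
/-- the kernel of the multiplication by `d` on `F[t]/t^k` -/
theorem finrank_ker_mul_le {F : Type*} [Field F] (k : ℕ) (d : F[X]) (hd : d ≠ 0) :
    Module.finrank F (LinearMap.ker (LinearMap.mulLeft F (AdjoinRoot.mk (X ^ k : F[X]) d))) ≤ d.natDegree := by
  classical
  set R := AdjoinRoot (X ^ k : F[X])
  have hm : (X ^ k : F[X]).Monic := monic_X_pow k
  have : Module.Finite F R := hm.finite_adjoinRoot
  set f : R →ₗ[F] R := LinearMap.mulLeft F (AdjoinRoot.mk (X ^ k : F[X]) d)
  have h1 := LinearMap.finrank_range_add_finrank_ker f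
  have h2 := Submodule.finrank_quotient_add_finrank (LinearMap.range f)
  have h3 : Module.finrank F (LinearMap.ker f) = Module.finrank F (R ⧸ LinearMap.range f) := by omega
  rw [h3]
  -- a surjection from the polynomials of small degree
  let mk : F[X] →ₗ[F] R := (AdjoinRoot.mkₐ (X ^ k : F[X])).toLinearMap
  let q : degreeLT F d.natDegree →ₗ[F] (R ⧸ LinearMap.range f) :=
    (Submodule.mkQ (LinearMap.range f)) ∘ₗ mk ∘ₗ (degreeLT F d.natDegree).subtype
  have hq : Function.Surjective q := by
    intro y
    obtain ⟨r, rfl⟩ := Submodule.mkQ_surjective _ y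
    obtain ⟨p, rfl⟩ := AdjoinRoot.mk_surjective (g := (X ^ k : F[X])) r
    refine ⟨⟨p % d, ?_⟩, ?_⟩
    · rw [mem_degreeLT]
      rw [← degree_eq_natDegree hd]
      exact EuclideanDomain.mod_lt p hd
    · change (Submodule.mkQ (LinearMap.range f)) (AdjoinRoot.mk (X ^ k : F[X]) (p % d)) =
        (Submodule.mkQ (LinearMap.range f)) (AdjoinRoot.mk (X ^ k : F[X]) p)
      rw [← sub_eq_zero, ← map_sub, ← map_sub, Submodule.mkQ_apply, Submodule.Quotient.mk_eq_zero]
      refine ⟨AdjoinRoot.mk (X ^ k : F[X]) (-(p / d)), ?_⟩
      change AdjoinRoot.mk (X ^ k : F[X]) d * AdjoinRoot.mk (X ^ k : F[X]) (-(p / d)) = _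
      rw [← map_mul]
      congr 1
      have h4 := EuclideanDomain.div_add_mod p d
      calc d * (-(p / d)) = (p % d) - (d * (p / d) + p % d) := by ring
        _ = p % d - p := by rw [h4]
  have h5 := LinearMap.finrank_le_finrank_of_surjective (f := q) hq
  refine h5.trans ?_
  rw [LinearEquiv.finrank_eq (degreeLTEquiv F d.natDegree)]
  simp

/-- a set of columns of the size of the rank with a left inverse up to a denominator -/
theorem exists_minor {R0 K κ ι : Type*} [CommRing R0] [IsDomain R0] [Field K] [Algebra R0 K] [IsFractionRing R0 K]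
    [Fintype κ] [DecidableEq κ] [Fintype ι] [DecidableEq ι] (A : Matrix κ ι R0) :
    ∃ (C : Finset ι) (B : Matrix ι κ R0) (δ : R0), δ ≠ 0 ∧
      (∀ a ∈ C, ∀ b ∈ C, ∑ k, B a k * A k b = if a = b then δ else 0) ∧
      Fintype.card ι ≤ C.card + Module.finrank K (LinearMap.ker (Matrix.mulVecLin (A.map (algebraMap R0 K)))) := by
  classical
  set A' : Matrix κ ι K := A.map (algebraMap R0 K)
  obtain ⟨b, -, -, hspan, hli⟩ := exists_linearIndepOn_extension (K := K) (v := A'.col) (linearIndepOn_empty K A'.col)
    (Set.empty_subset Set.univ)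
  have hli' : LinearIndependent K (fun x : b => A'.col x) := hli
  have hker : LinearMap.ker (Finsupp.linearCombination K (fun x : b => A'.col x)) = ⊥ := by
    rw [LinearMap.ker_eq_bot]
    exact hli'
  obtain ⟨g, hg⟩ := LinearMap.exists_leftInverse_of_injective _ hker
  let BK : ι → κ → K := fun i k => if h : i ∈ b then g (Pi.single k 1) ⟨i, h⟩ else 0
  have hBK : ∀ i ∈ b, ∀ j ∈ b, ∑ k, BK i k * A' k j = if i = j then 1 else 0 := by
    intro i hi j hj
    have h1 : A'.col j = ∑ k, A' k j • (Pi.single k 1 : κ → K) := by
      ext k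
      rw [Finset.sum_apply, Finset.sum_eq_single k]
      · simp
      · intro k' _ hk'
        simp [hk'.symm]
      · simp
    have h2 : g (A'.col j) = Finsupp.single ⟨j, hj⟩ 1 := by
      have h3 := LinearMap.congr_fun hg (Finsupp.single ⟨j, hj⟩ 1)
      rw [LinearMap.comp_apply, Finsupp.linearCombination_single, one_smul] at h3
      exact h3
    have h4 : (g (A'.col j)) ⟨i, hi⟩ = ∑ k, BK i k * A' k j := by
      rw [h1, map_sum, Finsupp.finsetSum_apply]
      refine Finset.sum_congr rfl fun k _ => ?_
      rw [map_smul, Finsupp.smul_apply, smul_eq_mul, mul_comm]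
      simp only [BK, dif_pos hi]
    rw [← h4, h2, Finsupp.single_apply]
    by_cases hij : i = j
    · subst hij
      simp
    · rw [if_neg hij, if_neg]
      intro h
      exact hij (Subtype.mk.inj h).symm
  obtain ⟨δ, hδ⟩ := IsLocalization.exist_integer_multiples_of_finite (nonZeroDivisors R0)
    (fun p : ι × κ => BK p.1 p.2)
  choose B hB using hδ
  have hinj : Function.Injective (algebraMap R0 K) := IsFractionRing.injective R0 K
  refine ⟨b.toFinite.toFinset, fun i k => B (i, k), (δ : R0), nonZeroDivisors.ne_zero δ.2, ?_, ?_⟩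
  · intro i hi j hj
    rw [Set.Finite.mem_toFinset] at hi hj
    apply hinj
    rw [map_sum]
    have h1 : ∀ k, algebraMap R0 K (B (i, k) * A k j) = algebraMap R0 K δ * (BK i k * A' k j) := by
      intro k
      rw [map_mul, hB, Algebra.smul_def]
      simp only [A', Matrix.map_apply]
      ring
    simp only [h1]
    rw [← Finset.mul_sum, hBK i hi j hj]
    split_ifs <;> simp
  · have h1 := LinearMap.finrank_range_add_finrank_ker (Matrix.mulVecLin A')
    rw [Module.finrank_fintype_fun_eq_card] at h1
    have h2 : Module.finrank K (LinearMap.range (Matrix.mulVecLin A')) ≤ b.toFinite.toFinset.card := by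
      rw [Matrix.range_mulVecLin]
      have h3 : Submodule.span K (Set.range A'.col) = Submodule.span K (A'.col '' b) := by
        apply le_antisymm
        · rw [Submodule.span_le, ← Set.image_univ]
          exact hspan
        · exact Submodule.span_mono (Set.image_subset_range _ _)
      rw [h3]
      have h4 : A'.col '' b = ((b.toFinite.toFinset.image A'.col : Finset (κ → K)) : Set (κ → K)) := by
        rw [Finset.coe_image, Set.Finite.coe_toFinset]
      rw [h4]
      exact (finrank_span_finset_le_card _).trans Finset.card_image_le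
    omega

/-- the dimension of the space of solutions over an algebra -/
theorem finrank_sys_le {R0 κ ι F R : Type*} [CommRing R0] [Fintype κ] [Fintype ι] [DecidableEq ι] [Field F] [CommRing R]
    [Algebra F R] [Module.Finite F R] (A : Matrix κ ι R0) (C : Finset ι) (B : Matrix ι κ R0) (δ : R0)
    (hB : ∀ a ∈ C, ∀ b ∈ C, ∑ k, B a k * A k b = if a = b then δ else 0) (φ : R0 →+* R)
    (W : Submodule F (ι → R)) (hW : ∀ z ∈ W, ∀ k, ∑ j, φ (A k j) * z j = 0) :
    Module.finrank F W + C.card * Module.finrank F R ≤ Fintype.card ι * Module.finrank F R +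
      C.card * Module.finrank F (LinearMap.ker (LinearMap.mulLeft F (φ δ))) := by
  classical
  let Φ : W →ₗ[F] ({j // j ∉ C} → R) := LinearMap.pi fun j => (LinearMap.proj j.1) ∘ₗ W.subtype
  have h1 := LinearMap.finrank_range_add_finrank_ker Φ
  have h2 : Module.finrank F (LinearMap.range Φ) ≤ Fintype.card {j // j ∉ C} * Module.finrank F R := by
    refine (Submodule.finrank_le _).trans ?_
    rw [Module.finrank_pi_fintype]
    simp
  have hz : ∀ z : LinearMap.ker Φ, ∀ j ∉ C, (z.1 : ι → R) j = 0 := by
    intro z j hj
    have := congrFun (LinearMap.mem_ker.1 z.2) ⟨j, hj⟩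
    exact this
  have hk : ∀ z : LinearMap.ker Φ, ∀ c ∈ C, φ δ * (z.1 : ι → R) c = 0 := by
    intro z c hc
    have h3 : ∑ k, φ (B c k) * ∑ j, φ (A k j) * (z.1 : ι → R) j = 0 := by
      refine Finset.sum_eq_zero fun k _ => ?_
      rw [hW z.1 z.1.2 k, mul_zero]
    simp only [Finset.mul_sum] at h3
    rw [Finset.sum_comm] at h3
    have h4 : ∀ j, ∑ k, φ (B c k) * (φ (A k j) * (z.1 : ι → R) j) =
        if j = c then φ δ * (z.1 : ι → R) c else 0 := by
      intro j
      by_cases hj : j ∈ C
      · have h5 := hB c hc j hj
        have h6 : ∑ k, φ (B c k) * (φ (A k j) * (z.1 : ι → R) j) = φ (∑ k, B c k * A k j) * (z.1 : ι → R) j := by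
          rw [map_sum, Finset.sum_mul]
          refine Finset.sum_congr rfl fun k _ => ?_
          rw [map_mul, mul_assoc]
        rw [h6, h5]
        by_cases hcj : j = c
        · rw [if_pos hcj, if_pos hcj.symm, hcj]
        · rw [if_neg hcj, if_neg (Ne.symm hcj), map_zero, zero_mul]
      · have h5 : j ≠ c := fun h => hj (h ▸ hc)
        rw [if_neg h5]
        simp [hz z j hj]
    simp only [h4] at h3
    rw [Finset.sum_ite_eq' Finset.univ c] at h3
    simpa using h3
  let Ψ : LinearMap.ker Φ →ₗ[F] (C → LinearMap.ker (LinearMap.mulLeft F (φ δ))) :=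
    LinearMap.pi fun c => LinearMap.codRestrict _
      ((LinearMap.proj c.1) ∘ₗ W.subtype ∘ₗ (LinearMap.ker Φ).subtype) fun z => by
        rw [LinearMap.mem_ker]
        exact hk z c.1 c.2
  have hΨ : Function.Injective Ψ := by
    intro z z' hzz
    apply Subtype.ext
    apply Subtype.ext
    funext j
    by_cases hj : j ∈ C
    · have := congrArg Subtype.val (congrFun hzz ⟨j, hj⟩)
      exact this
    · rw [hz z j hj, hz z' j hj]
  have h7 := LinearMap.finrank_le_finrank_of_injective hΨ
  rw [Module.finrank_pi_fintype] at h7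
  simp only [Finset.sum_const, Finset.card_univ, Fintype.card_coe, smul_eq_mul] at h7
  have h8 : Fintype.card {j // j ∉ C} + C.card = Fintype.card ι := by
    rw [Fintype.card_subtype_compl, Fintype.card_coe]
    have := Finset.card_le_univ C
    omega
  have h9 : Fintype.card ι * Module.finrank F R =
      Fintype.card {j // j ∉ C} * Module.finrank F R + C.card * Module.finrank F R := by
    rw [← h8, add_mul]
  omega

end Ord
end Singer
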