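import Pool.Agent.Singer.Ord.Defs

/-!
# Singer/Ord: dimension shifting

`dd_dd`, `TT_of`, `ex_of_TT`, `cob_of_restr`, `cob_of_glue`.
-/

set_option autoImplicit false
set_option linter.unusedSectionVars false
set_option linter.unusedVariables false

namespace Singer
namespace Ord

namespace StepAux

/-! ### Linearity and locality of `dd` -/

section dd
variable {P : Type} {F : Type} [Field F] {x : P → F}

theorem dd_add (x : P → F) (φ ψ : List (St P) → F) (e : List (St P)) :
    dd x (fun e => φ e + ψ e) e = dd x φ e + dd x ψ e := by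
  induction e generalizing φ ψ with
  | nil => simp [dd]
  | cons a e ih =>
    cases a with
    | c0 => simp only [dd]; exact ih _ _
    | c1 => simp only [dd]; exact ih _ _
    | v u =>
      simp only [dd]
      rw [ih]
      ring

theorem dd_mul (x : P → F) (a : F) (φ : List (St P) → F) (e : List (St P)) :
    dd x (fun e => a * φ e) e = a * dd x φ e := by
  induction e generalizing φ with
  | nil => simp [dd]
  | cons b e ih =>
    cases b with
    | c0 => simp only [dd]; exact ih _
    | c1 => simp only [dd]; exact ih _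
    | v u =>
      simp only [dd]
      rw [ih]
      ring

theorem dd_zero (x : P → F) (e : List (St P)) : dd x (fun _ => (0 : F)) e = 0 := by
  have := dd_mul x 0 (fun _ => (0 : F)) e
  simpa using this

theorem dd_sub (x : P → F) (φ ψ : List (St P) → F) (e : List (St P)) :
    dd x (fun e => φ e - ψ e) e = dd x φ e - dd x ψ e := by
  have h : (fun e => φ e - ψ e) = fun e => φ e + (-1) * ψ e := by
    funext e
    ring
  rw [h, dd_add, dd_mul]
  ring

theorem dd_sum (x : P → F) {ι : Type} (S : Finset ι) (φ : ι → List (St P) → F) (e : List (St P)) :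
    dd x (fun e => ∑ i ∈ S, φ i e) e = ∑ i ∈ S, dd x (φ i) e := by
  classical
  induction S using Finset.induction_on with
  | empty => simp only [Finset.sum_empty]; exact dd_zero x e
  | insert i S hi ih =>
    simp only [Finset.sum_insert hi]
    rw [dd_add, ih]

theorem dd_dd' [CharP F 2] (x : P → F) (φ : List (St P) → F) (e : List (St P)) :
    dd x (dd x φ) e = 0 := by
  induction e generalizing φ with
  | nil => simp [dd]
  | cons a e ih =>
    cases a with
    | c0 =>
      show dd x (fun e' => dd x (fun e'' => φ (.c0 :: e'')) e') e = 0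
      exact ih _
    | c1 =>
      show dd x (fun e' => dd x (fun e'' => φ (.c1 :: e'')) e') e = 0
      exact ih _
    | v u =>
      show dd x (fun e'' => φ (.c0 :: e'')) e + x u * dd x (fun e'' => φ (.c1 :: e'')) e +
        dd x (fun e' => φ (.c0 :: e') + x u * φ (.c1 :: e') + dd x (fun e'' => φ (.v u :: e'')) e') e = 0
      rw [dd_add, dd_add, dd_mul]
      have h := ih (fun e'' => φ (.v u :: e''))
      have h2 : dd x (fun e' => dd x (fun e'' => φ (.v u :: e'')) e') e = 0 := h
      rw [h2, add_zero]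
      exact CharTwo.add_self_eq_zero _

end dd

section val
variable {P : Type} [PartialOrder P] {F : Type} [Field F] {r : P → ℕ}

theorem Val_mono {s t : P} (hst : s ≤ t) {m : ℕ} {e : List (St P)} (h : Val r s m e) : Val r t m e := by
  induction m generalizing e with
  | zero => exact h
  | succ m ih =>
    cases e with
    | nil => exact h
    | cons a e =>
      cases a with
      | c0 => exact ih (show Val r s m e from h)
      | c1 => exact ih (show Val r s m e from h)
      | v u => exact ⟨h.1.trans hst, h.2.1, h.2.2⟩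

/-- locality of the differential -/
theorem dd_congr (x : P → F) {s : P} {m : ℕ} {e : List (St P)} (hv : Val r s m e)
    {φ ψ : List (St P) → F} (h : ∀ e', Val r s m e' → deg e' + 1 = deg e → φ e' = ψ e') :
    dd x φ e = dd x ψ e := by
  induction m generalizing e s φ ψ with
  | zero =>
    have : e = [] := hv
    rw [this]
    rfl
  | succ m ih =>
    cases e with
    | nil => exact hv.elim
    | cons a e =>
      cases a with
      | c0 =>
        exact ih (show Val r s m e from hv) fun e' h1 h2 => h (.c0 :: e') h1 h2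
      | c1 =>
        exact ih (show Val r s m e from hv) fun e' h1 h2 => h (.c1 :: e') h1 h2
      | v u =>
        obtain ⟨hu, hr, hv'⟩ := hv
        have e1 : φ (.c0 :: e) = ψ (.c0 :: e) := h _ (Val_mono hu hv') rfl
        have e2 : φ (.c1 :: e) = ψ (.c1 :: e) := h _ (Val_mono hu hv') rfl
        have e3 := ih (φ := fun e' => φ (.v u :: e')) (ψ := fun e' => ψ (.v u :: e')) hv'
          (fun e' h1 h2 => h (.v u :: e') ⟨hu, hr, h1⟩ (by
            show deg e' + 1 + 1 = deg e + 1
            rw [h2]))
        show φ (.c0 :: e) + x u * φ (.c1 :: e) + dd x (fun e' => φ (.v u :: e')) e =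
          ψ (.c0 :: e) + x u * ψ (.c1 :: e) + dd x (fun e' => ψ (.v u :: e')) e
        rw [e1, e2, e3]

/-- the first vertex of a state -/
def top (o : P) : List (St P) → P
  | [] => o
  | .c0 :: e => top o e
  | .c1 :: e => top o e
  | .v u :: _ => u

theorem top_le {o : P} (hb : ∀ p, o ≤ p) {s : P} {m : ℕ} {e : List (St P)} (h : Val r s m e) :
    top o e ≤ s := by
  induction m generalizing e with
  | zero =>
    have : e = [] := h
    rw [this]
    exact hb s
  | succ m ih =>
    cases e with
    | nil => exact h.elim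
    | cons a e =>
      cases a with
      | c0 =>
        have h2 : top o e ≤ s := ih (e := e) h
        exact h2
      | c1 =>
        have h2 : top o e ≤ s := ih (e := e) h
        exact h2
      | v u => exact h.1

theorem Val_of_top {o : P} {s t : P} {m : ℕ} {e : List (St P)} (h : Val r s m e)
    (ht : top o e ≤ t) : Val r t m e := by
  induction m generalizing e with
  | zero => exact h
  | succ m ih =>
    cases e with
    | nil => exact h.elim
    | cons a e =>
      cases a with
      | c0 =>
        have h2 : Val r t m e := ih (e := e) h ht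
        exact h2
      | c1 =>
        have h2 : Val r t m e := ih (e := e) h ht
        exact h2
      | v u => exact ⟨ht, h.2.1, h.2.2⟩

theorem r_top {o : P} (h0 : r o = 0) {s : P} {m : ℕ} {e : List (St P)} (h : Val r s m e) :
    r (top o e) ≤ 2 * m - 1 := by
  induction m generalizing e with
  | zero =>
    have : e = [] := h
    rw [this]
    show r o ≤ _
    omega
  | succ m ih =>
    cases e with
    | nil => exact h.elim
    | cons a e =>
      cases a with
      | c0 =>
        have := ih (show Val r s m e from h)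
        show r (top o e) ≤ _
        omega
      | c1 =>
        have := ih (show Val r s m e from h)
        show r (top o e) ≤ _
        omega
      | v u =>
        have := h.2.1
        show r u ≤ _
        omega

end val

/-! ### `dl` -/

section dl
variable {P : Type} [Fintype P] [PartialOrder P] {F : Type} [Field F] {r : P → ℕ} {o : P}

theorem dl_congr {q t : P} {f g : P → F} (h : ∀ s, t < s → s ≤ q → r s = r t + 1 → f s = g s) :
    dl r q f t = dl r q g t := by
  classical
  unfold dl
  refine Finset.sum_congr rfl fun s hs => ?_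
  rw [Finset.mem_filter] at hs
  exact h s hs.2.1 hs.2.2.1 hs.2.2.2

theorem dl_sub {q t : P} (f g : P → F) :
    dl r q (fun s => f s - g s) t = dl r q f t - dl r q g t := by
  unfold dl
  exact Finset.sum_sub_distrib _ _

theorem dd_dl (x : P → F) {q t : P} (ψ : P → List (St P) → F) (e : List (St P)) :
    dd x (fun e => dl r q (fun s => ψ s e) t) e = dl r q (fun s => dd x (ψ s) e) t := by
  unfold dl
  exact dd_sum x _ _ e

/-- two elements between -/
theorem dl_const [CharP F 2] (hG : Gor F r o) {q t : P} (ht : t ≤ q) (hr : r q = r t + 2) (a : F) :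
    dl r q (fun _ => a) t = 0 := by
  classical
  have htq : t < q := lt_of_le_of_ne ht (by rintro rfl; omega)
  obtain ⟨u, u', hne, hu⟩ := hG.thin t q htq hr
  unfold dl
  have hf : Finset.univ.filter (fun s => t < s ∧ s ≤ q ∧ r s = r t + 1) = {u, u'} := by
    ext s
    rw [Finset.mem_filter, Finset.mem_insert, Finset.mem_singleton]
    constructor
    · rintro ⟨-, h1, h2, h3⟩
      apply (hu s).1
      exact ⟨h1, lt_of_le_of_ne h2 (by rintro rfl; omega)⟩
    · intro h
      obtain ⟨h1, h2⟩ := (hu s).2 h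
      have h3 := hG.mono h1
      have h4 := hG.mono h2
      exact ⟨Finset.mem_univ _, h1, h2.le, by omega⟩
  rw [hf, Finset.sum_pair hne]
  exact CharTwo.add_self_eq_zero _

/-- `dl` is a differential -/
theorem dl_dl [CharP F 2] (hG : Gor F r o) {q t : P} (f : P → F) :
    dl r q (dl r q f) t = 0 := by
  classical
  unfold dl
  rw [Finset.sum_sigma']
  -- group by the largest element
  set A := (Finset.univ.filter (fun s => t < s ∧ s ≤ q ∧ r s = r t + 1)).sigma
    (fun s => Finset.univ.filter (fun s' => s < s' ∧ s' ≤ q ∧ r s' = r s + 1)) with hA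
  rw [← Finset.sum_fiberwise_of_maps_to (s := A) (t := Finset.univ) (g := fun p => p.2)
    (fun _ _ => Finset.mem_univ _)]
  apply Finset.sum_eq_zero
  intro s' _
  by_cases h : t < s' ∧ s' ≤ q ∧ r s' = r t + 2
  · obtain ⟨h1, h2, h3⟩ := h
    obtain ⟨u, u', hne, hu⟩ := hG.thin t s' h1 h3
    have hf : A.filter (fun p => p.2 = s') = {⟨u, s'⟩, ⟨u', s'⟩} := by
      ext ⟨a, b⟩
      rw [Finset.mem_filter, hA, Finset.mem_sigma, Finset.mem_filter, Finset.mem_filter,
        Finset.mem_insert, Finset.mem_singleton]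
      constructor
      · rintro ⟨⟨⟨-, a1, a2, a3⟩, -, b1, b2, b3⟩, h4⟩
        simp only at h4 b1
        subst h4
        rcases (hu a).1 ⟨a1, b1⟩ with h5 | h5
        · left; rw [h5]
        · right; rw [h5]
      · intro h4
        have h5 : (a = u ∨ a = u') ∧ b = s' := by
          rcases h4 with h4 | h4
          · have e1 : a = u := congrArg Sigma.fst h4
            have e2 : b = s' := congrArg (fun p : (_ : P) × P => p.2) h4
            exact ⟨Or.inl e1, e2⟩
          · have e1 : a = u' := congrArg Sigma.fst h4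
            have e2 : b = s' := congrArg (fun p : (_ : P) × P => p.2) h4
            exact ⟨Or.inr e1, e2⟩
        obtain ⟨h6, rfl⟩ := h5
        obtain ⟨h7, h8⟩ := (hu a).2 h6
        have h9 := hG.mono h7
        have h10 := hG.mono h8
        have h11 : r a = r t + 1 := by omega
        have h12 : r b = r a + 1 := by omega
        exact ⟨⟨⟨Finset.mem_univ _, h7, h8.le.trans h2, h11⟩, Finset.mem_univ _, h8, h2, h12⟩, rfl⟩
    rw [hf, Finset.sum_pair (by
      intro h4
      exact hne (congrArg Sigma.fst h4))]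
    exact CharTwo.add_self_eq_zero _
  · have hf : A.filter (fun p => p.2 = s') = ∅ := by
      rw [Finset.filter_eq_empty_iff]
      rintro ⟨a, b⟩ hp h4
      rw [hA, Finset.mem_sigma, Finset.mem_filter, Finset.mem_filter] at hp
      obtain ⟨⟨-, a1, a2, a3⟩, -, b1, b2, b3⟩ := hp
      have h5 : b = s' := h4
      subst h5
      have a1' : t < a := a1
      have a3' : r a = r t + 1 := a3
      have b1' : a < b := b1
      have b3' : r b = r a + 1 := b3
      exact h ⟨a1'.trans b1', b2, by omega⟩
    rw [hf, Finset.sum_empty]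

end dl

end StepAux

open StepAux

/-! ### The double complex -/

section A
variable {P : Type} [Fintype P] [PartialOrder P] {F : Type} [Field F] {r : P → ℕ} {o : P} {x : P → F}

theorem dd_dd [CharP F 2] (x : P → F) (φ : List (St P) → F) (e : List (St P)) : dd x (dd x φ) e = 0 :=
  dd_dd' x φ e

/-- exactness of the complex of closed cells of rank `j` below `q`, restricted to the kernel of `dl` -/
def TT (r : P → ℕ) (x : P → F) (q : P) (m j i : ℕ) : Prop :=
  ∀ φ : P → List (St P) → F,
    (∀ s, s ≤ q → r s = j → ∀ e, Val r s m e → deg e = i + 1 → dd x (φ s) e = 0) →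
    (∀ t, t ≤ q → r t + 1 = j → ∀ e, Val r t m e → deg e = i → dl r q (fun s => φ s e) t = 0) →
    ∃ ψ : P → List (St P) → F,
      (∀ s, s ≤ q → r s = j → ∀ e, Val r s m e → deg e = i → dd x (ψ s) e = φ s e) ∧
      ∀ t, t ≤ q → r t + 1 = j → ∀ e, Val r t m e → deg e + 1 = i → dl r q (fun s => ψ s e) t = 0

namespace StepAux

/-- rows: a family in the kernel of `dl` is in the image of `dl` -/
theorem lift_rows (hG : Gor F r o) {q : P} {m j d : ℕ} (hj : j < r q) (χ : P → List (St P) → F)
    (h : ∀ w, w ≤ q → r w + 1 = j → ∀ e, Val r w m e → deg e = d → dl r q (fun t => χ t e) w = 0) :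
    ∃ ω : P → List (St P) → F, ∀ t, t ≤ q → r t = j → ∀ e, Val r t m e → deg e = d →
      dl r q (fun s => ω s e) t = χ t e := by
  classical
  have key : ∀ e : List (St P), ∃ g : P → F, Val r q m e → deg e = d → top o e < q →
      ∀ s, top o e ≤ s → s ≤ q → r s = j → dl r q g s = χ s e := by
    intro e
    by_cases hv : Val r q m e ∧ deg e = d ∧ top o e < q
    · obtain ⟨h1, h2, h3⟩ := hv
      obtain ⟨g, hg⟩ := hG.rows (top o e) q h3 j (fun s => χ s e) (by
        intro t ht1 ht2 ht3
        exact h t ht2 ht3 e (Val_of_top h1 ht1) h2)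
      exact ⟨g, fun _ _ _ => hg⟩
    · exact ⟨fun _ => 0, fun h1 h2 h3 => (hv ⟨h1, h2, h3⟩).elim⟩
  choose g hg using key
  refine ⟨fun s e => g e s, ?_⟩
  intro t ht htj e hv hd
  have h1 : top o e ≤ t := top_le hG.bot hv
  have h2 : t < q := lt_of_le_of_ne ht (by rintro rfl; omega)
  exact hg e (Val_mono ht hv) hd (lt_of_le_of_lt h1 h2) t h1 ht htj

/-- correction of a family of primitives by a coboundary -/
theorem correct [CharP F 2] (hG : Gor F r o) {q : P} {m j i : ℕ} (hj : j < r q)
    (η χ : P → List (St P) → F)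
    (h1 : ∀ t, t ≤ q → r t = j → ∀ e, Val r t m e → deg e = i →
      dd x (χ t) e = dl r q (fun s => η s e) t)
    (h2 : ∀ w, w ≤ q → r w + 1 = j → ∀ e, Val r w m e → deg e + 1 = i →
      dl r q (fun t => χ t e) w = 0) :
    ∃ η' : P → List (St P) → F, (∀ s e, dd x (η' s) e = dd x (η s) e) ∧
      ∀ t, t ≤ q → r t = j → ∀ e, Val r t m e → deg e = i → dl r q (fun s => η' s e) t = 0 := by
  rcases Nat.eq_zero_or_pos i with hi | hi
  · -- degree zero: the left side of `h1` is zero
    refine ⟨η, fun _ _ => rfl, ?_⟩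
    intro t ht htj e hv hd
    rw [← h1 t ht htj e hv hd]
    have : dd x (χ t) e = dd x (fun _ => (0 : F)) e := dd_congr x hv (by
      intro e' _ h3
      omega)
    rw [this, dd_zero]
  · obtain ⟨ω, hω⟩ := lift_rows (d := i - 1) hG hj χ (by
      intro w hw hwj e hv hd
      exact h2 w hw hwj e hv (by omega))
    refine ⟨fun s e => η s e - dd x (ω s) e, ?_, ?_⟩
    · intro s e
      rw [dd_sub]
      have : dd x (fun e => dd x (ω s) e) e = 0 := dd_dd x (ω s) e
      rw [this, sub_zero]
    · intro t ht htj e hv hd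
      rw [dl_sub, ← h1 t ht htj e hv hd, ← dd_dl x ω e]
      have : dd x (fun e' => dl r q (fun s => ω s e') t) e = dd x (χ t) e := dd_congr x hv (by
        intro e' hv' hd'
        exact hω t ht htj e' hv' (by omega))
      rw [this, sub_self]

/-- a family of primitives of a family in the kernel of `dl` can be chosen in the kernel of `dl` -/
theorem adjust [CharP F 2] (hG : Gor F r o) {q : P} {m j i : ℕ} (hj : j ≤ r q)
    (hT : ∀ j' i', j' + 1 = j → i' + 1 = i → TT r x q m j' i') (φ ψ : P → List (St P) → F)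
    (h1 : ∀ s, s ≤ q → r s = j → ∀ e, Val r s m e → deg e = i → dd x (ψ s) e = φ s e)
    (h2 : ∀ t, t ≤ q → r t + 1 = j → ∀ e, Val r t m e → deg e = i → dl r q (fun s => φ s e) t = 0) :
    ∃ ψ' : P → List (St P) → F,
      (∀ s, s ≤ q → r s = j → ∀ e, Val r s m e → deg e = i → dd x (ψ' s) e = φ s e) ∧
      ∀ t, t ≤ q → r t + 1 = j → ∀ e, Val r t m e → deg e + 1 = i → dl r q (fun s => ψ' s e) t = 0 := by
  rcases Nat.eq_zero_or_pos i with hi | hi
  · exact ⟨ψ, h1, fun t _ _ e _ hd => by omega⟩
  rcases Nat.eq_zero_or_pos j with hj0 | hj0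
  · exact ⟨ψ, h1, fun t _ ht e _ _ => by omega⟩
  obtain ⟨i', rfl⟩ : ∃ i', i = i' + 1 := ⟨i - 1, by omega⟩
  obtain ⟨j', rfl⟩ : ∃ j', j = j' + 1 := ⟨j - 1, by omega⟩
  obtain ⟨χ, hχ1, hχ2⟩ := hT j' i' rfl rfl (fun t e => dl r q (fun s => ψ s e) t)
    (by
      intro t ht htj e hv hd
      rw [dd_dl]
      rw [dl_congr (g := fun s => φ s e) (by
        intro s hs1 hs2 hs3
        exact h1 s hs2 (by omega) e (Val_mono hs1.le hv) hd)]
      exact h2 t ht (by omega) e hv hd)
    (by
      intro w hw hwj e hv hd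
      exact dl_dl hG (fun s => ψ s e))
  obtain ⟨ψ', h3, h4⟩ := correct (x := x) (j := j') (i := i') hG (by omega) ψ χ
    (fun t ht htj e hv hd => hχ1 t ht htj e hv hd) hχ2
  refine ⟨ψ', ?_, ?_⟩
  · intro s hs hsj e hv hd
    rw [h3, h1 s hs hsj e hv hd]
  · intro t ht htj e hv hd
    exact h4 t ht (by omega) e hv (by omega)

/-- existence of coatoms -/
theorem exists_coatom (hG : Gor F r o) {p q : P} {N : ℕ} (hpq : p < q) (hN : r q = N + 1) :
    ∃ s, p ≤ s ∧ s ≤ q ∧ r s = N := by
  classical
  by_contra hcon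
  push Not at hcon
  obtain ⟨g, hg⟩ := hG.rows p q hpq (r q) (fun _ => 1) (by
    intro t h1 h2 h3
    exact (hcon t h1 h2 (by omega)).elim)
  have h1 := hg q hpq.le le_rfl rfl
  unfold dl at h1
  rw [Finset.sum_eq_zero] at h1
  · exact zero_ne_one h1
  · intro s hs
    rw [Finset.mem_filter] at hs
    exact (lt_irrefl _ (lt_of_lt_of_le hs.2.1 hs.2.2.1)).elim

/-- from the facets to the cell -/
theorem descend (hG : Gor F r o) {q : P} {m N i : ℕ} (hm : 2 * m ≤ r q) (hN : r q = N + 1)
    (φ : List (St P) → F) (ψ : P → List (St P) → F)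
    (h1 : ∀ s, s ≤ q → r s = N → ∀ e, Val r s m e → deg e = i → dd x (ψ s) e = φ e)
    (h2 : ∀ t, t ≤ q → r t + 1 = N → ∀ e, Val r t m e → deg e + 1 = i → dl r q (fun s => ψ s e) t = 0) :
    Cob r x q m i φ := by
  classical
  have htop : ∀ e, Val r q m e → top o e < q := by
    intro e hv
    have h3 := top_le hG.bot hv
    have h4 := r_top hG.r0 hv
    exact lt_of_le_of_ne h3 (by
      intro h5
      rw [h5] at h4
      omega)
  have hcoat : ∀ e, Val r q m e → ∃ s, s ≤ q ∧ r s = N ∧ Val r s m e := by
    intro e hv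
    obtain ⟨s, h3, h4, h5⟩ := exists_coatom hG (htop e hv) hN
    exact ⟨s, h4, h5, Val_of_top hv h3⟩
  rcases Nat.eq_zero_or_pos i with hi | hi
  · -- degree zero
    refine ⟨fun _ => 0, ?_⟩
    intro e hv hd
    obtain ⟨s, h3, h4, h5⟩ := hcoat e hv
    rw [dd_zero, ← h1 s h3 h4 e h5 hd]
    have : dd x (ψ s) e = dd x (fun _ => (0 : F)) e := dd_congr x h5 (by
      intro e' _ h6
      omega)
    rw [this, dd_zero]
  obtain ⟨ω, hω⟩ := lift_rows (m := m) (d := i - 1) hG (by omega : N < r q) ψ (by
    intro w hw hwj e hv hd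
    exact h2 w hw hwj e hv (by omega))
  refine ⟨fun e => ω q e, ?_⟩
  intro e hv hd
  obtain ⟨s, h3, h4, h5⟩ := hcoat e hv
  rw [← h1 s h3 h4 e h5 hd]
  apply dd_congr x h5
  intro e' hv' hd'
  have h6 := hω s h3 h4 e' hv' (by omega)
  rw [← h6]
  unfold dl
  have h7 : Finset.univ.filter (fun s' => s < s' ∧ s' ≤ q ∧ r s' = r s + 1) = {q} := by
    ext s'
    rw [Finset.mem_filter, Finset.mem_singleton]
    constructor
    · rintro ⟨-, a1, a2, a3⟩
      by_contra hne
      have := hG.mono (lt_of_le_of_ne a2 hne)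
      omega
    · rintro rfl
      exact ⟨Finset.mem_univ _, lt_of_le_of_ne h3 (by rintro rfl; omega), le_rfl, by omega⟩
  rw [h7, Finset.sum_singleton]

end StepAux

/-- (A1a) dimension shifting -/
theorem TT_of [CharP F 2] (hG : Gor F r o) {q : P} {m j i : ℕ} (hj : j < r q) (hE : ∀ s, s ≤ q → r s = j → Ex r x s m i)
    (hT : ∀ j' i', j' + 1 = j → i' + 1 = i → TT r x q m j' i') : TT r x q m j i := by
  classical
  intro φ h1 h2
  have key : ∀ s, ∃ ψ : List (St P) → F, s ≤ q → r s = j → ∀ e, Val r s m e → deg e = i →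
      dd x ψ e = φ s e := by
    intro s
    by_cases hs : s ≤ q ∧ r s = j
    · obtain ⟨ψ, hψ⟩ := hE s hs.1 hs.2 (φ s) (h1 s hs.1 hs.2)
      exact ⟨ψ, fun _ _ => hψ⟩
    · exact ⟨fun _ => 0, fun h3 h4 => (hs ⟨h3, h4⟩).elim⟩
  choose ψ hψ using key
  exact adjust hG hj.le hT φ ψ hψ h2

/-- (A1b) -/
theorem ex_of_TT [CharP F 2] (hG : Gor F r o) {q : P} {m N i : ℕ} (hm : 2 * m ≤ r q) (hN : r q = N + 1)
    (hT : TT r x q m N i) : Ex r x q m i := by
  intro φ hφ
  obtain ⟨ψ, h1, h2⟩ := hT (fun _ => φ)
    (fun s hs _ e hv hd => hφ e (Val_mono hs hv) hd)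
    (fun t ht htj e hv hd => dl_const hG ht (by omega) _)
  exact descend hG hm hN φ ψ h1 h2

/-- (A1c) a cochain which is a coboundary on all facets -/
theorem cob_of_restr [CharP F 2] (hG : Gor F r o) {q : P} {m N i : ℕ} (hm : 2 * m ≤ r q) (hN : r q = N + 1)
    (hT : ∀ j' i', j' + 1 = N → i' + 1 = i → TT r x q m j' i') {φ : List (St P) → F}
    (h : ∀ s, s ≤ q → r s = N → Cob r x s m i φ) : Cob r x q m i φ := by
  classical
  have key : ∀ s, ∃ ψ : List (St P) → F, s ≤ q → r s = N → ∀ e, Val r s m e → deg e = i →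
      dd x ψ e = φ e := by
    intro s
    by_cases hs : s ≤ q ∧ r s = N
    · obtain ⟨ψ, hψ⟩ := h s hs.1 hs.2
      exact ⟨ψ, fun _ _ => hψ⟩
    · exact ⟨fun _ => 0, fun h3 h4 => (hs ⟨h3, h4⟩).elim⟩
  choose ψ hψ using key
  obtain ⟨ψ', h1, h2⟩ := adjust hG (by omega : N ≤ r q) hT (fun _ => φ) ψ hψ
    (fun t ht htj e hv hd => dl_const hG ht (by omega) _)
  exact descend hG hm hN φ ψ' h1 h2

/-- (A1d) a cochain which is a coboundary `dd η_y` on all facets `y`, with gluing obstructions which are coboundaries -/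
theorem cob_of_glue [CharP F 2] (hG : Gor F r o) {q : P} {m N i : ℕ} (hm : 2 * m ≤ r q) (hN : r q = N + 2)
    (hT : ∀ j' i', j' + 1 = N → i' + 1 = i → TT r x q m j' i') {φ : List (St P) → F} (η : P → List (St P) → F)
    (h : ∀ y, y ≤ q → r y = N + 1 → ∀ e, Val r y m e → deg e = i + 1 → dd x (η y) e = φ e)
    (hu : ∀ u, u ≤ q → r u = N → Cob r x u m i (fun e => dl r q (fun y => η y e) u)) : Cob r x q m (i + 1) φ := by
  classical
  have key : ∀ u, ∃ χ : List (St P) → F, u ≤ q → r u = N → ∀ e, Val r u m e → deg e = i →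
      dd x χ e = dl r q (fun y => η y e) u := by
    intro s
    by_cases hs : s ≤ q ∧ r s = N
    · obtain ⟨ψ, hψ⟩ := hu s hs.1 hs.2
      exact ⟨ψ, fun _ _ => hψ⟩
    · exact ⟨fun _ => 0, fun h3 h4 => (hs ⟨h3, h4⟩).elim⟩
  choose χ hχ using key
  obtain ⟨χ', h1, h2⟩ := adjust hG (by omega : N ≤ r q) hT (fun u e => dl r q (fun y => η y e) u) χ hχ
    (fun t ht htj e hv hd => dl_dl hG (fun y => η y e))
  obtain ⟨η', h3, h4⟩ := correct (x := x) hG (by omega : N < r q) η χ' h1 h2
  refine descend hG hm (N := N + 1) (by omega) φ η' ?_ ?_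
  · intro s hs hsj e hv hd
    rw [h3]
    exact h s hs hsj e hv hd
  · intro t ht htj e hv hd
    exact h4 t ht (by omega) e hv (by omega)

end A

end Ord
end Singer
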